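import Pool.Agent.MP_2042ac_al.Sp
import Mathlib

-- part MP_2042ac_al.Tor
section

/-!
Cocharacters of the diagonal torus, weights of matrices, the `SL_2` identity, the monoid generated
by the simple root subgroups.
-/

set_option autoImplicit false

namespace Pool.Agent.MP_2042ac_al

open Matrix

def wt (ν : Fin 4 → ℤ) : Idx → ℤ := Sum.elim ν (fun i => -ν i)

/-- simple roots -/
def al : Fin 4 → Fin 4 → ℤ := ![![1, -1, 0, 0], ![0, 1, -1, 0], ![0, 0, 1, -1], ![0, 0, 0, 2]]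
/-- simple coroots -/
def cor : Fin 4 → Fin 4 → ℤ := ![![1, -1, 0, 0], ![0, 1, -1, 0], ![0, 0, 1, -1], ![0, 0, 0, 1]]

variable {k : Type} [Field k]

/-- the cocharacter `ν` at `s` -/
noncomputable def coch (ν : Fin 4 → ℤ) (s : k) : Mat k := diagonal fun a => s ^ wt ν a

theorem coch_transpose (ν : Fin 4 → ℤ) (s : k) : (coch ν s)ᵀ = coch ν s := diagonal_transpose _

theorem coch_mem (ν : Fin 4 → ℤ) {s : k} (hs : s ≠ 0) : coch ν s ∈ SpG k := by
  rw [SymplecticGroup.mem_iff, coch_transpose]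
  ext a b
  rw [coch, mul_diagonal, diagonal_mul]
  rcases a with a | a <;> rcases b with b | b <;> simp [J, wt, one_apply]
  · by_cases h : a = b
    · subst h; simp [zpow_ne_zero _ hs]
    · simp [h]
  · by_cases h : a = b
    · subst h; simp [zpow_ne_zero _ hs]
    · simp [h]

theorem coch_add (ν ν' : Fin 4 → ℤ) {s : k} (hs : s ≠ 0) :
    coch (ν + ν') s = coch ν s * coch ν' s := by
  rw [coch, coch, coch, diagonal_mul_diagonal]
  congr 1
  funext a
  rw [← zpow_add₀ hs]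
  rcases a with a | a <;> simp [wt, add_comm]

theorem coch_mul_inv (ν : Fin 4 → ℤ) {s : k} (hs : s ≠ 0) : coch ν s * coch ν s⁻¹ = 1 := by
  rw [coch, coch, diagonal_mul_diagonal, ← diagonal_one]
  congr 1
  funext a
  rw [← mul_zpow, mul_inv_cancel₀ hs, _root_.one_zpow]

/-- `x` is a weight vector of weight `α` for the adjoint action -/
def HasWt (α : Fin 4 → ℤ) (x : Mat k) : Prop :=
  ∀ (ν : Fin 4 → ℤ) (s : k), s ≠ 0 → coch ν s * x = s ^ (ν ⬝ᵥ α) • (x * coch ν s)

def epsv (a : Idx) : Fin 4 → ℤ :=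
  Sum.elim (fun i => Pi.single i 1) (fun i => -Pi.single i 1) a

theorem wt_eq (ν : Fin 4 → ℤ) (a : Idx) : wt ν a = ν ⬝ᵥ epsv a := by
  rcases a with a | a <;> simp [wt, epsv]

theorem hasWt_cst (α : Fin 4 → ℤ) (x : Mat ℤ) (h : ∀ a b, x a b ≠ 0 → epsv a = α + epsv b) :
    HasWt α (cst k x) := by
  intro ν s hs
  ext a b
  rw [coch, Matrix.smul_apply, diagonal_mul, mul_diagonal, cst_apply]
  by_cases hx : x a b = 0
  · simp [hx]
  · rw [wt_eq, wt_eq, h a b hx, dotProduct_add, zpow_add₀ hs, smul_eq_mul]; ring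

theorem ee_wt (i : Fin 4) : HasWt (al i) (ee k i) :=
  hasWt_cst _ _ (by revert i; decide +kernel)

theorem ff_wt (i : Fin 4) : HasWt (-al i) (ff k i) :=
  hasWt_cst _ _ (by revert i; decide +kernel)

/-- the cocharacter used for the vanishing of the obstruction -/
def nu0 : Fin 4 → ℤ := ![0, 1, 0, -1]

theorem nu0_eq : nu0 = cor 1 + cor 2 := by decide

theorem wt_nu0_bound : ∀ a b, wt nu0 a - wt nu0 b ∈ Finset.Icc (-2 : ℤ) 2 := by decide

theorem sp_decomp {x : Mat k} (hx : IsSp x) : ∃ c : ℤ → Mat k, (∀ j, IsSp (c j)) ∧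
    (∀ j (s : k), s ≠ 0 → coch nu0 s * c j = s ^ j • (c j * coch nu0 s)) ∧
    x = ∑ j ∈ Finset.Icc (-2 : ℤ) 2, c j := by
  refine ⟨fun j => of fun a b => if wt nu0 a - wt nu0 b = j then x a b else 0, fun j => ?_,
    fun j s hs => ?_, ?_⟩
  · obtain ⟨h1, h2, h3⟩ := isSp_iff.mp hx
    refine isSp_iff.mpr ⟨fun a b => ?_, fun a b => ?_, fun a b => ?_⟩
    · simp only [of_apply, wt, Sum.elim_inl, Sum.elim_inr, h1]
      split_ifs <;> first | rfl | omega | simp
    · simp only [of_apply, wt, Sum.elim_inl, Sum.elim_inr, h2 a b]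
      split_ifs <;> first | rfl | omega
    · simp only [of_apply, wt, Sum.elim_inl, Sum.elim_inr, h3 a b]
      split_ifs <;> first | rfl | omega
  · ext a b
    rw [coch, Matrix.smul_apply, diagonal_mul, mul_diagonal]
    simp only [of_apply]
    split_ifs with h
    · rw [← h, zpow_sub₀ hs, smul_eq_mul]; field_simp
    · simp
  · ext a b
    simp only [Matrix.sum_apply, of_apply, Finset.sum_ite_eq, wt_nu0_bound, if_true]

theorem efe : ∀ i, eZ i * fZ i * eZ i = eZ i := by decide +kernel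
theorem fef : ∀ i, fZ i * eZ i * fZ i = fZ i := by decide +kernel
theorem ef_diag : ∀ i a b, (eZ i * fZ i) a b = if a = b ∧ wt (cor i) a = 1 then 1 else 0 := by
  decide +kernel
theorem fe_diag : ∀ i a b, (fZ i * eZ i) a b = if a = b ∧ wt (cor i) a = -1 then 1 else 0 := by
  decide +kernel
theorem wt_cor : ∀ i a, wt (cor i) a = 0 ∨ wt (cor i) a = 1 ∨ wt (cor i) a = -1 := by decide
theorem ef_comm : ∀ i j, i ≠ j → eZ i * fZ j = fZ j * eZ i := by decide +kernel

theorem ee_ff_comm {R : Type} [CommRing R] {i j : Fin 4} (h : i ≠ j) :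
    ee R i * ff R j = ff R j * ee R i := by
  rw [ee, ff, ← map_mul, ← map_mul, ef_comm i j h]

theorem coch_cor (i : Fin 4) (u : k) :
    coch (cor i) u = 1 + (u - 1) • (ee k i * ff k i) + (u⁻¹ - 1) • (ff k i * ee k i) := by
  ext a b
  rw [ee, ff, ← map_mul, ← map_mul]
  simp only [Matrix.add_apply, Matrix.smul_apply, cst_apply, ef_diag, fe_diag, coch,
    diagonal_apply, one_apply]
  by_cases h : a = b
  · subst h
    rcases wt_cor i a with h | h | h <;> simp [h]
  · simp [h]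

theorem sl2_id (i : Fin 4) (s t : k) (hu : 1 + s * t ≠ 0) :
    (1 + s • ee k i) * (1 + t • ff k i) =
      (1 + (t / (1 + s * t)) • ff k i) * coch (cor i) (1 + s * t) *
        (1 + (s / (1 + s * t)) • ee k i) := by
  have h1 : ee k i * ff k i * ee k i = ee k i := by rw [ee, ff, ← map_mul, ← map_mul, efe]
  have h2 : ff k i * ee k i * ff k i = ff k i := by rw [ee, ff, ← map_mul, ← map_mul, fef]
  have h3 := ee_sq k i
  have h4 := ff_sq k i
  rw [coch_cor]
  generalize ee k i = e at *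
  generalize ff k i = f at *
  have h5 : f * (e * f) = f := by rw [← mul_assoc, h2]
  have h6 : f * (f * e) = 0 := by rw [← mul_assoc, h4, zero_mul]
  have h7 : f * e * e = 0 := by rw [mul_assoc, h3, mul_zero]
  have hu' : 1 + t * s ≠ 0 := by rwa [mul_comm]
  have a1 : (1 + (t / (1 + s * t)) • f) *
      (1 + (1 + s * t - 1) • (e * f) + ((1 + s * t)⁻¹ - 1) • (f * e))
      = 1 + (1 + s * t - 1) • (e * f) + ((1 + s * t)⁻¹ - 1) • (f * e) + t • f := by
    simp only [add_mul, mul_add, one_mul, mul_one, smul_mul_assoc, mul_smul_comm, h5, h6,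
      smul_zero, add_zero]
    match_scalars <;> field_simp <;> ring
  rw [a1]
  simp only [add_mul, mul_add, one_mul, mul_one, smul_mul_assoc, mul_smul_comm, h1, h7,
    smul_zero, add_zero]
  match_scalars <;> field_simp <;> ring

variable (k) in
/-- the monoid generated by the simple root subgroups -/
def HH : Submonoid (Mat k) :=
  Submonoid.closure {g | ∃ (i : Fin 4) (s : k), g = 1 + s • ee k i ∨ g = 1 + s • ff k i}

theorem ee_mem_HH (i : Fin 4) (s : k) : 1 + s • ee k i ∈ HH k :=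
  Submonoid.subset_closure ⟨i, s, Or.inl rfl⟩

theorem ff_mem_HH (i : Fin 4) (s : k) : 1 + s • ff k i ∈ HH k :=
  Submonoid.subset_closure ⟨i, s, Or.inr rfl⟩

theorem HH_induction {P : Mat k → Prop} (h1 : P 1)
    (hmul : ∀ a b, a ∈ HH k → b ∈ HH k → P a → P b → P (a * b))
    (hE : ∀ i (s : k), P (1 + s • ee k i)) (hF : ∀ i (s : k), P (1 + s • ff k i))
    {g : Mat k} (hg : g ∈ HH k) : P g := by
  induction hg using Submonoid.closure_induction with
  | mem x hx => obtain ⟨i, s, rfl | rfl⟩ := hx; exacts [hE i s, hF i s]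
  | one => exact h1
  | mul a b ha hb iha ihb => exact hmul a b ha hb iha ihb

theorem HH_le {g : Mat k} (hg : g ∈ HH k) : g ∈ SpG k :=
  HH_induction (one_mem _) (fun _ _ _ _ => mul_mem)
    (fun i s => (ee_sp k i).one_add_smul_mem (ee_sq k i) s)
    (fun i s => (ff_sp k i).one_add_smul_mem (ff_sq k i) s) hg

theorem HH_transpose {g : Mat k} (hg : g ∈ HH k) : gᵀ ∈ HH k :=
  HH_induction (P := fun g => gᵀ ∈ HH k) (by rw [transpose_one]; exact one_mem _)
    (fun a b _ _ ha hb => by rw [transpose_mul]; exact mul_mem hb ha)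
    (fun i s => by
      rw [transpose_add, transpose_one, transpose_smul, ee_transpose]; exact ff_mem_HH i s)
    (fun i s => by
      rw [transpose_add, transpose_one, transpose_smul, ff_transpose]; exact ee_mem_HH i s) hg

theorem one_add_mul_neg {R : Type} [CommRing R] {x : Mat R} (hx : x * x = 0) (s : R) :
    (1 + s • x) * (1 + (-s) • x) = 1 := by
  simp only [add_mul, mul_add, one_mul, mul_one, smul_mul_assoc, mul_smul_comm, hx, smul_zero]
  simp

theorem one_add_mul_one_add {R : Type} [CommRing R] {x : Mat R} (hx : x * x = 0) (s t : R) :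
    (1 + s • x) * (1 + t • x) = 1 + (s + t) • x := by
  simp only [add_mul, mul_add, one_mul, mul_one, smul_mul_assoc, mul_smul_comm, hx, smul_zero,
    add_smul]
  abel

theorem coch_cor_mem_HH (i : Fin 4) {u : k} (hu : u ≠ 0) : coch (cor i) u ∈ HH k := by
  have h := sl2_id i 1 (u - 1) (by simpa using hu)
  have e1 : (1 : k) + 1 * (u - 1) = u := by ring
  rw [e1] at h
  have h2 : coch (cor i) u = (1 + (-((u - 1) / u)) • ff k i) *
      ((1 + (1 : k) • ee k i) * (1 + (u - 1) • ff k i)) * (1 + (-(1 / u)) • ee k i) := by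
    rw [h, ← mul_assoc, ← mul_assoc, one_add_mul_one_add (ff_sq k i), mul_assoc _ _ (1 + _),
      one_add_mul_neg (ee_sq k i)]
    simp
  rw [h2]
  exact mul_mem (mul_mem (ff_mem_HH _ _) (mul_mem (ee_mem_HH _ _) (ff_mem_HH _ _))) (ee_mem_HH _ _)

theorem coch_nu0_mem_HH {u : k} (hu : u ≠ 0) : coch nu0 u ∈ HH k := by
  rw [nu0_eq, coch_add _ _ hu]
  exact mul_mem (coch_cor_mem_HH _ hu) (coch_cor_mem_HH _ hu)

theorem exists_large_order [Infinite k] (N : ℕ) :
    ∃ s : k, s ≠ 0 ∧ ∀ w : ℕ, 1 ≤ w → w ≤ N → s ^ w ≠ 1 := by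
  classical
  let p : Polynomial k := Polynomial.X * ∏ w ∈ Finset.Icc 1 N, (Polynomial.X ^ w - 1)
  have hp : p ≠ 0 := by
    refine mul_ne_zero Polynomial.X_ne_zero (Finset.prod_ne_zero_iff.mpr fun w hw => ?_)
    have := Polynomial.X_pow_sub_C_ne_zero (R := k) (n := w) (by simp at hw; omega) 1
    simpa using this
  obtain ⟨s, hs⟩ := Infinite.exists_notMem_finset p.roots.toFinset
  rw [Multiset.mem_toFinset, Polynomial.mem_roots hp, Polynomial.IsRoot] at hs
  simp only [p, Polynomial.eval_mul, Polynomial.eval_X, Polynomial.eval_prod, Polynomial.eval_sub,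
    Polynomial.eval_pow, Polynomial.eval_one, mul_eq_zero, not_or, Finset.prod_eq_zero_iff] at hs
  exact ⟨s, hs.1, fun w h1 h2 h => hs.2 ⟨w, by simp [h1, h2], by rw [h, sub_self]⟩⟩

end Pool.Agent.MP_2042ac_al

end

-- part MP_2042ac_al.Exp
section

/-!
Polynomial functions of one variable with values in a vector space: coefficient extraction.
-/

set_option autoImplicit false

namespace Pool.Agent.MP_2042ac_al

open Finset

variable {k : Type} [Field k] {W W' W'' : Type} [AddCommGroup W] [Module k W]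
  [AddCommGroup W'] [Module k W'] [AddCommGroup W''] [Module k W'']

/-- `f s = ∑ s ^ n • a n`, a finite sum -/
def HasExp (f : k → W) (a : ℕ → W) : Prop :=
  ∃ N, (∀ n, N ≤ n → a n = 0) ∧ ∀ s, f s = ∑ n ∈ range N, s ^ n • a n

/-- the basic extraction principle -/
theorem extract {ι : Type} (S : Finset ι) (e : ι → ℕ) (v : ι → W) (U : Set k) (hU : U.Infinite)
    (h : ∀ c ∈ U, ∑ i ∈ S, c ^ e i • v i = 0) (n : ℕ) :
    ∑ i ∈ S with e i = n, v i = 0 := by
  classical
  rw [← Module.forall_dual_apply_eq_zero_iff k]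
  intro l
  let p : Polynomial k := ∑ i ∈ S, Polynomial.monomial (e i) (l (v i))
  have hp : p = 0 := by
    apply Polynomial.eq_zero_of_infinite_isRoot
    refine hU.mono fun c hc => ?_
    have := congrArg l (h c hc)
    simp only [map_sum, map_smul, smul_eq_mul, map_zero] at this
    simp only [Set.mem_ofPred_eq, Polynomial.IsRoot, p, Polynomial.eval_finsetSum,
      Polynomial.eval_monomial]
    rw [← this]
    exact Finset.sum_congr rfl fun i _ => mul_comm _ _
  have := congrArg (fun q => Polynomial.coeff q n) hp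
  simp only [p, Polynomial.finsetSum_coeff, Polynomial.coeff_monomial, Polynomial.coeff_zero]
    at this
  rw [map_sum, Finset.sum_filter, this]

/-- extraction with integer exponents -/
theorem extract_int [Infinite k] {ι : Type} (S : Finset ι) (e : ι → ℤ) (v : ι → W)
    (h : ∀ c : k, c ≠ 0 → ∑ i ∈ S, c ^ e i • v i = 0) (n : ℤ) :
    ∑ i ∈ S with e i = n, v i = 0 := by
  classical
  obtain ⟨K, hK, hn⟩ : ∃ K : ℕ, (∀ i ∈ S, 0 ≤ e i + K) ∧ 0 ≤ n + K := by
    refine ⟨(∑ i ∈ S, (e i).natAbs) + n.natAbs, fun i hi => ?_, ?_⟩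
    · have := Finset.single_le_sum (f := fun i => (e i).natAbs) (fun _ _ => Nat.zero_le _) hi
      omega
    · omega
  have hU : ({0}ᶜ : Set k).Infinite := (Set.finite_singleton 0).infinite_compl
  have := extract S (fun i => (e i + K).toNat) v _ hU (fun c hc => ?_) (n + K).toNat
  · rw [← this]
    refine Finset.sum_congr ?_ fun _ _ => rfl
    ext i
    simp only [mem_filter, and_congr_right_iff]
    intro hi
    have := hK i hi
    omega
  · have hc' : c ≠ 0 := hc
    have h2 := congrArg (fun w => c ^ (K : ℤ) • w) (h c hc')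
    simp only [Finset.smul_sum, smul_smul, smul_zero] at h2
    rw [← h2]
    refine Finset.sum_congr rfl fun i hi => ?_
    rw [← zpow_natCast, Int.toNat_of_nonneg (hK i hi), zpow_add₀ hc', mul_comm]

namespace HasExp

theorem eq_sum {f : k → W} {a : ℕ → W} (h : HasExp f a) :
    ∃ N, ∀ M, N ≤ M → (∀ n, M ≤ n → a n = 0) ∧ ∀ s, f s = ∑ n ∈ range M, s ^ n • a n := by
  obtain ⟨N, h1, h2⟩ := h
  refine ⟨N, fun M hM => ⟨fun n hn => h1 n (hM.trans hn), fun s => ?_⟩⟩
  rw [h2]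
  refine Finset.sum_subset (range_subset_range.mpr hM) fun n _ hn => ?_
  rw [h1 n (by simpa using hn), smul_zero]

theorem congr {f g : k → W} {a b : ℕ → W} (h : HasExp f a) (h1 : ∀ s, f s = g s)
    (h2 : ∀ n, a n = b n) : HasExp g b := by
  rwa [← funext h1, ← funext h2]

theorem add {f g : k → W} {a b : ℕ → W} (h : HasExp f a) (h' : HasExp g b) :
    HasExp (fun s => f s + g s) (fun n => a n + b n) := by
  obtain ⟨N, hN⟩ := h.eq_sum
  obtain ⟨N', hN'⟩ := h'.eq_sum
  obtain ⟨a1, a2⟩ := hN (N + N') (by omega)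
  obtain ⟨b1, b2⟩ := hN' (N + N') (by omega)
  exact ⟨N + N', fun n hn => by simp [a1 n hn, b1 n hn], fun s => by
    simp [a2, b2, Finset.sum_add_distrib]⟩

theorem map {f : k → W} {a : ℕ → W} (h : HasExp f a) (l : W →ₗ[k] W') :
    HasExp (fun s => l (f s)) (fun n => l (a n)) := by
  obtain ⟨N, h1, h2⟩ := h
  exact ⟨N, fun n hn => by simp [h1 n hn], fun s => by simp [h2]⟩

theorem neg {f : k → W} {a : ℕ → W} (h : HasExp f a) :
    HasExp (fun s => -f s) (fun n => -a n) := h.map (-LinearMap.id)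

theorem sub {f g : k → W} {a b : ℕ → W} (h : HasExp f a) (h' : HasExp g b) :
    HasExp (fun s => f s - g s) (fun n => a n - b n) := by
  simpa only [sub_eq_add_neg] using h.add h'.neg

theorem smul {f : k → W} {a : ℕ → W} (h : HasExp f a) (c : k) :
    HasExp (fun s => c • f s) (fun n => c • a n) := h.map (c • LinearMap.id)

theorem const (w : W) : HasExp (fun _ : k => w) (fun n => if n = 0 then w else 0) :=
  ⟨1, fun n hn => if_neg (by omega), fun s => by simp⟩

theorem zero : HasExp (fun _ : k => (0 : W)) (fun _ => 0) :=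
  ⟨0, fun _ _ => rfl, fun s => by simp⟩

theorem scale {f : k → W} {a : ℕ → W} (h : HasExp f a) (c : k) :
    HasExp (fun s => f (s * c)) (fun n => c ^ n • a n) := by
  obtain ⟨N, h1, h2⟩ := h
  exact ⟨N, fun n hn => by simp [h1 n hn], fun s => by simp [h2, mul_pow, smul_smul]⟩

theorem eq_zero_of_infinite {f : k → W} {a : ℕ → W} (h : HasExp f a) (U : Set k)
    (hU : U.Infinite) (hf : ∀ s ∈ U, f s = 0) (n : ℕ) : a n = 0 := by
  obtain ⟨N, h1, h2⟩ := h
  by_cases hn : N ≤ n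
  · exact h1 n hn
  have := extract (range N) (fun i => i) a U hU (fun c hc => by rw [← hf c hc, h2]) n
  rwa [Finset.sum_filter, Finset.sum_eq_single n (fun b _ hb => if_neg hb)
    (fun hh => absurd (by simpa using hh) hn), if_pos (by rfl)] at this

theorem unique_on {f g : k → W} {a b : ℕ → W} (h : HasExp f a) (h' : HasExp g b) (U : Set k)
    (hU : U.Infinite) (hfg : ∀ s ∈ U, f s = g s) (n : ℕ) : a n = b n :=
  sub_eq_zero.mp ((h.sub h').eq_zero_of_infinite U hU (fun s hs => sub_eq_zero.mpr (hfg s hs)) n)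

theorem unique [Infinite k] {f g : k → W} {a b : ℕ → W} (h : HasExp f a) (h' : HasExp g b)
    (hfg : ∀ s, f s = g s) (n : ℕ) : a n = b n :=
  h.unique_on h' Set.univ Set.infinite_univ (fun s _ => hfg s) n

theorem mem [Infinite k] {f : k → W} {a : ℕ → W} (h : HasExp f a) (N : Submodule k W)
    (hf : ∀ s, f s ∈ N) (n : ℕ) : a n ∈ N := by
  have := (h.map N.mkQ).eq_zero_of_infinite Set.univ Set.infinite_univ
    (fun s _ => by simpa using hf s) n
  simpa using this

theorem at_zero {f : k → W} {a : ℕ → W} (h : HasExp f a) : f 0 = a 0 := by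
  obtain ⟨N, hN⟩ := h.eq_sum
  obtain ⟨-, a2⟩ := hN (N + 1) (by omega)
  rw [a2, Finset.sum_range_succ']
  simp

theorem bilin {f : k → W} {g : k → W'} {a : ℕ → W} {b : ℕ → W'} (B : W →ₗ[k] W' →ₗ[k] W'')
    (h : HasExp f a) (h' : HasExp g b) :
    HasExp (fun s => B (f s) (g s)) (fun n => ∑ p ∈ antidiagonal n, B (a p.1) (b p.2)) := by
  obtain ⟨N, a1, a2⟩ := h
  obtain ⟨N', b1, b2⟩ := h'
  have hz : ∀ i j, ¬ (i < N ∧ j < N') → B (a i) (b j) = 0 := by
    intro i j hij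
    by_cases hi : i < N
    · rw [b1 j (by omega), map_zero]
    · rw [a1 i (by omega), map_zero, LinearMap.zero_apply]
  refine ⟨N + N', fun n hn => Finset.sum_eq_zero fun p hp => hz _ _ ?_, fun s => ?_⟩
  · have := mem_antidiagonal.mp hp; omega
  · have e1 : B (f s) (g s) = ∑ p ∈ range N ×ˢ range N', s ^ (p.1 + p.2) • B (a p.1) (b p.2) := by
      rw [a2, b2, Finset.sum_product]
      simp only [map_sum, map_smul, LinearMap.sum_apply, LinearMap.smul_apply, Finset.smul_sum,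
        smul_smul, pow_add]
      rw [Finset.sum_comm]
      exact Finset.sum_congr rfl fun _ _ => Finset.sum_congr rfl fun _ _ => by rw [mul_comm]
    beta_reduce
    rw [e1, ← Finset.sum_fiberwise_of_maps_to (t := range (N + N')) (g := fun p => p.1 + p.2)
      (fun p hp => by simp only [mem_product, mem_range] at hp ⊢; omega)]
    refine Finset.sum_congr rfl fun n _ => ?_
    rw [Finset.smul_sum]
    rw [Finset.sum_subset (s₂ := antidiagonal n) (f := fun p => s ^ (p.1 + p.2) • B (a p.1) (b p.2))]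
    · exact Finset.sum_congr rfl fun p hp => by rw [mem_antidiagonal.mp hp]
    · intro p hp; simp only [mem_filter] at hp; exact mem_antidiagonal.mpr hp.2
    · intro p hp hp'
      rw [hz, smul_zero]
      intro hh
      exact hp' (by simp only [mem_filter, mem_product, mem_range]; exact ⟨hh, mem_antidiagonal.mp hp⟩)

theorem sum {ι : Type} (S : Finset ι) (f : ι → k → W) (a : ι → ℕ → W)
    (h : ∀ i ∈ S, HasExp (f i) (a i)) :
    HasExp (fun s => ∑ i ∈ S, f i s) (fun n => ∑ i ∈ S, a i n) := by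
  classical
  induction S using Finset.induction_on with
  | empty => simpa using zero
  | insert i S hi ih =>
    simp only [Finset.sum_insert hi]
    exact (h i (mem_insert_self _ _)).add (ih fun j hj => h j (mem_insert_of_mem hj))

theorem shift {f : k → W} {a : ℕ → W} (h : HasExp f a) (l : ℕ) :
    HasExp (fun s => s ^ l • f s) (fun n => if l ≤ n then a (n - l) else 0) := by
  obtain ⟨N, h1, h2⟩ := h
  refine ⟨l + N, fun n hn => ?_, fun s => ?_⟩
  · beta_reduce
    rw [if_pos (by omega), h1 _ (by omega)]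
  · beta_reduce
    rw [Finset.sum_range_add, h2, Finset.smul_sum, Finset.sum_eq_zero (s := range l), zero_add]
    · refine Finset.sum_congr rfl fun n _ => ?_
      rw [if_pos (by omega), Nat.add_sub_cancel_left, pow_add, mul_smul]
    · intro n hn
      rw [if_neg (by simpa using hn), smul_zero]

theorem antidiag (n : ℕ) (F : ℕ → ℕ → W) :
    HasExp (fun c : k => ∑ p ∈ antidiagonal n, c ^ p.2 • F p.1 p.2)
      (fun j => if j ≤ n then F (n - j) j else 0) := by
  refine ⟨n + 1, fun j hj => if_neg (by omega), fun s => ?_⟩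
  beta_reduce
  rw [← Finset.Nat.sum_antidiagonal_swap, Finset.Nat.sum_antidiagonal_eq_sum_range_succ_mk]
  refine Finset.sum_congr rfl fun j hj => ?_
  rw [if_pos (by simpa [Nat.lt_succ_iff] using hj)]
  rfl

theorem apply {f : k → W →ₗ[k] W'} {a : ℕ → W →ₗ[k] W'} (h : HasExp f a) (w : W) :
    HasExp (fun s => f s w) (fun n => a n w) := h.map (LinearMap.applyₗ w)

theorem mul {A : Type} [Ring A] [Algebra k A] {f g : k → A} {a b : ℕ → A}
    (h : HasExp f a) (h' : HasExp g b) :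
    HasExp (fun s => f s * g s) (fun n => ∑ p ∈ antidiagonal n, a p.1 * b p.2) :=
  bilin (LinearMap.mul k A) h h'

theorem one_add_pow (m : ℕ) : HasExp (fun s : k => (1 + s) ^ m) (fun n => (m.choose n : k)) :=
  ⟨m + 1, fun n hn => by beta_reduce; rw [Nat.choose_eq_zero_of_lt hn, Nat.cast_zero], fun s => by
    beta_reduce; rw [add_comm 1 s, add_pow]; simp⟩

end HasExp

end Pool.Agent.MP_2042ac_al

end

-- part MP_2042ac_al.Pkg
section

/-!
Restricted `sp_8`-modules (`ResMod`) and modules with compatible actions of `Sp_8(k)`, of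
`sp_8` and of divided powers (`GPkg`).
-/

set_option autoImplicit false

namespace Pool.Agent.MP_2042ac_al

open Matrix

/-- restricted modules over `sp_8` in characteristic three -/
structure ResMod (k : Type) [Field k] (V : Type) [AddCommGroup V] [Module k V] where
  φ : Mat k →ₗ[k] Module.End k V
  lie : ∀ x y, IsSp x → IsSp y → φ (x * y - y * x) = φ x * φ y - φ y * φ x
  res : ∀ x, IsSp x → x * x = 0 → φ x ^ 3 = 0

/-- compatible actions of the group, the Lie algebra and the divided powers -/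
structure GPkg (k : Type) [Field k] (V : Type) [AddCommGroup V] [Module k V]
    extends ResMod k V where
  ρ : Mat k → Module.End k V
  ρ_one : ρ 1 = 1
  ρ_mul : ∀ g h, g ∈ SpG k → h ∈ SpG k → ρ (g * h) = ρ g * ρ h
  ad : ∀ g x y, g ∈ SpG k → IsSp x → IsSp y → g * x = y * g → ρ g * φ x = φ y * ρ g
  Δ : Mat k → ℕ → Module.End k V
  exp : ∀ x, IsSp x → x * x = 0 → HasExp (fun s : k => ρ (1 + s • x)) (Δ x)
  Δ_one : ∀ x, IsSp x → x * x = 0 → Δ x 1 = φ x

variable {k : Type} [Field k] {V W : Type} [AddCommGroup V] [Module k V]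
  [AddCommGroup W] [Module k W]

namespace ResMod

/-- submodules -/
def Stab (A : ResMod k V) (N : Submodule k V) : Prop := ∀ x, IsSp x → ∀ v ∈ N, A.φ x v ∈ N

/-- homomorphisms -/
def Hom (A : ResMod k V) (B : ResMod k W) (f : V →ₗ[k] W) : Prop :=
  ∀ x, IsSp x → ∀ v, f (A.φ x v) = B.φ x (f v)

/-- projectivity among finite-dimensional restricted modules -/
def IsProj (A : ResMod k V) : Prop :=
  ∀ (U U' : Type) [AddCommGroup U] [Module k U] [FiniteDimensional k U]
    [AddCommGroup U'] [Module k U'] [FiniteDimensional k U']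
    (B : ResMod k U) (C : ResMod k U') (p : U →ₗ[k] U') (f : V →ₗ[k] U'),
    B.Hom C p → Function.Surjective p → A.Hom C f → ∃ s : V →ₗ[k] U, A.Hom B s ∧ p ∘ₗ s = f

/-- injectivity among finite-dimensional restricted modules, for submodules `N ≤ N'` -/
def IsInj (A : ResMod k V) : Prop :=
  ∀ (U : Type) [AddCommGroup U] [Module k U] [FiniteDimensional k U] (B : ResMod k U)
    (N N' : Submodule k U) (f : U →ₗ[k] V), B.Stab N → B.Stab N' → N ≤ N' →
    (∀ x, IsSp x → ∀ u ∈ N, f (B.φ x u) = A.φ x (f u)) →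
    ∃ F : U →ₗ[k] V, (∀ x, IsSp x → ∀ u ∈ N', F (B.φ x u) = A.φ x (F u)) ∧ ∀ u ∈ N, F u = f u

theorem lie_apply (A : ResMod k V) {x y : Mat k} (hx : IsSp x) (hy : IsSp y) (v : V) :
    A.φ (x * y - y * x) v = A.φ x (A.φ y v) - A.φ y (A.φ x v) := by
  rw [A.lie x y hx hy]; rfl

theorem res_apply (A : ResMod k V) {x : Mat k} (hx : IsSp x) (h : x * x = 0) (v : V) :
    A.φ x (A.φ x (A.φ x v)) = 0 := by
  have := LinearMap.congr_fun (A.res x hx h) v
  simpa [pow_succ] using this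

theorem transpose_sq {R : Type} [CommRing R] {x : Mat R} (h : x * x = 0) : xᵀ * xᵀ = 0 := by
  rw [← transpose_mul, h, transpose_zero]

/-- the contravariant dual -/
def dual (A : ResMod k V) : ResMod k (Module.Dual k V) where
  φ :=
    { toFun := fun x => (A.φ xᵀ).dualMap
      map_add' := fun x y => by
        rw [transpose_add, map_add]; ext l v; simp
      map_smul' := fun c x => by
        rw [transpose_smul, map_smul]; ext l v; simp }
  lie x y hx hy := by
    ext l v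
    have := A.lie_apply hy.transpose hx.transpose v
    simp [transpose_sub, transpose_mul, this, -map_sub]
    rw [map_sub]
  res x hx h := by
    ext l v
    have := A.res_apply hx.transpose (transpose_sq h) v
    simp [pow_succ, this]

@[simp] theorem dual_apply (A : ResMod k V) (x : Mat k) (l : Module.Dual k V) (v : V) :
    A.dual.φ x l v = l (A.φ xᵀ v) := rfl

/-- a submodule as a module -/
noncomputable def sub (A : ResMod k V) (N : Submodule k V) (h : A.Stab N) : ResMod k N where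
  φ :=
    { toFun := fun x => (A.φ (prj k x)).restrict (fun v hv => h _ (prj_sp k x) v hv)
      map_add' := fun x y => by ext v; simp
      map_smul' := fun c x => by ext v; simp }
  lie x y hx hy := by
    ext v
    simp [hx.prj_eq, hy.prj_eq, (hx.lie hy).prj_eq, A.lie_apply hx hy, -map_sub]
  res x hx h2 := by
    ext v
    simp [pow_succ, hx.prj_eq, A.res_apply hx h2]

theorem sub_apply (A : ResMod k V) (N : Submodule k V) (h : A.Stab N) {x : Mat k} (hx : IsSp x)
    (v : N) : ((A.sub N h).φ x v : V) = A.φ x v := by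
  simp [sub, hx.prj_eq]

theorem stab_of_gen (h3 : (3 : k) = 0) (A : ResMod k V) (N : Submodule k V)
    (hE : ∀ i, ∀ v ∈ N, A.φ (ee k i) v ∈ N) (hF : ∀ i, ∀ v ∈ N, A.φ (ff k i) v ∈ N) :
    A.Stab N := by
  intro x hx
  refine sp_induction h3 (P := fun x => ∀ v ∈ N, A.φ x v ∈ N) ?_ ?_ ?_ hE hF hx
  · intro x y a b v hv; rw [map_add]; exact N.add_mem (a v hv) (b v hv)
  · intro c x a v hv; rw [map_smul]; exact N.smul_mem c (a v hv)
  · intro x y hx hy a b v hv
    rw [A.lie_apply hx hy]; exact N.sub_mem (a _ (b v hv)) (b _ (a v hv))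

end ResMod

namespace GPkg

/-- the contravariant dual -/
def dual (E : GPkg k V) : GPkg k (Module.Dual k V) where
  toResMod := E.toResMod.dual
  ρ g := (E.ρ gᵀ).dualMap
  ρ_one := by rw [transpose_one, E.ρ_one]; rfl
  ρ_mul g h hg hh := by
    rw [transpose_mul, E.ρ_mul _ _ (SymplecticGroup.transpose_mem hh)
      (SymplecticGroup.transpose_mem hg)]
    rfl
  ad g x y hg hx hy h := by
    have := E.ad gᵀ yᵀ xᵀ (SymplecticGroup.transpose_mem hg) hy.transpose hx.transpose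
      (by rw [← transpose_mul, ← transpose_mul, h])
    ext l v
    have h2 := congrArg l (LinearMap.congr_fun this v)
    exact h2.symm
  Δ x n := (E.Δ xᵀ n).dualMap
  exp x hx h := by
    have := (E.exp xᵀ hx.transpose (ResMod.transpose_sq h)).map
      (W' := Module.End k (Module.Dual k V)) (Module.Dual.transpose (R := k) (M := V) (M' := V))
    refine this.congr (fun s => ?_) (fun n => rfl)
    rw [transpose_add, transpose_one, transpose_smul]; rfl
  Δ_one x hx h := by rw [E.Δ_one _ hx.transpose (ResMod.transpose_sq h)]; rfl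

variable (E : GPkg k V)

theorem ρ_mul_apply {g h : Mat k} (hg : g ∈ SpG k) (hh : h ∈ SpG k) (v : V) :
    E.ρ (g * h) v = E.ρ g (E.ρ h v) := by rw [E.ρ_mul g h hg hh]; rfl

theorem Δ_zero {x : Mat k} (hx : IsSp x) (h : x * x = 0) : E.Δ x 0 = 1 := by
  have := (E.exp x hx h).at_zero
  simp only [zero_smul, add_zero, E.ρ_one] at this
  exact this.symm

theorem Δ_mem [Infinite k] {x : Mat k} (hx : IsSp x) (h : x * x = 0) (N : Submodule k V) {v : V}
    (hv : ∀ s : k, E.ρ (1 + s • x) v ∈ N) (n : ℕ) : E.Δ x n v ∈ N :=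
  ((E.exp x hx h).apply v).mem N hv n

theorem Δ_mul [Infinite k] {x : Mat k} (hx : IsSp x) (h : x * x = 0) (i j : ℕ) :
    E.Δ x i * E.Δ x j = ((i + j).choose i : k) • E.Δ x (i + j) := by
  have e := E.exp x hx h
  have step : ∀ c : k, ∑ p ∈ Finset.HasAntidiagonal.antidiagonal (i + j),
      c ^ p.2 • (E.Δ x p.1 * E.Δ x p.2) = (1 + c) ^ (i + j) • E.Δ x (i + j) := by
    intro c
    have := (e.mul (e.scale c)).unique (e.scale (1 + c)) (fun s => by
      rw [← E.ρ_mul _ _ (hx.one_add_smul_mem h _) (hx.one_add_smul_mem h _),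
        one_add_mul_one_add h, mul_add, mul_one]) (i + j)
    simpa only [mul_smul_comm] using this
  have := (HasExp.antidiag (i + j) (fun a b => E.Δ x a * E.Δ x b)).unique
    ((HasExp.one_add_pow (i + j)).map (LinearMap.toSpanSingleton k _ (E.Δ x (i + j)))) step j
  simp only [Nat.le_add_left, if_true, Nat.add_sub_cancel, LinearMap.toSpanSingleton_apply] at this
  rw [this, Nat.choose_symm_add]

theorem Δ_two [Infinite k] [CharP k 3] {x : Mat k} (hx : IsSp x) (h : x * x = 0) :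
    E.Δ x 2 = -(E.φ x * E.φ x) := by
  have h3 : (3 : k) = 0 := by exact_mod_cast CharP.cast_eq_zero k 3
  have := E.Δ_mul hx h 1 1
  rw [E.Δ_one x hx h] at this
  rw [this]
  have h2 : ((Nat.choose (1 + 1) 1 : ℕ) : k) = -1 := by
    norm_num; linear_combination h3
  rw [h2]; simp

theorem Δ_comm [Infinite k] {x y : Mat k} (hx : IsSp x) (h : x * x = 0) (hy : IsSp y)
    (h' : y * y = 0) (hxy : x * y = y * x) (i j : ℕ) : E.Δ x i * E.Δ y j = E.Δ y j * E.Δ x i := by
  have e := E.exp x hx h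
  have e' := E.exp y hy h'
  have step : ∀ s : k, E.ρ (1 + s • x) * E.Δ y j = E.Δ y j * E.ρ (1 + s • x) := fun s =>
    (e'.map (LinearMap.mulLeft k (E.ρ (1 + s • x)))).unique
      (e'.map (LinearMap.mulRight k (E.ρ (1 + s • x)))) (fun t => by
        simp only [LinearMap.mulLeft_apply, LinearMap.mulRight_apply]
        rw [← E.ρ_mul _ _ (hx.one_add_smul_mem h _) (hy.one_add_smul_mem h' _),
          ← E.ρ_mul _ _ (hy.one_add_smul_mem h' _) (hx.one_add_smul_mem h _)]
        congr 1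
        simp only [add_mul, mul_add, one_mul, mul_one, smul_mul_assoc, mul_smul_comm, hxy]
        module) j
  exact (e.map (LinearMap.mulRight k (E.Δ y j))).unique (e.map (LinearMap.mulLeft k (E.Δ y j)))
    step i

theorem Δ_heis [Infinite k] {a b : Mat k} (ha : IsSp a) (hb : IsSp b)
    (ha2 : a * a = 0) (hb2 : b * b = 0) (haba : a * b * a = 0) (hbab : b * a * b = 0) (i j : ℕ) :
    E.Δ a i * E.Δ b j = ∑ p ∈ Finset.HasAntidiagonal.antidiagonal j,
      if p.2 ≤ i then E.Δ b p.1 * (E.Δ a (i - p.2) * E.Δ (a * b - b * a) p.2) else 0 := by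
  have hc := ha.lie hb
  have hac : a * (a * b - b * a) = 0 := by
    rw [mul_sub, ← mul_assoc, ← mul_assoc, ha2, haba]; simp
  have hbc : b * (a * b - b * a) = 0 := by
    rw [mul_sub, ← mul_assoc, ← mul_assoc, hb2, hbab]; simp
  have hc2 : (a * b - b * a) * (a * b - b * a) = 0 := by
    rw [sub_mul, mul_assoc, mul_assoc, hac, hbc]; simp
  have hab : a * b = b * a + (a * b - b * a) := by abel
  generalize a * b - b * a = c at *
  have ea := E.exp a ha ha2
  have eb := E.exp b hb hb2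
  have ec := E.exp c hc hc2
  have step : ∀ s : k, E.ρ (1 + s • a) * E.Δ b j = ∑ p ∈ Finset.HasAntidiagonal.antidiagonal j,
      s ^ p.2 • (E.Δ b p.1 * (E.ρ (1 + s • a) * E.Δ c p.2)) := fun s => by
    have := (eb.map (LinearMap.mulLeft k (E.ρ (1 + s • a)))).unique
      (eb.mul ((ec.scale s).map (LinearMap.mulLeft k (E.ρ (1 + s • a))))) (fun t => by
        simp only [LinearMap.mulLeft_apply]
        rw [← E.ρ_mul _ _ (ha.one_add_smul_mem ha2 _) (hb.one_add_smul_mem hb2 _),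
          ← E.ρ_mul _ _ (ha.one_add_smul_mem ha2 _) (hc.one_add_smul_mem hc2 _),
          ← E.ρ_mul _ _ (hb.one_add_smul_mem hb2 _)
            (mul_mem (ha.one_add_smul_mem ha2 _) (hc.one_add_smul_mem hc2 _))]
        congr 1
        simp only [add_mul, mul_add, one_mul, mul_one, smul_mul_assoc, mul_smul_comm, hab, hac,
          hbc, smul_zero, mul_zero]
        module) j
    simpa only [LinearMap.mulLeft_apply, mul_smul_comm] using this
  refine (ea.map (LinearMap.mulRight k (E.Δ b j))).unique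
    (HasExp.sum (Finset.HasAntidiagonal.antidiagonal j) _ _ fun p _ =>
      (((ea.map (LinearMap.mulRight k (E.Δ c p.2))).map
        (LinearMap.mulLeft k (E.Δ b p.1))).shift p.2)) step i

theorem serre [Infinite k] [CharP k 3] {a b : Mat k} (ha : IsSp a) (hb : IsSp b)
    (ha2 : a * a = 0) (hb2 : b * b = 0) (haba : a * b * a = 0) (hbab : b * a * b = 0) :
    E.Δ a 3 * E.Δ a 3 * E.Δ b 3 + E.Δ a 3 * E.Δ b 3 * E.Δ a 3 + E.Δ b 3 * E.Δ a 3 * E.Δ a 3
      = 0 := by
  have h3 : (3 : k) = 0 := by exact_mod_cast CharP.cast_eq_zero k 3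
  have hc := ha.lie hb
  have hac : a * (a * b - b * a) = 0 := by
    rw [mul_sub, ← mul_assoc, ← mul_assoc, ha2, haba]; simp
  have hca : (a * b - b * a) * a = 0 := by
    rw [sub_mul, haba, mul_assoc, ha2]; simp
  have hbc : b * (a * b - b * a) = 0 := by
    rw [mul_sub, ← mul_assoc, ← mul_assoc, hb2, hbab]; simp
  have hc2 : (a * b - b * a) * (a * b - b * a) = 0 := by
    rw [sub_mul, mul_assoc, mul_assoc, hac, hbc]; simp
  have r3 := E.Δ_heis ha hb ha2 hb2 haba hbab 3 3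
  have r2 := E.Δ_heis ha hb ha2 hb2 haba hbab 3 2
  have r1 := E.Δ_heis ha hb ha2 hb2 haba hbab 3 1
  have cm := E.Δ_comm hc hc2 ha ha2 (by rw [hac, hca])
  have am := E.Δ_comm ha ha2 ha ha2 rfl
  have z22 := E.Δ_mul ha ha2 2 2
  have z12 := E.Δ_mul ha ha2 1 2
  have z21 := E.Δ_mul ha ha2 2 1
  have n6 : ((Nat.choose (2 + 2) 2 : ℕ) : k) = 0 := by
    have : Nat.choose (2 + 2) 2 = 6 := by decide
    rw [this]; push_cast; linear_combination 2 * h3
  have n3 : ((Nat.choose (1 + 2) 1 : ℕ) : k) = 0 := by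
    have : Nat.choose (1 + 2) 1 = 3 := by decide
    rw [this]; exact_mod_cast h3
  have n3' : ((Nat.choose (2 + 1) 2 : ℕ) : k) = 0 := by
    have : Nat.choose (2 + 1) 2 = 3 := by decide
    rw [this]; exact_mod_cast h3
  rw [n6, zero_smul] at z22
  rw [n3, zero_smul] at z12
  rw [n3', zero_smul] at z21
  simp only [Finset.Nat.antidiagonal_succ, Finset.Nat.antidiagonal_zero, Finset.sum_cons,
    Finset.sum_map, Finset.map_singleton, Finset.sum_singleton, Function.Embedding.prodMap,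
    Function.Embedding.coeFn_mk, Function.Embedding.refl_apply, Prod.map, Nat.succ_eq_add_one,
    Function.Embedding.coe_refl, id, zero_add, Nat.reduceAdd, le_refl, Nat.reduceLeDiff, if_true,
    Nat.reduceSub, Nat.sub_self, Nat.sub_zero, zero_le, E.Δ_zero ha ha2, E.Δ_zero hb hb2,
    E.Δ_zero hc hc2, one_mul, mul_one] at r3 r2 r1
  have c13 := cm 1 3
  have c23 := cm 2 3
  have c33 := cm 3 3
  have c12 := cm 1 2
  have c11 := cm 1 1
  have c22 := cm 2 2
  have a32 := am 3 2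
  have a31 := am 3 1
  generalize E.Δ (a * b - b * a) 1 = C1 at *
  generalize E.Δ (a * b - b * a) 2 = C2 at *
  generalize E.Δ (a * b - b * a) 3 = C3 at *
  clear cm am
  generalize E.Δ a 1 = A1 at *
  generalize E.Δ a 2 = A2 at *
  generalize E.Δ a 3 = A3 at *
  generalize E.Δ b 1 = B1 at *
  generalize E.Δ b 2 = B2 at *
  generalize E.Δ b 3 = B3 at *
  have t1 : A3 * (B2 * (A2 * C1)) = B2 * (A2 * C1) * A3 := by
    have u1 : A1 * C2 * (A2 * C1) = 0 := by
      rw [mul_assoc, ← mul_assoc C2, c22, ← mul_assoc, ← mul_assoc, z12]; simp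
    have u2 : A2 * C1 * (A2 * C1) = 0 := by
      rw [mul_assoc, ← mul_assoc C1, c12, ← mul_assoc, ← mul_assoc, z22]; simp
    rw [← mul_assoc, r2, add_mul, add_mul, u1, mul_assoc B1, u2, mul_assoc B2, ← mul_assoc A3, a32,
      mul_assoc A2, ← c13]
    simp [mul_assoc]
  have t2 : A3 * (B1 * (A1 * C2)) = B1 * (A1 * C2) * A3 := by
    have u1 : A2 * C1 * (A1 * C2) = 0 := by
      rw [mul_assoc, ← mul_assoc C1, c11, ← mul_assoc, ← mul_assoc, z21]; simp
    rw [← mul_assoc, r1, add_mul, u1, mul_assoc B1, ← mul_assoc A3, a31, mul_assoc A1, ← c23]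
    simp [mul_assoc]
  have t3 : A3 * A3 * B3 = A3 * B3 * A3 + (C3 + (B1 * (A1 * C2) + B2 * (A2 * C1))) * A3 := by
    rw [mul_assoc, r3, mul_add, mul_add, mul_add, t1, t2, ← c33, ← r3, ← mul_assoc]
    noncomm_ring
  rw [t3, r3]
  have t4 : ∀ Z Y : Module.End k V, (3 : k) • Z + (3 : k) • Y = 0 := by
    intro Z Y; rw [h3]; simp
  rw [← t4 ((C3 + (B1 * (A1 * C2) + B2 * (A2 * C1))) * A3) (B3 * A3 * A3)]
  simp only [add_mul]
  module

/-- weight vectors -/
def IsWt (lam : Fin 4 → ℤ) (w : V) : Prop :=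
  ∀ (ν : Fin 4 → ℤ) (s : k), s ≠ 0 → E.ρ (coch ν s) w = s ^ (ν ⬝ᵥ lam) • w

theorem coch_Δ [Infinite k] {α : Fin 4 → ℤ} {x : Mat k}
    (hx : IsSp x) (h : x * x = 0) (hα : HasWt α x) (n : ℕ) (ν : Fin 4 → ℤ) {s : k} (hs : s ≠ 0) :
    E.ρ (coch ν s) * E.Δ x n = (s ^ (ν ⬝ᵥ α)) ^ n • (E.Δ x n * E.ρ (coch ν s)) := by
  have e := E.exp x hx h
  have := (e.map (LinearMap.mulLeft k (E.ρ (coch ν s)))).unique
    ((e.scale (s ^ (ν ⬝ᵥ α))).map (LinearMap.mulRight k (E.ρ (coch ν s)))) (fun t => by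
      simp only [LinearMap.mulLeft_apply, LinearMap.mulRight_apply]
      rw [← E.ρ_mul _ _ (coch_mem ν hs) (hx.one_add_smul_mem h _),
        ← E.ρ_mul _ _ (hx.one_add_smul_mem h _) (coch_mem ν hs)]
      congr 1
      rw [mul_add, add_mul, mul_one, one_mul, mul_smul_comm, hα ν s hs, smul_smul, smul_mul_assoc])
    n
  simpa only [LinearMap.mulLeft_apply, LinearMap.mulRight_apply, smul_mul_assoc] using this

variable {E}

theorem IsWt.Δ [Infinite k] {lam α : Fin 4 → ℤ} {w : V} (hw : E.IsWt lam w) {x : Mat k}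
    (hx : IsSp x) (h : x * x = 0) (hα : HasWt α x) (n : ℕ) :
    E.IsWt (lam + (n : ℤ) • α) (E.Δ x n w) := by
  intro ν s hs
  have := LinearMap.congr_fun (E.coch_Δ hx h hα n ν hs) w
  simp only [Module.End.mul_apply, LinearMap.smul_apply, hw ν s hs, map_smul, smul_smul] at this
  rw [this, dotProduct_add, dotProduct_smul, zpow_add₀ hs, ← zpow_natCast, ← _root_.zpow_mul,
    smul_eq_mul, mul_comm (n : ℤ), mul_comm]

theorem IsWt.congr {lam lam' : Fin 4 → ℤ} {w : V} (hw : E.IsWt lam w) (h : lam = lam') :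
    E.IsWt lam' w := h ▸ hw

theorem cor_al : ∀ i, cor i ⬝ᵥ al i = 2 := by decide

theorem IsWt.sl2 [Infinite k] {lam : Fin 4 → ℤ} {w : V} (hw : E.IsWt lam w) (i : Fin 4) (m : ℕ)
    (hm : cor i ⬝ᵥ lam = m) (n : ℕ) :
    E.Δ (ee k i) n (E.Δ (ff k i) n w) = ∑ p ∈ Finset.HasAntidiagonal.antidiagonal n,
      (m.choose p.1 : k) • E.Δ (ff k i) p.2 (E.Δ (ee k i) p.2 w) := by
  classical
  obtain ⟨N1, h1⟩ := (E.exp _ (ee_sp k i) (ee_sq k i)).eq_sum
  obtain ⟨N2, h2⟩ := (E.exp _ (ff_sp k i) (ff_sq k i)).eq_sum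
  obtain ⟨a1, a2⟩ := h1 (N1 + N2) (by omega)
  obtain ⟨b1, b2⟩ := h2 (N1 + N2) (by omega)
  generalize N1 + N2 = N at *
  have wE : ∀ {l : Fin 4 → ℤ} {u : V}, E.IsWt l u → ∀ a : ℕ,
      E.IsWt (l + (a : ℤ) • al i) (E.Δ (ee k i) a u) :=
    fun hu a => hu.Δ (ee_sp k i) (ee_sq k i) (ee_wt i) a
  have wF : ∀ {l : Fin 4 → ℤ} {u : V}, E.IsWt l u → ∀ a : ℕ,
      E.IsWt (l + (a : ℤ) • -al i) (E.Δ (ff k i) a u) :=
    fun hu a => hu.Δ (ff_sp k i) (ff_sq k i) (ff_wt i) a
  have mE := fun s : k => (ee_sp k i).one_add_smul_mem (ee_sq k i) s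
  have mF := fun s : k => (ff_sp k i).one_add_smul_mem (ff_sq k i) s
  have key : ∀ t : k, 1 + t ≠ 0 →
      ∑ a ∈ Finset.range N, t ^ a • E.Δ (ee k i) a (E.Δ (ff k i) a w) =
      (1 + t) ^ m • ∑ a ∈ Finset.range N, t ^ a • E.Δ (ff k i) a (E.Δ (ee k i) a w) := by
    intro t hu
    let v : ℕ × ℕ → V := fun p => t ^ p.2 • E.Δ (ee k i) p.1 (E.Δ (ff k i) p.2 w) -
      ((t / (1 + t)) ^ p.2 * (1 / (1 + t)) ^ p.1 * (1 + t) ^ (m + 2 * p.1)) •
        E.Δ (ff k i) p.2 (E.Δ (ee k i) p.1 w)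
    have hv0 : ∑ p ∈ Finset.range N ×ˢ Finset.range N, v p = 0 := by
      have hid := sl2_id i 1 t (by rwa [one_mul])
      rw [one_mul] at hid
      have := LinearMap.congr_fun (congrArg E.ρ hid) w
      rw [E.ρ_mul_apply (mE _) (mF _), E.ρ_mul_apply (mul_mem (mF _) (coch_mem _ hu)) (mE _),
        E.ρ_mul_apply (mF _) (coch_mem _ hu), a2, a2, b2, b2] at this
      simp only [LinearMap.sum_apply, LinearMap.smul_apply, map_sum, map_smul, one_pow, one_smul,
        wE hw _ (cor i) _ hu, dotProduct_add, dotProduct_smul, hm, cor_al, Finset.smul_sum,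
        smul_smul] at this
      simp only [v, Finset.sum_sub_distrib, Finset.sum_product]
      rw [Finset.sum_comm, this, sub_eq_zero]
      refine Finset.sum_congr rfl fun a _ => Finset.sum_congr rfl fun b _ => ?_
      congr 1
      rw [← zpow_natCast (1 + t) (m + 2 * a)]
      push_cast
      rw [smul_eq_mul, mul_comm (a : ℤ) 2]
      ring
    have hv1 := extract_int (k := k) (Finset.range N ×ˢ Finset.range N)
      (fun p => (m : ℤ) + 2 * p.1 - 2 * p.2) v (fun c hc => by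
        have := congrArg (E.ρ (coch (cor i) c)) hv0
        rw [map_sum, map_zero] at this
        rw [← this]
        refine Finset.sum_congr rfl fun p _ => ?_
        simp only [v, map_sub, map_smul, wE (wF hw _) _ (cor i) _ hc, wF (wE hw _) _ (cor i) _ hc,
          dotProduct_add, dotProduct_smul, dotProduct_neg, hm, cor_al, smul_sub, smul_eq_mul]
        rw [smul_comm, smul_comm (c ^ _)]
        congr 3 <;> ring) m
    rw [Finset.sum_filter, Finset.sum_product] at hv1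
    have hv2 : ∑ a ∈ Finset.range N, v (a, a) = 0 := by
      rw [← hv1]
      refine Finset.sum_congr rfl fun a ha => ?_
      rw [Finset.sum_eq_single a (fun b _ hb => if_neg (by omega)) (fun h => absurd ha h),
        if_pos (by omega)]
    simp only [v, Finset.sum_sub_distrib, sub_eq_zero] at hv2
    rw [hv2, Finset.smul_sum]
    refine Finset.sum_congr rfl fun a _ => ?_
    rw [smul_smul]
    congr 1
    simp only [div_pow]
    field_simp
    ring
  have e1 : HasExp (fun t : k => ∑ a ∈ Finset.range N, t ^ a • E.Δ (ee k i) a (E.Δ (ff k i) a w))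
      (fun a => E.Δ (ee k i) a (E.Δ (ff k i) a w)) :=
    ⟨N, fun a ha => by simp [a1 a ha], fun _ => rfl⟩
  have e2 : HasExp (fun t : k => ∑ a ∈ Finset.range N, t ^ a • E.Δ (ff k i) a (E.Δ (ee k i) a w))
      (fun a => E.Δ (ff k i) a (E.Δ (ee k i) a w)) :=
    ⟨N, fun a ha => by simp [a1 a ha], fun _ => rfl⟩
  exact e1.unique_on (HasExp.bilin (LinearMap.lsmul k V) (HasExp.one_add_pow m) e2) {-1}ᶜ
    (Set.finite_singleton _).infinite_compl
    (fun t ht => key t fun h => ht (eq_neg_of_add_eq_zero_right h)) n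

end GPkg

end Pool.Agent.MP_2042ac_al

end

-- part MP_2042ac_al.Core
section

/-!
The obstruction.
-/

set_option autoImplicit false

namespace Pool.Agent.MP_2042ac_al

open Matrix

variable {k : Type} [Field k] {V W : Type} [AddCommGroup V] [Module k V]
  [AddCommGroup W] [Module k W]

/-- a submodule `L` with a contravariant form whose quotient by the radical is simple and
nontrivial over the Lie algebra -/
structure FormData (E : GPkg k V) (L : Submodule k V) (κ : V →ₗ[k] V →ₗ[k] k) : Prop where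
  stab : E.Stab L
  stabH : ∀ g ∈ HH k, ∀ l ∈ L, E.ρ g l ∈ L
  contra : ∀ x, IsSp x → ∀ l ∈ L, ∀ l' ∈ L, κ (E.φ x l) l' = κ l (E.φ xᵀ l')
  contraH : ∀ g ∈ HH k, ∀ l ∈ L, ∀ l' ∈ L, κ (E.ρ g l) l' = κ l (E.ρ gᵀ l')
  simple : ∀ N : Submodule k V, E.Stab N → N ≤ L → (∀ l ∈ L, (∀ l' ∈ L, κ l l' = 0) → l ∈ N) →
    (∀ n ∈ N, ∀ l' ∈ L, κ n l' = 0) ∨ L ≤ N
  nontriv : ∀ l ∈ L, (∀ x, IsSp x → ∀ l' ∈ L, κ (E.φ x l) l' = 0) → ∀ l' ∈ L, κ l l' = 0

/-- the vector carrying the obstruction -/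
def yv (E : GPkg k V) (t0 : V) : V :=
  E.Δ (ff k 1) 3 (E.Δ (ff k 2) 3 (E.Δ (ff k 3) 3 (E.Δ (ff k 2) 3 t0))) +
    E.Δ (ff k 2) 3 (E.Δ (ff k 1) 3 (E.Δ (ff k 3) 3 (E.Δ (ff k 2) 3 t0)))

/-- the injective hull of the trivial module -/
structure Hull (M : GPkg k W) (o : W) : Prop where
  ne : o ≠ 0
  inv : ∀ x, IsSp x → M.φ x o = 0
  ess : ∀ N : Submodule k W, M.Stab N → N ≠ ⊥ → o ∈ N
  inj : M.IsInj

namespace Hull

variable {M : GPkg k W} {o : W} (H : Hull M o)
include H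

theorem kill {x : Mat k} (hx : IsSp x) {z : W} (hz : z ∈ k ∙ o) : M.φ x z = 0 := by
  obtain ⟨c, rfl⟩ := Submodule.mem_span_singleton.mp hz
  rw [map_smul, H.inv x hx, smul_zero]

theorem inv_mem {m : W} (hm : ∀ x, IsSp x → M.φ x m = 0) : m ∈ k ∙ o := by
  by_cases h0 : m = 0
  · rw [h0]; exact zero_mem _
  have h1 : o ∈ k ∙ m := H.ess _ (fun x hx v hv => by
    obtain ⟨c, rfl⟩ := Submodule.mem_span_singleton.mp hv
    rw [map_smul, hm x hx, smul_zero]; exact zero_mem _) (by simpa using h0)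
  obtain ⟨c, hc⟩ := Submodule.mem_span_singleton.mp h1
  have hc0 : c ≠ 0 := by rintro rfl; exact H.ne (by rw [← hc, zero_smul])
  exact Submodule.mem_span_singleton.mpr ⟨c⁻¹, by rw [← hc, smul_smul, inv_mul_cancel₀ hc0, one_smul]⟩

theorem quot_inv [CharP k 3] {m : W} (hm : ∀ x, IsSp x → M.φ x m ∈ k ∙ o) : m ∈ k ∙ o := by
  have h3 : (3 : k) = 0 := by exact_mod_cast CharP.cast_eq_zero k 3
  refine H.inv_mem fun x hx => ?_
  refine sp_perfect h3 (M.φ.flip m) (fun a b ha hb => ?_) hx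
  rw [LinearMap.flip_apply, M.lie_apply ha hb, H.kill ha (hm b hb), H.kill hb (hm a ha), sub_zero]

theorem rho_one_add [CharP k 3] {x : Mat k} (hx : IsSp x) (h2 : x * x = 0) (s : k) :
    M.ρ (1 + s • x) o = o := by
  have h3 : (3 : k) = 0 := by exact_mod_cast CharP.cast_eq_zero k 3
  have hg := hx.one_add_smul_mem h2 s
  have h1 : M.ρ (1 + s • x) o ∈ k ∙ o := H.inv_mem fun y hy => by
    obtain ⟨z, hz, e⟩ := exists_conj_right hg hy
    have := LinearMap.congr_fun (M.ad _ z y hg hz hy e) o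
    simp only [Module.End.mul_apply, H.inv z hz, map_zero] at this
    exact this.symm
  obtain ⟨c, hc⟩ := Submodule.mem_span_singleton.mp h1
  have h4 : (1 + s • x) * ((1 + s • x) * (1 + s • x)) = 1 := by
    rw [one_add_mul_one_add h2, one_add_mul_one_add h2,
      show s + (s + s) = 0 by linear_combination s * h3, zero_smul, add_zero]
  have h5 := congrArg (fun g => M.ρ g o) h4
  simp only [M.ρ_mul_apply hg (mul_mem hg hg), M.ρ_mul_apply hg hg, ← hc, map_smul, smul_smul,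
    M.ρ_one, Module.End.one_apply] at h5
  have h6 : c * (c * c) = 1 := by
    have : (c * (c * c) - 1) • o = 0 := by rw [sub_smul, one_smul, sub_eq_zero, ← mul_assoc, h5]
    exact sub_eq_zero.mp ((smul_eq_zero.mp this).resolve_right H.ne)
  have h7 : (c - 1) ^ 3 = 0 := by linear_combination h6 + (c - c ^ 2) * h3
  rw [← hc, sub_eq_zero.mp (pow_eq_zero_iff (by norm_num) |>.mp h7), one_smul]

theorem rho_HH [CharP k 3] {g : Mat k} (hg : g ∈ HH k) : M.ρ g o = o :=
  HH_induction (P := fun g => M.ρ g o = o) (by rw [M.ρ_one]; rfl)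
    (fun a b ha hb iha ihb => by rw [M.ρ_mul_apply (HH_le ha) (HH_le hb), ihb, iha])
    (fun i s => H.rho_one_add (ee_sp k i) (ee_sq k i) s)
    (fun i s => H.rho_one_add (ff_sp k i) (ff_sq k i) s) hg

theorem rho_mem [CharP k 3] {g : Mat k} (hg : g ∈ HH k) {z : W} (hz : z ∈ k ∙ o) :
    M.ρ g z ∈ k ∙ o := by
  obtain ⟨c, rfl⟩ := Submodule.mem_span_singleton.mp hz
  rw [map_smul, H.rho_HH hg]; exact hz

theorem D_kill [Infinite k] [CharP k 3] (i : Fin 4) {z : W} (hz : z ∈ k ∙ o) :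
    M.Δ (ff k i) 3 z = 0 := by
  obtain ⟨c, rfl⟩ := Submodule.mem_span_singleton.mp hz
  have := ((M.exp _ (ff_sp k i) (ff_sq k i)).apply o).unique (HasExp.const o)
    (fun s => H.rho_one_add (ff_sp k i) (ff_sq k i) s) 3
  rw [map_smul, this]; simp

end Hull

/-- vectors sent into `L` by the Lie algebra -/
def TT (E : GPkg k V) (L : Submodule k V) : Submodule k V where
  carrier := {t | ∀ x, IsSp x → E.φ x t ∈ L}
  add_mem' ha hb x hx := by rw [map_add]; exact L.add_mem (ha x hx) (hb x hx)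
  zero_mem' x _ := by rw [map_zero]; exact L.zero_mem
  smul_mem' c _ ha x hx := by rw [map_smul]; exact L.smul_mem c (ha x hx)

/-- functionals whose restriction to `L` is given by the form -/
def DD (L : Submodule k V) (κ : V →ₗ[k] V →ₗ[k] k) : Submodule k (Module.Dual k V) where
  carrier := {δ | ∃ l ∈ L, ∀ l' ∈ L, δ l' = κ l l'}
  add_mem' := by
    rintro a b ⟨l, hl, h⟩ ⟨m, hm, h'⟩
    exact ⟨l + m, L.add_mem hl hm, fun l' hl' => by simp [h l' hl', h' l' hl']⟩
  zero_mem' := ⟨0, L.zero_mem, fun l' _ => by simp⟩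
  smul_mem' := by
    rintro c a ⟨l, hl, h⟩
    exact ⟨c • l, L.smul_mem c hl, fun l' hl' => by simp [h l' hl']⟩

theorem kappa_mem_DD {L : Submodule k V} {κ : V →ₗ[k] V →ₗ[k] k} {l : V} (hl : l ∈ L) :
    κ l ∈ DD L κ := ⟨l, hl, fun _ _ => rfl⟩

theorem RR_le_DD {L : Submodule k V} {κ : V →ₗ[k] V →ₗ[k] k} : L.dualAnnihilator ≤ DD L κ :=
  fun δ hδ => ⟨0, L.zero_mem, fun l' hl' => by
    simp [(Submodule.mem_dualAnnihilator δ).mp hδ l' hl']⟩

namespace FormData

variable {E : GPkg k V} {L : Submodule k V} {κ : V →ₗ[k] V →ₗ[k] k} (F : FormData E L κ)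
include F

theorem le_TT {l : V} (hl : l ∈ L) : l ∈ TT E L := fun x hx => F.stab x hx l hl

theorem TT_rho {g : Mat k} (hg : g ∈ HH k) {t : V} (ht : t ∈ TT E L) : E.ρ g t ∈ TT E L := by
  intro y hy
  obtain ⟨x, hx, e⟩ := exists_conj_right (HH_le hg) hy
  have := LinearMap.congr_fun (E.ad g x y (HH_le hg) hx hy e) t
  simp only [Module.End.mul_apply] at this
  rw [← this]; exact F.stabH g hg _ (ht x hx)

theorem TT_ff [Infinite k] (i : Fin 4) (n : ℕ) {t : V} (ht : t ∈ TT E L) :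
    E.Δ (ff k i) n t ∈ TT E L :=
  E.Δ_mem (ff_sp k i) (ff_sq k i) _ (fun s => F.TT_rho (ff_mem_HH i s) ht) n

theorem TT_ee [Infinite k] (i : Fin 4) (n : ℕ) {t : V} (ht : t ∈ TT E L) :
    E.Δ (ee k i) n t ∈ TT E L :=
  E.Δ_mem (ee_sp k i) (ee_sq k i) _ (fun s => F.TT_rho (ee_mem_HH i s) ht) n

theorem L_ee [Infinite k] (i : Fin 4) (n : ℕ) {t : V} (ht : t ∈ L) : E.Δ (ee k i) n t ∈ L :=
  E.Δ_mem (ee_sp k i) (ee_sq k i) _ (fun s => F.stabH _ (ee_mem_HH i s) _ ht) n

theorem L_ff [Infinite k] (i : Fin 4) (n : ℕ) {t : V} (ht : t ∈ L) : E.Δ (ff k i) n t ∈ L :=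
  E.Δ_mem (ff_sp k i) (ff_sq k i) _ (fun s => F.stabH _ (ff_mem_HH i s) _ ht) n

theorem contra_D [Infinite k] (i : Fin 4) (n : ℕ) {l l' : V} (hl : l ∈ L) (hl' : l' ∈ L) :
    κ (E.Δ (ff k i) n l) l' = κ l (E.Δ (ee k i) n l') :=
  (((E.exp _ (ff_sp k i) (ff_sq k i)).apply l).map (κ.flip l')).unique
    (((E.exp _ (ee_sp k i) (ee_sq k i)).apply l').map (κ l)) (fun s => by
      have := F.contraH _ (ff_mem_HH i s) l hl l' hl'
      rwa [transpose_add, transpose_one, transpose_smul, ff_transpose] at this) n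

theorem RR_stab : E.dual.Stab L.dualAnnihilator := by
  intro x hx δ hδ
  rw [Submodule.mem_dualAnnihilator] at hδ ⊢
  exact fun l hl => hδ _ (F.stab _ hx.transpose l hl)

theorem DD_stab : E.dual.Stab (DD L κ) := by
  rintro x hx δ ⟨l, hl, h⟩
  exact ⟨E.φ x l, F.stab x hx l hl, fun l' hl' => by
    rw [F.contra x hx l hl l' hl', ← h _ (F.stab _ hx.transpose l' hl')]; rfl⟩

theorem RR_rho {g : Mat k} (hg : g ∈ HH k) {δ : Module.Dual k V} (hδ : δ ∈ L.dualAnnihilator) :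
    E.dual.ρ g δ ∈ L.dualAnnihilator := by
  rw [Submodule.mem_dualAnnihilator] at hδ ⊢
  exact fun l hl => hδ _ (F.stabH _ (HH_transpose hg) l hl)

theorem DD_rho {g : Mat k} (hg : g ∈ HH k) {δ : Module.Dual k V} (hδ : δ ∈ DD L κ) :
    E.dual.ρ g δ ∈ DD L κ := by
  obtain ⟨l, hl, h⟩ := hδ
  exact ⟨E.ρ g l, F.stabH g hg l hl, fun l' hl' => by
    rw [F.contraH g hg l hl l' hl', ← h _ (F.stabH _ (HH_transpose hg) l' hl')]; rfl⟩

theorem DD_ff [Infinite k] (i : Fin 4) (n : ℕ) {δ : Module.Dual k V} (hδ : δ ∈ DD L κ) :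
    E.dual.Δ (ff k i) n δ ∈ DD L κ :=
  E.dual.Δ_mem (ff_sp k i) (ff_sq k i) _ (fun s => F.DD_rho (ff_mem_HH i s) hδ) n

theorem kappa_phi {x : Mat k} (hx : IsSp x) {l : V} (hl : l ∈ L) :
    κ (E.φ x l) - E.dual.φ x (κ l) ∈ L.dualAnnihilator := by
  rw [Submodule.mem_dualAnnihilator]
  intro l' hl'
  rw [LinearMap.sub_apply, F.contra x hx l hl l' hl']; exact sub_self _

theorem kappa_rho {g : Mat k} (hg : g ∈ HH k) {l : V} (hl : l ∈ L) :
    κ (E.ρ g l) - E.dual.ρ g (κ l) ∈ L.dualAnnihilator := by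
  rw [Submodule.mem_dualAnnihilator]
  intro l' hl'
  rw [LinearMap.sub_apply, F.contraH g hg l hl l' hl']; exact sub_self _

variable {M : GPkg k W} {o : W} (H : Hull M o)
include H

theorem hom_zero (f : V →ₗ[k] W) (hf : ∀ x, IsSp x → ∀ l ∈ L, f (E.φ x l) = M.φ x (f l))
    (h0 : ∀ l ∈ L, (∀ l' ∈ L, κ l l' = 0) → f l = 0) : ∀ l ∈ L, f l = 0 := by
  by_contra hc
  push Not at hc
  obtain ⟨l0, hl0, hf0⟩ := hc
  have h1 : o ∈ L.map f := H.ess _ (by
    rintro x hx _ ⟨l, hl, rfl⟩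
    exact ⟨_, F.stab x hx l hl, hf x hx l hl⟩) (fun h => hf0 (by
      have : f l0 ∈ L.map f := ⟨l0, hl0, rfl⟩
      rwa [h] at this))
  obtain ⟨l1, hl1, e1⟩ := h1
  rcases F.simple (L ⊓ LinearMap.ker f)
    (fun x hx l hl => ⟨F.stab x hx l hl.1, by
      have : f l = 0 := hl.2
      change f _ = 0
      rw [hf x hx l hl.1, this, map_zero]⟩) inf_le_left
    (fun l hl h => ⟨hl, h0 l hl h⟩) with h | h
  · have := F.nontriv l1 hl1 fun x hx => h _ ⟨F.stab x hx l1 hl1, by
      change f _ = 0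
      rw [hf x hx l1 hl1, e1, H.inv x hx]⟩
    exact H.ne (by rw [← e1, h0 l1 hl1 this])
  · exact hf0 (h hl0).2

theorem uniq (j : Module.Dual k V →ₗ[k] W)
    (hj : ∀ x, IsSp x → ∀ δ ∈ DD L κ, j (E.dual.φ x δ) = M.φ x (j δ))
    (h0 : ∀ w ∈ L.dualAnnihilator, j w = 0) : ∀ δ ∈ DD L κ, j δ = 0 := by
  have h1 := F.hom_zero H (j ∘ₗ κ) (fun x hx l hl => by
    have := h0 _ (F.kappa_phi hx hl)
    rw [map_sub, sub_eq_zero] at this
    simp only [LinearMap.comp_apply]
    rw [this, hj x hx _ (kappa_mem_DD hl)])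
    (fun l _ h => h0 _ ((Submodule.mem_dualAnnihilator _).mpr h))
  rintro δ ⟨l, hl, h⟩
  have h2 := h0 (δ - κ l) ((Submodule.mem_dualAnnihilator _).mpr fun l' hl' => by
    rw [LinearMap.sub_apply, h l' hl', sub_self])
  rw [map_sub, sub_eq_zero] at h2
  rw [h2]; exact h1 l hl

theorem exists_J [FiniteDimensional k V] : ∃ J : V →ₗ[k] Module.Dual k V →ₗ[k] W,
    ∀ t ∈ TT E L, (∀ x, IsSp x → ∀ δ ∈ DD L κ, J t (E.dual.φ x δ) = M.φ x (J t δ)) ∧
      ∀ w ∈ L.dualAnnihilator, J t w = w t • o := by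
  let S : Submodule k (V × (Module.Dual k V →ₗ[k] W)) :=
    { carrier := {p | p.1 ∈ TT E L ∧
        (∀ x, IsSp x → ∀ δ ∈ DD L κ, p.2 (E.dual.φ x δ) = M.φ x (p.2 δ)) ∧
        ∀ w ∈ L.dualAnnihilator, p.2 w = w p.1 • o}
      add_mem' := fun {a b} ha hb => ⟨add_mem ha.1 hb.1, fun x hx δ hδ => by
        simp [ha.2.1 x hx δ hδ, hb.2.1 x hx δ hδ], fun w hw => by
        simp [ha.2.2 w hw, hb.2.2 w hw, add_smul]⟩
      zero_mem' := ⟨zero_mem _, fun x hx δ hδ => by simp, fun w hw => by simp⟩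
      smul_mem' := fun c a ha => ⟨Submodule.smul_mem _ c ha.1, fun x hx δ hδ => by
        simp [ha.2.1 x hx δ hδ], fun w hw => by simp [ha.2.2 w hw, smul_smul]⟩ }
  let p : S →ₗ[k] TT E L :=
    LinearMap.codRestrict _ (LinearMap.fst k _ _ ∘ₗ S.subtype) (fun a => a.2.1)
  have hp : LinearMap.range p = ⊤ := by
    rw [LinearMap.range_eq_top]
    rintro ⟨t, ht⟩
    obtain ⟨j, h1, h2⟩ := H.inj _ E.dual.toResMod L.dualAnnihilator (DD L κ)
      ((Module.Dual.eval k V t).smulRight o) F.RR_stab F.DD_stab RR_le_DD (fun x hx w hw => by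
        have : w (E.φ xᵀ t) = 0 := (Submodule.mem_dualAnnihilator w).mp hw _ (ht _ hx.transpose)
        simp only [LinearMap.smulRight_apply, Module.Dual.eval_apply, map_smul, H.inv x hx,
          smul_zero]
        change w (E.φ xᵀ t) • o = 0
        rw [this, zero_smul])
    exact ⟨⟨(t, j), ht, h1, h2⟩, rfl⟩
  obtain ⟨q, hq⟩ := p.exists_rightInverse_of_surjective hp
  obtain ⟨J, hJ⟩ := LinearMap.exists_extend (LinearMap.snd k _ _ ∘ₗ S.subtype ∘ₗ q)
  refine ⟨J, fun t ht => ?_⟩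
  have e1 : J t = (q ⟨t, ht⟩).1.2 := LinearMap.congr_fun hJ ⟨t, ht⟩
  have e2 : (q ⟨t, ht⟩).1.1 = t := congrArg Subtype.val (LinearMap.congr_fun hq ⟨t, ht⟩)
  have := (q ⟨t, ht⟩).2.2
  rw [e2, ← e1] at this
  exact this

end FormData

/-- all the data -/
structure Ctx (E : GPkg k V) (L : Submodule k V) (κ : V →ₗ[k] V →ₗ[k] k) (M : GPkg k W) (o : W)
    (J : V →ₗ[k] Module.Dual k V →ₗ[k] W) : Prop where
  F : FormData E L κ
  H : Hull M o
  hom : ∀ t ∈ TT E L, ∀ x, IsSp x → ∀ δ ∈ DD L κ, J t (E.dual.φ x δ) = M.φ x (J t δ)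
  onR : ∀ t ∈ TT E L, ∀ w ∈ L.dualAnnihilator, J t w = w t • o

namespace Ctx

variable {E : GPkg k V} {L : Submodule k V} {κ : V →ₗ[k] V →ₗ[k] k} {M : GPkg k W} {o : W}
  {J : V →ₗ[k] Module.Dual k V →ₗ[k] W} (C : Ctx E L κ M o J)
include C

theorem J_L {l : V} (hl : l ∈ L) {δ : Module.Dual k V} (hδ : δ ∈ DD L κ) : J l δ = 0 :=
  C.F.uniq C.H (J l) (C.hom l (C.F.le_TT hl)) (fun w hw => by
    rw [C.onR l (C.F.le_TT hl) w hw, (Submodule.mem_dualAnnihilator w).mp hw l hl, zero_smul]) δ hδ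

theorem J_R {t : V} (ht : t ∈ TT E L) {w : Module.Dual k V} (hw : w ∈ L.dualAnnihilator) :
    J t w ∈ k ∙ o := by
  rw [C.onR t ht w hw]; exact Submodule.smul_mem _ _ (Submodule.mem_span_singleton_self o)

theorem J_phi {t : V} (ht : t ∈ TT E L) {x : Mat k} (hx : IsSp x) {l : V} (hl : l ∈ L) :
    J t (κ (E.φ x l)) - M.φ x (J t (κ l)) ∈ k ∙ o := by
  rw [← C.hom t ht x hx _ (kappa_mem_DD hl), ← map_sub]
  exact C.J_R ht (C.F.kappa_phi hx hl)

variable [CharP k 3]

theorem equiv {g g' : Mat k} (hg : g ∈ HH k) (hg' : g' ∈ HH k) (h1 : g * g' = 1) (h2 : g' * g = 1)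
    {t : V} (ht : t ∈ TT E L) {δ : Module.Dual k V} (hδ : δ ∈ DD L κ) :
    M.ρ g (J t δ) = J (E.ρ g'ᵀ t) (E.dual.ρ g δ) := by
  have ht' := C.F.TT_rho (HH_transpose hg') ht
  have := C.F.uniq C.H (M.ρ g ∘ₗ J t ∘ₗ E.dual.ρ g' - J (E.ρ g'ᵀ t)) (fun y hy δ hδ => by
    obtain ⟨x, hx, e⟩ := exists_conj_left (HH_le hg') hy
    have e' : g * x = y * g := by
      rw [← mul_one (g * x), ← h2, ← mul_assoc, mul_assoc g x, ← e, ← mul_assoc, h1, one_mul]
    have a1 := LinearMap.congr_fun (E.dual.ad g' y x (HH_le hg') hy hx e) δ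
    have a2 := LinearMap.congr_fun (M.ad g x y (HH_le hg) hx hy e') (J t (E.dual.ρ g' δ))
    simp only [Module.End.mul_apply] at a1 a2
    simp only [LinearMap.sub_apply, LinearMap.comp_apply, map_sub]
    rw [a1, C.hom t ht x hx _ (C.F.DD_rho hg' hδ), a2, C.hom _ ht' y hy δ hδ])
    (fun w hw => by
      simp only [LinearMap.sub_apply, LinearMap.comp_apply]
      rw [C.onR t ht _ (C.F.RR_rho hg' hw), C.onR _ ht' w hw, map_smul, C.H.rho_HH hg]
      exact sub_self _) _ (C.F.DD_rho hg hδ)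
  simp only [LinearMap.sub_apply, LinearMap.comp_apply, sub_eq_zero] at this
  rw [← E.dual.ρ_mul_apply (HH_le hg') (HH_le hg), h2, E.dual.ρ_one] at this
  exact this

theorem equiv_coch {g g' : Mat k} (hg : g ∈ HH k) (hg' : g' ∈ HH k) (h1 : g * g' = 1)
    (h2 : g' * g = 1) {a b : V} (ha : a ∈ TT E L) (hb : b ∈ TT E L) {x y : Mat k} (hx : IsSp x)
    (hy : IsSp y) (e : g * x = y * g) :
    M.ρ g (J b (κ (E.φ x a))) - J (E.ρ g'ᵀ b) (κ (E.φ y (E.ρ g a))) ∈ k ∙ o := by
  have a1 := LinearMap.congr_fun (E.ad g x y (HH_le hg) hx hy e) a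
  simp only [Module.End.mul_apply] at a1
  rw [C.equiv hg hg' h1 h2 hb (kappa_mem_DD (ha x hx)), ← a1, ← map_sub, ← neg_mem_iff, ← map_neg,
    neg_sub]
  exact C.J_R (C.F.TT_rho (HH_transpose hg') hb) (C.F.kappa_rho hg (ha x hx))

variable [Infinite k]

omit [CharP k 3] in
theorem J_E12 [CharP k 3] (i : Fin 4) {b : V} (hb : b ∈ TT E L) {δ : Module.Dual k V}
    (hδ : δ ∈ DD L κ) : J (E.Δ (ee k i) 1 b) δ = 0 ∧ J (E.Δ (ee k i) 2 b) δ = 0 := by
  rw [E.Δ_one _ (ee_sp k i) (ee_sq k i), E.Δ_two (ee_sp k i) (ee_sq k i)]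
  exact ⟨C.J_L (hb _ (ee_sp k i)) hδ,
    C.J_L (neg_mem (C.F.stab _ (ee_sp k i) _ (hb _ (ee_sp k i)))) hδ⟩

theorem D_J (i : Fin 4) {t : V} (ht : t ∈ TT E L) {δ : Module.Dual k V} (hδ : δ ∈ DD L κ) :
    M.Δ (ff k i) 3 (J t δ) = J t (E.dual.Δ (ff k i) 3 δ) - J (E.Δ (ee k i) 3 t) δ := by
  have := ((M.exp _ (ff_sp k i) (ff_sq k i)).apply (J t δ)).unique
    (HasExp.bilin J (((E.exp _ (ee_sp k i) (ee_sq k i)).scale (-1)).apply t)
      ((E.dual.exp _ (ff_sp k i) (ff_sq k i)).apply δ)) (fun s => by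
      have := C.equiv (ff_mem_HH i s) (ff_mem_HH i (-s)) (one_add_mul_neg (ff_sq k i) s)
        (by simpa using one_add_mul_neg (ff_sq k i) (-s)) ht hδ
      rw [this, transpose_add, transpose_one, transpose_smul, ff_transpose, mul_neg_one]) 3
  rw [this]
  simp only [Finset.Nat.antidiagonal_succ, Finset.Nat.antidiagonal_zero, Finset.sum_cons,
    Finset.sum_map, Finset.map_singleton, Finset.sum_singleton, Function.Embedding.prodMap,
    Function.Embedding.coeFn_mk, Prod.map, Nat.succ_eq_add_one,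
    Function.Embedding.coe_refl, id, zero_add, Nat.reduceAdd, LinearMap.smul_apply, map_smul,
    (C.J_E12 i ht (C.F.DD_ff i _ hδ)).1, (C.J_E12 i ht (C.F.DD_ff i _ hδ)).2,
    E.Δ_zero (ee_sp k i) (ee_sq k i), E.dual.Δ_zero (ff_sp k i) (ff_sq k i), Module.End.one_apply]
  module

omit [CharP k 3] [Infinite k] C in
/-- `m` trivialises the cochain attached to `a ⊗ b + c ⊗ d` -/
def Sol (E : GPkg k V) (κ : V →ₗ[k] V →ₗ[k] k) (M : GPkg k W) (o : W)
    (J : V →ₗ[k] Module.Dual k V →ₗ[k] W) (a b c d : V) (m : W) : Prop :=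
  ∀ x, IsSp x → M.φ x m - J b (κ (E.φ x a)) - J d (κ (E.φ x c)) ∈ k ∙ o

theorem step (i : Fin 4) {a b c d : V} (ha : a ∈ TT E L) (hb : b ∈ TT E L) (hc : c ∈ TT E L)
    (hd : d ∈ TT E L) {m : W} (h : Sol E κ M o J a b c d m) {y : Mat k} (hy : IsSp y) :
    M.φ y (M.Δ (ff k i) 3 m)
      - (J b (κ (E.φ y (E.Δ (ff k i) 3 a))) - J (E.Δ (ee k i) 3 b) (κ (E.φ y a)))
      - (J d (κ (E.φ y (E.Δ (ff k i) 3 c))) - J (E.Δ (ee k i) 3 d) (κ (E.φ y c))) ∈ k ∙ o := by
  have ex : ∀ a b : V, HasExp (fun s : k => J (E.ρ (1 + (s * -1) • ee k i) b)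
      (κ (E.φ y (E.ρ (1 + s • ff k i) a)))) _ := fun a b =>
    HasExp.bilin J (((E.exp _ (ee_sp k i) (ee_sq k i)).scale (-1)).apply b)
      ((((E.exp _ (ff_sp k i) (ff_sq k i)).apply a).map (E.φ y)).map κ)
  have := (((((M.exp _ (ff_sp k i) (ff_sq k i)).apply m).map (M.φ y)).sub (ex a b)).sub
    (ex c d)).mem (k ∙ o) (fun s => by
      have hg := ff_mem_HH (k := k) i s
      obtain ⟨x, hx, e⟩ := exists_conj_right (HH_le hg) hy
      have q : ∀ {a b : V}, a ∈ TT E L → b ∈ TT E L → _ := fun ha hb =>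
        C.equiv_coch hg (ff_mem_HH i (-s)) (one_add_mul_neg (ff_sq k i) s)
          (by simpa using one_add_mul_neg (ff_sq k i) (-s)) ha hb hx hy e
      simp only [transpose_add, transpose_one, transpose_smul, ff_transpose] at q
      have a2 := LinearMap.congr_fun (M.ad _ x y (HH_le hg) hx hy e) m
      simp only [Module.End.mul_apply] at a2
      have := add_mem (add_mem (C.H.rho_mem hg (h x hx)) (q ha hb)) (q hc hd)
      rw [map_sub, map_sub, a2] at this
      rw [mul_neg_one]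
      convert this using 1
      abel) 3
  have z : ∀ {a b : V}, a ∈ TT E L → b ∈ TT E L → ∀ n,
      J (E.Δ (ee k i) 1 b) (κ (E.φ y (E.Δ (ff k i) n a))) = 0 ∧
      J (E.Δ (ee k i) 2 b) (κ (E.φ y (E.Δ (ff k i) n a))) = 0 := fun ha hb n =>
    C.J_E12 i hb (kappa_mem_DD (C.F.TT_ff i n ha y hy))
  simp only [Finset.Nat.antidiagonal_succ, Finset.Nat.antidiagonal_zero, Finset.sum_cons,
    Finset.sum_map, Finset.map_singleton, Finset.sum_singleton, Function.Embedding.prodMap,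
    Function.Embedding.coeFn_mk, Prod.map, Nat.succ_eq_add_one,
    Function.Embedding.coe_refl, id, zero_add, Nat.reduceAdd, LinearMap.smul_apply, map_smul,
    (z ha hb _).1, (z ha hb _).2, (z hc hd _).1, (z hc hd _).2,
    E.Δ_zero (ee_sp k i) (ee_sq k i), E.Δ_zero (ff_sp k i) (ff_sq k i), Module.End.one_apply]
    at this
  convert this using 1
  module

omit [Infinite k] in
theorem eig_coch {u : k} (hu : u ≠ 0) {a b : V} (ha : a ∈ TT E L) (hb : b ∈ TT E L)
    {la lb : Fin 4 → ℤ} (wa : E.IsWt la a) (wb : E.IsWt lb b) (h9 : nu0 ⬝ᵥ la - nu0 ⬝ᵥ lb = 9)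
    {x : Mat k} (hx : IsSp x) {j : ℤ} (e : coch nu0 u * x = u ^ j • (x * coch nu0 u)) :
    M.ρ (coch nu0 u) (J b (κ (E.φ x a))) - u ^ (9 + j) • J b (κ (E.φ x a)) ∈ k ∙ o := by
  have := C.equiv_coch (coch_nu0_mem_HH hu) (coch_nu0_mem_HH (inv_ne_zero hu))
    (coch_mul_inv nu0 hu) (by simpa using coch_mul_inv nu0 (inv_ne_zero hu)) ha hb hx
    (hx.smul (u ^ j)) (by rw [e, smul_mul_assoc])
  rw [coch_transpose, wa nu0 u hu, wb nu0 _ (inv_ne_zero hu)] at this
  simp only [map_smul, LinearMap.smul_apply, smul_smul] at this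
  convert this using 3
  rw [← h9, _root_.inv_zpow', ← zpow_add₀ hu, ← zpow_add₀ hu]
  congr 1
  ring

theorem exists_sol [FiniteDimensional k W] {a b c d : V} (ha : a ∈ TT E L) (hb : b ∈ TT E L)
    (hc : c ∈ TT E L) (hd : d ∈ TT E L) {la lb lc ld : Fin 4 → ℤ} (wa : E.IsWt la a)
    (wb : E.IsWt lb b) (wc : E.IsWt lc c) (wd : E.IsWt ld d)
    (h9 : nu0 ⬝ᵥ la - nu0 ⬝ᵥ lb = 9) (h9' : nu0 ⬝ᵥ lc - nu0 ⬝ᵥ ld = 9) :
    ∃ m, Sol E κ M o J a b c d m := by
  obtain ⟨u, hu, hord⟩ := exists_large_order (k := k) 15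
  have hord' : ∀ w : ℤ, 1 ≤ w → w ≤ 15 → u ^ w ≠ 1 := fun w h1 h2 => by
    have := hord w.toNat (by omega) (by omega)
    rwa [← zpow_natCast, Int.toNat_of_nonneg (by omega)] at this
  set h := M.ρ (coch nu0 u) with hh
  have ho : h o = o := C.H.rho_HH (coch_nu0_mem_HH hu)
  let Wt : ℤ → ℤ → Submodule k W := fun p q => ⨆ w ∈ Finset.Icc p q, h.eigenspace (u ^ w)
  have Wmono : ∀ p q p' q', p' ≤ p → q ≤ q' → Wt p q ≤ Wt p' q' := fun p q p' q' h1 h2 =>
    biSup_mono fun w hw => by simp only [Finset.mem_Icc] at hw ⊢; omega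
  have Wmem : ∀ p q w z, p ≤ w → w ≤ q → h z = u ^ w • z → z ∈ Wt p q := fun p q w z h1 h2 hz =>
    Submodule.mem_iSup_of_mem w (Submodule.mem_iSup_of_mem (Finset.mem_Icc.mpr ⟨h1, h2⟩)
      (Module.End.mem_eigenspace_iff.mpr hz))
  have Wphi : ∀ p q x, IsSp x → ∀ z ∈ Wt p q, M.φ x z ∈ Wt (p - 2) (q + 2) := by
    intro p q x hx
    obtain ⟨xc, x1, x2, rfl⟩ := sp_decomp hx
    suffices Wt p q ≤ (Wt (p - 2) (q + 2)).comap (M.φ (∑ j ∈ Finset.Icc (-2 : ℤ) 2, xc j)) from
      fun z hz => this hz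
    refine iSup₂_le fun w hw z hz => ?_
    rw [Submodule.mem_comap, map_sum, LinearMap.sum_apply]
    refine Submodule.sum_mem _ fun j hj => ?_
    simp only [Finset.mem_Icc] at hw hj
    refine Wmem _ _ (w + j) _ (by omega) (by omega) ?_
    have := LinearMap.congr_fun (M.ad _ _ _ (coch_mem nu0 hu) (x1 j) ((x1 j).smul (u ^ j))
      (by rw [x2 j u hu, smul_mul_assoc])) z
    simp only [Module.End.mul_apply, map_smul, LinearMap.smul_apply] at this
    rw [this, ← hh, Module.End.mem_eigenspace_iff.mp hz, map_smul, smul_smul, zpow_add₀ hu,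
      mul_comm]
  have hoW : o ∉ Wt 1 15 := by
    intro hoW
    have hd := h.eigenspaces_iSupIndep (1 : k)
    have h1 : Wt 1 15 ≤ ⨆ j, ⨆ (_ : j ≠ (1 : k)), h.eigenspace j := by
      refine iSup₂_le fun w hw => ?_
      simp only [Finset.mem_Icc] at hw
      exact le_iSup₂_of_le (u ^ w) (hord' w hw.1 hw.2) le_rfl
    exact C.H.ne (Submodule.disjoint_def.mp hd o
      (Module.End.mem_eigenspace_iff.mpr (by rw [ho, one_smul])) (h1 hoW))
  obtain ⟨l0, hl0, hl1⟩ := Submodule.exists_le_ker_of_notMem hoW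
  let l : W →ₗ[k] k := (l0 o)⁻¹ • l0
  have hlo : l o = 1 := by simp [l, inv_mul_cancel₀ hl0]
  have hlW : ∀ z ∈ Wt 1 15, l z = 0 := fun z hz => by
    have : l0 z = 0 := hl1 hz
    simp [l, this]
  have hzero : ∀ z ∈ Wt 1 15, z ∈ k ∙ o → z = 0 := fun z hz hz' => by
    obtain ⟨r, rfl⟩ := Submodule.mem_span_singleton.mp hz'
    have := hlW _ hz
    rw [map_smul, hlo, smul_eq_mul, mul_one] at this
    rw [this, zero_smul]
  let C0 : Mat k →ₗ[k] W := J b ∘ₗ κ ∘ₗ E.φ.flip a + J d ∘ₗ κ ∘ₗ E.φ.flip c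
  have hC0 : ∀ x, C0 x = J b (κ (E.φ x a)) + J d (κ (E.φ x c)) := fun x => rfl
  let c1 : Mat k →ₗ[k] W := C0 - (l ∘ₗ C0).smulRight o
  have hc1 : ∀ x, c1 x = C0 x - l (C0 x) • o := fun x => rfl
  have hc2 : ∀ x, c1 x - C0 x ∈ k ∙ o := fun x => by
    rw [hc1, sub_sub_cancel_left]
    exact neg_mem (Submodule.smul_mem _ _ (Submodule.mem_span_singleton_self o))
  have hc3 : ∀ x, IsSp x → c1 x ∈ Wt 7 11 := by
    intro x hx
    obtain ⟨xc, x1, x2, rfl⟩ := sp_decomp hx
    rw [map_sum]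
    refine Submodule.sum_mem _ fun j hj => ?_
    simp only [Finset.mem_Icc] at hj
    have e1 := add_mem (C.eig_coch hu ha hb wa wb h9 (x1 j) (x2 j u hu))
      (C.eig_coch hu hc hd wc wd h9' (x1 j) (x2 j u hu))
    have e2 : h (C0 (xc j)) - u ^ (9 + j) • C0 (xc j) ∈ k ∙ o := by
      rw [hC0, map_add, smul_add]; convert e1 using 1; abel
    obtain ⟨r, hr⟩ := Submodule.mem_span_singleton.mp e2
    have hne : u ^ (9 + j) - 1 ≠ 0 := sub_ne_zero.mpr (hord' _ (by omega) (by omega))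
    have e3 : h (C0 (xc j) + (r / (u ^ (9 + j) - 1)) • o)
        = u ^ (9 + j) • (C0 (xc j) + (r / (u ^ (9 + j) - 1)) • o) := by
      rw [map_add, map_smul, ho, sub_eq_iff_eq_add.mp hr.symm]
      match_scalars
      · field_simp; ring
      · ring
    have e4 := Wmem 7 11 (9 + j) _ (by omega) (by omega) e3
    have e5 := hlW _ (Wmono _ _ 1 15 (by omega) (by omega) e4)
    rw [map_add, map_smul, hlo, smul_eq_mul, mul_one] at e5
    rw [hc1, eq_neg_of_add_eq_zero_left e5, neg_smul, sub_neg_eq_add]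
    exact e4
  have hphi : ∀ x, IsSp x → ∀ y, M.φ x (c1 y) = M.φ x (C0 y) := fun x hx y => by
    rw [hc1, map_sub, map_smul, C.H.inv x hx, smul_zero, sub_zero]
  have hlie : ∀ x y, IsSp x → IsSp y →
      c1 (x * y - y * x) = M.φ x (c1 y) - M.φ y (c1 x) := by
    intro x y hx hy
    rw [← sub_eq_zero]
    refine hzero _ (sub_mem (Wmono _ _ _ _ (by omega) (by omega) (hc3 _ (hx.lie hy)))
      (sub_mem (Wmono _ _ _ _ (by omega) (by omega) (Wphi _ _ x hx _ (hc3 y hy)))
        (Wmono _ _ _ _ (by omega) (by omega) (Wphi _ _ y hy _ (hc3 x hx))))) ?_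
    have := add_mem (hc2 (x * y - y * x)) (add_mem
      (sub_mem (C.J_phi hb hx (ha y hy)) (C.J_phi hb hy (ha x hx)))
      (sub_mem (C.J_phi hd hx (hc y hy)) (C.J_phi hd hy (hc x hx))))
    rw [hphi x hx, hphi y hy]
    rw [hC0, E.lie_apply hx hy, E.lie_apply hx hy] at this
    simp only [hC0, map_sub κ, map_sub (J _), map_add] at this ⊢
    convert this using 1
    abel
  have hres : ∀ x, IsSp x → x * x = 0 → M.φ x (M.φ x (c1 x)) = 0 := by
    intro x hx h2
    refine hzero _ (Wmono _ _ _ _ (by omega) (by omega)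
      (Wphi _ _ x hx _ (Wphi _ _ x hx _ (hc3 x hx)))) ?_
    have q : ∀ {a b : V}, a ∈ TT E L → b ∈ TT E L →
        M.φ x (M.φ x (J b (κ (E.φ x a)))) ∈ k ∙ o := fun {a b} ha hb => by
      have q1 := C.H.kill hx (C.J_phi hb hx (ha x hx))
      have q2 := C.J_phi hb hx (C.F.stab x hx _ (ha x hx))
      rw [E.res_apply hx h2, map_zero, map_zero, zero_sub, neg_mem_iff] at q2
      rw [map_sub] at q1
      rwa [sub_eq_zero.mp q1] at q2
    rw [hphi x hx, hC0, map_add, map_add]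
    exact add_mem (q ha hb) (q hc hd)
  let B : ResMod k (W × k) :=
    { φ :=
        { toFun := fun x => LinearMap.inl k W k ∘ₗ
            (M.φ x ∘ₗ LinearMap.fst k W k + (LinearMap.snd k W k).smulRight (c1 x))
          map_add' := fun x y => by
            refine LinearMap.ext fun p => ?_
            simp only [map_add, LinearMap.comp_apply, LinearMap.add_apply, LinearMap.fst_apply,
              LinearMap.smulRight_apply, LinearMap.snd_apply, smul_add]
            abel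
          map_smul' := fun r x => by
            refine LinearMap.ext fun p => ?_
            simp only [map_add, map_smul, LinearMap.comp_apply, LinearMap.add_apply,
              LinearMap.fst_apply, LinearMap.smulRight_apply, LinearMap.snd_apply, smul_add,
              LinearMap.smul_apply, RingHom.id_apply, smul_comm r] }
      lie := fun x y hx hy => by
        refine LinearMap.ext fun p => Prod.ext ?_ (by simp)
        simp [M.lie_apply hx hy, hlie x y hx hy, -map_sub, smul_sub]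
        abel
      res := fun x hx h2 => by
        refine LinearMap.ext fun p => Prod.ext ?_ (by simp [pow_succ])
        simp [pow_succ, M.res_apply hx h2, hres x hx h2] }
  have hB : ∀ x p, B.φ x p = (M.φ x p.1 + p.2 • c1 x, 0) := fun x p => rfl
  obtain ⟨G, G1, G2⟩ := C.H.inj _ B (LinearMap.ker (LinearMap.snd k W k)) ⊤ (LinearMap.fst k W k)
    (fun x _ p _ => by simp [hB]) (fun _ _ _ _ => trivial) le_top (fun x _ p hp => by
      have : p.2 = 0 := hp
      simp [hB, this])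
  refine ⟨G (0, 1), fun x hx => ?_⟩
  rw [← G1 x hx _ trivial, G2 _ (by simp [hB]), hB]
  have := hc2 x
  rw [hC0] at this
  simpa [sub_sub] using this

end Ctx

theorem f12 : fZ 1 * fZ 2 * fZ 1 = 0 ∧ fZ 2 * fZ 1 * fZ 2 = 0 := by decide +kernel

theorem core [Infinite k] [CharP k 3] [FiniteDimensional k V] [FiniteDimensional k W]
    (E : GPkg k V) (M : GPkg k W) (o : W) (ho : o ≠ 0) (hog : ∀ x, IsSp x → M.φ x o = 0)
    (hess : ∀ N : Submodule k W, M.Stab N → N ≠ ⊥ → o ∈ N) (hinj : M.IsInj)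
    (L : Submodule k V) (κ : V →ₗ[k] V →ₗ[k] k) (hL : FormData E L κ)
    (bound : ∀ lam w, E.IsWt lam w → (∃ i, 6 ≤ |lam i|) → w = 0)
    (t0 : V) (ht0 : E.IsWt ![3, 3, 3, 0] t0)
    (hE : ∀ i, E.φ (ee k i) t0 ∈ L) (hF : ∀ i, E.φ (ff k i) t0 ∈ L)
    (hy : yv E t0 ∈ L) (hb : κ (yv E t0) (yv E t0) ≠ 0) : False := by
  have h3 : (3 : k) = 0 := by exact_mod_cast CharP.cast_eq_zero k 3
  have H : Hull M o := ⟨ho, hog, hess, hinj⟩
  obtain ⟨J, hJ⟩ := hL.exists_J H
  have C : Ctx E L κ M o J := ⟨hL, H, fun t ht => (hJ t ht).1, fun t ht => (hJ t ht).2⟩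
  have T0 : t0 ∈ TT E L := fun x hx =>
    sp_induction h3 (P := fun x => E.φ x t0 ∈ L)
      (fun x y a b => by rw [map_add]; exact add_mem a b)
      (fun c x a => by rw [map_smul]; exact L.smul_mem c a)
      (fun x y hx hy a b => by
        rw [E.lie_apply hx hy]; exact sub_mem (hL.stab x hx _ b) (hL.stab y hy _ a)) hE hF hx
  have s1 : ff k 1 * ff k 2 * ff k 1 = 0 := by rw [ff, ff, ← map_mul, ← map_mul, f12.1, map_zero]
  have s2 : ff k 2 * ff k 1 * ff k 2 = 0 := by rw [ff, ff, ← map_mul, ← map_mul, f12.2, map_zero]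
  have SE1 := fun w => LinearMap.congr_fun
    (E.serre (ff_sp k 1) (ff_sp k 2) (ff_sq k 1) (ff_sq k 2) s1 s2) w
  have SE2 := fun w => LinearMap.congr_fun
    (E.serre (ff_sp k 2) (ff_sp k 1) (ff_sq k 2) (ff_sq k 1) s2 s1) w
  have SM1 := fun w => LinearMap.congr_fun
    (M.serre (ff_sp k 1) (ff_sp k 2) (ff_sq k 1) (ff_sq k 2) s1 s2) w
  have SM2 := fun w => LinearMap.congr_fun
    (M.serre (ff_sp k 2) (ff_sp k 1) (ff_sq k 2) (ff_sq k 1) s2 s1) w
  simp only [LinearMap.add_apply, Module.End.mul_apply, LinearMap.zero_apply] at SE1 SE2 SM1 SM2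
  have wF : ∀ {l : Fin 4 → ℤ} {u : V}, E.IsWt l u → ∀ i (l' : Fin 4 → ℤ),
      l + ((3 : ℕ) : ℤ) • -al i = l' → E.IsWt l' (E.Δ (ff k i) 3 u) :=
    fun hu i _ h => (hu.Δ (ff_sp k i) (ff_sq k i) (ff_wt i) 3).congr h
  have wE : ∀ {l : Fin 4 → ℤ} {u : V}, E.IsWt l u → ∀ i (l' : Fin 4 → ℤ),
      l + ((3 : ℕ) : ℤ) • al i = l' → E.IsWt l' (E.Δ (ee k i) 3 u) :=
    fun hu i _ h => (hu.Δ (ee_sp k i) (ee_sq k i) (ee_wt i) 3).congr h
  have sl : ∀ {l : Fin 4 → ℤ} {u : V}, E.IsWt l u → ∀ i (m : ℕ), cor i ⬝ᵥ l = (3 * m : ℕ) →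
      m ≤ 2 → E.Δ (ee k i) 3 (E.Δ (ff k i) 3 u) =
        E.Δ (ff k i) 3 (E.Δ (ee k i) 3 u) + (m : k) • u := by
    intro l u hu i m hm hm2
    rw [hu.sl2 i _ hm 3]
    simp only [Finset.Nat.antidiagonal_succ, Finset.Nat.antidiagonal_zero, Finset.sum_cons,
      Finset.sum_map, Finset.map_singleton, Finset.sum_singleton, Function.Embedding.prodMap,
      Function.Embedding.coeFn_mk, Prod.map, Nat.succ_eq_add_one,
      Function.Embedding.coe_refl, id, zero_add, Nat.reduceAdd,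
      E.Δ_zero (ee_sp k i) (ee_sq k i), E.Δ_zero (ff_sp k i) (ff_sq k i), Module.End.one_apply]
    have c6 : (6 : k) = 0 := by linear_combination 2 * h3
    have c15 : (15 : k) = 0 := by linear_combination 5 * h3
    have c20 : (20 : k) = 2 := by linear_combination 6 * h3
    interval_cases m <;> simp [Nat.choose, h3, c6, c15, c20]
  have cm : ∀ i j, i ≠ j → ∀ u, E.Δ (ee k i) 3 (E.Δ (ff k j) 3 u) =
      E.Δ (ff k j) 3 (E.Δ (ee k i) 3 u) := fun i j hij u =>
    LinearMap.congr_fun (E.Δ_comm (ee_sp k i) (ee_sq k i) (ff_sp k j) (ff_sq k j)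
      (ee_ff_comm hij) 3 3) u
  unfold yv at hy hb
  have wt := wF (wF ht0 2 ![3, 3, 0, 3] (by decide)) 3 ![3, 3, 0, -3] (by decide)
  have Tt := hL.TT_ff 3 3 (hL.TT_ff 2 3 T0)
  generalize E.Δ (ff k 3) 3 (E.Δ (ff k 2) 3 t0) = t at *
  have wA := wF wt 1 ![3, 0, 3, -3] (by decide)
  have wB := wF wt 2 ![3, 3, -3, 0] (by decide)
  have wz2 := wF wB 1 ![3, 0, 0, 0] (by decide)
  have wz3 := wF wA 2 ![3, 0, 0, 0] (by decide)
  have wp2 := wF wz3 1 ![3, -3, 3, 0] (by decide)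
  have wp3 := wF wz2 2 ![3, 0, -3, 3] (by decide)
  have wq := wF wp2 2 ![3, -3, 0, 3] (by decide)
  have e1t := bound _ _ (wE wt 1 ![3, 6, -3, -3] (by decide)) ⟨1, by decide⟩
  have e2t := bound _ _ (wE wt 2 ![3, 3, 3, -6] (by decide)) ⟨3, by decide⟩
  have d1A := bound _ _ (wF wA 1 ![3, -3, 6, -3] (by decide)) ⟨2, by decide⟩
  have d2B := bound _ _ (wF wB 2 ![3, 3, -6, 3] (by decide)) ⟨2, by decide⟩
  have e1A := sl wt 1 1 (by decide) (by omega)
  have e2B := sl wt 2 1 (by decide) (by omega)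
  have e2z3 := sl wA 2 2 (by decide) (by omega)
  have e1z2 := sl wB 1 2 (by decide) (by omega)
  have e1p2 := sl wz3 1 0 (by decide) (by omega)
  have e2p3 := sl wz2 2 0 (by decide) (by omega)
  have e2q := sl wp2 2 1 (by decide) (by omega)
  have e1q := sl wp3 1 1 (by decide) (by omega)
  have c12 := cm 1 2 (by decide)
  have c21 := cm 2 1 (by decide)
  have TA := hL.TT_ff 1 3 Tt
  have TB := hL.TT_ff 2 3 Tt
  have Tp2 := hL.TT_ff 1 3 (hL.TT_ff 2 3 TA)
  have Tp3 := hL.TT_ff 2 3 (hL.TT_ff 1 3 TB)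
  have Tq := hL.TT_ff 2 3 Tp2
  have Tz2 := hL.TT_ff 1 3 TB
  have Tz3 := hL.TT_ff 2 3 TA
  obtain ⟨m1, hm1⟩ := C.exists_sol Tt Tp2 TB Tq wt wp2 wB wq (by decide) (by decide)
  obtain ⟨m2, hm2⟩ := C.exists_sol Tt Tp3 TA Tq wt wp3 wA wq (by decide) (by decide)
  have st12 := fun y hy => C.step 2 Tt Tp2 TB Tq hm1 (y := y) hy
  have st11 := fun y hy => C.step 1 Tt Tp2 TB Tq hm1 (y := y) hy
  have st21 := fun y hy => C.step 1 Tt Tp3 TA Tq hm2 (y := y) hy
  have st22 := fun y hy => C.step 2 Tt Tp3 TA Tq hm2 (y := y) hy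
  have dy1 := SE1 t
  have dy2 := SE2 t
  have hq := SE2 (E.Δ (ff k 1) 3 t)
  simp only [d1A, d2B, map_zero, add_zero, zero_add] at dy1 dy2 hq
  have hq' : E.Δ (ff k 1) 3 (E.Δ (ff k 2) 3 (E.Δ (ff k 1) 3 (E.Δ (ff k 2) 3 t))) =
      E.Δ (ff k 2) 3 (E.Δ (ff k 1) 3 (E.Δ (ff k 2) 3 (E.Δ (ff k 1) 3 t))) := by
    rw [eq_neg_of_add_eq_zero_right dy2, map_neg, eq_neg_of_add_eq_zero_left hq]
  rw [e1t, map_zero, zero_add, Nat.cast_one, one_smul] at e1A
  rw [e2t, map_zero, zero_add, Nat.cast_one, one_smul] at e2B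
  rw [c21, e2t, map_zero, map_zero, zero_add] at e2z3
  rw [c12, e1t, map_zero, map_zero, zero_add] at e1z2
  rw [c12, e1A, Nat.cast_zero, zero_smul, add_zero] at e1p2
  rw [c21, e2B, Nat.cast_zero, zero_smul, add_zero] at e2p3
  have e2p2 := c21 (E.Δ (ff k 2) 3 (E.Δ (ff k 1) 3 t))
  have e1p3 := c12 (E.Δ (ff k 1) 3 (E.Δ (ff k 2) 3 t))
  rw [e2z3, map_smul, d1A, smul_zero] at e2p2
  rw [e1z2, map_smul, d2B, smul_zero] at e1p3
  rw [e2p2, map_zero, zero_add, Nat.cast_one, one_smul] at e2q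
  rw [e1p3, map_zero, zero_add, Nat.cast_one, one_smul, hq'] at e1q
  have y1 : E.Δ (ff k 1) 3 (E.Δ (ff k 1) 3 (E.Δ (ff k 2) 3 t) + E.Δ (ff k 2) 3 (E.Δ (ff k 1) 3 t))
      = 0 := by rw [map_add, dy1]
  have y2 : E.Δ (ff k 2) 3 (E.Δ (ff k 1) 3 (E.Δ (ff k 2) 3 t) + E.Δ (ff k 2) 3 (E.Δ (ff k 1) 3 t))
      = 0 := by rw [map_add, add_comm, dy2]
  simp only [e2p2, e2q, e1p2, e1q, e1p3, e2p3, d1A, d2B] at st12 st11 st21 st22
  have DJ1 := fun t ht => C.D_J 1 (t := t) ht (kappa_mem_DD (κ := κ) hy)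
  have DJ2 := fun t ht => C.D_J 2 (t := t) ht (kappa_mem_DD (κ := κ) hy)
  have a1 := DJ1 _ Tq
  have a2 := DJ2 _ Tq
  have a3 := DJ1 _ Tp2
  have a4 := DJ2 _ Tp3
  rw [e1q] at a1
  rw [e2q] at a2
  rw [e1p2] at a3
  rw [e2p3] at a4
  clear DJ1 DJ2 dy1 dy2 hq hq' e1q e2q e1A e2B e2z3 e1z2 e2p2 e1p3 d1A d2B wA wB wz2 wz3 wp2 wp3 wq
  generalize E.Δ (ff k 1) 3 t = tA at *
  generalize E.Δ (ff k 2) 3 t = tB at *
  generalize E.Δ (ff k 1) 3 tB = z2 at *
  generalize E.Δ (ff k 2) 3 tA = z3 at *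
  generalize E.Δ (ff k 1) 3 z3 = p2 at *
  generalize E.Δ (ff k 2) 3 z2 = p3 at *
  generalize E.Δ (ff k 2) 3 p2 = q at *
  have n1 : M.Δ (ff k 2) 3 m1 ∈ k ∙ o := H.quot_inv fun x hx => by
    simpa using st12 x hx
  have n2 : M.Δ (ff k 1) 3 m2 ∈ k ∙ o := H.quot_inv fun x hx => by
    simpa using st21 x hx
  have n3 : M.Δ (ff k 1) 3 m1 + M.Δ (ff k 2) 3 m2 - J q (κ (z2 + z3)) ∈ k ∙ o :=
    H.quot_inv fun x hx => by
      have b1 := C.J_L hy (kappa_mem_DD (κ := κ) (Tt x hx))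
      have := add_mem (add_mem (st11 x hx) (st22 x hx)) (C.J_phi Tq hx hy)
      rw [map_add, LinearMap.add_apply] at b1
      simp only [map_add, map_sub] at this ⊢
      convert this using 1
      rw [eq_neg_of_add_eq_zero_left b1]
      abel
  have R : ∀ i, E.Δ (ff k i) 3 (z2 + z3) = 0 →
      E.dual.Δ (ff k i) 3 (κ (z2 + z3)) ∈ L.dualAnnihilator := fun i hi => by
    rw [Submodule.mem_dualAnnihilator]
    intro l hl
    change κ (z2 + z3) (E.Δ (ff k i)ᵀ 3 l) = 0
    rw [ff_transpose, ← hL.contra_D i 3 hy hl, hi, map_zero, LinearMap.zero_apply]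
  have ev : ∀ i u, E.dual.Δ (ff k i) 3 (κ (z2 + z3)) u = κ (z2 + z3) (E.Δ (ee k i) 3 u) :=
    fun i u => by rw [← ff_transpose]; rfl
  rw [C.onR _ Tp2 _ (R 1 y1), ev, e1p2] at a3
  rw [C.onR _ Tp3 _ (R 2 y2), ev, e2p3] at a4
  have k1 := H.D_kill 1 n3
  have k2 := H.D_kill 2 n3
  rw [map_sub, map_add, a1, sub_eq_zero] at k1
  rw [map_sub, map_add, a2, sub_eq_zero] at k2
  have k3 := congrArg (M.Δ (ff k 2) 3) k1
  have k4 := congrArg (M.Δ (ff k 1) 3) k2
  rw [map_add, map_sub, H.D_kill 2 (C.J_R Tq (R 1 y1)), a4] at k3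
  rw [map_add, map_sub, H.D_kill 1 (C.J_R Tq (R 2 y2)), a3] at k4
  have k5 := SM1 m1
  have k6 := SM2 m2
  rw [H.D_kill 1 n1, map_zero, zero_add] at k5
  rw [H.D_kill 2 n2, map_zero, zero_add] at k6
  have k7 := C.J_L hy (kappa_mem_DD (κ := κ) hy)
  rw [map_add J, LinearMap.add_apply] at k7
  have k8 : κ (z2 + z3) (z2 + z3) • o = 0 := by
    rw [map_add (κ (z2 + z3)), add_smul]
    linear_combination (norm := module) k3 + k4 - k5 - k6 + k7
  exact hb ((smul_eq_zero.mp k8).resolve_right ho)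

end Pool.Agent.MP_2042ac_al

end
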