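import Pool.Agent.MP_2042ac_al.Mg.Tr
import Pool.Agent.MP_2042ac_al.Mg.Core

-- part MP_2042ac_al.Diff
section

/-!
The differential of a module over the Frobenius kernel.
-/

set_option autoImplicit false

namespace Pool.Agent.MP_2042ac_al

open Matrix

/-- truncated exponential in characteristic three (`1 / 2 = -1`) -/
def ex {R : Type} [CommRing R] {A : Type} [Ring A] [Algebra R A] (η : R) (u : A) : A :=
  1 + η • u - η ^ 2 • (u * u)

variable {k : Type} [Field k] [CharP k 3]

omit [CharP k 3] in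
theorem mem_frob {R : Type} [CommRing R] [Algebra k R] {g : Mat R} :
    Frob1 k R g ↔ InG1 g := Iff.rfl

section helpers

variable {m n : Type}

theorem Diff_two {R Al : Type} [CommRing R] [Ring Al] [Algebra R Al] (a b : R) (u v : Al) :
    (1 + a • u) * (1 + b • v) = 1 + a • u + b • v + (a * b) • (u * v) := by
  simp only [mul_add, add_mul, one_mul, mul_one, smul_mul_assoc, mul_smul_comm]
  module

theorem Diff_comm {R Al : Type} [CommRing R] [Ring Al] [Algebra R Al] {a b : R} (ha : a * a = 0)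
    (hb : b * b = 0) (u v w : Al) :
    (1 + b • v) * (1 + a • u) * (1 + (a * b) • w) =
      1 + a • u + b • v + (a * b) • (v * u + w) := by
  simp only [mul_add, add_mul, one_mul, mul_one, smul_mul_assoc, mul_smul_comm]
  linear_combination (norm := module) (b * ha) • (u * w) + (a * hb) • (v * w) +
    (b * b * ha) • (v * u * w)

theorem Diff_three {R Al : Type} [CommRing R] [Ring Al] [Algebra R Al] (a b c : R) (u : Al) :
    (1 + a • u) * (1 + b • u) * (1 + c • u) =
      1 + (a + b + c) • u + (a * b + a * c + b * c) • (u * u) + (a * b * c) • (u * u * u) := by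
  simp only [mul_add, add_mul, one_mul, mul_one, smul_mul_assoc, mul_smul_comm]
  module

omit [CharP k 3] in
theorem Diff_map_one_add {R S : Type} [CommRing R] [Algebra k R] [CommRing S] [Algebra k S]
    [DecidableEq m] (f : R →ₐ[k] S) (η : R) (x : Matrix m m k) :
    (1 + η • x.map (algebraMap k R)).map f = 1 + f η • x.map (algebraMap k S) := by
  ext a b
  by_cases h : a = b <;> simp [h]

omit [CharP k 3] in
theorem Diff_cancel {ι : Type} [Fintype ι] [DecidableEq ι] {d : ℕ} (a : ι → Fin d)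
    {B C : Matrix m n k} (h : Tr.ymon k a • B.map (algebraMap k (Tr k ι d)) =
      Tr.ymon k a • C.map (algebraMap k (Tr k ι d))) : B = C := by
  ext i j
  have h1 := congrArg (Tr.cf k a) (congrFun (congrFun h i) j)
  simp only [Matrix.smul_apply, Matrix.map_apply, smul_eq_mul] at h1
  rw [mul_comm, mul_comm (Tr.ymon k a), ← Algebra.smul_def, ← Algebra.smul_def, map_smul, map_smul,
    Tr.cf_ymon] at h1
  simpa using h1

omit [CharP k 3] in
theorem Diff_cancel1 {B C : Matrix m n k}
    (h : Tr.yy k 2 () • B.map (algebraMap k (Tr k Unit 2)) =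
      Tr.yy k 2 () • C.map (algebraMap k (Tr k Unit 2))) : B = C :=
  Diff_cancel (ι := Unit) (d := 2) (fun _ => 1) (by simpa [Tr.ymon] using h)

omit [CharP k 3] in
theorem Diff_cancel2 {B C : Matrix m n k}
    (h : (Tr.yy k 2 (0 : Fin 2) * Tr.yy k 2 1) • B.map (algebraMap k (Tr k (Fin 2) 2)) =
      (Tr.yy k 2 (0 : Fin 2) * Tr.yy k 2 1) • C.map (algebraMap k (Tr k (Fin 2) 2))) : B = C :=
  Diff_cancel (ι := Fin 2) (d := 2) (fun _ => 1) (by simpa [Tr.ymon, Fin.prod_univ_two] using h)

omit [CharP k 3] in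
theorem Diff_cancel3 {B C : Matrix m n k}
    (h : (Tr.yy k 2 (0 : Fin 3) * Tr.yy k 2 1 * Tr.yy k 2 2) •
        B.map (algebraMap k (Tr k (Fin 3) 2)) =
      (Tr.yy k 2 (0 : Fin 3) * Tr.yy k 2 1 * Tr.yy k 2 2) •
        C.map (algebraMap k (Tr k (Fin 3) 2))) : B = C :=
  Diff_cancel (ι := Fin 3) (d := 2) (fun _ => 1) (by simpa [Tr.ymon, Fin.prod_univ_three] using h)

omit [CharP k 3] in
theorem Diff_sq {ι : Type} (i : ι) : Tr.yy k 2 i * Tr.yy k 2 i = 0 := by
  rw [← pow_two]; exact Tr.yy_pow k 2 i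

omit [CharP k 3] in
theorem Diff_lift {R : Type} [CommRing R] [Algebra k R] {d : ℕ} {η : R} (hη : η ^ d = 0)
    (t : Tr k Unit d) : Tr.lift (fun _ : Unit => η) (fun _ => hη) t =
      ∑ j : Fin d, η ^ (j : ℕ) * algebraMap k R (Tr.cf k (fun _ => j) t) := by
  conv_lhs => rw [← Tr.expand t]
  rw [map_sum, ← (Equiv.funUnique Unit (Fin d)).symm.sum_comp]
  refine Finset.sum_congr rfl fun j _ => ?_
  rw [map_smul, Algebra.smul_def, mul_comm]
  congr 1
  simp [Tr.ymon, Tr.lift_yy]

theorem Diff_mem {R : Type} [CommRing R] [Algebra k R] {x : Mat k} (hx : IsSp x) {η : R}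
    (hη : η * η = 0) : Frob1 k R (1 + η • x.map (algebraMap k R)) :=
  inG1_one_add (three_eq_zero k R) (by rw [pow_succ, pow_two, hη, zero_mul])
    ((hx.map (algebraMap k R)).one_add_eps_mem hη)

omit [CharP k 3] in
theorem Diff_map_sq {R : Type} [CommRing R] [Algebra k R] {x : Mat k} (h2 : x * x = 0) :
    x.map (algebraMap k R) * x.map (algebraMap k R) = 0 := by
  rw [← Matrix.map_mul, h2, Matrix.map_zero _ (map_zero _)]

theorem Diff_mem3 {R : Type} [CommRing R] [Algebra k R] {x : Mat k} (hx : IsSp x) (h2 : x * x = 0)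
    {η : R} (hη : η ^ 3 = 0) : Frob1 k R (1 + η • x.map (algebraMap k R)) :=
  inG1_one_add (three_eq_zero k R) hη
    ((hx.map (algebraMap k R)).one_add_smul_mem (Diff_map_sq h2) η)

theorem Diff_mul_mem {R : Type} [CommRing R] [Algebra k R] {g g' : Mat R} (h : Frob1 k R g)
    (h' : Frob1 k R g') : Frob1 k R (g * g') := InG1.mul (three_eq_zero k R) h h'

omit [CharP k 3] in
theorem Diff_congr {H : Pts k} (A : Rep H) {R : Type} [CommRing R] [Algebra k R] {g g' : Mat R}
    (e : g = g') (h : H R g) (h' : H R g') : A.act R g h = A.act R g' h' := by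
  subst e; rfl

omit [CharP k 3] in
theorem Diff_nat {H : Pts k} (A : Rep H) {R S : Type} [CommRing R] [Algebra k R] [CommRing S]
    [Algebra k S] (f : R →ₐ[k] S) {g : Mat R} {g' : Mat S} (e : g.map f = g') (h : H R g)
    (h' : H S g') : A.act S g' h' = (A.act R g h).map f := by
  subst e; exact A.natural R S f g h h'

omit [CharP k 3] in
theorem Diff_mul {H : Pts k} (A : Rep H) {R : Type} [CommRing R] [Algebra k R] {g g' u : Mat R}
    (e : g * g' = u) (h : H R g) (h' : H R g') (hu : H R u) :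
    A.act R u hu = A.act R g h * A.act R g' h' := by
  subst e; exact A.act_mul R g g' h h' hu

omit [CharP k 3] in
theorem Diff_univ {H : Pts k} (A : Rep H) {d : ℕ} {x : Mat k}
    (h0 : H (Tr k Unit d) (1 + Tr.yy k d () • x.map (algebraMap k _)))
    {R : Type} [CommRing R] [Algebra k R] {η : R} (hη : η ^ d = 0)
    (h : H R (1 + η • x.map (algebraMap k R))) :
    A.act R _ h = ∑ j : Fin d, η ^ (j : ℕ) •
      ((A.act _ _ h0).map (Tr.cf k fun _ => j)).map (algebraMap k R) := by
  rw [Diff_nat A (Tr.lift (fun _ : Unit => η) (fun _ => hη))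
    (by rw [Diff_map_one_add, Tr.lift_yy]) h0 h]
  ext a b
  simp [Diff_lift, Matrix.sum_apply]

omit [CharP k 3] in
theorem Diff_univ_zero {H : Pts k} (A : Rep H) {d : ℕ} {x : Mat k} (h1 : H k 1)
    (h0 : H (Tr k Unit (d + 1)) (1 + Tr.yy k (d + 1) () • x.map (algebraMap k _))) :
    (A.act _ _ h0).map (Tr.cf k fun _ => 0) = 1 := by
  have e : (1 : Mat k) + (0 : k) • x.map (algebraMap k k) = 1 := by simp
  have h2 := Diff_univ A h0 (R := k) (η := 0) (by simp) (by rw [e]; exact h1)
  rw [Diff_congr A e _ h1, A.act_one, Fin.sum_univ_succ] at h2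
  simpa using h2.symm

theorem Diff_prod {R : Type} [CommRing R] [Algebra k R] (A : Rep (Frob1 k)) {ι : Type}
    (g : ι → Mat R) (hg : ∀ i, Frob1 k R (g i)) (l : List ι) :
    ∃ h : Frob1 k R (l.map g).prod, A.act R _ h = (l.map fun i => A.act R _ (hg i)).prod := by
  induction l with
  | nil => exact ⟨InG1.one, A.act_one R InG1.one⟩
  | cons i l ih =>
    obtain ⟨h, e⟩ := ih
    refine ⟨Diff_mul_mem (hg i) h, ?_⟩
    exact (A.act_mul R _ _ (hg i) h _).trans (by rw [e, List.map_cons, List.prod_cons])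

theorem Diff_inter {R : Type} [CommRing R] [Fintype m] [DecidableEq m] [Fintype n] [DecidableEq n]
    {ι : Type} (F : Matrix m n R) (a : ι → Matrix n n R) (b : ι → Matrix m m R)
    (h : ∀ i, F * a i = b i * F) (l : List ι) : F * (l.map a).prod = (l.map b).prod * F := by
  induction l with
  | nil => simp
  | cons i l ih =>
    rw [List.map_cons, List.prod_cons, List.map_cons, List.prod_cons, ← Matrix.mul_assoc, h,
      Matrix.mul_assoc, ih, Matrix.mul_assoc]

theorem Diff_inter_ex {R : Type} [CommRing R] [Fintype m] [DecidableEq m] [Fintype n]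
    [DecidableEq n] (F : Matrix m n R) (a : Matrix n n R) (b : Matrix m m R) (η : R)
    (h : F * a = b * F) : F * ex η a = ex η b * F := by
  simp only [ex, Matrix.mul_sub, Matrix.mul_add, Matrix.sub_mul, Matrix.add_mul, Matrix.mul_one,
    Matrix.one_mul, Matrix.mul_smul, Matrix.smul_mul]
  rw [← Matrix.mul_assoc F a a, h, Matrix.mul_assoc b F a, h, Matrix.mul_assoc]

omit [CharP k 3] in
theorem Diff_aeval {R : Type} [CommRing R] [Algebra k R] {η : R} (hη : η * η = 0)
    (p : Polynomial k) :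
    Polynomial.aeval η p = algebraMap k R (p.coeff 0) + η * algebraMap k R (p.coeff 1) := by
  rw [Polynomial.aeval_eq_sum_range' (n := p.natDegree + 2) (by omega), Finset.sum_range_succ',
    Finset.sum_range_succ', Finset.sum_eq_zero]
  · simp [Algebra.smul_def, add_comm, mul_comm]
  · intro i _
    rw [pow_succ, pow_succ, mul_assoc, hη, mul_zero, smul_zero]

/-- the differential at a given element -/
noncomputable def Diff_phi0 (A : Rep (Frob1 k)) {x : Mat k} (hx : IsSp x) :
    Matrix (Fin A.dim) (Fin A.dim) k :=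
  (A.act (Tr k Unit 2) _ (Diff_mem hx (Diff_sq ()))).map (Tr.cf k fun _ => 1)

theorem Diff_act0 (A : Rep (Frob1 k)) {R : Type} [CommRing R] [Algebra k R] {x : Mat k}
    (hx : IsSp x) {η : R} (hη : η * η = 0) (h : Frob1 k R (1 + η • x.map (algebraMap k R))) :
    A.act R _ h = 1 + η • (Diff_phi0 A hx).map (algebraMap k R) := by
  rw [Diff_univ A (Diff_mem hx (Diff_sq ())) (by rw [pow_two, hη]) h, Fin.sum_univ_two,
    Diff_univ_zero A InG1.one]
  simp [Diff_phi0]

theorem Diff_phi0_add (A : Rep (Frob1 k)) {x y z : Mat k} (hx : IsSp x) (hy : IsSp y) (hz : IsSp z)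
    (e : z = x + y) : Diff_phi0 A hz = Diff_phi0 A hx + Diff_phi0 A hy := by
  have hε := Diff_sq (k := k) ()
  have h1 := Diff_mul A (by rw [Diff_two, hε, zero_smul, add_zero, e, Matrix.map_add _ (map_add _),
    smul_add, add_assoc]) (Diff_mem hx hε) (Diff_mem hy hε) (Diff_mem hz hε)
  rw [Diff_act0 A hx hε, Diff_act0 A hy hε, Diff_act0 A hz hε, Diff_two, hε, zero_smul, add_zero,
    add_assoc, add_right_inj, ← smul_add, ← Matrix.map_add _ (map_add _)] at h1
  exact Diff_cancel1 h1

omit [CharP k 3] in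
theorem Diff_map_smul {R : Type} [CommRing R] [Algebra k R] (η : R) (c : k) (x : Matrix m n k) :
    η • (c • x).map (algebraMap k R) = (η * algebraMap k R c) • x.map (algebraMap k R) := by
  ext a b
  simp [mul_assoc]

theorem Diff_phi0_smul (A : Rep (Frob1 k)) {x z : Mat k} (c : k) (hx : IsSp x) (hz : IsSp z)
    (e : z = c • x) : Diff_phi0 A hz = c • Diff_phi0 A hx := by
  have hε := Diff_sq (k := k) ()
  have hε' : (Tr.yy k 2 () * algebraMap k _ c) * (Tr.yy k 2 () * algebraMap k _ c) = 0 := by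
    rw [mul_mul_mul_comm, hε, zero_mul]
  have h1 := Diff_congr A (by rw [e, Diff_map_smul]) (Diff_mem hz hε) (Diff_mem hx hε')
  rw [Diff_act0 A hx hε', Diff_act0 A hz hε, add_right_inj, ← Diff_map_smul] at h1
  exact Diff_cancel1 h1

/-- the differential as a function -/
noncomputable def Diff_phi1 (A : Rep (Frob1 k)) (x : Mat k) : Matrix (Fin A.dim) (Fin A.dim) k :=
  Diff_phi0 A (prj_sp k x)

theorem Diff_phi1_add (A : Rep (Frob1 k)) (x y : Mat k) :
    Diff_phi1 A (x + y) = Diff_phi1 A x + Diff_phi1 A y := by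
  unfold Diff_phi1
  exact Diff_phi0_add A (prj_sp k x) (prj_sp k y) (prj_sp k (x + y)) (by rw [map_add])

theorem Diff_phi1_smul (A : Rep (Frob1 k)) (c : k) (x : Mat k) :
    Diff_phi1 A (c • x) = c • Diff_phi1 A x := by
  unfold Diff_phi1
  exact Diff_phi0_smul A c (prj_sp k x) (prj_sp k (c • x)) (by rw [map_smul])

end helpers

namespace Rep

variable (A : Rep (Frob1 k))

/-- the differential -/
noncomputable def phi : Mat k →ₗ[k] Matrix (Fin A.dim) (Fin A.dim) k :=
  { toFun := Diff_phi1 A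
    map_add' := Diff_phi1_add A
    map_smul' := Diff_phi1_smul A }

theorem act_eps {R : Type} [CommRing R] [Algebra k R] {x : Mat k} (hx : IsSp x) {η : R}
    (hη : η * η = 0) (h : Frob1 k R (1 + η • x.map (algebraMap k R))) :
    A.act R _ h = 1 + η • (A.phi x).map (algebraMap k R) := by
  rw [Diff_congr A (by rw [hx.prj_eq]) h (Diff_mem (prj_sp k x) hη), Diff_act0 A (prj_sp k x) hη]
  rfl

theorem phi_lie {x y : Mat k} (hx : IsSp x) (hy : IsSp y) :
    A.phi (x * y - y * x) = A.phi x * A.phi y - A.phi y * A.phi x := by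
  have ha := Diff_sq (k := k) (0 : Fin 2)
  have hb := Diff_sq (k := k) (1 : Fin 2)
  have hab : (Tr.yy k 2 (0 : Fin 2) * Tr.yy k 2 1) * (Tr.yy k 2 0 * Tr.yy k 2 1) = 0 := by
    rw [mul_mul_mul_comm, ha, zero_mul]
  have h1 := Diff_mul A (by
      rw [Diff_comm ha hb, Diff_two, Matrix.map_sub _ (map_sub _), Matrix.map_mul, Matrix.map_mul,
        add_sub_cancel])
    (Diff_mul_mem (Diff_mem hy hb) (Diff_mem hx ha)) (Diff_mem (hx.lie hy) hab)
    (Diff_mul_mem (Diff_mem hx ha) (Diff_mem hy hb))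
  rw [A.act_mul _ _ _ (Diff_mem hx ha) (Diff_mem hy hb),
    A.act_mul _ _ _ (Diff_mem hy hb) (Diff_mem hx ha), A.act_eps hx ha, A.act_eps hy hb,
    A.act_eps (hx.lie hy) hab, Diff_comm ha hb, Diff_two, add_right_inj, ← Matrix.map_mul,
    ← Matrix.map_mul, ← Matrix.map_add _ (map_add _)] at h1
  rw [Diff_cancel2 h1, add_sub_cancel_left]

theorem act_ex {R : Type} [CommRing R] [Algebra k R] {x : Mat k} (hx : IsSp x) (h2 : x * x = 0)
    {η : R} (hη : η ^ 3 = 0) (h : Frob1 k R (1 + η • x.map (algebraMap k R))) :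
    A.act R _ h = ex η ((A.phi x).map (algebraMap k R)) := by
  have h0 := Diff_mem3 hx h2 (Tr.yy_pow k 3 ())
  obtain ⟨B1, B2, hB⟩ : ∃ B1 B2 : Matrix (Fin A.dim) (Fin A.dim) k,
      ∀ (S : Type) [CommRing S] [Algebra k S] (θ : S) (_ : θ ^ 3 = 0)
        (h' : Frob1 k S (1 + θ • x.map (algebraMap k S))),
        A.act S _ h' = 1 + θ • B1.map (algebraMap k S) + θ ^ 2 • B2.map (algebraMap k S) := by
    refine ⟨(A.act _ _ h0).map (Tr.cf k fun _ => 1), (A.act _ _ h0).map (Tr.cf k fun _ => 2),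
      fun S _ _ θ hθ h' => ?_⟩
    rw [Diff_univ A h0 hθ h', Fin.sum_univ_three, Diff_univ_zero A InG1.one]
    simp
  have e1 : B1 = A.phi x := by
    have hε := Diff_sq (k := k) ()
    have h1 := hB _ _ (by rw [pow_succ, pow_two, hε, zero_mul]) (Diff_mem hx hε)
    rw [A.act_eps hx hε, pow_two, hε, zero_smul, add_zero, add_right_inj] at h1
    exact (Diff_cancel1 h1).symm
  have e2 : -B2 = A.phi x * A.phi x := by
    have ha := Diff_sq (k := k) (0 : Fin 2)
    have hb := Diff_sq (k := k) (1 : Fin 2)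
    have h3 := three_eq_zero k (Tr k (Fin 2) 2)
    have hab : (Tr.yy k 2 (0 : Fin 2) + Tr.yy k 2 1) ^ 3 = 0 := by
      linear_combination (Tr.yy k 2 (0 : Fin 2) + 3 * Tr.yy k 2 1) * ha +
        (Tr.yy k 2 (1 : Fin 2) + 3 * Tr.yy k 2 0) * hb
    have hab2 : (Tr.yy k 2 (0 : Fin 2) + Tr.yy k 2 1) ^ 2 = -(Tr.yy k 2 0 * Tr.yy k 2 1) := by
      linear_combination ha + hb + (Tr.yy k 2 (0 : Fin 2) * Tr.yy k 2 1) * h3
    have h1 := Diff_mul A (by rw [Diff_two, Diff_map_sq h2, smul_zero, add_zero, add_smul,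
      add_assoc]) (Diff_mem hx ha) (Diff_mem hx hb) (Diff_mem3 hx h2 hab)
    rw [hB _ _ hab, A.act_eps hx ha, A.act_eps hx hb, Diff_two, e1, add_smul, ← add_assoc,
      add_right_inj, hab2, neg_smul, ← smul_neg, ← Matrix.map_mul,
      ← Matrix.map_neg _ (map_neg _)] at h1
    exact Diff_cancel2 h1
  rw [hB R η hη h, ex, ← Matrix.map_mul, ← e2, e1, Matrix.map_neg _ (map_neg _), smul_neg,
    sub_neg_eq_add]

theorem phi_res {x : Mat k} (hx : IsSp x) (h2 : x * x = 0) : A.phi x ^ 3 = 0 := by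
  have ha := Diff_sq (k := k) (0 : Fin 3)
  have hb := Diff_sq (k := k) (1 : Fin 3)
  have hc := Diff_sq (k := k) (2 : Fin 3)
  have h3 := three_eq_zero k (Tr k (Fin 3) 2)
  set a : Tr k (Fin 3) 2 := Tr.yy k 2 0 with ea
  set b : Tr k (Fin 3) 2 := Tr.yy k 2 1 with eb
  set c : Tr k (Fin 3) 2 := Tr.yy k 2 2 with ec
  have hs : (a + b + c) ^ 2 = -(a * b + a * c + b * c) := by
    linear_combination ha + hb + hc + (a * b + a * c + b * c) * h3
  have hη : (a + b + c) ^ 3 = 0 := by
    linear_combination (a + 3 * b + 3 * c) * ha + (b + 3 * a + 3 * c) * hb +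
      (c + 3 * a + 3 * b) * hc + (2 * a * b * c) * h3
  have h1 := Diff_mul A (by
      rw [Diff_three, Diff_map_sq h2, zero_mul, smul_zero, smul_zero, add_zero, add_zero])
    (Diff_mul_mem (Diff_mem hx ha) (Diff_mem hx hb)) (Diff_mem hx hc) (Diff_mem3 hx h2 hη)
  rw [A.act_mul _ _ _ (Diff_mem hx ha) (Diff_mem hx hb), A.act_ex hx h2 hη, A.act_eps hx ha,
    A.act_eps hx hb, A.act_eps hx hc, Diff_three, ex, hs, neg_smul, sub_neg_eq_add,
    left_eq_add, ← Matrix.map_mul, ← Matrix.map_mul] at h1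
  rw [pow_succ, pow_two]
  exact Diff_cancel3 (by rw [h1, Matrix.map_zero _ (map_zero _), smul_zero])

theorem act_PP {R : Type} [CommRing R] [Algebra k R] {y : Fin 36 → R} (hy : ∀ i, y i ^ 3 = 0)
    (h : Frob1 k R (PP y)) :
    A.act R _ h =
      (List.ofFn fun i => ex (y i) ((A.phi (bs k i)).map (algebraMap k R))).prod := by
  obtain ⟨h', e⟩ := Diff_prod A (fun i => 1 + y i • (bs k i).map (algebraMap k R))
    (fun i => Diff_mem3 (bs_sp k i) (bs_sq k i) (hy i)) (List.finRange 36)
  rw [Diff_congr A (by simp only [PP, List.ofFn_eq_map, bs_map]) h h', e, List.ofFn_eq_map]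
  congr 2
  funext i
  exact A.act_ex (bs_sp k i) (bs_sq k i) (hy i) _

/-- the restricted module of a `G_1`-module -/
noncomputable def toRes : ResMod k (Fin A.dim → k) where
  φ := (Matrix.toLinAlgEquiv' : Matrix (Fin A.dim) (Fin A.dim) k ≃ₐ[k] _).toLinearMap ∘ₗ A.phi
  lie x y hx hy := by simp [A.phi_lie hx hy, -map_sub]; simp
  res x hx h := by simp [← map_pow, A.phi_res hx h]

theorem toRes_apply (x : Mat k) (v : Fin A.dim → k) : A.toRes.φ x v = A.phi x *ᵥ v := rfl

end Rep

theorem isHom_iff (A B : Rep (Frob1 k)) (f : Matrix (Fin B.dim) (Fin A.dim) k) :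
    IsHom A B f ↔ ∀ x, IsSp x → f * A.phi x = B.phi x * f := by
  constructor
  · intro h x hx
    have hε := Diff_sq (k := k) ()
    have h1 := h _ _ (Diff_mem hx hε)
    rw [A.act_eps hx hε, B.act_eps hx hε, Matrix.mul_add, Matrix.add_mul, Matrix.mul_one,
      Matrix.one_mul, add_right_inj, Matrix.mul_smul, Matrix.smul_mul, ← Matrix.map_mul,
      ← Matrix.map_mul] at h1
    exact Diff_cancel1 h1
  · intro h R _ _ g hg
    obtain ⟨y, hy, rfl⟩ := PP_surj (three_eq_zero k R) hg
    rw [A.act_PP hy, B.act_PP hy, List.ofFn_eq_map, List.ofFn_eq_map]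
    refine Diff_inter _ _ _ (fun i => Diff_inter_ex _ _ _ _ ?_) _
    rw [← Matrix.map_mul, ← Matrix.map_mul, h _ (bs_sp k i)]

theorem isHom_iff_res (A B : Rep (Frob1 k)) (f : Matrix (Fin B.dim) (Fin A.dim) k) :
    IsHom A B f ↔ A.toRes.Hom B.toRes (Matrix.toLin' f) := by
  rw [isHom_iff]
  refine forall₂_congr fun x _ => ?_
  rw [Matrix.ext_iff_mulVec]
  refine forall_congr' fun v => ?_
  rw [Rep.toRes_apply, Rep.toRes_apply, Matrix.toLin'_apply, Matrix.toLin'_apply,
    Matrix.mulVec_mulVec, Matrix.mulVec_mulVec]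

theorem triv_phi {x : Mat k} (hx : IsSp x) : (triv (Frob1 k)).phi x = 0 := by
  have hε := Diff_sq (k := k) ()
  have h1 := (triv (Frob1 k)).act_eps hx hε (Diff_mem hx hε)
  have h2 : (triv (Frob1 k)).act _ _ (Diff_mem hx hε) = 1 := rfl
  rw [h2, left_eq_add] at h1
  exact Diff_cancel1 (by rw [h1, Matrix.map_zero _ (map_zero _), smul_zero])

/-- a `G`-module gives a package extending the restricted module of its restriction -/
theorem exists_gpkg (M : Rep (Sp8 k)) :
    ∃ E : GPkg k (Fin M.dim → k), E.toResMod = (restr M).toRes := by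
  classical
  let T : Matrix (Fin M.dim) (Fin M.dim) k ≃ₐ[k] Module.End k (Fin M.dim → k) :=
    Matrix.toLinAlgEquiv'
  have hP : ∀ {x : Mat k}, IsSp x → x * x = 0 →
      Sp8 k (Polynomial k) (1 + (Polynomial.X : Polynomial k) • x.map (algebraMap k _)) :=
    fun hx h2 => (hx.map (algebraMap k _)).one_add_smul_mem (Diff_map_sq h2) _
  have hε := Diff_sq (k := k) ()
  let Φ : Mat k → Matrix (Fin M.dim) (Fin M.dim) k := fun x => (restr M).phi x
  have hm : ∀ {x : Mat k}, IsSp x →
      Sp8 k (Tr k Unit 2) (1 + Tr.yy k 2 () • x.map (algebraMap k _)) :=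
    fun hx => (Diff_mem hx hε).1
  have heps : ∀ {x : Mat k} (hx : IsSp x), M.act _ _ (hm hx) =
      1 + Tr.yy k 2 () • (Φ x).map (algebraMap k _) :=
    fun hx => (restr M).act_eps hx hε (Diff_mem hx hε)
  refine ⟨{ toResMod := (restr M).toRes
            ρ := fun g => if h : g ∈ SpG k then T (M.act k g h) else 0
            ρ_one := ?_
            ρ_mul := ?_
            ad := ?_
            Δ := fun x j => if h : IsSp x ∧ x * x = 0 then
              T ((M.act _ _ (hP h.1 h.2)).map fun p => p.coeff j) else 0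
            exp := ?_
            Δ_one := ?_ }, rfl⟩
  · rw [dif_pos (one_mem _), M.act_one k (one_mem (SpG k)), map_one]
  · intro g h hg hh
    rw [dif_pos hg, dif_pos hh, dif_pos (mul_mem hg hh), M.act_mul k g h hg hh (mul_mem hg hh), map_mul]
  · intro g x y hg hx hy e
    rw [dif_pos hg]
    change T _ * T (Φ x) = T (Φ y) * T _
    refine ((map_mul T _ _).symm.trans (congrArg T ?_)).trans (map_mul T _ _)
    have hG : Sp8 k (Tr k Unit 2) (g.map (algebraMap k _)) := SymplecticGroup.map_mem hg (algebraMap k (Tr k Unit 2))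
    have hG1 : M.act _ _ hG = (M.act k g hg).map (algebraMap k _) :=
      M.natural k _ (Algebra.ofId k _) g hg hG
    have h1 := Diff_mul M (u := (1 + Tr.yy k 2 () • y.map (algebraMap k _)) * g.map (algebraMap k _))
      (by rw [mul_add, add_mul, mul_one, one_mul, mul_smul_comm, smul_mul_assoc, ← Matrix.map_mul,
        ← Matrix.map_mul, e]) hG (hm hx) (mul_mem (Diff_mem hy hε).1 hG)
    rw [M.act_mul _ _ _ (hm hy) hG (mul_mem (Diff_mem hy hε).1 hG), heps hx, heps hy, hG1, mul_add, add_mul, mul_one,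
      one_mul, add_right_inj, mul_smul_comm, smul_mul_assoc, ← Matrix.map_mul,
      ← Matrix.map_mul] at h1
    exact (Diff_cancel1 h1).symm
  · intro x hx h2
    set Q := M.act _ _ (hP hx h2) with hQ
    have hN : ∀ a b, (Q a b).natDegree < (∑ a, ∑ b, (Q a b).natDegree) + 1 := by
      intro a b
      have e1 := Finset.single_le_sum (f := fun b => (Q a b).natDegree)
        (fun _ _ => Nat.zero_le _) (Finset.mem_univ b)
      have e2 := Finset.single_le_sum (f := fun a => ∑ b, (Q a b).natDegree)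
        (fun _ _ => Nat.zero_le _) (Finset.mem_univ a)
      omega
    refine ⟨(∑ a, ∑ b, (Q a b).natDegree) + 1, fun j hj => ?_, fun s => ?_⟩
    · simp only [dif_pos (And.intro hx h2)]
      have : (Q.map fun p => p.coeff j) = 0 := by
        ext a b
        exact Polynomial.coeff_eq_zero_of_natDegree_lt ((hN a b).trans_le hj)
      rw [this, map_zero]
    · simp only [dif_pos (And.intro hx h2), dif_pos (hx.one_add_smul_mem h2 s)]
      rw [Diff_nat M (Polynomial.aeval s) (by rw [Diff_map_one_add]; simp) (hP hx h2)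
        (hx.one_add_smul_mem h2 s)]
      simp only [← map_smul, ← map_sum]
      congr 1
      ext a b
      rw [Matrix.map_apply, Polynomial.aeval_eq_sum_range' (hN a b), Matrix.sum_apply]
      refine Finset.sum_congr rfl fun j _ => ?_
      rw [Matrix.smul_apply, Matrix.map_apply, smul_eq_mul, smul_eq_mul, mul_comm]
  · intro x hx h2
    rw [dif_pos (And.intro hx h2)]
    change T _ = T (Φ x)
    congr 1
    have h1 := Diff_nat M (Polynomial.aeval (Tr.yy k 2 ())) (by rw [Diff_map_one_add]; simp)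
      (hP hx h2) (hm hx)
    have h0 := Diff_nat M (Polynomial.aeval (0 : k)) (g' := 1) (by rw [Diff_map_one_add]; simp)
      (hP hx h2) (one_mem (SpG k))
    rw [M.act_one k (one_mem (SpG k))] at h0
    rw [heps hx] at h1
    refine (Diff_cancel1 (add_left_cancel (a := 1) (h1.trans ?_))).symm
    ext a b
    have h3 := congrFun (congrFun h0 a) b
    rw [Matrix.map_apply, Diff_aeval (mul_zero 0), zero_mul, add_zero] at h3
    rw [Matrix.map_apply, Diff_aeval hε, one_eq_map (algebraMap k (Tr k Unit 2)), Matrix.add_apply,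
      Matrix.map_apply, h3]
    rfl

end Pool.Agent.MP_2042ac_al

end

-- part MP_2042ac_al.Span
section

/-!
Ordered restricted monomials span cyclic submodules.
-/

set_option autoImplicit false

namespace Pool.Agent.MP_2042ac_al

variable {k : Type} [Field k] {V : Type} [AddCommGroup V] [Module k V]

/-- ordered restricted monomials -/
noncomputable def ResMod.mon (A : ResMod k V) (a : Fin 36 → Fin 3) : Module.End k V :=
  (List.ofFn fun i => A.φ (bs k i) ^ (a i : ℕ)).prod

theorem ResMod.mon_zero (A : ResMod k V) : A.mon (fun _ => 0) = 1 := by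
  unfold ResMod.mon
  refine List.prod_eq_one fun x hx => ?_
  obtain ⟨i, rfl⟩ := List.mem_ofFn.mp hx
  simp

/-- the product attached to a word -/
noncomputable def ResMod.spanWd (A : ResMod k V) (w : List (Fin 36)) : Module.End k V :=
  (w.map fun i => A.φ (bs k i)).prod

/-- span of the words of bounded length -/
noncomputable def ResMod.spanW (A : ResMod k V) (v : V) (n : ℕ) : Submodule k V :=
  Submodule.span k {u | ∃ w : List (Fin 36), w.length ≤ n ∧ u = A.spanWd w v}

theorem ResMod.spanWd_cons (A : ResMod k V) (i : Fin 36) (w : List (Fin 36)) (v : V) :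
    A.spanWd (i :: w) v = A.φ (bs k i) (A.spanWd w v) := by
  simp [ResMod.spanWd]

theorem ResMod.spanW_mem (A : ResMod k V) (v : V) {n : ℕ} {w : List (Fin 36)} (h : w.length ≤ n) :
    A.spanWd w v ∈ A.spanW v n := Submodule.subset_span ⟨w, h, rfl⟩

theorem ResMod.spanW_step (A : ResMod k V) (v : V) {n : ℕ} {x : Mat k} (hx : IsSp x) {u : V}
    (hu : u ∈ A.spanW v n) : A.φ x u ∈ A.spanW v (n + 1) := by
  have : A.spanW v n ≤ (A.spanW v (n + 1)).comap (A.φ x) := by
    refine Submodule.span_le.mpr ?_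
    rintro _ ⟨w, hw, rfl⟩
    show A.φ x (A.spanWd w v) ∈ A.spanW v (n + 1)
    rw [← hx.expand, map_sum, LinearMap.sum_apply]
    refine Submodule.sum_mem _ fun i _ => ?_
    rw [map_smul, LinearMap.smul_apply, ← A.spanWd_cons]
    exact Submodule.smul_mem _ _ (A.spanW_mem v (by simpa using hw))
  exact this hu

theorem ResMod.span_perm (A : ResMod k V) (v : V) {w w' : List (Fin 36)} (h : w.Perm w') :
    ∀ n, w.length ≤ n + 1 → A.spanWd w v - A.spanWd w' v ∈ A.spanW v n := by
  induction h with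
  | nil => intro n _; simp
  | @cons x l₁ l₂ h ih =>
    intro n hn
    rw [A.spanWd_cons, A.spanWd_cons, ← map_sub]
    cases n with
    | zero =>
      have h1 : l₁ = [] := List.length_eq_zero_iff.mp (by simpa using hn)
      subst h1
      rw [h.nil_eq]; simp
    | succ n => exact A.spanW_step v (bs_sp k x) (ih n (by simpa using hn))
  | swap x y l =>
    intro n hn
    simp only [A.spanWd_cons]
    rw [← A.lie_apply (bs_sp k y) (bs_sp k x)]
    obtain ⟨m, rfl⟩ : ∃ m, n = m + 1 := ⟨n - 1, by simp at hn; omega⟩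
    exact A.spanW_step v ((bs_sp k y).lie (bs_sp k x)) (A.spanW_mem v (by simpa using hn))
  | trans h₁ _ ih₁ ih₂ =>
    intro n hn
    have := (A.spanW v n).add_mem (ih₁ n hn) (ih₂ n (by rw [← h₁.length_eq]; exact hn))
    simpa using this

/-- the ordered word with prescribed multiplicities -/
def spanOrd (c : Fin 36 → ℕ) : List (Fin 36) :=
  (List.ofFn fun i => List.replicate (c i) i).flatten

theorem spanOrd_count (c : Fin 36 → ℕ) (j : Fin 36) : (spanOrd c).count j = c j := by
  unfold spanOrd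
  rw [List.count_flatten, List.map_ofFn, List.sum_ofFn]
  simp only [Function.comp_apply, List.count_replicate, beq_iff_eq]
  rw [Finset.sum_ite_eq']
  simp

theorem ResMod.spanWd_ord (A : ResMod k V) (c : Fin 36 → ℕ) :
    A.spanWd (spanOrd c) = (List.ofFn fun i => A.φ (bs k i) ^ c i).prod := by
  unfold ResMod.spanWd spanOrd
  rw [List.map_flatten, List.prod_flatten, List.map_ofFn, List.map_ofFn]
  congr 2
  funext i
  simp only [Function.comp_apply, List.map_replicate, List.prod_replicate]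

theorem ResMod.span_ord_mem (A : ResMod k V) (v : V) (c : Fin 36 → ℕ) :
    A.spanWd (spanOrd c) v ∈ Submodule.span k (Set.range fun a => A.mon a v) := by
  rw [A.spanWd_ord]
  by_cases h : ∀ i, c i < 3
  · exact Submodule.subset_span ⟨fun i => ⟨c i, h i⟩, rfl⟩
  · push Not at h
    obtain ⟨i, hi⟩ := h
    have h0 : A.φ (bs k i) ^ c i = 0 := pow_eq_zero_of_le hi (A.res _ (bs_sp k i) (bs_sq k i))
    have h1 : (List.ofFn fun i => A.φ (bs k i) ^ c i).prod = 0 :=
      List.prod_eq_zero (List.mem_ofFn.mpr ⟨i, h0⟩)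
    rw [h1]
    simp

theorem ResMod.spanW_le (A : ResMod k V) (v : V) (n : ℕ) :
    A.spanW v n ≤ Submodule.span k (Set.range fun a => A.mon a v) := by
  induction n with
  | zero =>
    refine Submodule.span_le.mpr ?_
    rintro _ ⟨w, hw, rfl⟩
    have : w = [] := List.length_eq_zero_iff.mp (by omega)
    subst this
    exact Submodule.subset_span ⟨fun _ => 0, by simp only [A.mon_zero]; simp [ResMod.spanWd]⟩
  | succ n ih =>
    refine Submodule.span_le.mpr ?_
    rintro _ ⟨w, hw, rfl⟩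
    have hp : w.Perm (spanOrd fun i => w.count i) :=
      List.perm_iff_count.mpr fun j => (spanOrd_count (fun i => w.count i) j).symm
    have := Submodule.add_mem _ (ih (A.span_perm v hp n hw)) (A.span_ord_mem v fun i => w.count i)
    simpa using this

theorem ResMod.span_stab (A : ResMod k V) (v : V) :
    A.Stab (Submodule.span k (Set.range fun a => A.mon a v)) := by
  intro x hx u hu
  have : Submodule.span k (Set.range fun a => A.mon a v) ≤
      (Submodule.span k (Set.range fun a => A.mon a v)).comap (A.φ x) := by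
    refine Submodule.span_le.mpr ?_
    rintro _ ⟨a, rfl⟩
    show A.φ x (A.mon a v) ∈ Submodule.span k (Set.range fun a => A.mon a v)
    have e : A.mon a = A.spanWd (spanOrd fun i => (a i : ℕ)) := (A.spanWd_ord _).symm
    rw [e]
    exact A.spanW_le v _ (A.spanW_step v hx (A.spanW_mem v le_rfl))
  exact this hu

end Pool.Agent.MP_2042ac_al

end

-- part MP_2042ac_al.Reg
section

/-!
The regular module of the Frobenius kernel is free of rank one among restricted modules; every
finite-dimensional restricted module comes from a `G_1`-module.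
-/

set_option autoImplicit false

namespace Pool.Agent.MP_2042ac_al

open Matrix

section chart

variable {R : Type} [CommRing R]

/-- coordinates of a point of the Frobenius kernel -/
noncomputable def regCrd (h3 : (3 : R) = 0) {g : Mat R} (hg : InG1 g) : Fin 36 → R :=
  (PP_surj h3 hg).choose

theorem regCrd_cube (h3 : (3 : R) = 0) {g : Mat R} (hg : InG1 g) (i : Fin 36) :
    regCrd h3 hg i ^ 3 = 0 := (PP_surj h3 hg).choose_spec.1 i

theorem reg_PP_crd (h3 : (3 : R) = 0) {g : Mat R} (hg : InG1 g) : PP (regCrd h3 hg) = g :=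
  (PP_surj h3 hg).choose_spec.2

theorem regCrd_eq (h3 : (3 : R) = 0) {g : Mat R} (hg : InG1 g) {y : Fin 36 → R}
    (hy : ∀ i, y i ^ 3 = 0) (h : PP y = g) : regCrd h3 hg = y :=
  PP_inj (regCrd_cube h3 hg) hy (by rw [reg_PP_crd, h])

theorem reg_three (h3 : (3 : R) = 0) : (3 : Tr R (Fin 36) 3) = 0 := by
  have := congrArg (algebraMap R (Tr R (Fin 36) 3)) h3
  rwa [map_ofNat, map_zero] at this

theorem reg_univ_mem (h3 : (3 : R) = 0) {g : Mat R} (hg : InG1 g) :
    InG1 (g.map (algebraMap R (Tr R (Fin 36) 3)) * PP (Tr.yy R 3)) :=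
  InG1.mul (reg_three h3) (hg.map _) (PP_mem (reg_three h3) (Tr.yy_pow R 3))

/-- left translation on the coordinate ring -/
noncomputable def regLam (h3 : (3 : R) = 0) {g : Mat R} (hg : InG1 g) :
    Tr R (Fin 36) 3 →ₐ[R] Tr R (Fin 36) 3 :=
  Tr.lift (regCrd (reg_three h3) (reg_univ_mem h3 hg)) (regCrd_cube _ _)

theorem regLam_spec (h3 : (3 : R) = 0) {g : Mat R} (hg : InG1 g) :
    (PP (Tr.yy R 3)).map (regLam h3 hg) =
      g.map (algebraMap R (Tr R (Fin 36) 3)) * PP (Tr.yy R 3) := by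
  have h : (fun i => regLam h3 hg (Tr.yy R 3 i)) = regCrd (reg_three h3) (reg_univ_mem h3 hg) :=
    funext fun i => Tr.lift_yy _ _ i
  rw [PP_map, h, reg_PP_crd]

theorem reg_cube_map {S : Type} [CommRing S] (f : Tr R (Fin 36) 3 →+* S) (i : Fin 36) :
    f (Tr.yy R 3 i) ^ 3 = 0 := by
  rw [← map_pow, Tr.yy_pow, map_zero]

theorem reg_ext {S : Type} [CommRing S] (f g : Tr R (Fin 36) 3 →+* S)
    (h1 : ∀ r, f (algebraMap R _ r) = g (algebraMap R _ r))
    (h2 : (PP (Tr.yy R 3)).map f = (PP (Tr.yy R 3)).map g) (t : Tr R (Fin 36) 3) : f t = g t := by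
  rw [PP_map, PP_map] at h2
  exact RingHom.congr_fun (Tr.ringHom_ext h1
    (congrFun (PP_inj (reg_cube_map f) (reg_cube_map g) h2))) t

theorem reg_map_alg {S : Type} [CommRing S] [Algebra R S] (f : Tr R (Fin 36) 3 →ₐ[R] S)
    (g : Mat R) : (g.map (algebraMap R (Tr R (Fin 36) 3))).map f = g.map (algebraMap R S) := by
  ext a b; exact f.commutes _

theorem regLam_one (h3 : (3 : R) = 0) (hg : InG1 (1 : Mat R)) (t : Tr R (Fin 36) 3) :
    regLam h3 hg t = t := by
  refine reg_ext (regLam h3 hg).toRingHom (RingHom.id _) (regLam h3 hg).commutes ?_ t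
  have h := regLam_spec h3 hg
  rw [Matrix.map_one _ (map_zero _) (map_one _), one_mul] at h
  exact h

theorem regLam_mul (h3 : (3 : R) = 0) {g g' : Mat R} (hg : InG1 g) (hg' : InG1 g')
    (h'' : InG1 (g * g')) (t : Tr R (Fin 36) 3) :
    regLam h3 h'' t = regLam h3 hg' (regLam h3 hg t) := by
  refine reg_ext (regLam h3 h'').toRingHom ((regLam h3 hg').comp (regLam h3 hg)).toRingHom
    (fun r => ((regLam h3 h'').commutes r).trans
      (((regLam h3 hg').comp (regLam h3 hg)).commutes r).symm) ?_ t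
  have h : (PP (Tr.yy R 3)).map (regLam h3 h'') =
      ((PP (Tr.yy R 3)).map (regLam h3 hg)).map (regLam h3 hg') := by
    rw [regLam_spec, regLam_spec, Matrix.map_mul, Matrix.map_mul, regLam_spec, reg_map_alg,
      mul_assoc]
  exact h

theorem regLam_map {S : Type} [CommRing S] (h3 : (3 : R) = 0) (h3' : (3 : S) = 0) (f : R →+* S)
    {g : Mat R} (hg : InG1 g) (hg' : InG1 (g.map f)) (t : Tr R (Fin 36) 3) :
    regLam h3' hg' (Tr.tmap f t) = Tr.tmap f (regLam h3 hg t) := by
  refine reg_ext ((regLam h3' hg').toRingHom.comp (Tr.tmap f))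
    ((Tr.tmap f).comp (regLam h3 hg).toRingHom) (fun r => ?_) ?_ t
  · change regLam h3' hg' (Tr.tmap f (algebraMap R (Tr R (Fin 36) 3) r))
      = Tr.tmap f (regLam h3 hg (algebraMap R (Tr R (Fin 36) 3) r))
    rw [AlgHom.commutes, Tr.tmap_algebraMap, AlgHom.commutes]
  have h0 : (PP (Tr.yy R 3)).map (Tr.tmap f : Tr R (Fin 36) 3 →+* Tr S (Fin 36) 3) =
      PP (Tr.yy S 3) := by
    rw [PP_map]; exact congrArg PP (funext (Tr.tmap_yy f))
  have h : ((PP (Tr.yy R 3)).map (Tr.tmap f : Tr R (Fin 36) 3 →+* Tr S (Fin 36) 3)).map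
      (regLam h3' hg') = ((PP (Tr.yy R 3)).map (regLam h3 hg)).map
        (Tr.tmap f : Tr R (Fin 36) 3 →+* Tr S (Fin 36) 3) := by
    rw [h0, regLam_spec, regLam_spec, Matrix.map_mul, h0]
    congr 1
    ext a b
    exact (Tr.tmap_algebraMap f _).symm
  exact h

/-- the matrix of the regular representation -/
noncomputable def regMat (h3 : (3 : R) = 0) {g : Mat R} (hg : InG1 g) :
    Matrix (Fin 36 → Fin 3) (Fin 36 → Fin 3) R :=
  of fun a b => Tr.cf R b (regLam h3 hg (Tr.ymon R a))

theorem regMat_one (h3 : (3 : R) = 0) (hg : InG1 (1 : Mat R)) : regMat h3 hg = 1 := by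
  ext a b
  rw [regMat, of_apply, regLam_one, Tr.cf_ymon, Matrix.one_apply]
  exact if_congr eq_comm rfl rfl

theorem regMat_mul (h3 : (3 : R) = 0) {g g' : Mat R} (hg : InG1 g) (hg' : InG1 g')
    (h'' : InG1 (g * g')) : regMat h3 h'' = regMat h3 hg * regMat h3 hg' := by
  ext a b
  rw [regMat, of_apply, regLam_mul h3 hg hg', Matrix.mul_apply,
    ← Tr.expand (regLam h3 hg (Tr.ymon R a)), map_sum, map_sum]
  refine Finset.sum_congr rfl fun c _ => ?_
  rw [map_smul, map_smul, smul_eq_mul]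
  rfl

theorem reg_tmap_ymon {S : Type} [CommRing S] (f : R →+* S) (a : Fin 36 → Fin 3) :
    Tr.tmap f (Tr.ymon R a) = Tr.ymon S a := by
  simp only [Tr.ymon, map_prod, map_pow, Tr.tmap_yy]

theorem regMat_map {S : Type} [CommRing S] (h3 : (3 : R) = 0) (h3' : (3 : S) = 0) (f : R →+* S)
    {g : Mat R} (hg : InG1 g) (hg' : InG1 (g.map f)) :
    regMat h3' hg' = (regMat h3 hg).map f := by
  ext a b
  rw [regMat, of_apply, ← reg_tmap_ymon f, regLam_map h3 h3' f hg hg', Tr.cf_tmap]
  rfl

theorem reg_cf_zero (t : Tr R (Fin 36) 3) :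
    Tr.cf R (fun _ => 0) t = Tr.lift (fun _ => (0 : R)) (fun _ => by simp) t := by
  conv_rhs => rw [← Tr.expand t, map_sum]
  rw [Finset.sum_eq_single (fun _ => 0)]
  · simp [Tr.ymon]
  · intro b _ hb
    obtain ⟨i, hi⟩ := Function.ne_iff.mp hb
    have hi' : (b i : ℕ) ≠ 0 := fun h => hi (Fin.ext h)
    rw [map_smul, Tr.ymon, map_prod, Finset.prod_eq_zero (Finset.mem_univ i), smul_zero]
    rw [map_pow, Tr.lift_yy, zero_pow hi']
  · intro h; exact absurd (Finset.mem_univ _) h

theorem regMat_col (h3 : (3 : R) = 0) {z : Fin 36 → R} (hz : ∀ i, z i ^ 3 = 0)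
    (hg : InG1 (PP z)) (a : Fin 36 → Fin 3) :
    regMat h3 hg a (fun _ => 0) = ∏ i, z i ^ (a i : ℕ) := by
  rw [regMat, of_apply, reg_cf_zero, Tr.ymon, map_prod, map_prod]
  generalize hev : (Tr.lift (fun _ => (0 : R)) (fun _ => by simp) : Tr R (Fin 36) 3 →ₐ[R] R) = ev
  have h0 : (fun i => ev (Tr.yy R 3 i)) = fun _ => (0 : R) :=
    funext fun i => hev ▸ Tr.lift_yy _ _ i
  have h : ((PP (Tr.yy R 3)).map (regLam h3 hg)).map ev = PP z := by
    rw [regLam_spec, Matrix.map_mul, reg_map_alg, PP_map ev, h0, PP_zero, mul_one]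
    rfl
  rw [PP_map, PP_map] at h
  have h2 := PP_inj (fun i => by rw [← map_pow, ← map_pow, Tr.yy_pow, map_zero, map_zero]) hz h
  refine Finset.prod_congr rfl fun i _ => ?_
  rw [map_pow, map_pow, ← congrFun h2 i]

end chart

section products

theorem reg_prod_expand {R A : Type} [CommRing R] [Ring A] [Algebra R A] {n : ℕ}
    (s : Fin n → Fin 3 → R) (u : Fin n → Fin 3 → A) :
    (List.ofFn fun i => ∑ j, s i j • u i j).prod =
      ∑ b : Fin n → Fin 3, (∏ i, s i (b i)) • (List.ofFn fun i => u i (b i)).prod := by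
  rw [← MultilinearMap.mkPiAlgebraFin_apply (R := R), MultilinearMap.map_sum]
  refine Finset.sum_congr rfl fun b _ => ?_
  rw [MultilinearMap.map_smul_univ, MultilinearMap.mkPiAlgebraFin_apply]

/-- the signs in the truncated exponential -/
def regSg (j : Fin 3) : ℤ := ![1, 1, -1] j

theorem regSg_sq (j : Fin 3) : regSg j * regSg j = 1 := by revert j; decide

theorem reg_ex_sum {R A : Type} [CommRing R] [Ring A] [Algebra R A] (η : R) (u : A) :
    ex η u = ∑ j : Fin 3, ((regSg j : R) * η ^ (j : ℕ)) • u ^ (j : ℕ) := by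
  simp [ex, Fin.sum_univ_three, regSg, pow_two, sub_eq_add_neg]

theorem reg_ex_zero {R A : Type} [CommRing R] [Ring A] [Algebra R A] (u : A) :
    ex (0 : R) u = 1 := by simp [ex]

theorem reg_prod_single {M : Type} [Monoid M] {n : ℕ} (G : Fin n → M) (i : Fin n)
    (h : ∀ j, j ≠ i → G j = 1) : (List.ofFn G).prod = G i := by
  rw [List.ofFn_eq_map, List.prod_map_eq_pow_single i G (fun j hj _ => h j hj),
    List.count_eq_one_of_mem (List.nodup_finRange n) (List.mem_finRange i), pow_one]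

theorem reg_intertwine {R : Type} [CommRing R] {m n : ℕ} (F : Matrix (Fin m) (Fin n) R)
    {ι : Type} (P : ι → Matrix (Fin n) (Fin n) R) (Q : ι → Matrix (Fin m) (Fin m) R)
    (h : ∀ i, F * P i = Q i * F) (l : List ι) :
    F * (l.map P).prod = (l.map Q).prod * F := by
  induction l with
  | nil => simp
  | cons a l ih =>
    rw [List.map_cons, List.map_cons, List.prod_cons, List.prod_cons, ← Matrix.mul_assoc, h,
      Matrix.mul_assoc, ih, Matrix.mul_assoc]

theorem reg_ex_intertwine {R : Type} [CommRing R] {m n : ℕ} (F : Matrix (Fin m) (Fin n) R)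
    (P : Matrix (Fin n) (Fin n) R) (Q : Matrix (Fin m) (Fin m) R) (h : F * P = Q * F) (η : R) :
    F * ex η P = ex η Q * F := by
  simp only [ex, Matrix.mul_sub, Matrix.mul_add, Matrix.sub_mul, Matrix.add_mul, Matrix.mul_one,
    Matrix.one_mul, Matrix.mul_smul, Matrix.smul_mul]
  rw [← Matrix.mul_assoc, h, Matrix.mul_assoc Q F P, h, Matrix.mul_assoc]

end products

variable (k : Type) [Field k] [CharP k 3]

/-- the regular module -/
noncomputable def regRep {n : ℕ} (e : (Fin 36 → Fin 3) ≃ Fin n) : Rep (Frob1 k) where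
  dim := n
  act R _ _ _ h := (regMat (three_eq_zero k R) (mem_frob.mp h)).submatrix e.symm e.symm
  act_one R _ _ h := by rw [regMat_one, submatrix_one_equiv]
  act_mul R _ _ g g' h h' h'' := by
    rw [regMat_mul _ (mem_frob.mp h) (mem_frob.mp h'), submatrix_mul_equiv]
  natural R S _ _ _ _ f g h h' := by
    have := regMat_map (three_eq_zero k R) (three_eq_zero k S) f.toRingHom (mem_frob.mp h)
      (mem_frob.mp h')
    exact congrArg (fun M => Matrix.submatrix M e.symm e.symm) this

theorem reg_exists : ∃ (N : Rep (Frob1 k)) (e : (Fin 36 → Fin 3) ≃ Fin N.dim),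
    ∀ (h : Frob1 k (Tr k (Fin 36) 3) (PP (Tr.yy k 3))) (a : Fin 36 → Fin 3),
      N.act _ _ h (e a) (e fun _ => 0) = Tr.ymon k a := by
  obtain ⟨n, ⟨e⟩⟩ := Finite.exists_equiv_fin (Fin 36 → Fin 3)
  refine ⟨regRep k e, e, fun h a => ?_⟩
  change regMat _ _ (e.symm (e a)) (e.symm (e fun _ => 0)) = _
  rw [e.symm_apply_apply, e.symm_apply_apply, regMat_col _ (Tr.yy_pow k 3)]
  rfl

theorem reg_mon_toRes (A : Rep (Frob1 k)) (a : Fin 36 → Fin 3) (v : Fin A.dim → k) :
    A.toRes.mon a v = (List.ofFn fun i => A.phi (bs k i) ^ (a i : ℕ)).prod *ᵥ v := by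
  have h : A.toRes.mon a = (Matrix.toLinAlgEquiv' : Matrix (Fin A.dim) (Fin A.dim) k ≃ₐ[k] _)
      (List.ofFn fun i => A.phi (bs k i) ^ (a i : ℕ)).prod := by
    rw [map_list_prod, List.map_ofFn, ResMod.mon]
    congr 2
    funext i
    rw [Function.comp_apply, map_pow]
    rfl
  rw [h, Matrix.toLinAlgEquiv'_apply]

theorem reg_mon_eq (N : Rep (Frob1 k)) (e : (Fin 36 → Fin 3) ≃ Fin N.dim)
    (hN : ∀ (h : Frob1 k (Tr k (Fin 36) 3) (PP (Tr.yy k 3))) (a : Fin 36 → Fin 3),
      N.act _ _ h (e a) (e fun _ => 0) = Tr.ymon k a) (b : Fin 36 → Fin 3) :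
    ((∏ i, regSg (b i) : ℤ) : k) • N.toRes.mon b (Pi.single (e fun _ => 0) 1) =
      Pi.single (e b) 1 := by
  have h3 := three_eq_zero k (Tr k (Fin 36) 3)
  have hm : Frob1 k (Tr k (Fin 36) 3) (PP (Tr.yy k 3)) := PP_mem h3 (Tr.yy_pow k 3)
  have h := N.act_PP (Tr.yy_pow k 3) hm
  simp only [reg_ex_sum] at h
  rw [reg_prod_expand] at h
  funext j
  obtain ⟨a, rfl⟩ := e.surjective j
  have h1 := congrFun (congrFun h (e a)) (e fun _ => 0)
  have h2 := hN hm a
  have h4 : ∀ c : Fin 36 → Fin 3,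
      ((∏ i, ((regSg (c i) : Tr k (Fin 36) 3) * Tr.yy k 3 i ^ (c i : ℕ))) •
        (List.ofFn fun i => (N.phi (bs k i)).map (algebraMap k (Tr k (Fin 36) 3))
          ^ (c i : ℕ)).prod) (e a) (e fun _ => 0) =
      (((∏ i, regSg (c i) : ℤ) : k) *
        (List.ofFn fun i => N.phi (bs k i) ^ (c i : ℕ)).prod (e a) (e fun _ => 0)) •
          Tr.ymon k c := by
    intro c
    have h5 : (List.ofFn fun i => (N.phi (bs k i)).map
        (algebraMap k (Tr k (Fin 36) 3)) ^ (c i : ℕ)).prod =
        (algebraMap k (Tr k (Fin 36) 3)).mapMatrix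
          (List.ofFn fun i => N.phi (bs k i) ^ (c i : ℕ)).prod := by
      rw [map_list_prod, List.map_ofFn]
      congr 2
      funext i
      rw [Function.comp_apply, map_pow]
      rfl
    rw [h5, Matrix.smul_apply, RingHom.mapMatrix_apply, Matrix.map_apply, Finset.prod_mul_distrib,
      smul_eq_mul, Algebra.smul_def, map_mul, map_intCast, Int.cast_prod, Tr.ymon]
    ring
  rw [h2, Matrix.sum_apply, Finset.sum_congr rfl fun c _ => h4 c] at h1
  have h6 := congrArg (Tr.cf k b) h1
  rw [map_sum, Finset.sum_eq_single b, map_smul, Tr.cf_ymon, Tr.cf_ymon, if_pos rfl, smul_eq_mul,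
    mul_one] at h6
  · rw [Pi.smul_apply, reg_mon_toRes, mulVec_single_one, smul_eq_mul, Pi.single_apply]
    refine h6.symm.trans (if_congr ?_ rfl rfl)
    rw [e.apply_eq_iff_eq, eq_comm]
  · intro c _ hc
    rw [map_smul, Tr.cf_ymon, if_neg (Ne.symm hc), smul_zero]
  · intro hb; exact absurd (Finset.mem_univ _) hb

section free

variable {k}
variable {V W : Type} [AddCommGroup V] [Module k V] [AddCommGroup W] [Module k W]

/-- the product of two restricted modules -/
def regProd (A : ResMod k W) (B : ResMod k V) : ResMod k (W × V) where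
  φ :=
    { toFun := fun x => (A.φ x).prodMap (B.φ x)
      map_add' := fun x y => by rw [map_add, map_add, LinearMap.prodMap_add]
      map_smul' := fun c x => by rw [map_smul, map_smul, LinearMap.prodMap_smul]; rfl }
  lie x y hx hy := by
    refine LinearMap.ext fun p => Prod.ext ?_ ?_
    · exact A.lie_apply hx hy p.1
    · exact B.lie_apply hx hy p.2
  res x hx h := by
    refine LinearMap.ext fun p => Prod.ext ?_ ?_
    · exact A.res_apply hx h p.1
    · exact B.res_apply hx h p.2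

omit [CharP k 3] in
theorem reg_hom_mon {A : ResMod k W} {B : ResMod k V} {f : W →ₗ[k] V} (hf : A.Hom B f)
    (a : Fin 36 → Fin 3) (w : W) : f (A.mon a w) = B.mon a (f w) := by
  have hp : ∀ (i : Fin 36) (m : ℕ) (w : W), f ((A.φ (bs k i) ^ m) w) = (B.φ (bs k i) ^ m) (f w) := by
    intro i m
    induction m with
    | zero => intro w; rfl
    | succ m ih =>
      intro w
      rw [pow_succ, pow_succ, Module.End.mul_apply, Module.End.mul_apply, ih, hf _ (bs_sp k i)]
  rw [ResMod.mon, ResMod.mon, List.ofFn_eq_map, List.ofFn_eq_map]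
  induction List.finRange 36 with
  | nil => rfl
  | cons i l ih =>
    rw [List.map_cons, List.map_cons, List.prod_cons, List.prod_cons, Module.End.mul_apply,
      Module.End.mul_apply, hp, ih]

omit [CharP k 3] in
theorem reg_mon_mem {A : ResMod k W} {U : Submodule k W} (hU : A.Stab U) (a : Fin 36 → Fin 3)
    {w : W} (hw : w ∈ U) : A.mon a w ∈ U := by
  have hp : ∀ (i : Fin 36) (m : ℕ) (w : W), w ∈ U → (A.φ (bs k i) ^ m) w ∈ U := by
    intro i m
    induction m with
    | zero => intro w hw; exact hw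
    | succ m ih =>
      intro w hw
      rw [pow_succ, Module.End.mul_apply]
      exact ih _ (hU _ (bs_sp k i) w hw)
  rw [ResMod.mon, List.ofFn_eq_map]
  induction List.finRange 36 with
  | nil => exact hw
  | cons i l ih =>
    rw [List.map_cons, List.prod_cons, Module.End.mul_apply]
    exact hp _ _ _ ih

omit [CharP k 3] in
theorem reg_hom_of_mon {A : ResMod k W} {B : ResMod k V} {ξ : W} {v : V} {f : W →ₗ[k] V}
    (hf : ∀ a, f (A.mon a ξ) = B.mon a v)
    (hs : Submodule.span k (Set.range fun a => A.mon a ξ) = ⊤) : A.Hom B f := by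
  have hm : ∀ a, (regProd A B).mon a (ξ, v) = (A.mon a ξ, B.mon a v) := fun a =>
    Prod.ext (reg_hom_mon (A := regProd A B) (B := A) (f := LinearMap.fst k W V)
        (fun _ _ _ => rfl) a (ξ, v))
      (reg_hom_mon (A := regProd A B) (B := B) (f := LinearMap.snd k W V)
        (fun _ _ _ => rfl) a (ξ, v))
  have h1 : Submodule.span k (Set.range fun a => (regProd A B).mon a (ξ, v)) ≤ f.graph := by
    rw [Submodule.span_le]
    rintro _ ⟨a, rfl⟩
    change ((regProd A B).mon a (ξ, v)).2 = f ((regProd A B).mon a (ξ, v)).1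
    rw [hm, hf]
  have h2 : ∀ w, (w, f w) ∈ Submodule.span k (Set.range fun a => (regProd A B).mon a (ξ, v)) := by
    intro w
    have hw : w ∈ Submodule.span k (Set.range fun a => A.mon a ξ) := hs ▸ Submodule.mem_top
    have := Submodule.mem_map_of_mem (f := LinearMap.prod LinearMap.id f) hw
    rw [Submodule.map_span, ← Set.range_comp] at this
    refine Submodule.span_mono ?_ this
    rintro _ ⟨a, rfl⟩
    exact ⟨a, (hm a).trans (Prod.ext rfl (hf a).symm)⟩
  intro x hx w
  exact (LinearMap.mem_graph_iff _ _).mp (h1 ((regProd A B).span_stab (ξ, v) x hx _ (h2 w))) |>.symm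

end free

theorem exists_free : ∃ (N : Rep (Frob1 k)) (ξ : Fin N.dim → k),
    (∀ (V : Type) [AddCommGroup V] [Module k V] (B : ResMod k V) (v : V),
      ∃ f : (Fin N.dim → k) →ₗ[k] V, N.toRes.Hom B f ∧ f ξ = v) ∧
    ∀ U : Submodule k (Fin N.dim → k), N.toRes.Stab U → ξ ∈ U → U = ⊤ := by
  obtain ⟨N, e, hN⟩ := reg_exists k
  have hm := reg_mon_eq k N e hN
  have hsq : ∀ b : Fin 36 → Fin 3,
      ((∏ i, regSg (b i) : ℤ) : k) * ((∏ i, regSg (b i) : ℤ) : k) = 1 := by
    intro b
    rw [← Int.cast_mul, ← Finset.prod_mul_distrib, Finset.prod_congr rfl fun i _ => regSg_sq (b i),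
      Finset.prod_const_one, Int.cast_one]
  have htop : ∀ U : Submodule k (Fin N.dim → k),
      (∀ a, N.toRes.mon a (Pi.single (e fun _ => 0) 1) ∈ U) → U = ⊤ := by
    intro U hU
    rw [eq_top_iff, ← (Pi.basisFun k (Fin N.dim)).span_eq, Submodule.span_le]
    rintro _ ⟨j, rfl⟩
    obtain ⟨a, rfl⟩ := e.surjective j
    rw [Pi.basisFun_apply]
    have := U.smul_mem ((∏ i, regSg (a i) : ℤ) : k) (hU a)
    rw [hm] at this
    exact this
  refine ⟨N, Pi.single (e fun _ => 0) 1, fun V _ _ B v => ?_,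
    fun U hU h => htop U fun a => reg_mon_mem hU a h⟩
  let f : (Fin N.dim → k) →ₗ[k] V := (Pi.basisFun k (Fin N.dim)).constr k fun j =>
    ((∏ i, regSg (e.symm j i) : ℤ) : k) • B.mon (e.symm j) v
  have hf : ∀ a, f (N.toRes.mon a (Pi.single (e fun _ => 0) 1)) = B.mon a v := by
    intro a
    have h1 : f (Pi.single (e a) 1) = ((∏ i, regSg (a i) : ℤ) : k) • B.mon a v := by
      rw [← Pi.basisFun_apply, Module.Basis.constr_basis, e.symm_apply_apply]
    have h2 := congrArg (fun w => ((∏ i, regSg (a i) : ℤ) : k) • f w) (hm a)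
    simp only [map_smul, h1, smul_smul, hsq, one_smul] at h2
    exact h2
  refine ⟨f, reg_hom_of_mon hf (htop _ fun a => Submodule.subset_span ⟨a, rfl⟩), ?_⟩
  have := hf fun _ => 0
  rwa [ResMod.mon_zero, ResMod.mon_zero] at this

variable {k}

/-- the ordered product of truncated exponentials -/
noncomputable def regEx {m : ℕ} (ψ : Fin 36 → Matrix (Fin m) (Fin m) k) {R : Type} [CommRing R]
    [Algebra k R] (y : Fin 36 → R) : Matrix (Fin m) (Fin m) R :=
  (List.ofFn fun i => ex (y i) ((ψ i).map (algebraMap k R))).prod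

theorem reg_act_eq (N : Rep (Frob1 k)) {R : Type} [CommRing R] [Algebra k R] {g : Mat R}
    (h : Frob1 k R g) :
    N.act R g h = regEx (fun i => N.phi (bs k i)) (regCrd (three_eq_zero k R) (mem_frob.mp h)) := by
  have key : ∀ (y : Fin 36 → R) (_ : ∀ i, y i ^ 3 = 0) (_ : PP y = g),
      N.act R g h = regEx (fun i => N.phi (bs k i)) y := by
    intro y hy hg
    subst hg
    exact N.act_PP hy h
  exact key _ (regCrd_cube _ _) (reg_PP_crd _ _)

omit [CharP k 3] in
theorem regEx_intertwine {m n : ℕ} (F : Matrix (Fin m) (Fin n) k)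
    (χ : Fin 36 → Matrix (Fin n) (Fin n) k) (ψ : Fin 36 → Matrix (Fin m) (Fin m) k)
    (h : ∀ i, F * χ i = ψ i * F) {R : Type} [CommRing R] [Algebra k R] (y : Fin 36 → R) :
    F.map (algebraMap k R) * regEx χ y = regEx ψ y * F.map (algebraMap k R) := by
  rw [regEx, regEx, List.ofFn_eq_map, List.ofFn_eq_map]
  refine reg_intertwine _ _ _ (fun i => reg_ex_intertwine _ _ _ ?_ _) _
  rw [← Matrix.map_mul, ← Matrix.map_mul, h]

omit [CharP k 3] in
theorem regEx_map {m : ℕ} (ψ : Fin 36 → Matrix (Fin m) (Fin m) k) {R S : Type} [CommRing R]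
    [Algebra k R] [CommRing S] [Algebra k S] (f : R →ₐ[k] S) (y : Fin 36 → R) :
    regEx ψ (fun i => f (y i)) = (regEx ψ y).map f := by
  change _ = (f : R →+* S).mapMatrix (regEx ψ y)
  rw [regEx, regEx, map_list_prod, List.map_ofFn]
  congr 2
  funext i
  have h : (f : R →+* S).mapMatrix ((ψ i).map (algebraMap k R)) = (ψ i).map (algebraMap k S) := by
    ext a b; exact f.commutes _
  have hs : ∀ (c : R) (M : Matrix (Fin m) (Fin m) R),
      (f : R →+* S).mapMatrix (c • M) = f c • (f : R →+* S).mapMatrix M := by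
    intro c M; ext a b; exact map_mul f _ _
  rw [Function.comp_apply, ex, ex, map_sub, map_add, map_one, hs, hs, map_mul, h, map_pow]

theorem exists_rep {V : Type} [AddCommGroup V] [Module k V] [FiniteDimensional k V]
    (B : ResMod k V) :
    ∃ (A : Rep (Frob1 k)) (e : (Fin A.dim → k) ≃ₗ[k] V), A.toRes.Hom B e.toLinearMap := by
  obtain ⟨N, ξ, hfree, -⟩ := exists_free k
  let bV := Module.finBasis k V
  let ψ : Mat k →ₗ[k] Matrix (Fin (Module.finrank k V)) (Fin (Module.finrank k V)) k :=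
    (LinearMap.toMatrix bV bV).toLinearMap ∘ₗ B.φ
  have hψ : ∀ x v, ψ x *ᵥ bV.repr v = bV.repr (B.φ x v) := fun x v =>
    LinearMap.toMatrix_mulVec_repr bV bV (B.φ x) v
  have hF : ∀ j, ∃ F : Matrix (Fin (Module.finrank k V)) (Fin N.dim) k,
      (∀ i, F * N.phi (bs k i) = ψ (bs k i) * F) ∧ F *ᵥ ξ = Pi.single j 1 := by
    intro j
    obtain ⟨f, hf, hξ⟩ := hfree V B (bV j)
    have h1 : ∀ w, LinearMap.toMatrix (Pi.basisFun k _) bV f *ᵥ w = bV.repr (f w) := fun w =>
      LinearMap.toMatrix_mulVec_repr (Pi.basisFun k _) bV f w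
    refine ⟨LinearMap.toMatrix (Pi.basisFun k _) bV f, fun i => ?_, ?_⟩
    · refine Matrix.ext_of_mulVec_single fun c => ?_
      rw [← mulVec_mulVec, ← mulVec_mulVec, h1, h1, hψ, ← hf _ (bs_sp k i)]
      rfl
    · rw [h1, hξ, bV.repr_self, Finsupp.single_eq_pi_single]
  let A : Rep (Frob1 k) :=
    { dim := Module.finrank k V
      act := fun R _ _ _ h => regEx (fun i => ψ (bs k i)) (regCrd (three_eq_zero k R) (mem_frob.mp h))
      act_one := fun R _ _ h => by
        rw [regCrd_eq _ _ (y := fun _ => 0) (fun _ => by simp) PP_zero, regEx]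
        simp only [reg_ex_zero]
        exact List.prod_eq_one fun x hx => by
          obtain ⟨i, rfl⟩ := List.mem_ofFn.mp hx
          rfl
      act_mul := fun R _ _ g g' h h' h'' => by
        refine Matrix.ext_of_mulVec_single fun j => ?_
        obtain ⟨F, hF1, hF2⟩ := hF j
        have h1 : (Pi.single j 1 : Fin (Module.finrank k V) → R) =
            F.map (algebraMap k R) *ᵥ (algebraMap k R ∘ ξ) := by
          funext c
          rw [← RingHom.map_mulVec, hF2, Pi.single_apply, Pi.single_apply]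
          split_ifs <;> simp
        have h2 := fun y : Fin 36 → R => regEx_intertwine F _ _ hF1 y
        rw [h1, mulVec_mulVec, mulVec_mulVec, Matrix.mul_assoc, ← h2, ← h2, ← Matrix.mul_assoc,
          ← h2, Matrix.mul_assoc, ← reg_act_eq N h, ← reg_act_eq N h', ← reg_act_eq N h'',
          N.act_mul R g g' h h' h'']
      natural := fun R S _ _ _ _ f g h h' => by
        rw [← regEx_map, regCrd_eq _ (mem_frob.mp h')
          (y := fun i => f (regCrd (three_eq_zero k R) (mem_frob.mp h) i))]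
        · intro i; rw [← map_pow, regCrd_cube, map_zero]
        · rw [← PP_map, reg_PP_crd] }
  have hphi : ∀ i, A.phi (bs k i) = ψ (bs k i) := by
    intro i
    have hε : (DualNumber.eps : DualNumber k) * DualNumber.eps = 0 := DualNumber.eps_mul_eps
    have hy : ∀ j, (Pi.single i DualNumber.eps : Fin 36 → DualNumber k) j ^ 3 = 0 := by
      intro j
      rw [Pi.single_apply]
      split_ifs
      · rw [pow_succ, pow_two, hε, zero_mul]
      · simp
    have hP : PP (Pi.single i DualNumber.eps : Fin 36 → DualNumber k) =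
        1 + (DualNumber.eps : DualNumber k) • (bs k i).map (algebraMap k (DualNumber k)) := by
      rw [PP, reg_prod_single _ i, Pi.single_eq_same, bs_map]
      intro j hj
      rw [Pi.single_eq_of_ne hj, zero_smul, add_zero]
    have hm : Frob1 k (DualNumber k)
        (1 + (DualNumber.eps : DualNumber k) • (bs k i).map (algebraMap k (DualNumber k))) :=
      hP ▸ PP_mem (three_eq_zero k _) hy
    have h1 := A.act_eps (bs_sp k i) hε hm
    have h2 : A.act _ _ hm = 1 + (DualNumber.eps : DualNumber k) •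
        (ψ (bs k i)).map (algebraMap k (DualNumber k)) := by
      change regEx (fun i => ψ (bs k i)) (regCrd _ _) = _
      rw [regCrd_eq _ _ hy hP, regEx, reg_prod_single _ i, Pi.single_eq_same, ex, pow_two, hε,
        zero_smul, sub_zero]
      intro j hj
      rw [Pi.single_eq_of_ne hj, reg_ex_zero]
    have h4 := add_left_cancel (h1.symm.trans h2)
    ext a b
    have h5 := congrArg TrivSqZeroExt.snd (congrFun (congrFun h4 a) b)
    simpa [TrivSqZeroExt.algebraMap_eq_inl] using h5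
  refine ⟨A, bV.equivFun.symm, fun x hx w => ?_⟩
  have h6 : A.phi x = ψ x :=
    sp_basis_induction (P := fun x => A.phi x = ψ x) (by rw [map_zero, map_zero])
      (fun x y a b => by rw [map_add, map_add, a, b])
      (fun c x a => by rw [map_smul, map_smul, a]) hphi hx
  obtain ⟨v, rfl⟩ := bV.equivFun.surjective w
  rw [Rep.toRes_apply, h6]
  change bV.equivFun.symm (ψ x *ᵥ bV.repr v) = B.φ x (bV.equivFun.symm (bV.equivFun v))
  rw [hψ, LinearEquiv.symm_apply_apply]
  exact bV.equivFun.symm_apply_apply _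

end Pool.Agent.MP_2042ac_al

end

-- part MP_2042ac_al.Cover
section

/-!
Projective covers of the trivial module.
-/

set_option autoImplicit false

namespace Pool.Agent.MP_2042ac_al

open Matrix

section helpers

variable {k : Type} [Field k] {V W X : Type} [AddCommGroup V] [Module k V]
  [AddCommGroup W] [Module k W] [AddCommGroup X] [Module k X]

theorem cover_hom_comp {A : ResMod k V} {B : ResMod k W} {C : ResMod k X} {f : V →ₗ[k] W}
    {g : W →ₗ[k] X} (hf : A.Hom B f) (hg : B.Hom C g) : A.Hom C (g ∘ₗ f) := fun x hx v => by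
  rw [LinearMap.comp_apply, LinearMap.comp_apply, hf x hx, hg x hx]

theorem cover_hom_symm {A : ResMod k V} {B : ResMod k W} {e : V ≃ₗ[k] W}
    (he : A.Hom B e.toLinearMap) : B.Hom A e.symm.toLinearMap := fun x hx w => by
  apply e.injective
  have := he x hx (e.symm w)
  simp only [LinearEquiv.coe_coe, LinearEquiv.apply_symm_apply] at this ⊢
  exact this.symm

theorem cover_hom_subtype (A : ResMod k V) (N : Submodule k V) (h : A.Stab N) :
    (A.sub N h).Hom A N.subtype := fun _ hx v => A.sub_apply N h hx v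

theorem cover_hom_pow {A : ResMod k V} {θ : V →ₗ[k] V} (h : A.Hom A θ) (n : ℕ) :
    A.Hom A (θ ^ n) := by
  induction n with
  | zero => exact fun _ _ _ => rfl
  | succ n ih => rw [pow_succ]; exact cover_hom_comp h ih

theorem cover_stab_range {A : ResMod k V} {B : ResMod k W} {f : V →ₗ[k] W} (h : A.Hom B f) :
    B.Stab (LinearMap.range f) := by
  rintro x hx _ ⟨v, rfl⟩
  exact ⟨_, h x hx v⟩

theorem cover_stab_ker {A : ResMod k V} {B : ResMod k W} {f : V →ₗ[k] W} (h : A.Hom B f) :
    A.Stab (LinearMap.ker f) := by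
  intro x hx v hv
  rw [LinearMap.mem_ker] at hv ⊢
  rw [h x hx, hv, map_zero]

theorem cover_retract {A : ResMod k V} {B : ResMod k W} (hA : A.IsProj) {i : W →ₗ[k] V}
    {r : V →ₗ[k] W} (hi : B.Hom A i) (hr : A.Hom B r) (h : ∀ w, r (i w) = w) : B.IsProj := by
  intro U U' _ _ _ _ _ _ C D p f hp hs hf
  obtain ⟨s, hs1, hs2⟩ := hA U U' C D p (f ∘ₗ r) hp hs (cover_hom_comp hr hf)
  refine ⟨s ∘ₗ i, cover_hom_comp hi hs1, ?_⟩
  ext w
  have := LinearMap.congr_fun hs2 (i w)
  simpa [h] using this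

theorem cover_summand {A : ResMod k V} (hA : A.IsProj) {N N' : Submodule k V} (hN : A.Stab N)
    (hN' : A.Stab N') (h : IsCompl N N') : (A.sub N hN).IsProj := by
  obtain ⟨r, hr1, hr2⟩ : ∃ r : V →ₗ[k] N, (∀ v : N, r v = v) ∧ ∀ v ∈ N', r v = 0 :=
    ⟨N.projectionOnto N' h, fun v => by simp, fun v hv => by simpa using hv⟩
  refine cover_retract hA (cover_hom_subtype A N hN) (r := r) ?_ hr1
  intro x hx v
  obtain ⟨a, ha, b, hb, rfl⟩ := Submodule.mem_sup.mp
    (show v ∈ N ⊔ N' from h.sup_eq_top ▸ Submodule.mem_top)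
  rw [map_add, map_add, map_add, hr2 b hb, hr2 _ (hN' x hx b hb), add_zero, add_zero,
    hr1 ⟨a, ha⟩, hr1 ⟨_, hN x hx a ha⟩]
  exact Subtype.ext (A.sub_apply N hN hx ⟨a, ha⟩).symm

/-- the trivial restricted module -/
def coverTriv (k : Type) [Field k] : ResMod k k where
  φ := 0
  lie _ _ _ _ := by simp
  res _ _ _ := by simp

theorem cover_hom_triv {A : ResMod k V} {π : V →ₗ[k] k} :
    A.Hom (coverTriv k) π ↔ ∀ x, IsSp x → ∀ v, π (A.φ x v) = 0 := Iff.rfl

theorem cover_surj {π : V →ₗ[k] k} {u : V} (h : π u ≠ 0) : Function.Surjective π := fun c =>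
  ⟨(c / π u) • u, by rw [map_smul, smul_eq_mul, div_mul_cancel₀ _ h]⟩

theorem cover_isHom_mul {H : Pts k} {A B C : Rep H} {f : Matrix (Fin B.dim) (Fin A.dim) k}
    {g : Matrix (Fin C.dim) (Fin B.dim) k} (hf : IsHom A B f) (hg : IsHom B C g) :
    IsHom A C (g * f) := fun R _ _ x h => by
  rw [Matrix.map_mul, Matrix.mul_assoc, hf R x h, ← Matrix.mul_assoc, hg R x h, Matrix.mul_assoc]

theorem cover_surj_mul {l m n : ℕ} {f : Matrix (Fin m) (Fin n) k} {g : Matrix (Fin l) (Fin m) k}
    (hf : Function.Surjective f.mulVec) (hg : Function.Surjective g.mulVec) :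
    Function.Surjective (g * f).mulVec := fun y => by
  obtain ⟨z, rfl⟩ := hg y
  obtain ⟨w, rfl⟩ := hf z
  exact ⟨w, (Matrix.mulVec_mulVec w g f).symm⟩

theorem cover_surj_of_mul_one {m n : ℕ} {f : Matrix (Fin m) (Fin n) k}
    {g : Matrix (Fin n) (Fin m) k} (h : f * g = 1) : Function.Surjective f.mulVec := fun y =>
  ⟨g *ᵥ y, by rw [Matrix.mulVec_mulVec, h, Matrix.one_mulVec]⟩

end helpers

theorem ResMod.IsProj.dual_isInj {k : Type} [Field k] {V : Type} [AddCommGroup V] [Module k V]
    {A : ResMod k V} (hA : A.IsProj) : A.dual.IsInj := by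
  intro U _ _ _ B N N' f hN hN' hle hf
  obtain ⟨s, hs1, hs2⟩ := hA (Module.Dual k N') (Module.Dual k N) (B.sub N' hN').dual
    (B.sub N hN).dual (Submodule.inclusion hle).dualMap (f ∘ₗ N.subtype).flip
    (fun x hx l => by
      ext n
      rw [LinearMap.dualMap_apply, ResMod.dual_apply, ResMod.dual_apply, LinearMap.dualMap_apply]
      refine congrArg l (Subtype.ext ?_)
      rw [B.sub_apply N' hN' hx.transpose, Submodule.coe_inclusion, Submodule.coe_inclusion,
        B.sub_apply N hN hx.transpose])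
    (LinearMap.dualMap_surjective_of_injective (Submodule.inclusion_injective hle))
    (fun x hx v => by
      ext n
      rw [ResMod.dual_apply]
      change f n (A.φ x v) = f ((B.sub N hN).φ xᵀ n : U) v
      rw [B.sub_apply N hN hx.transpose, hf _ hx.transpose _ n.2, ResMod.dual_apply,
        transpose_transpose])
  obtain ⟨F, hF⟩ := LinearMap.exists_extend s.flip
  have hF' : ∀ (u : N') (v : V), F u v = s v u := fun u v =>
    LinearMap.congr_fun (LinearMap.congr_fun hF u) v
  refine ⟨F, fun x hx u hu => ?_, fun u hu => ?_⟩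
  · ext v
    rw [ResMod.dual_apply, hF' ⟨u, hu⟩, hF' ⟨_, hN' x hx u hu⟩, hs1 _ hx.transpose,
      ResMod.dual_apply, transpose_transpose]
    congr 1
    exact Subtype.ext (B.sub_apply N' hN' hx ⟨u, hu⟩).symm
  · ext v
    rw [hF' ⟨u, hle hu⟩]
    exact LinearMap.congr_fun (LinearMap.congr_fun hs2 v) ⟨u, hu⟩

variable {k : Type} [Field k] [CharP k 3]

theorem cover_isHom_toMatrix {A B : Rep (Frob1 k)}
    {f : (Fin A.dim → k) →ₗ[k] (Fin B.dim → k)} (h : A.toRes.Hom B.toRes f) :
    IsHom A B (LinearMap.toMatrix' f) := by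
  rw [isHom_iff_res, Matrix.toLin'_toMatrix']; exact h

theorem isProjective_iff (Q : Rep (Frob1 k)) : IsProjective Q ↔ Q.toRes.IsProj := by
  constructor
  · intro hQ U U' _ _ _ _ _ _ B C p f hp hs hf
    obtain ⟨A1, e1, h1⟩ := exists_rep B
    obtain ⟨A2, e2, h2⟩ := exists_rep C
    obtain ⟨s, hs1, hs2⟩ := hQ A1 A2
      (LinearMap.toMatrix' (e2.symm.toLinearMap ∘ₗ p ∘ₗ e1.toLinearMap))
      (LinearMap.toMatrix' (e2.symm.toLinearMap ∘ₗ f))
      (cover_isHom_toMatrix (cover_hom_comp (cover_hom_comp h1 hp) (cover_hom_symm h2)))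
      (fun y => by
        obtain ⟨z, hz⟩ := hs (e2 y)
        exact ⟨e1.symm z, by rw [LinearMap.toMatrix'_mulVec]; simp [hz]⟩)
      (cover_isHom_toMatrix (cover_hom_comp hf (cover_hom_symm h2)))
    refine ⟨e1.toLinearMap ∘ₗ Matrix.toLin' s,
      cover_hom_comp ((isHom_iff_res _ _ _).mp hs1) h1, LinearMap.ext fun v => ?_⟩
    have := congrArg (fun m => m *ᵥ v) hs2
    simp only [← Matrix.mulVec_mulVec, LinearMap.toMatrix'_mulVec] at this
    exact e2.symm.injective this
  · intro hQ B C p f hp hs hf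
    obtain ⟨s, hs1, hs2⟩ := hQ _ _ B.toRes C.toRes (Matrix.toLin' p) (Matrix.toLin' f)
      ((isHom_iff_res _ _ _).mp hp) hs ((isHom_iff_res _ _ _).mp hf)
    refine ⟨LinearMap.toMatrix' s, cover_isHom_toMatrix hs1, ?_⟩
    apply Matrix.toLin'.injective
    rw [Matrix.toLin'_mul, Matrix.toLin'_toMatrix', hs2]

/-- the underlying space of the trivial module -/
def coverE (k : Type) [Field k] : (Fin (triv (Frob1 k)).dim → k) ≃ₗ[k] k :=
  LinearEquiv.funUnique (Fin 1) k k

theorem coverE_hom : (triv (Frob1 k)).toRes.Hom (coverTriv k) (coverE k).toLinearMap :=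
  fun x hx v => by
    rw [Rep.toRes_apply, triv_phi hx, Matrix.zero_mulVec, map_zero]; rfl

theorem isProjCover_iff (Q : Rep (Frob1 k)) : IsProjCover Q (triv (Frob1 k)) ↔
    Q.toRes.IsProj ∧ ∃ π : (Fin Q.dim → k) →ₗ[k] k, π ≠ 0 ∧
      (∀ x, IsSp x → ∀ v, π (Q.toRes.φ x v) = 0) ∧
      ∀ U : Submodule k (Fin Q.dim → k), Q.toRes.Stab U → (∃ u ∈ U, π u ≠ 0) → U = ⊤ := by
  rw [IsProjCover, isProjective_iff]
  refine and_congr_right fun _ => ⟨?_, ?_⟩
  · rintro ⟨π, hπ, hs, hess⟩
    refine ⟨(coverE k).toLinearMap ∘ₗ Matrix.toLin' π, fun h0 => ?_,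
      cover_hom_triv.mp (cover_hom_comp ((isHom_iff_res _ _ _).mp hπ) coverE_hom), ?_⟩
    · obtain ⟨v, hv⟩ := hs ((coverE k).symm 1)
      have := LinearMap.congr_fun h0 v
      simp [hv] at this
    · rintro U hU ⟨u, hu, hu0⟩
      obtain ⟨A, e, he⟩ := exists_rep (Q.toRes.sub U hU)
      have hsurj := hess A (LinearMap.toMatrix' (U.subtype ∘ₗ e.toLinearMap))
        (cover_isHom_toMatrix (cover_hom_comp he (cover_hom_subtype _ U hU))) (fun y => by
          obtain ⟨w, hw⟩ := cover_surj (π := ((coverE k).toLinearMap ∘ₗ Matrix.toLin' π)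
            ∘ₗ U.subtype) (u := ⟨u, hu⟩) hu0 (coverE k y)
          refine ⟨e.symm w, (coverE k).injective ?_⟩
          rw [← Matrix.mulVec_mulVec, LinearMap.toMatrix'_mulVec, ← hw]
          simp)
      refine eq_top_iff.mpr fun v _ => ?_
      obtain ⟨w, rfl⟩ := hsurj v
      rw [LinearMap.toMatrix'_mulVec]
      exact (e w).2
  · rintro ⟨π, h0, hπ, hess⟩
    obtain ⟨u, hu⟩ : ∃ u, π u ≠ 0 := by
      by_contra! hh; exact h0 (LinearMap.ext hh)
    refine ⟨LinearMap.toMatrix' ((coverE k).symm.toLinearMap ∘ₗ π),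
      cover_isHom_toMatrix (cover_hom_comp (cover_hom_triv.mpr hπ) (cover_hom_symm coverE_hom)),
      fun y => ?_, fun A f hf hs => ?_⟩
    · obtain ⟨v, hv⟩ := cover_surj hu (coverE k y)
      exact ⟨v, by rw [LinearMap.toMatrix'_mulVec]; simp [hv]⟩
    · have := hess _ (cover_stab_range ((isHom_iff_res _ _ _).mp hf)) (by
        obtain ⟨w, hw⟩ := hs ((coverE k).symm 1)
        refine ⟨_, ⟨w, rfl⟩, ?_⟩
        rw [← Matrix.mulVec_mulVec, LinearMap.toMatrix'_mulVec] at hw
        have h1 : π (f *ᵥ w) = 1 := (coverE k).symm.injective hw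
        rw [Matrix.toLin'_apply, h1]
        exact one_ne_zero)
      exact LinearMap.range_eq_top.mp this

theorem cover_exists_proj : ∃ Q : Rep (Frob1 k), Q.toRes.IsProj ∧
    ∃ π : (Fin Q.dim → k) →ₗ[k] k, π ≠ 0 ∧ ∀ x, IsSp x → ∀ v, π (Q.toRes.φ x v) = 0 := by
  obtain ⟨N, ξ, h1, h2⟩ := exists_free k
  refine ⟨N, ?_, ?_⟩
  · intro U U' _ _ _ _ _ _ B C p f hp hs hf
    obtain ⟨b, hb⟩ := hs (f ξ)
    obtain ⟨s, hs1, hs2⟩ := h1 U B b
    refine ⟨s, hs1, ?_⟩
    have := h2 (LinearMap.eqLocus (p ∘ₗ s) f) (fun x hx v hv => by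
      rw [LinearMap.mem_eqLocus] at hv ⊢
      rw [cover_hom_comp hs1 hp x hx, hf x hx, hv])
      (by rw [LinearMap.mem_eqLocus, LinearMap.comp_apply, hs2, hb])
    exact LinearMap.eqLocus_eq_top.mp this
  · obtain ⟨π, hπ, hξ⟩ := h1 k (coverTriv k) 1
    refine ⟨π, fun h0 => ?_, cover_hom_triv.mp hπ⟩
    rw [h0] at hξ
    exact zero_ne_one hξ

theorem exists_cover : ∃ Q : Rep (Frob1 k), IsProjCover Q (triv (Frob1 k)) := by
  classical
  have hex : ∃ n, ∃ Q : Rep (Frob1 k), Q.dim = n ∧ Q.toRes.IsProj ∧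
      ∃ π : (Fin Q.dim → k) →ₗ[k] k, π ≠ 0 ∧ ∀ x, IsSp x → ∀ v, π (Q.toRes.φ x v) = 0 := by
    obtain ⟨Q, hQ⟩ := cover_exists_proj (k := k)
    exact ⟨_, Q, rfl, hQ⟩
  obtain ⟨Q, hd, hQ, π, h0, hπ⟩ := Nat.find_spec hex
  refine ⟨Q, (isProjCover_iff Q).mpr ⟨hQ, π, h0, hπ, ?_⟩⟩
  rintro U hU ⟨u, hu, hu0⟩
  obtain ⟨s, hs1, hs2⟩ := hQ U k (Q.toRes.sub U hU) (coverTriv k) (π ∘ₗ U.subtype) π
    (cover_hom_comp (cover_hom_subtype _ U hU) (cover_hom_triv.mpr hπ))
    (cover_surj (u := ⟨u, hu⟩) hu0) (cover_hom_triv.mpr hπ)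
  let θ : (Fin Q.dim → k) →ₗ[k] (Fin Q.dim → k) := U.subtype ∘ₗ s
  have hθ : Q.toRes.Hom Q.toRes θ := cover_hom_comp hs1 (cover_hom_subtype _ U hU)
  have hπθ : ∀ n v, π ((θ ^ n) v) = π v := by
    intro n
    induction n with
    | zero => exact fun _ => rfl
    | succ n ih =>
      intro v
      rw [pow_succ, Module.End.mul_apply, ih]
      exact LinearMap.congr_fun hs2 v
  obtain ⟨n, hn⟩ := Filter.eventually_atTop.mp θ.eventually_isCompl_ker_pow_range_pow
  have hc := hn (n + 1) (Nat.le_succ n)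
  have hR := cover_stab_range (cover_hom_pow hθ (n + 1))
  have hP := cover_summand hQ hR (cover_stab_ker (cover_hom_pow hθ (n + 1))) hc.symm
  obtain ⟨A, e, he⟩ := exists_rep (Q.toRes.sub _ hR)
  have hle : Nat.find hex ≤ A.dim := Nat.find_min' hex ⟨A, rfl,
    cover_retract hP he (cover_hom_symm he) e.symm_apply_apply,
    π ∘ₗ (LinearMap.range (θ ^ (n + 1))).subtype ∘ₗ e.toLinearMap, fun hh => hu0 (by
      have := LinearMap.congr_fun hh (e.symm ⟨_, u, rfl⟩)
      simpa [hπθ] using this),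
    cover_hom_triv.mp (cover_hom_comp (cover_hom_comp he (cover_hom_subtype _ _ hR))
      (cover_hom_triv.mpr hπ))⟩
  have htop : LinearMap.range (θ ^ (n + 1)) = ⊤ := by
    apply Submodule.eq_top_of_finrank_eq
    refine le_antisymm (Submodule.finrank_le _) ?_
    rw [← e.finrank_eq, Module.finrank_fin_fun, Module.finrank_fin_fun, hd]
    exact hle
  refine eq_top_iff.mpr fun v _ => ?_
  obtain ⟨w, rfl⟩ := LinearMap.range_eq_top.mp htop v
  rw [pow_succ', Module.End.mul_apply]
  exact (s _).2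

omit [CharP k 3] in
theorem IsProjCover.of_iso {H : Pts k} {A Q L : Rep H} (h : IsIso A Q)
    (hQ : IsProjCover Q L) : IsProjCover A L := by
  obtain ⟨a, b, ha, hb, hab, hba⟩ := h
  obtain ⟨hP, π, hπ, hs, hess⟩ := hQ
  refine ⟨fun B C p f hp hp' hf => ?_, π * a, cover_isHom_mul ha hπ,
    cover_surj_mul (cover_surj_of_mul_one hab) hs, fun A' f hf hs' => ?_⟩
  · obtain ⟨s, hs1, hs2⟩ := hP B C p (f * b) hp hp' (cover_isHom_mul hb hf)
    refine ⟨s * a, cover_isHom_mul ha hs1, ?_⟩
    rw [← Matrix.mul_assoc, hs2, Matrix.mul_assoc, hba, Matrix.mul_one]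
  · rw [Matrix.mul_assoc] at hs'
    have := cover_surj_mul (hess A' (a * f) (cover_isHom_mul hf ha) hs')
      (cover_surj_of_mul_one hba)
    rwa [← Matrix.mul_assoc, hba, Matrix.one_mul] at this

end Pool.Agent.MP_2042ac_al

end

-- part MP_2042ac_al.Main
section

/-!
No `Sp_8`-module restricts to a projective cover of the trivial `G_1`-module.
-/

set_option autoImplicit false

namespace Pool.Agent.MP_2042ac_al

open Matrix

variable {k : Type} [Field k] [CharP k 3]

theorem not_cover [Infinite k] (M : Rep (Sp8 k)) : ¬ IsProjCover (restr M) (triv (Frob1 k)) := by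
  intro h
  obtain ⟨hP, π, hπ, hπg, hess⟩ := (isProjCover_iff _).mp h
  obtain ⟨P, hPe⟩ := exists_gpkg M
  rw [← hPe] at hP hπg hess
  let K : Submodule k (E0 k) := LinearMap.ker ((resQ k).toLinearMap ∘ₗ (E0 k).subtype)
  have hKm : ∀ w : E0 k, w ∈ K ↔ resQ k (w : PX k) = 0 := fun w => Iff.rfl
  obtain ⟨L, κ, hL, hv, hKL, hκ, hκK⟩ := exists_form (EP k) ⟨vP k, vP_mem⟩
    ((evF (baseF k)).toLinearMap ∘ₗ (E0 k).subtype) K
    (fun g hg => HH_induction (P := fun g => ∀ w ∈ K, (EP k).ρ g w ∈ K)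
      (fun w hw => by rwa [(EP k).ρ_one])
      (fun a b ha hb iha ihb w hw => by
        rw [(EP k).ρ_mul_apply (HH_le ha) (HH_le hb)]; exact iha _ (ihb w hw))
      (fun i s w hw => resQ_rho (ee_sp k i) (ee_sq k i) w.2 hw s)
      (fun i s w hw => resQ_rho (ff_sp k i) (ff_sq k i) w.2 hw s) hg)
    (fun w hw => by
      change evF (baseF k) (w : PX k) = 0
      rw [base_eq, (hKm w).mp hw, map_zero])
    vP_base (fun g _ => vP_symm g) vP_wt (fun i s => Subtype.ext (vP_ee i s))
    (fun i n hn => Subtype.ext (vP_ff i n hn))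
  obtain ⟨c1, c2, c3, c4⟩ := certificates L κ hL hv (fun w hw => ⟨hKL hw, hκK w hw⟩) hκ
  refine core (EP k) P.dual π hπ (fun x hx => ?_) (fun N hN hN0 => ?_) hP.dual_isInj L κ hL
    EP_bound _ t0P_wt c1 c2 c3 c4
  · exact LinearMap.ext fun v => hπg _ hx.transpose v
  · have h1 : P.Stab N.dualCoannihilator := by
      intro x hx v hv
      rw [Submodule.mem_dualCoannihilator] at hv ⊢
      intro l hl
      have := hv _ (hN _ hx.transpose l hl)
      exact this
    have h2 : ∀ u ∈ N.dualCoannihilator, π u = 0 := by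
      by_contra hc
      push Not at hc
      have h3 := hess _ h1 hc
      apply hN0
      rw [eq_bot_iff]
      intro l hl
      have h4 : ∀ v, l v = 0 := fun v =>
        (Submodule.mem_dualCoannihilator v).mp (h3.ge trivial) l hl
      exact (Submodule.mem_bot k).mpr (LinearMap.ext h4)
    rw [← Subspace.dualCoannihilator_dualAnnihilator_eq (W := N), Submodule.mem_dualAnnihilator]
    exact h2

end Pool.Agent.MP_2042ac_al

end
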