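import Pool.Agent.MP_2042ac_al.Mg.Core
import Pool.Agent.MP_2042ac_al.Refl

-- part MP_2042ac_al.Poly
section

/-!
Polynomial functions on `8 × 4` matrices; the span `E0` of products of minors.
-/

set_option autoImplicit false

namespace Pool.Agent.MP_2042ac_al

open Matrix MvPolynomial

abbrev PX (K : Type) [CommRing K] : Type := MvPolynomial (Idx × Fin 4) K

abbrev Frm (R : Type) : Type := Matrix Idx (Fin 4) R

section defs
variable {K : Type} [CommRing K]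

/-- evaluation at a frame -/
noncomputable def evF {R : Type} [CommRing R] [Algebra K R] (Y : Frm R) : PX K →ₐ[K] R :=
  aeval fun p => Y p.1 p.2

variable (K) in
/-- the generic frame -/
noncomputable def XM : Frm (PX K) := of fun a j => X (a, j)

/-- the action of matrices: `(g ψ)(X) = ψ(gᵀ X)` -/
noncomputable def rho (g : Mat K) : PX K →ₐ[K] PX K := evF (gᵀ.map C * XM K)

/-- the infinitesimal action -/
noncomputable def der (x : Mat K) : Derivation K (PX K) (PX K) :=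
  mkDerivation K fun p => (xᵀ.map C * XM K : Frm (PX K)) p.1 p.2

/-- the action of `1 + s x` with `s` an indeterminate -/
noncomputable def sig (x : Mat K) : PX K →ₐ[K] Polynomial (PX K) :=
  evF ((XM K).map Polynomial.C +
    (Polynomial.X : Polynomial (PX K)) • (xᵀ.map C * XM K : Frm (PX K)).map Polynomial.C)

/-- divided powers -/
noncomputable def Del (x : Mat K) (n : ℕ) : PX K →ₗ[K] PX K :=
  ((Polynomial.lcoeff (PX K) n).restrictScalars K) ∘ₗ (sig x).toLinearMap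

variable (K) in
/-- minors on the first `d` columns -/
noncomputable def mnr {d : ℕ} (hd : d ≤ 4) (r : Fin d → Idx) : PX K :=
  det (of fun a b => X (r a, Fin.castLE hd b))

variable (K) in
noncomputable def Vd (d : ℕ) (hd : d ≤ 4) : Submodule K (PX K) :=
  Submodule.span K (Set.range (mnr K hd))

variable (K) in
/-- the span of the products of minors of sizes `4, 3, 3, 2, 1` -/
noncomputable def E0 : Submodule K (PX K) :=
  Vd K 4 (by omega) * Vd K 3 (by omega) * Vd K 3 (by omega) * Vd K 2 (by omega) * Vd K 1 (by omega)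

variable (K) in
/-- principal minors -/
noncomputable def pm (d : ℕ) (hd : d ≤ 4) : PX K := mnr K hd fun a => .inl (Fin.castLE hd a)

variable (K) in
/-- the highest weight vector -/
noncomputable def vP : PX K :=
  pm K 4 (by omega) * pm K 3 (by omega) * pm K 3 (by omega) * pm K 2 (by omega) * pm K 1 (by omega)

variable (K) in
/-- the vector generating the first extension -/
noncomputable def t0P : PX K :=
  mnr K (d := 4) (by omega) ![ix 0, ix 1, ix 2, ix 5] * mnr K (d := 3) (by omega) ![ix 0, ix 1, ix 2]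
    * mnr K (d := 3) (by omega) ![ix 2, ix 3, ix 7] * mnr K (d := 2) (by omega) ![ix 0, ix 1]
    * mnr K (d := 1) (by omega) ![ix 1]
  - mnr K (d := 4) (by omega) ![ix 1, ix 2, ix 3, ix 7]
    * mnr K (d := 3) (by omega) ![ix 0, ix 1, ix 2]
    * mnr K (d := 3) (by omega) ![ix 2, ix 3, ix 7] * mnr K (d := 2) (by omega) ![ix 0, ix 1]
    * mnr K (d := 1) (by omega) ![ix 0]

/-- the character of the Borel subgroup -/
def chiB {R : Type} [CommRing R] (b : Matrix (Fin 4) (Fin 4) R) : R :=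
  b 0 0 ^ 5 * b 1 1 ^ 4 * b 2 2 ^ 3 * b 3 3

/-- the base frame -/
def baseF (R : Type) [CommRing R] : Frm R := fromRows 1 0

theorem mnr_mem {d : ℕ} (hd : d ≤ 4) (r : Fin d → Idx) : mnr K hd r ∈ Vd K d hd :=
  Submodule.subset_span ⟨r, rfl⟩

theorem prod_mem_E0 (r4 : Fin 4 → Idx) (r3 r3' : Fin 3 → Idx) (r2 : Fin 2 → Idx)
    (r1 : Fin 1 → Idx) : mnr K (by omega) r4 * mnr K (by omega) r3 * mnr K (by omega) r3' *
      mnr K (by omega) r2 * mnr K (by omega) r1 ∈ E0 K :=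
  Submodule.mul_mem_mul (Submodule.mul_mem_mul (Submodule.mul_mem_mul (Submodule.mul_mem_mul
    (mnr_mem _ _) (mnr_mem _ _)) (mnr_mem _ _)) (mnr_mem _ _)) (mnr_mem _ _)

theorem vP_mem : vP K ∈ E0 K := prod_mem_E0 _ _ _ _ _

theorem t0P_mem : t0P K ∈ E0 K := sub_mem (prod_mem_E0 _ _ _ _ _) (prod_mem_E0 _ _ _ _ _)

/-- the frame `A X` -/
noncomputable def poly_lin (A : Mat K) : Frm (PX K) := A.map (C : K →+* PX K) * XM K

theorem poly_lin_apply (A : Mat K) (a : Idx) (j : Fin 4) :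
    poly_lin A a j = ∑ c, C (A a c) * X (c, j) := rfl

theorem poly_rho (g : Mat K) : rho g = evF (poly_lin gᵀ) := rfl

theorem poly_sig (x : Mat K) : sig x = evF ((XM K).map Polynomial.C +
    (Polynomial.X : Polynomial (PX K)) • (poly_lin xᵀ).map Polynomial.C) := rfl

theorem poly_lin_mul (A B : Mat K) :
    poly_lin (A * B) = A.map (C : K →+* PX K) * poly_lin B := by
  rw [poly_lin, poly_lin, Matrix.map_mul, Matrix.mul_assoc]

theorem poly_evF_X {R : Type} [CommRing R] [Algebra K R] (Y : Frm R) (p : Idx × Fin 4) :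
    evF (K := K) Y (X p) = Y p.1 p.2 := by
  simp [evF]

theorem poly_evF_map {R R' : Type} [CommRing R] [Algebra K R] [CommRing R'] [Algebra K R']
    (φ : R →ₐ[K] R') (Y : Frm R) (ψ : PX K) : φ (evF Y ψ) = evF (Y.map φ) ψ := by
  have : φ.comp (evF Y) = evF (Y.map φ) := by
    apply MvPolynomial.algHom_ext
    intro p
    simp [evF]
  exact DFunLike.congr_fun this ψ

theorem poly_evF_XM (ψ : PX K) : evF (XM K) ψ = ψ := by
  have : evF (XM K) = AlgHom.id K (PX K) := by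
    apply MvPolynomial.algHom_ext
    intro p
    simp [evF, XM]
  rw [this]
  rfl

theorem poly_lin_map {R : Type} [CommRing R] [Algebra K R] (Y : Frm R) (A : Mat K) :
    (poly_lin A).map (evF (K := K) Y) = A.map (algebraMap K R) * Y := by
  ext a j
  simp [mul_apply, poly_lin_apply, evF]

theorem poly_der_X (x : Mat K) (p : Idx × Fin 4) :
    der x (X p) = (poly_lin xᵀ) p.1 p.2 := by
  simp only [der, mkDerivation_X]
  rfl

theorem poly_lin_der (x : Mat K) (A : Mat K) (p : Idx × Fin 4) :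
    der x ((poly_lin A) p.1 p.2) =
      (poly_lin (A * xᵀ)) p.1 p.2 := by
  rw [poly_lin_mul, poly_lin_apply, mul_apply, map_sum]
  refine Finset.sum_congr rfl fun c _ => ?_
  rw [Derivation.leibniz, derivation_C, smul_zero, add_zero, poly_der_X]
  rfl

theorem evF_rho {R : Type} [CommRing R] [Algebra K R] (Y : Frm R) (g : Mat K) (ψ : PX K) :
    evF Y (rho g ψ) = evF (gᵀ.map (algebraMap K R) * Y) ψ := by
  rw [poly_rho, poly_evF_map, poly_lin_map]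

theorem rho_one (ψ : PX K) : rho (1 : Mat K) ψ = ψ := by
  rw [poly_rho, poly_lin, transpose_one, Matrix.map_one _ (map_zero _) (map_one _), Matrix.one_mul,
    poly_evF_XM]

theorem rho_mul (g h : Mat K) (ψ : PX K) : rho (g * h) ψ = rho g (rho h ψ) := by
  conv_rhs => rw [poly_rho g, evF_rho]
  rw [poly_rho, transpose_mul, poly_lin_mul]
  rfl

theorem evF_mnr {R : Type} [CommRing R] [Algebra K R] (Y : Frm R) {d : ℕ} (hd : d ≤ 4)
    (r : Fin d → Idx) : evF Y (mnr K hd r) = det (of fun a b => Y (r a) (Fin.castLE hd b)) := by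
  rw [mnr, AlgHom.map_det]
  congr 1
  ext a b
  simp [evF]

theorem poly_expand {R : Type} [CommRing R] [Algebra K R] (G : Mat R) (Y : Frm R) {d : ℕ}
    (hd : d ≤ 4) (r : Fin d → Idx) : evF (G * Y) (mnr K hd r) =
      ∑ f : Fin d → Idx, (∏ a, G (r a) (f a)) * evF Y (mnr K hd f) := by
  simp only [evF_mnr]
  have e : (of fun a b => (G * Y) (r a) (Fin.castLE hd b) : Matrix (Fin d) (Fin d) R) =
      fun a => ∑ c : Idx, G (r a) c • fun b => Y c (Fin.castLE hd b) := by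
    ext a b
    simp [mul_apply]
  rw [e]
  have := (detRowAlternating (n := Fin d) (R := R)).toMultilinearMap.map_sum
    (fun a c => G (r a) c • fun b => Y c (Fin.castLE hd b))
  refine this.trans (Finset.sum_congr rfl fun f _ => ?_)
  rw [MultilinearMap.map_smul_univ]
  rfl

theorem poly_upper_Vd {R : Type} [CommRing R] [Algebra K R] (Y : Frm R)
    (b : Matrix (Fin 4) (Fin 4) R) (hb : ∀ i j, j < i → b i j = 0) {d : ℕ} (hd : d ≤ 4) :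
    ∀ ψ ∈ Vd K d hd, evF (Y * b) ψ =
      (∏ i : Fin d, b (Fin.castLE hd i) (Fin.castLE hd i)) * evF Y ψ := by
  intro ψ hψ
  induction hψ using Submodule.span_induction with
  | mem ψ h =>
    obtain ⟨r, rfl⟩ := h
    rw [evF_mnr, evF_mnr]
    have e : (of fun a j => (Y * b) (r a) (Fin.castLE hd j) : Matrix (Fin d) (Fin d) R) =
        (of fun a j => Y (r a) (Fin.castLE hd j)) *
          (of fun i j => b (Fin.castLE hd i) (Fin.castLE hd j)) := by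
      ext a j
      simp only [of_apply, mul_apply]
      symm
      refine Fintype.sum_of_injective (Fin.castLE hd) (Fin.castLE_injective hd) _ _ ?_
        (fun _ => rfl)
      intro i hi
      rw [hb, mul_zero]
      by_contra h
      refine hi ⟨⟨i, ?_⟩, rfl⟩
      have h1 : (i : ℕ) ≤ j := not_lt.mp h
      have := j.2
      omega
    rw [e, det_mul, mul_comm, det_of_isUpperTriangular]
    · rfl
    · intro i j hij
      exact hb _ _ hij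
  | zero => simp
  | add x y _ _ hx hy => rw [map_add, map_add, hx, hy, mul_add]
  | smul c x _ hx => rw [map_smul, map_smul, hx, mul_smul_comm]

theorem poly_upper_mul {R : Type} [CommRing R] [Algebra K R] {Y Y' : Frm R} {c c' : R}
    {U U' : Submodule K (PX K)} (h : ∀ ψ ∈ U, evF Y' ψ = c * evF Y ψ)
    (h' : ∀ ψ ∈ U', evF Y' ψ = c' * evF Y ψ) : ∀ ψ ∈ U * U', evF Y' ψ = c * c' * evF Y ψ := by
  intro ψ hψ
  refine Submodule.mul_induction_on hψ (fun m hm n hn => ?_) (fun x y hx hy => ?_)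
  · rw [map_mul, map_mul, h m hm, h' n hn]
    ring
  · rw [map_add, map_add, hx, hy, mul_add]

/-- semi-invariance under upper triangular matrices -/
theorem evF_mul_upper {R : Type} [CommRing R] [Algebra K R] (Y : Frm R)
    (b : Matrix (Fin 4) (Fin 4) R) (hb : ∀ i j, j < i → b i j = 0) {ψ : PX K} (hψ : ψ ∈ E0 K) :
    evF (Y * b) ψ = chiB b * evF Y ψ := by
  have h4 := poly_upper_Vd (K := K) Y b hb (d := 4) (by omega)
  have h3 := poly_upper_Vd (K := K) Y b hb (d := 3) (by omega)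
  have h2 := poly_upper_Vd (K := K) Y b hb (d := 2) (by omega)
  have h1 := poly_upper_Vd (K := K) Y b hb (d := 1) (by omega)
  rw [poly_upper_mul (poly_upper_mul (poly_upper_mul (poly_upper_mul h4 h3) h3) h2) h1 ψ hψ]
  congr 1
  simp only [Fin.prod_univ_succ, Fin.prod_univ_zero, chiB]
  change (b 0 0 * (b 1 1 * (b 2 2 * (b 3 3 * 1)))) * (b 0 0 * (b 1 1 * (b 2 2 * 1))) *
    (b 0 0 * (b 1 1 * (b 2 2 * 1))) * (b 0 0 * (b 1 1 * 1)) * (b 0 0 * 1) = _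
  ring

theorem poly_rho_Vd (g : Mat K) {d : ℕ} (hd : d ≤ 4) : ∀ ψ ∈ Vd K d hd, rho g ψ ∈ Vd K d hd := by
  intro ψ hψ
  induction hψ using Submodule.span_induction with
  | mem ψ h =>
    obtain ⟨r, rfl⟩ := h
    rw [poly_rho, poly_lin, poly_expand]
    refine Submodule.sum_mem _ fun f _ => ?_
    simp only [poly_evF_XM, map_apply]
    rw [← map_prod, ← smul_eq_C_mul]
    exact Submodule.smul_mem _ _ (mnr_mem _ _)
  | zero => simp
  | add x y _ _ hx hy => rw [map_add]; exact add_mem hx hy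
  | smul c x _ hx => rw [map_smul]; exact Submodule.smul_mem _ _ hx

theorem poly_rho_mul {g : Mat K} {U U' : Submodule K (PX K)} (h : ∀ ψ ∈ U, rho g ψ ∈ U)
    (h' : ∀ ψ ∈ U', rho g ψ ∈ U') : ∀ ψ ∈ U * U', rho g ψ ∈ U * U' := by
  intro ψ hψ
  refine Submodule.mul_induction_on hψ (fun m hm n hn => ?_) (fun x y hx hy => ?_)
  · rw [map_mul]
    exact Submodule.mul_mem_mul (h m hm) (h' n hn)
  · rw [map_add]
    exact add_mem hx hy

theorem rho_mem (g : Mat K) {ψ : PX K} (hψ : ψ ∈ E0 K) : rho g ψ ∈ E0 K := by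
  have h4 := poly_rho_Vd g (d := 4) (by omega)
  have h3 := poly_rho_Vd g (d := 3) (by omega)
  have h2 := poly_rho_Vd g (d := 2) (by omega)
  have h1 := poly_rho_Vd g (d := 1) (by omega)
  exact poly_rho_mul (poly_rho_mul (poly_rho_mul (poly_rho_mul h4 h3) h3) h2) h1 ψ hψ

theorem poly_Del_apply (x : Mat K) (n : ℕ) (ψ : PX K) : Del x n ψ = (sig x ψ).coeff n := rfl

theorem poly_sig_X (x : Mat K) (p : Idx × Fin 4) : sig x (X p) = Polynomial.C (X p) +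
    Polynomial.X * Polynomial.C ((poly_lin xᵀ) p.1 p.2) := by
  rw [poly_sig, poly_evF_X]
  rfl

theorem poly_sig_C (x : Mat K) (c : K) : sig x (C c) = Polynomial.C (C c) :=
  (sig x).commutes c

theorem poly_sig_eq (x : Mat K) : sig x =
    evF (((1 + (Polynomial.X : Polynomial K) • xᵀ.map Polynomial.C : Mat (Polynomial K)).map
      (Polynomial.mapRingHom (C : K →+* PX K))) * (XM K).map Polynomial.C) := by
  have e : ((1 + (Polynomial.X : Polynomial K) • xᵀ.map Polynomial.C : Mat (Polynomial K)).map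
      (Polynomial.mapRingHom (C : K →+* PX K))) = 1 + (Polynomial.X : Polynomial (PX K)) •
        (xᵀ.map (C : K →+* PX K)).map (Polynomial.C : PX K →+* Polynomial (PX K)) := by
    ext1 a b
    by_cases h : a = b
    · subst h
      simp
    · simp [one_apply_ne h]
  rw [poly_sig, e, Matrix.add_mul, Matrix.one_mul, Matrix.smul_mul, ← Matrix.map_mul]
  rfl

theorem poly_evF_C (ψ : PX K) :
    evF ((XM K).map (Polynomial.C : PX K →+* Polynomial (PX K))) ψ = Polynomial.C ψ := by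
  have := poly_evF_map (IsScalarTower.toAlgHom K (PX K) (Polynomial (PX K))) (XM K) ψ
  rw [poly_evF_XM] at this
  exact this.symm

theorem poly_sig_Vd (x : Mat K) {d : ℕ} (hd : d ≤ 4) :
    ∀ ψ ∈ Vd K d hd, ∀ n, (sig x ψ).coeff n ∈ Vd K d hd := by
  intro ψ hψ n
  induction hψ using Submodule.span_induction with
  | mem ψ h =>
    obtain ⟨r, rfl⟩ := h
    rw [poly_sig_eq, poly_expand, Polynomial.finsetSum_coeff]
    refine Submodule.sum_mem _ fun f _ => ?_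
    simp only [poly_evF_C, map_apply]
    rw [← map_prod, Polynomial.coeff_mul_C, Polynomial.coe_mapRingHom, Polynomial.coeff_map,
      ← smul_eq_C_mul]
    exact Submodule.smul_mem _ _ (mnr_mem _ _)
  | zero => simp
  | add x y _ _ hx hy => rw [map_add, Polynomial.coeff_add]; exact add_mem hx hy
  | smul c x _ hx => rw [map_smul, Polynomial.coeff_smul]; exact Submodule.smul_mem _ _ hx

theorem poly_sig_mul {x : Mat K} {U U' : Submodule K (PX K)}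
    (h : ∀ ψ ∈ U, ∀ n, (sig x ψ).coeff n ∈ U) (h' : ∀ ψ ∈ U', ∀ n, (sig x ψ).coeff n ∈ U') :
    ∀ ψ ∈ U * U', ∀ n, (sig x ψ).coeff n ∈ U * U' := by
  intro ψ hψ n
  refine Submodule.mul_induction_on hψ (fun m hm m' hm' => ?_) (fun x y hx hy => ?_)
  · rw [map_mul, Polynomial.coeff_mul]
    exact Submodule.sum_mem _ fun p _ => Submodule.mul_mem_mul (h m hm _) (h' m' hm' _)
  · rw [map_add, Polynomial.coeff_add]
    exact add_mem hx hy

theorem Del_mem (x : Mat K) (n : ℕ) {ψ : PX K} (hψ : ψ ∈ E0 K) : Del x n ψ ∈ E0 K := by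
  have h4 := poly_sig_Vd x (d := 4) (by omega)
  have h3 := poly_sig_Vd x (d := 3) (by omega)
  have h2 := poly_sig_Vd x (d := 2) (by omega)
  have h1 := poly_sig_Vd x (d := 1) (by omega)
  exact poly_sig_mul (poly_sig_mul (poly_sig_mul (poly_sig_mul h4 h3) h3) h2) h1 ψ hψ n

theorem Del_zero (x : Mat K) (ψ : PX K) : Del x 0 ψ = ψ := by
  rw [poly_Del_apply]
  induction ψ using MvPolynomial.induction_on with
  | C c => rw [poly_sig_C, Polynomial.coeff_C_zero]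
  | add p q hp hq => rw [map_add, Polynomial.coeff_add, hp, hq]
  | mul_X p o hp =>
    rw [map_mul, Polynomial.mul_coeff_zero, hp, poly_sig_X]
    simp

theorem poly_derivative_sig {x : Mat K} (hx : x * x = 0) (ψ : PX K) :
    Polynomial.derivative (sig x ψ) = sig x (der x ψ) := by
  have key : ∀ p : Idx × Fin 4, sig x (der x (X p)) =
      Polynomial.C ((poly_lin xᵀ) p.1 p.2) := by
    intro p
    have h := congrFun (congrFun (poly_lin_map (K := K) ((XM K).map Polynomial.C +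
      (Polynomial.X : Polynomial (PX K)) • (poly_lin xᵀ).map Polynomial.C) xᵀ)
      p.1) p.2
    rw [poly_der_X, poly_sig]
    refine h.trans ?_
    have e : xᵀ.map (algebraMap K (Polynomial (PX K))) =
        (xᵀ.map (C : K →+* PX K)).map (Polynomial.C : PX K →+* Polynomial (PX K)) := rfl
    rw [e, Matrix.mul_add, Matrix.mul_smul, ← Matrix.map_mul, ← Matrix.map_mul, ← poly_lin_mul,
      ← transpose_mul, hx]
    have z : poly_lin (0 : Mat K)ᵀ = 0 := by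
      ext1 a j
      simp [poly_lin_apply]
    rw [z, Matrix.map_zero _ (map_zero _), smul_zero, add_zero]
    rfl
  induction ψ using MvPolynomial.induction_on with
  | C c => rw [poly_sig_C, derivation_C]; simp
  | add p q hp hq => simp only [map_add, hp, hq]
  | mul_X p o hp =>
    rw [map_mul, Polynomial.derivative_mul, hp, Derivation.leibniz, smul_eq_mul, smul_eq_mul,
      map_add, map_mul, map_mul, key, poly_sig_X]
    simp only [map_add, Polynomial.derivative_C, Polynomial.derivative_mul,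
      Polynomial.derivative_X]
    ring

theorem Del_succ {x : Mat K} (hx : x * x = 0) (n : ℕ) (ψ : PX K) :
    ((n + 1 : ℕ) : K) • Del x (n + 1) ψ = Del x n (der x ψ) := by
  rw [poly_Del_apply, poly_Del_apply, ← poly_derivative_sig hx, Polynomial.coeff_derivative,
    Nat.cast_smul_eq_nsmul, nsmul_eq_mul, mul_comm]
  push_cast
  rfl

theorem Del_one (x : Mat K) (ψ : PX K) : Del x 1 ψ = der x ψ := by
  induction ψ using MvPolynomial.induction_on with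
  | C c => rw [poly_Del_apply, poly_sig_C, derivation_C]; simp
  | add p q hp hq => simp only [map_add, hp, hq]
  | mul_X p o hp =>
    have h0 := Del_zero x p
    rw [poly_Del_apply] at hp h0
    rw [poly_Del_apply, map_mul, poly_sig_X, mul_add, Polynomial.coeff_add, Polynomial.coeff_mul_C,
      ← mul_assoc, Polynomial.coeff_mul_C, Polynomial.coeff_mul_X, hp, h0, Derivation.leibniz,
      poly_der_X, smul_eq_mul, smul_eq_mul]
    ring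

theorem der_mem (x : Mat K) {ψ : PX K} (hψ : ψ ∈ E0 K) : der x ψ ∈ E0 K := by
  rw [← Del_one]; exact Del_mem x 1 hψ

theorem Del_three {x : Mat K} (hx : x * x = 0) (ψ : PX K) :
    (6 : K) • Del x 3 ψ = der x (der x (der x ψ)) := by
  have h3 := Del_succ hx 2 ψ
  have h2 := Del_succ hx 1 (der x ψ)
  rw [Del_one] at h2
  rw [← h2, ← h3, smul_smul]
  norm_num

theorem rho_one_add (x : Mat K) (s : K) (ψ : PX K) :
    rho (1 + s • x) ψ = Polynomial.eval (C s) (sig x ψ) := by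
  induction ψ using MvPolynomial.induction_on with
  | C c => rw [poly_sig_C, Polynomial.eval_C]; exact (rho _).commutes c
  | add p q hp hq => rw [map_add, map_add, Polynomial.eval_add, hp, hq]
  | mul_X p o hp =>
    rw [map_mul, map_mul, Polynomial.eval_mul, hp, poly_sig_X, poly_rho, poly_evF_X]
    congr 1
    simp only [poly_lin_apply, transpose_apply, Matrix.add_apply, Matrix.smul_apply, smul_eq_mul,
      map_add, map_mul, add_mul, Finset.sum_add_distrib, Polynomial.eval_add, Polynomial.eval_C,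
      Polynomial.eval_mul, Polynomial.eval_X, Finset.mul_sum, mul_assoc]
    congr 1
    rw [Finset.sum_eq_single o.1]
    · simp
    · intro b _ hb
      simp [one_apply_ne hb]
    · simp

theorem der_lie (x y : Mat K) (ψ : PX K) :
    der (x * y - y * x) ψ = der x (der y ψ) - der y (der x ψ) := by
  have : der (x * y - y * x) = ⁅der x, der y⁆ := by
    apply MvPolynomial.derivation_ext
    intro p
    rw [Derivation.commutator_apply, poly_der_X, poly_der_X, poly_der_X, poly_lin_der,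
      poly_lin_der, transpose_sub, transpose_mul, transpose_mul]
    simp only [poly_lin_apply, Matrix.sub_apply, map_sub, sub_mul, Finset.sum_sub_distrib]
  rw [this, Derivation.commutator_apply]

theorem rho_der {g x y : Mat K} (h : g * x = y * g) (ψ : PX K) :
    rho g (der x ψ) = der y (rho g ψ) := by
  induction ψ using MvPolynomial.induction_on with
  | C c =>
    have : rho g (C c) = C c := (rho g).commutes c
    rw [this, derivation_C, derivation_C, map_zero]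
  | add p q hp hq => simp only [map_add, hp, hq]
  | mul_X p o hp =>
    have key : rho g (der x (X o)) = der y (rho g (X o)) := by
      rw [poly_der_X, poly_rho, poly_evF_X, poly_lin_der, ← transpose_mul, ← h, transpose_mul,
        poly_lin_mul]
      exact congrFun (congrFun (poly_lin_map (K := K) (poly_lin gᵀ) xᵀ) o.1) o.2
    rw [map_mul (rho g), Derivation.leibniz, Derivation.leibniz, smul_eq_mul, smul_eq_mul,
      smul_eq_mul, smul_eq_mul, map_add, map_mul, map_mul, key, hp]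

theorem map_Del {K' : Type} [CommRing K'] (θ : K →+* K') (x : Mat K) (n : ℕ) (ψ : PX K) :
    MvPolynomial.map θ (Del x n ψ) = Del (x.map θ) n (MvPolynomial.map θ ψ) := by
  have key : (sig x ψ).map (MvPolynomial.map θ) = sig (x.map θ) (MvPolynomial.map θ ψ) := by
    induction ψ using MvPolynomial.induction_on with
    | C c => rw [poly_sig_C, map_C, poly_sig_C, Polynomial.map_C, map_C]
    | add p q hp hq => rw [map_add, map_add, map_add, Polynomial.map_add, hp, hq]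
    | mul_X p o hp =>
      rw [map_mul, map_mul, map_mul, Polynomial.map_mul, hp, map_X, poly_sig_X, poly_sig_X]
      simp [poly_lin_apply, Polynomial.map_sum]
  rw [poly_Del_apply, poly_Del_apply, ← key, Polynomial.coeff_map]

theorem poly_map_mnr {K' : Type} [CommRing K'] (θ : K →+* K') {d : ℕ} (hd : d ≤ 4)
    (r : Fin d → Idx) : MvPolynomial.map θ (mnr K hd r) = mnr K' hd r := by
  rw [mnr, RingHom.map_det, mnr]
  congr 1
  ext a b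
  simp

theorem map_t0P {K' : Type} [CommRing K'] (θ : K →+* K') :
    MvPolynomial.map θ (t0P K) = t0P K' := by
  simp only [t0P, map_sub, map_mul, poly_map_mnr]

end defs

end Pool.Agent.MP_2042ac_al

end

-- part MP_2042ac_al.PolyPkg
section

/-!
The package on `E0`.
-/

set_option autoImplicit false

namespace Pool.Agent.MP_2042ac_al

open Matrix MvPolynomial

variable (k : Type) [Field k]

instance : FiniteDimensional k (E0 k) := by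
  have h : ∀ (d : ℕ) (hd : d ≤ 4), (Vd k d hd).FG := fun d hd =>
    Submodule.fg_span (Set.finite_range _)
  exact Module.Finite.iff_fg.mpr
    (((((h _ _).mul (h _ _)).mul (h _ _)).mul (h _ _)).mul (h _ _))

theorem polyPkg_rho (g : Mat k) :
    rho g = evF ((gᵀ.map (C : k →+* PX k) : Mat (PX k)) * XM k) := rfl

theorem polyPkg_der (x : Mat k) : der x = mkDerivation k fun p : Idx × Fin 4 =>
    ((xᵀ.map (C : k →+* PX k) : Mat (PX k)) * XM k) p.1 p.2 := rfl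

theorem polyPkg_sig0 (x : Mat k) : sig x = evF ((XM k).map Polynomial.C +
    (Polynomial.X : Polynomial (PX k)) •
      ((xᵀ.map (C : k →+* PX k) : Mat (PX k)) * XM k).map Polynomial.C) := rfl

theorem polyPkg_der_add (x y : Mat k) : der (x + y) = der x + der y := by
  refine derivation_ext fun p => ?_
  simp only [polyPkg_der, Derivation.add_apply, mkDerivation_X, transpose_add,
    Matrix.map_add _ (map_add (C : k →+* PX k)), Matrix.add_mul, Matrix.add_apply]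

theorem polyPkg_der_smul (c : k) (x : Mat k) : der (c • x) = c • der x := by
  refine derivation_ext fun p => ?_
  simp only [polyPkg_der, Derivation.smul_apply, mkDerivation_X, Matrix.mul_apply,
    Matrix.map_apply, transpose_apply, Matrix.smul_apply, smul_eq_mul, map_mul, smul_eq_C_mul, Finset.mul_sum,
    mul_assoc]

theorem polyPkg_exp (x : Mat k) :
    HasExp (fun s : k => ((rho (1 + s • x)).toLinearMap.restrict
      (fun _ h => rho_mem (1 + s • x) h) : Module.End k (E0 k)))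
      (fun n => (Del x n).restrict (fun _ h => Del_mem x n h)) := by
  let b := Module.finBasis k (E0 k)
  let N : ℕ := (Finset.univ.sup fun j => (sig x (b j : PX k)).natDegree) + 1
  have hN : ∀ j, (sig x (b j : PX k)).natDegree < N := fun j =>
    Nat.lt_succ_of_le (Finset.le_sup (f := fun j => (sig x (b j : PX k)).natDegree)
      (Finset.mem_univ j))
  refine ⟨N, fun n hn => b.ext fun j => Subtype.ext ?_, fun s => b.ext fun j => Subtype.ext ?_⟩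
  · exact Polynomial.coeff_eq_zero_of_natDegree_lt ((hN j).trans_le hn)
  · have h1 : rho (1 + s • x) (b j : PX k)
        = ∑ n ∈ Finset.range N, s ^ n • Del x n (b j : PX k) := by
      rw [rho_one_add, Polynomial.eval_eq_sum_range' (hN j)]
      refine Finset.sum_congr rfl fun n _ => ?_
      rw [smul_eq_C_mul, map_pow, mul_comm]
      rfl
    refine h1.trans ?_
    rw [LinearMap.sum_apply, Submodule.coe_sum]
    rfl

/-- the package on `E0` -/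
noncomputable def EP [CharP k 3] : GPkg k (E0 k) where
  φ :=
    { toFun := fun x => (der x).toLinearMap.restrict (fun _ h => der_mem x h)
      map_add' := fun x y => LinearMap.ext fun w => Subtype.ext (by
        change der (x + y) (w : PX k) = der x (w : PX k) + der y (w : PX k)
        rw [polyPkg_der_add]; rfl)
      map_smul' := fun c x => LinearMap.ext fun w => Subtype.ext (by
        change der (c • x) (w : PX k) = c • der x (w : PX k)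
        rw [polyPkg_der_smul]; rfl) }
  lie := fun x y _ _ => LinearMap.ext fun w => Subtype.ext (der_lie x y (w : PX k))
  res := fun x _ h => LinearMap.ext fun w => Subtype.ext (by
    have h6 : (6 : k) = 0 := by
      have h3 : ((3 : ℕ) : k) = 0 := CharP.cast_eq_zero k 3
      push_cast at h3
      linear_combination 2 * h3
    have h1 := Del_three h (w : PX k)
    rw [h6, zero_smul] at h1
    rw [pow_three]
    exact h1.symm)
  ρ g := (rho g).toLinearMap.restrict (fun _ h => rho_mem g h)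
  ρ_one := LinearMap.ext fun w => Subtype.ext (rho_one (w : PX k))
  ρ_mul := fun g h _ _ => LinearMap.ext fun w => Subtype.ext (rho_mul g h (w : PX k))
  ad := fun _ _ _ _ _ _ h => LinearMap.ext fun w => Subtype.ext (rho_der h (w : PX k))
  Δ x n := (Del x n).restrict (fun _ h => Del_mem x n h)
  exp := fun x _ _ => polyPkg_exp k x
  Δ_one := fun x _ _ => LinearMap.ext fun w => Subtype.ext (Del_one x (w : PX k))

variable {k}

theorem polyPkg_prod_zpow {ι : Type} (S : Finset ι) (e : ι → ℤ) {s : k} (hs : s ≠ 0) :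
    ∏ a ∈ S, s ^ e a = s ^ ∑ a ∈ S, e a := by
  classical
  induction S using Finset.induction_on with
  | empty => simp
  | insert a S ha ih => rw [Finset.prod_insert ha, Finset.sum_insert ha, ih, zpow_add₀ hs]

theorem polyPkg_coch_mnr (ν : Fin 4 → ℤ) {s : k} (hs : s ≠ 0) {d : ℕ} (hd : d ≤ 4)
    (r : Fin d → Idx) :
    rho (coch ν s) (mnr k hd r) = s ^ (∑ a, wt ν (r a)) • mnr k hd r := by
  rw [polyPkg_rho, evF_mnr, coch_transpose, ← polyPkg_prod_zpow _ _ hs, smul_eq_C_mul, map_prod, mnr,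
    ← det_mul_column]
  congr 1
  ext1 a b
  rw [coch, diagonal_map (map_zero _)]
  simp only [of_apply, diagonal_mul, XM]

/-- weight spaces for a cocharacter -/
def polyPkgU (ν : Fin 4 → ℤ) (j : ℤ) : Submodule k (PX k) where
  carrier := {ψ | ∀ s : k, s ≠ 0 → rho (coch ν s) ψ = s ^ j • ψ}
  add_mem' ha hb s hs := by rw [map_add, ha s hs, hb s hs, smul_add]
  zero_mem' s _ := by rw [map_zero, smul_zero]
  smul_mem' c ψ h s hs := by rw [map_smul, h s hs, smul_comm]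

theorem polyPkgU_mul (ν : Fin 4 → ℤ) {i j : ℤ} {a b : PX k} (ha : a ∈ polyPkgU ν i)
    (hb : b ∈ polyPkgU ν j) : a * b ∈ polyPkgU ν (i + j) := fun s hs => by
  rw [map_mul, ha s hs, hb s hs, smul_mul_smul_comm, zpow_add₀ hs]

theorem polyPkgU_mnr (ν : Fin 4 → ℤ) {d : ℕ} (hd : d ≤ 4) (r : Fin d → Idx) :
    mnr k hd r ∈ polyPkgU ν (∑ a, wt ν (r a)) := fun _ hs => polyPkg_coch_mnr ν hs hd r

/-- sums of weight spaces -/
noncomputable def polyPkgT (ν : Fin 4 → ℤ) (n : ℤ) : Submodule k (PX k) :=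
  ⨆ j ∈ Finset.Icc (-n) n, polyPkgU ν j

theorem polyPkgU_le (ν : Fin 4 → ℤ) {n j : ℤ} (h1 : -n ≤ j) (h2 : j ≤ n) :
    polyPkgU ν j ≤ polyPkgT (k := k) ν n :=
  le_iSup₂_of_le (f := fun j (_ : j ∈ Finset.Icc (-n) n) => polyPkgU (k := k) ν j) j
    (Finset.mem_Icc.mpr ⟨h1, h2⟩) le_rfl

theorem polyPkgT_mul (ν : Fin 4 → ℤ) (m n : ℤ) :
    polyPkgT (k := k) ν m * polyPkgT ν n ≤ polyPkgT ν (m + n) := by
  conv_lhs => unfold polyPkgT
  simp only [Submodule.iSup_mul, Submodule.mul_iSup, iSup_le_iff, Finset.mem_Icc]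
  intro j hj i hi
  exact Submodule.mul_le.mpr fun a ha b hb =>
    polyPkgU_le ν (by omega) (by omega) (polyPkgU_mul ν ha hb)

theorem polyPkg_Vd_le (i : Fin 4) (d : ℕ) (hd : d ≤ 4) :
    Vd k d hd ≤ polyPkgT (Pi.single i 1) 1 := by
  classical
  refine Submodule.span_le.mpr ?_
  rintro _ ⟨r, rfl⟩
  by_cases hr : Function.Injective r
  · have hc : ∀ c : Idx, 0 ≤ ∑ a, (if r a = c then (1 : ℤ) else 0) ∧
        ∑ a, (if r a = c then (1 : ℤ) else 0) ≤ 1 := by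
      intro c
      rw [Finset.sum_boole]
      refine ⟨Nat.cast_nonneg _, ?_⟩
      have : (Finset.univ.filter fun a => r a = c).card ≤ 1 :=
        Finset.card_le_one.mpr fun a ha b hb => hr (by
          rw [(Finset.mem_filter.mp ha).2, (Finset.mem_filter.mp hb).2])
      exact_mod_cast this
    have hw : ∀ c : Idx, wt (Pi.single i 1) c
        = (if c = .inl i then (1 : ℤ) else 0) - (if c = .inr i then (1 : ℤ) else 0) := by
      revert i; decide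
    have h1 := hc (.inl i)
    have h2 := hc (.inr i)
    refine polyPkgU_le _ ?_ ?_ (polyPkgU_mnr _ hd r) <;>
      simp only [hw, Finset.sum_sub_distrib] <;> omega
  · obtain ⟨a, b, hab, hne⟩ := Function.not_injective_iff.mp hr
    have : mnr k hd r = 0 := det_zero_of_row_eq hne (by funext c; simp only [of_apply, hab])
    rw [this]
    exact zero_mem _

theorem polyPkg_E0_le (i : Fin 4) : E0 k ≤ polyPkgT (Pi.single i 1) 5 := by
  have h := polyPkg_Vd_le (k := k) i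
  have m : ∀ {A B : Submodule k (PX k)} {a b : ℤ}, A ≤ polyPkgT (Pi.single i 1) a →
      B ≤ polyPkgT (Pi.single i 1) b → A * B ≤ polyPkgT (Pi.single i 1) (a + b) :=
    fun h1 h2 => (mul_le_mul' h1 h2).trans (polyPkgT_mul _ _ _)
  have h2 := m (m (m (m (h 4 (by omega)) (h 3 (by omega))) (h 3 (by omega))) (h 2 (by omega)))
    (h 1 (by omega))
  rw [show (1 + 1 + 1 + 1 + 1 : ℤ) = 5 by norm_num] at h2
  rw [E0]
  exact h2

theorem polyPkg_blk {R : Type} [CommRing R] [Algebra k R] (G : Mat R) (Y : Frm R) {d : ℕ}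
    (hd : d ≤ 4) (hG : ∀ (a : Fin d) (c : Idx), (∀ b : Fin d, .inl (Fin.castLE hd b) ≠ c) →
      G (.inl (Fin.castLE hd a)) c = 0) :
    evF (G * Y) (pm k d hd) =
      det (of fun a b : Fin d => G (.inl (Fin.castLE hd a)) (.inl (Fin.castLE hd b))) *
        evF Y (pm k d hd) := by
  rw [pm, evF_mnr, evF_mnr, ← det_mul]
  congr 1
  ext1 a b
  simp only [of_apply, Matrix.mul_apply]
  symm
  refine Fintype.sum_of_injective (fun b : Fin d => (.inl (Fin.castLE hd b) : Idx))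
    (Sum.inl_injective.comp (Fin.castLE_injective hd)) _ _ (fun c hc => ?_) (fun _ => rfl)
  rw [hG a c fun b hb => hc ⟨b, hb⟩, zero_mul]

theorem polyPkg_fZ : ∀ (i a : Fin 4) (c : Idx), fZ i (.inl a) c ≠ 0 →
    ∃ b : Fin 4, c = .inl b ∧ b < a := by decide +kernel

theorem polyPkg_eZ : ∀ (i a : Fin 4) (c : Idx), eZ i (.inl a) c ≠ 0 →
    a = i ∧ (i = 3 ∨ ∃ b : Fin 4, c = .inl b ∧ b.val = i.val + 1) ∧ ∀ b, c = .inl b → a < b := by
  decide +kernel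

theorem polyPkg_low {R : Type} [CommRing R] [Algebra k R] (i : Fin 4) (s : R) (Y : Frm R) {d : ℕ}
    (hd : d ≤ 4) : evF ((1 + s • ff R i) * Y) (pm k d hd) = evF Y (pm k d hd) := by
  have key : ∀ (a : Fin 4) (c : Idx), (∀ b : Fin 4, c = .inl b → ¬ b < a) →
      (1 + s • ff R i) (.inl a) c = (1 : Mat R) (.inl a) c := by
    intro a c hc
    have : fZ i (.inl a) c = 0 := by
      by_contra h
      obtain ⟨b, h1, h2⟩ := polyPkg_fZ i a c h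
      exact hc b h1 h2
    rw [Matrix.add_apply, Matrix.smul_apply, ff, cst_apply, this]
    simp
  rw [polyPkg_blk _ _ hd, det_of_isLowerTriangular]
  · rw [Finset.prod_eq_one, one_mul]
    intro a _
    rw [of_apply, key _ _ (fun b hb => by rw [Sum.inl_injective hb]; exact lt_irrefl _),
      one_apply_eq]
  · intro a b hab
    have hab' : a < b := hab
    rw [of_apply, key, one_apply_ne]
    · exact fun h => hab'.ne (Fin.castLE_injective hd (Sum.inl_injective h))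
    · intro c hc
      rw [← Sum.inl_injective hc]
      exact not_lt.mpr hab'.le
  · intro a c hc
    rw [key, one_apply_ne (hc a)]
    rintro b rfl hb
    exact hc ⟨b, lt_trans hb a.2⟩ rfl

theorem polyPkg_up {R : Type} [CommRing R] [Algebra k R] (i : Fin 4) (s : R) (Y : Frm R) {d : ℕ}
    (hd : d ≤ 4) (hi : d ≠ i.val + 1) :
    evF ((1 + s • ee R i) * Y) (pm k d hd) = evF Y (pm k d hd) := by
  have key : ∀ (a : Fin 4) (c : Idx), eZ i (.inl a) c = 0 →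
      (1 + s • ee R i) (.inl a) c = (1 : Mat R) (.inl a) c := by
    intro a c hc
    rw [Matrix.add_apply, Matrix.smul_apply, ee, cst_apply, hc]
    simp
  rw [polyPkg_blk _ _ hd, det_of_isUpperTriangular]
  · rw [Finset.prod_eq_one, one_mul]
    intro a _
    rw [of_apply, key, one_apply_eq]
    by_contra h
    exact lt_irrefl _ ((polyPkg_eZ i _ _ h).2.2 _ rfl)
  · intro a b hab
    have hab' : b < a := hab
    rw [of_apply, key, one_apply_ne]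
    · exact fun h => hab'.ne' (Fin.castLE_injective hd (Sum.inl_injective h))
    · by_contra h
      exact lt_asymm hab' ((polyPkg_eZ i _ _ h).2.2 _ rfl)
  · intro a c hc
    rw [key, one_apply_ne (hc a)]
    by_contra h
    obtain ⟨h1, h2, -⟩ := polyPkg_eZ i _ _ h
    have h3 : a.val = i.val := congrArg Fin.val h1
    have h4 := a.2
    rcases h2 with h2 | ⟨b, rfl, hb⟩
    · have : i.val = 3 := congrArg Fin.val h2
      omega
    · exact hc ⟨b, by omega⟩ rfl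

theorem polyPkg_deg {A : Type} [CommRing A] {d : ℕ} (M : Matrix (Fin d) (Fin d) (Polynomial A))
    (w : Fin d → ℕ) (h : ∀ a b, (M a b).natDegree ≤ w a) : M.det.natDegree ≤ ∑ a, w a := by
  rw [det_apply']
  refine Polynomial.natDegree_sum_le_of_forall_le _ _ fun σ _ => ?_
  refine Polynomial.natDegree_mul_le.trans ?_
  rw [Polynomial.natDegree_intCast, zero_add, ← Equiv.sum_comp σ w]
  exact (Polynomial.natDegree_prod_le _ _).trans (Finset.sum_le_sum fun a _ => h _ _)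

theorem polyPkg_sig (i : Fin 4) (ψ : PX k) : sig (ff k i) ψ =
    evF ((1 + (Polynomial.X : Polynomial (PX k)) • ee (Polynomial (PX k)) i) *
      (XM k).map Polynomial.C) ψ := by
  rw [polyPkg_sig0, ff_transpose, ee, cst_map, Matrix.map_mul, cst_map, Matrix.add_mul, Matrix.one_mul,
    Matrix.smul_mul, ee]

theorem polyPkg_sig_pm (i : Fin 4) (d : ℕ) (hd : d ≤ 4) :
    (sig (ff k i) (pm k d hd)).natDegree ≤ if d = i.val + 1 then 1 else 0 := by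
  split_ifs with hi
  · rw [polyPkg_sig0, pm, evF_mnr]
    refine (polyPkg_deg _ (fun a => if Fin.castLE hd a = i then 1 else 0) fun a b => ?_).trans ?_
    · simp only [of_apply, Matrix.add_apply, Matrix.smul_apply, Matrix.map_apply, smul_eq_mul]
      split_ifs with ha
      · refine (Polynomial.natDegree_add_le _ _).trans (max_le (by simp) ?_)
        exact Polynomial.natDegree_mul_le.trans (by simp)
      · have : (((ff k i)ᵀ.map (C : k →+* PX k) : Mat (PX k)) * XM k) (.inl (Fin.castLE hd a))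
            (Fin.castLE hd b) = 0 := by
          rw [ff_transpose, Matrix.mul_apply]
          refine Finset.sum_eq_zero fun c _ => ?_
          have : eZ i (.inl (Fin.castLE hd a)) c = 0 := by
            by_contra h
            exact ha (polyPkg_eZ i _ _ h).1
          rw [Matrix.map_apply, ee, cst_apply, this]
          simp
        rw [this]
        simp
    · rw [← Finset.card_filter]
      exact Finset.card_le_one.mpr fun a ha b hb => Fin.castLE_injective hd (by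
        rw [(Finset.mem_filter.mp ha).2, (Finset.mem_filter.mp hb).2])
  · rw [polyPkg_sig, polyPkg_up i _ _ hd hi, pm, evF_mnr]
    refine (polyPkg_deg _ (fun _ => 0) fun a b => ?_).trans (by simp)
    simp

theorem polyPkg_base_pm (g : Mat k) (d : ℕ) (hd : d ≤ 4) :
    evF (baseF k) (rho g (pm k d hd)) =
      det (of fun a b : Fin d => g (.inl (Fin.castLE hd b)) (.inl (Fin.castLE hd a))) := by
  rw [evF_rho, pm, evF_mnr]
  congr 1
  ext a b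
  simp [baseF, Matrix.mul_apply, Fintype.sum_sum_type, one_apply]

variable [CharP k 3]

theorem EP_φ (x : Mat k) (w : E0 k) : ((EP k).φ x w : PX k) = der x (w : PX k) := rfl
theorem EP_ρ (g : Mat k) (w : E0 k) : ((EP k).ρ g w : PX k) = rho g (w : PX k) := rfl
theorem EP_Δ (x : Mat k) (n : ℕ) (w : E0 k) : ((EP k).Δ x n w : PX k) = Del x n (w : PX k) := rfl

theorem EP_bound [Infinite k] (lam : Fin 4 → ℤ) (w : E0 k) (hw : (EP k).IsWt lam w)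
    (h : ∃ i, 6 ≤ |lam i|) : w = 0 := by
  classical
  obtain ⟨i, hi⟩ := h
  obtain ⟨μ, hμ⟩ := (Submodule.mem_iSup_finset_iff_exists_sum _ _).mp (polyPkg_E0_le i w.2)
  have hm : lam i ∉ Finset.Icc (-5 : ℤ) 5 := by
    rw [Finset.mem_Icc, ← abs_le]; omega
  have := extract_int (k := k) (insert (lam i) (Finset.Icc (-5 : ℤ) 5)) id
    (fun j => if j = lam i then -(w : PX k) else (μ j : PX k)) (fun c hc => ?_) (lam i)
  · rw [Finset.sum_filter, Finset.sum_insert hm, Finset.sum_eq_zero] at this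
    · simpa using this
    · intro j hj
      exact if_neg fun (e : j = lam i) => hm (e ▸ hj)
  · have h1 : rho (coch (Pi.single i 1) c) (w : PX k) = c ^ lam i • (w : PX k) := by
      have := congrArg Subtype.val (hw (Pi.single i 1) c hc)
      rwa [single_dotProduct, one_mul] at this
    rw [Finset.sum_insert hm, if_pos rfl, id, smul_neg, ← h1, ← hμ, map_sum, neg_add_eq_zero]
    refine Finset.sum_congr rfl fun j hj => ?_
    rw [if_neg fun (e : j = lam i) => hm (e ▸ hj)]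
    exact (μ j).2 c hc

theorem vP_wt : (EP k).IsWt ![5, 4, 3, 1] ⟨vP k, vP_mem⟩ := by
  intro ν s hs
  refine Subtype.ext ?_
  have h := polyPkgU_mul ν (polyPkgU_mul ν (polyPkgU_mul ν (polyPkgU_mul ν
    (polyPkgU_mnr (k := k) ν (d := 4) (by omega) fun a => .inl (Fin.castLE (by omega) a))
    (polyPkgU_mnr ν (d := 3) (by omega) fun a => .inl (Fin.castLE (by omega) a)))
    (polyPkgU_mnr ν (d := 3) (by omega) fun a => .inl (Fin.castLE (by omega) a)))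
    (polyPkgU_mnr ν (d := 2) (by omega) fun a => .inl (Fin.castLE (by omega) a)))
    (polyPkgU_mnr ν (d := 1) (by omega) fun a => .inl (Fin.castLE (by omega) a)) s hs
  refine h.trans ?_
  change _ = s ^ _ • vP k
  congr 2
  simp [wt, Fin.sum_univ_succ, dotProduct]
  ring

theorem t0P_wt : (EP k).IsWt ![3, 3, 3, 0] ⟨t0P k, t0P_mem⟩ := by
  intro ν s hs
  refine Subtype.ext ?_
  have key : ∀ (r4 : Fin 4 → Idx) (r3 r3' : Fin 3 → Idx) (r2 : Fin 2 → Idx) (r1 : Fin 1 → Idx),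
      ∑ a, wt ν (r4 a) + ∑ a, wt ν (r3 a) + ∑ a, wt ν (r3' a) + ∑ a, wt ν (r2 a)
        + ∑ a, wt ν (r1 a) = ν ⬝ᵥ ![3, 3, 3, 0] →
      mnr k (by omega) r4 * mnr k (by omega) r3 * mnr k (by omega) r3' *
        mnr k (by omega) r2 * mnr k (by omega) r1 ∈ polyPkgU ν (ν ⬝ᵥ ![3, 3, 3, 0]) := by
    intro r4 r3 r3' r2 r1 h
    rw [← h]
    exact polyPkgU_mul ν (polyPkgU_mul ν (polyPkgU_mul ν (polyPkgU_mul ν
      (polyPkgU_mnr ν _ r4) (polyPkgU_mnr ν _ r3)) (polyPkgU_mnr ν _ r3'))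
      (polyPkgU_mnr ν _ r2)) (polyPkgU_mnr ν _ r1)
  have i0 : ix 0 = .inl 0 := rfl
  have i1 : ix 1 = .inl 1 := rfl
  have i2 : ix 2 = .inl 2 := rfl
  have i3 : ix 3 = .inl 3 := rfl
  have i5 : ix 5 = .inr 1 := rfl
  have i7 : ix 7 = .inr 3 := rfl
  have h : t0P k ∈ polyPkgU ν (ν ⬝ᵥ ![3, 3, 3, 0]) := by
    refine sub_mem (key _ _ _ _ _ ?_) (key _ _ _ _ _ ?_) <;>
      simp [wt, Fin.sum_univ_succ, dotProduct, i0, i1, i2, i3, i5, i7] <;> ring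
  exact h s hs

theorem vP_ee (i : Fin 4) (s : k) : rho (1 + s • ee k i) (vP k) = vP k := by
  have h : ∀ (d : ℕ) (hd : d ≤ 4), rho (1 + s • ee k i) (pm k d hd) = pm k d hd := by
    intro d hd
    have e : (1 + s • ee k i)ᵀ.map (C : k →+* PX k) = 1 + (C s : PX k) • ff (PX k) i := by
      rw [transpose_add, transpose_one, transpose_smul, ee_transpose,
        Matrix.map_add _ (map_add _), Matrix.map_one _ (map_zero _) (map_one _), ff, ff,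
        ← cst_map k (C : k →+* PX k)]
      congr 1
      ext1 a b
      simp only [Matrix.map_apply, Matrix.smul_apply, smul_eq_mul, map_mul]
    rw [polyPkg_rho, e, polyPkg_low, pm, evF_mnr]
    rfl
  simp only [vP, map_mul, h]

theorem vP_ff [Infinite k] (i : Fin 4) (n : ℕ) (hn : 3 ≤ n) : Del (ff k i) n (vP k) = 0 := by
  refine Polynomial.coeff_eq_zero_of_natDegree_lt (p := sig (ff k i) (vP k)) ?_
  have m : ∀ {p q : Polynomial (PX k)} {a b : ℕ}, p.natDegree ≤ a → q.natDegree ≤ b →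
      (p * q).natDegree ≤ a + b := fun h1 h2 => Polynomial.natDegree_mul_le.trans (add_le_add h1 h2)
  have h := polyPkg_sig_pm (k := k) i
  have h2 := m (m (m (m (h 4 (by omega)) (h 3 (by omega))) (h 3 (by omega))) (h 2 (by omega)))
    (h 1 (by omega))
  simp only [vP, map_mul]
  refine lt_of_le_of_lt h2 ?_
  split_ifs <;> omega

theorem vP_base : evF (baseF k) (vP k) = 1 := by
  have h : ∀ (d : ℕ) (hd : d ≤ 4), evF (baseF k) (pm k d hd) = 1 := by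
    intro d hd
    rw [← rho_one (pm k d hd), polyPkg_base_pm, ← det_one (n := Fin d)]
    congr 1
    ext a b
    simp [one_apply, eq_comm]
  simp only [vP, map_mul, h, mul_one]

theorem vP_symm (g : Mat k) :
    evF (baseF k) (rho g (vP k)) = evF (baseF k) (rho gᵀ (vP k)) := by
  have h : ∀ (d : ℕ) (hd : d ≤ 4),
      evF (baseF k) (rho g (pm k d hd)) = evF (baseF k) (rho gᵀ (pm k d hd)) := by
    intro d hd
    rw [polyPkg_base_pm, polyPkg_base_pm, ← det_transpose]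
    rfl
  simp only [vP, map_mul, h]

end Pool.Agent.MP_2042ac_al

end

-- part MP_2042ac_al.Res
section

/-!
Restriction to the big cell.
-/

set_option autoImplicit false

namespace Pool.Agent.MP_2042ac_al

open Matrix MvPolynomial

abbrev QX (K : Type) [CommRing K] : Type := MvPolynomial (Fin 16) K

variable (K : Type) [CommRing K]

noncomputable def AM : Matrix (Fin 4) (Fin 4) (QX K) :=
  !![1, 0, 0, 0; X 0, 1, 0, 0; X 1, X 3, 1, 0; X 2, X 4, X 5, 1]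

noncomputable def SM : Matrix (Fin 4) (Fin 4) (QX K) :=
  !![X 6, X 7, X 8, X 9; X 7, X 10, X 11, X 12; X 8, X 11, X 13, X 14; X 9, X 12, X 14, X 15]

/-- the generic isotropic frame of the big cell -/
noncomputable def FR : Frm (QX K) := fromRows (AM K) (SM K * AM K)

/-- restriction to the big cell -/
noncomputable def resQ : PX K →ₐ[K] QX K := evF (FR K)

variable {K}

theorem res_evF_map {R S : Type} [CommRing R] [Algebra K R] [CommRing S] [Algebra K S]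
    (f : R →ₐ[K] S) (Y : Frm R) (ψ : PX K) : f (evF Y ψ) = evF (Y.map f) ψ := by
  have : f.comp (evF Y) = evF (Y.map f) := by
    apply MvPolynomial.algHom_ext; intro p; simp [evF]
  exact AlgHom.congr_fun this ψ

theorem res_evF_X {R : Type} [CommRing R] [Algebra K R] (Y : Frm R) (p : Idx × Fin 4) :
    evF (K := K) Y (X p) = Y p.1 p.2 := by simp [evF]

theorem res_evF_C {R : Type} [CommRing R] [Algebra K R] (Y : Frm R) (c : K) :
    evF (K := K) Y (C c) = algebraMap K R c := by simp [evF]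

theorem res_FR_map {S F : Type} [CommRing S] [FunLike F (QX K) S] [RingHomClass F (QX K) S]
    (f : F) : (FR K).map f = fromRows ((AM K).map f) ((SM K).map f * (AM K).map f) := by
  rw [FR, fromRows_map, Matrix.map_mul]

theorem res_AM_lower : ∀ i j : Fin 4, i < j → AM K i j = 0 := by
  intro i j h
  fin_cases i <;> fin_cases j <;> first | rfl | exact absurd h (by decide)

theorem res_AM_diag : ∀ i : Fin 4, AM K i i = 1 := by
  intro i; fin_cases i <;> rfl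

theorem res_SM_symm : (SM K)ᵀ = SM K := by
  ext1 i j; fin_cases i <;> fin_cases j <;> rfl

theorem res_det_lower {R : Type} [CommRing R] {d : ℕ} (l : Matrix (Fin d) (Fin d) R)
    (h1 : ∀ i j, i < j → l i j = 0) (h2 : ∀ i, l i i = 1) : l.det = 1 := by
  rw [Matrix.det_of_isLowerTriangular l (fun i j h => h1 i j h)]
  simp [h2]

theorem base_eq (ψ : PX K) : evF (baseF K) ψ = constantCoeff (resQ K ψ) := by
  have h := res_evF_map (aeval (0 : Fin 16 → K)) (FR K) ψ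
  rw [aeval_zero] at h
  have h2 : (FR K).map (aeval (0 : Fin 16 → K) : QX K →ₐ[K] K) = baseF K := by
    rw [res_FR_map, baseF]
    have a1 : (AM K).map (aeval (0 : Fin 16 → K) : QX K →ₐ[K] K) = 1 := by
      ext i j; fin_cases i <;> fin_cases j <;> simp [AM]
    have a2 : (SM K).map (aeval (0 : Fin 16 → K) : QX K →ₐ[K] K) = 0 := by
      ext i j; fin_cases i <;> fin_cases j <;> simp [SM]
    rw [a1, a2, zero_mul]
  rw [← h2, ← h]; rfl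

theorem res_pm (d : ℕ) (hd : d ≤ 4) : resQ K (pm K d hd) = 1 := by
  rw [resQ, pm, evF_mnr]
  refine res_det_lower _ (fun i j h => ?_) fun i => ?_
  · exact res_AM_lower (K := K) (Fin.castLE hd i) (Fin.castLE hd j) h
  · exact res_AM_diag (K := K) (Fin.castLE hd i)

theorem resQ_vP : resQ K (vP K) = 1 := by
  simp only [vP, map_mul, res_pm, mul_one]

theorem map_resQ {K' : Type} [CommRing K'] (θ : K →+* K') (ψ : PX K) :
    MvPolynomial.map θ (resQ K ψ) = resQ K' (MvPolynomial.map θ ψ) := by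
  have h : (FR K).map (MvPolynomial.map θ) = FR K' := by
    have a1 : (AM K).map (MvPolynomial.map θ) = AM K' := by
      ext1 i j; fin_cases i <;> fin_cases j <;> simp [AM]
    have a2 : (SM K).map (MvPolynomial.map θ) = SM K' := by
      ext1 i j; fin_cases i <;> fin_cases j <;> simp [SM]
    rw [res_FR_map, a1, a2, FR]
  induction ψ using MvPolynomial.induction_on with
  | C c => simp [resQ]
  | add p q hp hq => simp only [map_add, hp, hq]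
  | mul_X p i hp =>
    simp only [map_mul, hp, map_X]
    congr 1
    rw [resQ, resQ, res_evF_X, res_evF_X, ← h]; rfl

/-- approximate `LU` decomposition -/
theorem res_LU {R : Type} [CommRing R] (ε : R) (W : Matrix (Fin 4) (Fin 4) R) (n : ℕ) :
    ∃ l b W' : Matrix (Fin 4) (Fin 4) R, (∀ i j, i ≤ j → l i j = 0) ∧ (∀ i j, j < i → b i j = 0) ∧
      1 + ε • W = (1 + ε • l) * (1 + ε • b) + ε ^ (n + 1) • W' := by
  induction n with
  | zero => exact ⟨0, 0, W, fun _ _ _ => rfl, fun _ _ _ => rfl, by simp⟩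
  | succ n ih =>
    obtain ⟨l, b, W', h1, h2, h3⟩ := ih
    let L : Matrix (Fin 4) (Fin 4) R := of fun i j => if i ≤ j then 0 else W' i j
    let U : Matrix (Fin 4) (Fin 4) R := of fun i j => if i ≤ j then W' i j else 0
    have hW : W' = L + U := by
      ext i j; simp only [L, U, Matrix.add_apply, of_apply]; split_ifs <;> simp
    refine ⟨l + ε ^ n • L, b + ε ^ n • U, -(L * b + l * U + ε ^ n • (L * U)), fun i j h => ?_,
      fun i j h => ?_, ?_⟩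
    · simp [h1 i j h, L, h]
    · simp [h2 i j h, U, not_le.2 h]
    · rw [h3, hW]
      simp only [add_mul, mul_add, one_mul, mul_one, smul_add, smul_mul_assoc, mul_smul_comm,
        smul_smul, smul_neg]
      module

theorem res_lower_mul {R : Type} [CommRing R] {a l : Matrix (Fin 4) (Fin 4) R}
    (a1 : ∀ i j, i < j → a i j = 0) (a2 : ∀ i, a i i = 1)
    (l1 : ∀ i j, i < j → l i j = 0) (l2 : ∀ i, l i i = 1) :
    (∀ i j, i < j → (a * l) i j = 0) ∧ ∀ i, (a * l) i i = 1 := by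
  constructor
  · intro i j h
    rw [Matrix.mul_apply]
    refine Finset.sum_eq_zero fun k _ => ?_
    rcases lt_or_ge i k with h' | h'
    · rw [a1 i k h', zero_mul]
    · rw [l1 k j (h'.trans_lt h), mul_zero]
  · intro i
    rw [Matrix.mul_apply, Finset.sum_eq_single i]
    · rw [a2, l2, one_mul]
    · intro k _ hk
      rcases lt_or_gt_of_ne hk with h' | h'
      · rw [l1 k i h', mul_zero]
      · rw [a1 i k h', zero_mul]
    · simp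

theorem res_iso_iff {R : Type} [CommRing R] (T Bt : Matrix (Fin 4) (Fin 4) R) :
    (fromRows T Bt)ᵀ * J (Fin 4) R * fromRows T Bt = Btᵀ * T - Tᵀ * Bt := by
  rw [transpose_fromRows, J, fromCols_mul_fromBlocks, fromCols_mul_fromRows]
  simp [sub_eq_add_neg]

/-- isotropic frames in the big cell -/
theorem res_frame {R : Type} [CommRing R] [Algebra K R] {T Bt l b : Matrix (Fin 4) (Fin 4) R}
    (hT : T = l * b) (hu : IsUnit T) (hiso : Btᵀ * T = Tᵀ * Bt)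
    (l1 : ∀ i j, i < j → l i j = 0) (l2 : ∀ i, l i i = 1) (hb : ∀ i j, j < i → b i j = 0)
    {ψ : PX K} (hψ : ψ ∈ E0 K) (h : resQ K ψ = 0) : evF (fromRows T Bt) ψ = 0 := by
  obtain ⟨u, hu⟩ := hu
  set S : Matrix (Fin 4) (Fin 4) R := Bt * (↑u⁻¹ : Matrix (Fin 4) (Fin 4) R) with hS
  have e1 : (↑u⁻¹ : Matrix (Fin 4) (Fin 4) R) * T = 1 := by rw [← hu]; simp
  have e2 : T * (↑u⁻¹ : Matrix (Fin 4) (Fin 4) R) = 1 := by rw [← hu]; simp
  have hB : Bt = S * T := by rw [hS, mul_assoc, e1, mul_one]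
  have hsym : Sᵀ = S := by
    have e3 : (↑u⁻¹ : Matrix (Fin 4) (Fin 4) R)ᵀ * Tᵀ = 1 := by
      rw [← transpose_mul, e2, transpose_one]
    calc Sᵀ = (↑u⁻¹ : Matrix (Fin 4) (Fin 4) R)ᵀ * (Btᵀ * T) * (↑u⁻¹ : Matrix (Fin 4) (Fin 4) R) := by
          rw [hS, transpose_mul, mul_assoc, mul_assoc, e2, mul_one]
      _ = S := by rw [hiso, ← mul_assoc, e3, one_mul]
  have hs : ∀ i j, S j i = S i j := fun i j => congrFun (congrFun hsym i) j
  let pt : Fin 16 → R := ![l 1 0, l 2 0, l 3 0, l 2 1, l 3 1, l 3 2, S 0 0, S 0 1, S 0 2, S 0 3,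
    S 1 1, S 1 2, S 1 3, S 2 2, S 2 3, S 3 3]
  have a1 : (AM K).map (aeval pt : QX K →ₐ[K] R) = l := by
    ext i j
    fin_cases i <;> fin_cases j <;> simp [AM, pt, l2] <;> exact (l1 _ _ (by decide)).symm
  have a2 : (SM K).map (aeval pt : QX K →ₐ[K] R) = S := by
    ext i j
    fin_cases i <;> fin_cases j <;> simp [SM, pt] <;> exact hs _ _
  have a3 : fromRows T Bt = (FR K).map (aeval pt : QX K →ₐ[K] R) * b := by
    rw [res_FR_map, a1, a2, fromRows_mul, mul_assoc, ← hT, ← hB]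
  rw [a3, evF_mul_upper _ _ hb hψ, ← res_evF_map, ← resQ, h, map_zero, mul_zero]

theorem res_nil {R : Type} [CommRing R] [Algebra K R] (ι : QX K →ₐ[K] R) {ε : R} {n : ℕ}
    (hε : ε ^ (n + 1) = 0) {x : Mat K} (hx : IsSp x) (h2 : x * x = 0) {ψ : PX K} (hψ : ψ ∈ E0 K)
    (h : resQ K ψ = 0) :
    evF ((1 + ε • xᵀ.map (algebraMap K R)) * (FR K).map ι) ψ = 0 := by
  set A := (AM K).map ι with hA
  have A1 : ∀ i j, i < j → A i j = 0 := fun i j h => by simp [hA, res_AM_lower i j h]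
  have A2 : ∀ i, A i i = 1 := fun i => by simp [hA, res_AM_diag i]
  have hdet : IsUnit A.det := by rw [res_det_lower A A1 A2]; exact isUnit_one
  set g : Mat R := 1 + ε • xᵀ.map (algebraMap K R) with hg
  have hgm : g ∈ SpG R := (hx.transpose.map (algebraMap K R)).one_add_smul_mem (by
    rw [← Matrix.map_mul, ← transpose_mul, h2]; simp) ε
  set Y : Frm R := g * (FR K).map ι with hY
  have hiso : Yᵀ * J (Fin 4) R * Y = 0 := by
    have e1 : gᵀ * J (Fin 4) R * g = J (Fin 4) R := SymplecticGroup.mem_iff'.1 hgm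
    have e2 : Yᵀ * J (Fin 4) R * Y = ((FR K).map ι)ᵀ * (gᵀ * J (Fin 4) R * g) * (FR K).map ι := by
      simp only [hY, transpose_mul, Matrix.mul_assoc]
    rw [e2, e1, res_FR_map, res_iso_iff, transpose_mul, ← transpose_map (M := SM K), res_SM_symm,
      mul_assoc, sub_self]
  set Cc : Matrix (Fin 4) (Fin 4) R := toRows₁ (xᵀ.map (algebraMap K R) * (FR K).map ι) with hC
  have hT : toRows₁ Y = A * (1 + ε • (A⁻¹ * Cc)) := by
    rw [mul_add, mul_one, mul_smul_comm, ← mul_assoc, Matrix.mul_nonsing_inv _ hdet, one_mul, hY, hg,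
      Matrix.add_mul, Matrix.one_mul, Matrix.smul_mul]
    ext i j; rfl
  obtain ⟨l, b, W', l1, b1, e⟩ := res_LU ε (A⁻¹ * Cc) n
  rw [hε, zero_smul, add_zero] at e
  obtain ⟨m1, m2⟩ := res_lower_mul (l := 1 + ε • l) A1 A2
    (fun i j h => by simp [l1 i j h.le, h.ne]) (fun i => by simp [l1 i i le_rfl])
  rw [← fromRows_toRows Y] at hiso ⊢
  rw [res_iso_iff, sub_eq_zero] at hiso
  refine res_frame (b := 1 + ε • b) (by rw [hT, e, mul_assoc]) ?_ hiso m1 m2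
    (fun i j h => by simp [b1 i j h, h.ne']) hψ h
  rw [hT]
  refine ((Matrix.isUnit_iff_isUnit_det A).2 hdet).mul (IsNilpotent.isUnit_one_add ⟨n + 1, ?_⟩)
  rw [smul_pow, hε, zero_smul]

theorem res_mulX {R : Type} [CommRing R] [Algebra K R] (Y : Frm R) (x : Mat K) :
    (xᵀ.map C * XM K : Frm (PX K)).map (evF (K := K) Y) = xᵀ.map (algebraMap K R) * Y := by
  ext a j
  change evF Y (∑ k, C (x k a) * X (k, j)) = ∑ k, algebraMap K R (x k a) * Y k j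
  simp only [map_sum, map_mul, res_evF_X, res_evF_C]

theorem res_sig {R : Type} [CommRing R] [Algebra K R] (π : Polynomial (QX K) →ₐ[K] R) {n : ℕ}
    (hε : π (Polynomial.X ^ (n + 1)) = 0) {x : Mat K} (hx : IsSp x) (h2 : x * x = 0) {ψ : PX K}
    (hψ : ψ ∈ E0 K) (h : resQ K ψ = 0) :
    π (Polynomial.map (resQ K : PX K →+* QX K) (sig x ψ)) = 0 := by
  let ι : QX K →ₐ[K] R := π.comp (Polynomial.CAlgHom (R := K) (A := QX K))
  let φ : Polynomial (PX K) →ₐ[K] R := π.comp (Polynomial.mapAlgHom (resQ K))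
  have hC : ∀ p : PX K, φ (Polynomial.C p) = evF ((FR K).map ι) p := fun p => by
    rw [← res_evF_map]; simp [φ, ι, resQ]
  have hX : φ Polynomial.X = π Polynomial.X := by simp [φ]
  rw [map_pow] at hε
  have h1 := res_nil ι hε hx h2 hψ h
  refine (res_evF_map φ _ ψ).trans ?_
  rw [← h1, Matrix.add_mul, Matrix.one_mul, Matrix.smul_mul, ← res_mulX ((FR K).map ι) x]
  congr 2
  ext a j
  simp only [Matrix.map_apply, Matrix.add_apply, Matrix.smul_apply, smul_eq_mul, map_add,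
    map_mul, hC, hX, XM, of_apply, res_evF_X]

/-- the kernel of the restriction is stable under divided powers -/
theorem resQ_Del {x : Mat K} (hx : IsSp x) (h2 : x * x = 0) {ψ : PX K} (hψ : ψ ∈ E0 K)
    (h : resQ K ψ = 0) (n : ℕ) : resQ K (Del x n ψ) = 0 := by
  have h3 := res_sig (R := Polynomial (QX K) ⧸ Ideal.span {(Polynomial.X : Polynomial (QX K)) ^ (n + 1)})
    (Ideal.Quotient.mkₐ K _) (n := n)
    (Ideal.Quotient.eq_zero_iff_mem.2 (Ideal.mem_span_singleton_self _)) hx h2 hψ h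
  have h4 : Polynomial.X ^ (n + 1) ∣ Polynomial.map (resQ K : PX K →+* QX K) (sig x ψ) :=
    Ideal.mem_span_singleton.1 (Ideal.Quotient.eq_zero_iff_mem.1 h3)
  have h5 := Polynomial.X_pow_dvd_iff.1 h4 n (Nat.lt_succ_self n)
  rw [Polynomial.coeff_map] at h5
  exact h5

theorem resQ_rho {x : Mat K} (hx : IsSp x) (h2 : x * x = 0) {ψ : PX K} (hψ : ψ ∈ E0 K)
    (h : resQ K ψ = 0) (s : K) : resQ K (rho (1 + s • x) ψ) = 0 := by
  rw [rho_one_add, Polynomial.eval_eq_sum_range, map_sum]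
  refine Finset.sum_eq_zero fun n _ => ?_
  have : resQ K ((sig x ψ).coeff n) = 0 := resQ_Del hx h2 hψ h n
  rw [map_mul, this, zero_mul]

open TrivSqZeroExt in
theorem res_dual {R : Type} [CommRing R] [Algebra K R] (Y Z : Frm R) (δ : PX K → R)
    (d0 : ∀ c, δ (C c) = 0) (d1 : ∀ p q, δ (p + q) = δ p + δ q)
    (d2 : ∀ p i, δ (p * X i) = δ p * Y i.1 i.2 + evF Y p * Z i.1 i.2) (ψ : PX K) :
    evF (Y.map inl + Z.map inr : Frm (TrivSqZeroExt R R)) ψ = inl (evF Y ψ) + inr (δ ψ) := by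
  induction ψ using MvPolynomial.induction_on with
  | C c => rw [res_evF_C, res_evF_C, d0]; ext <;> simp [algebraMap_eq_inl']
  | add p q hp hq => rw [map_add, hp, hq, map_add, d1]; ext <;> simp
  | mul_X p i hp =>
    rw [map_mul, hp, map_mul, d2, res_evF_X, res_evF_X]
    ext <;> simp
    ring

open TrivSqZeroExt in
/-- the infinitesimal action in the chart -/
theorem resQ_der (x : Mat K) (ξ : Derivation K (QX K) (QX K)) (B : Matrix (Fin 4) (Fin 4) (QX K))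
    (hB : ∀ i j, j < i → B i j = 0)
    (h : xᵀ.map C * FR K = (FR K).map ξ + FR K * B) {ψ : PX K} (hψ : ψ ∈ E0 K) :
    resQ K (der x ψ) =
      ξ (resQ K ψ) + (5 * B 0 0 + 4 * B 1 1 + 3 * B 2 2 + B 3 3) * resQ K ψ := by
  have h1 := res_dual (FR K) (xᵀ.map C * FR K) (fun p => resQ K (der x p)) (fun c => by simp)
    (fun p q => by simp) (fun p i => by
      have e : resQ K (der x (X i)) = (xᵀ.map C * FR K : Frm (QX K)) i.1 i.2 := by
        rw [der, mkDerivation_X]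
        exact congrFun (congrFun (res_mulX (FR K) x) i.1) i.2
      rw [Derivation.leibniz, map_add, smul_eq_mul, smul_eq_mul, map_mul, map_mul, e, resQ,
        res_evF_X]; ring) ψ
  have h2 := res_dual (FR K) ((FR K).map ξ) (fun p => ξ (resQ K p))
    (fun c => by simp [resQ]) (fun p q => by simp) (fun p i => by
      rw [map_mul, Derivation.leibniz, smul_eq_mul, smul_eq_mul, resQ, res_evF_X, Matrix.map_apply]
      ring) ψ
  let il : QX K → TrivSqZeroExt (QX K) (QX K) := inl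
  let ir : QX K → TrivSqZeroExt (QX K) (QX K) := inr
  have h3 : Matrix.map (FR K) il + Matrix.map (xᵀ.map C * FR K : Frm (QX K)) ir =
      (Matrix.map (FR K) il + Matrix.map (Matrix.map (FR K) ξ) ir) *
        (1 + Matrix.map B ir : Matrix (Fin 4) (Fin 4) (TrivSqZeroExt (QX K) (QX K))) := by
    rw [h, Matrix.mul_add, Matrix.mul_one]
    ext1 a j
    ext1 <;> simp [il, ir, Matrix.mul_apply, fst_sum, snd_sum, mul_comm]
  rw [h3, evF_mul_upper _ _ (fun i j hij => by simp [ir, hB i j hij, hij.ne']) hψ, h2] at h1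
  have h4 := congrArg snd h1
  simp only [ir, chiB, Matrix.add_apply, one_apply_eq, Matrix.map_apply, snd_mul, fst_mul, snd_pow,
    fst_pow, fst_add, snd_add, fst_one, snd_one, fst_inr, snd_inr, fst_inl, snd_inl, add_zero,
    zero_add, one_pow, smul_eq_mul, op_smul_eq_mul, mul_one, one_mul, nsmul_eq_mul,
    MulOpposite.op_one, one_smul] at h4
  rw [← h4, resQ]
  push_cast
  ring

end Pool.Agent.MP_2042ac_al

end

-- part MP_2042ac_al.Ops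
section

/-!
The Chevalley generators as operators in the chart; trees of lowering operators.
-/

set_option autoImplicit false
set_option maxRecDepth 100000

namespace Pool.Agent.MP_2042ac_al

def ope1 : OT :=
  (.nd (.nd (.der 0 23 1 1) (.der 6 53 47 241)) (.nd (.der 7 47 37 242) (.nd (.der 8 41 19 242)
  (.der 9 43 17 242))))

def Be1 : Matrix (Fin 4) (Fin 4) PL :=
  !![.nil, .nil, .nil, .nil; .nil, .nil, .nil, .nil; .nil, .nil, .nil, .nil; .nil, .nil, .nil,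
  .nil]

def ope2 : OT :=
  (.nd (.nd (.der 1 29 23 1) (.nd (.der 3 13 1 1) (.der 7 47 41 242))) (.nd (.der 10 37 19 241)
  (.nd (.der 11 19 5 242) (.der 12 17 3 242))))

def Be2 : Matrix (Fin 4) (Fin 4) PL :=
  !![.nil, .nil, .nil, .nil; .nil, .nil, .nil, .nil; .nil, .nil, .nil, .nil; .nil, .nil, .nil,
  .nil]

def ope3 : OT :=
  (.nd (.nd (.der 2 31 29 1) (.nd (.der 4 11 13 1) (.der 5 2 1 1))) (.nd (.nd (.der 8 41 43 242)
  (.der 11 19 17 242)) (.nd (.der 13 5 3 241) (.der 14 3 7 242))))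

def Be3 : Matrix (Fin 4) (Fin 4) PL :=
  !![.nil, .nil, .nil, .nil; .nil, .nil, .nil, .nil; .nil, .nil, .nil, .nil; .nil, .nil, .nil,
  .nil]

def ope4 : OT :=
  (.der 15 7 1 1)

def Be4 : Matrix (Fin 4) (Fin 4) PL :=
  !![.nil, .nil, .nil, .nil; .nil, .nil, .nil, .nil; .nil, .nil, .nil, .nil; .nil, .nil, .nil,
  .nil]

def opf1 : OT :=
  (.nd (.nd (.nd (.der 0 23 529 242) (.nd (.der 1 29 667 242) (.der 2 31 713 242))) (.nd (.der 3 13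
  29 242) (.nd (.der 3 13 299 1) (.der 4 11 31 242)))) (.nd (.nd (.der 4 11 253 1) (.nd (.der 7 47
  53 242) (.der 10 37 47 241))) (.nd (.der 11 19 41 242) (.nd (.der 12 17 43 242) (.mul 23 1)))))

def Bf1 : Matrix (Fin 4) (Fin 4) PL :=
  !![.cons 23 1 .nil, .cons 1 1 .nil, .nil, .nil; .nil, .cons 23 242 .nil, .nil, .nil; .nil, .nil,
  .nil, .nil; .nil, .nil, .nil, .nil]

def opf2 : OT :=
  (.nd (.nd (.nd (.der 0 23 29 1) (.der 3 13 169 242)) (.nd (.der 4 11 143 242) (.nd (.der 5 2 11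
  242) (.der 5 2 26 1)))) (.nd (.nd (.der 8 41 47 242) (.der 11 19 37 242)) (.nd (.der 13 5 19 241)
  (.nd (.der 14 3 17 242) (.mul 13 1)))))

def Bf2 : Matrix (Fin 4) (Fin 4) PL :=
  !![.nil, .nil, .nil, .nil; .nil, .cons 13 1 .nil, .cons 1 1 .nil, .nil; .nil, .nil, .cons 13 242
  .nil, .nil; .nil, .nil, .nil, .nil]

def opf3 : OT :=
  (.nd (.nd (.nd (.der 1 29 31 1) (.der 3 13 11 1)) (.nd (.der 5 2 4 242) (.der 9 43 41 242))) (.nd
  (.nd (.der 12 17 19 242) (.der 14 3 5 242)) (.nd (.der 15 7 3 241) (.mul 2 2))))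

def Bf3 : Matrix (Fin 4) (Fin 4) PL :=
  !![.nil, .nil, .nil, .nil; .nil, .nil, .nil, .nil; .nil, .nil, .cons 2 1 .nil, .cons 1 1 .nil;
  .nil, .nil, .nil, .cons 2 242 .nil]

def opf4 : OT :=
  (.nd (.nd (.nd (.nd (.der 2 31 43 1) (.der 2 31 391 1)) (.nd (.der 2 31 87 1) (.nd (.der 2 31 217
  1) (.der 4 11 17 1)))) (.nd (.nd (.der 4 11 39 1) (.der 4 11 77 1)) (.nd (.der 5 2 3 1) (.nd
  (.der 5 2 14 1) (.der 6 53 1849 242))))) (.nd (.nd (.nd (.der 7 47 731 242) (.der 8 41 129 242))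
  (.nd (.der 9 43 301 242) (.nd (.der 10 37 289 242) (.der 11 19 51 242)))) (.nd (.nd (.der 12 17
  119 242) (.der 13 5 9 242)) (.nd (.der 14 3 21 242) (.nd (.der 15 7 49 242) (.mul 7 1))))))

def Bf4 : Matrix (Fin 4) (Fin 4) PL :=
  !![.nil, .nil, .nil, .nil; .nil, .nil, .nil, .nil; .nil, .nil, .nil, .nil; .nil, .nil, .nil,
  .cons 7 1 .nil]

/-- trees of lowering operators -/
inductive HT where
  | nil : HT
  | lf : ℕ → HT
  | nd : ℕ → HT → HT → HT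

noncomputable section

def opF (i : ℕ) : OT :=
  Nat.rec (motive := fun _ => OT) opf1 (fun i _ => Nat.rec (motive := fun _ => OT) opf2
    (fun i _ => Nat.rec (motive := fun _ => OT) opf3 (fun _ _ => opf4) i) i) i

def opE (i : ℕ) : OT :=
  Nat.rec (motive := fun _ => OT) ope1 (fun i _ => Nat.rec (motive := fun _ => OT) ope2
    (fun i _ => Nat.rec (motive := fun _ => OT) ope3 (fun _ _ => ope4) i) i) i

def env0 (c : ℕ) (_ : Bool) : PL := PL.cons 1 c PL.nil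

def envL (e : ℕ → PL) (j : ℕ) (dir : Bool) : PL :=
  Bool.rec (motive := fun _ => PL) (rev (e j) PL.nil) (e j) dir

def valT (env : ℕ → Bool → PL) (t : HT) : Bool → PL :=
  HT.rec (motive := fun _ => Bool → PL) (fun _ => PL.nil) env
    (fun i _ _ l r dir => Bool.rec (motive := fun _ => PL)
      (mergeU 3 (app 3 (opF i) (l true) true) (r true) PL.nil)
      (mergeD 3 (app 3 (opF i) (l true) false) (r false) PL.nil) dir) t

def kap (t : HT) : PL → ℕ :=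
  HT.rec (motive := fun _ => PL → ℕ) (fun _ => 0) (fun c q => Nat.mul c (cstL q))
    (fun i _ _ l r q => Nat.add (frcLN (app 3 (opE i) q true) l) (r q)) t

def HT.subst (t : HT) (σ : ℕ → HT) : HT :=
  HT.rec (motive := fun _ => HT) HT.nil σ (fun i _ _ l r => HT.nd i l r) t

def cube (o : OT) (l : PL) : PL := app 243 o (app 243 o (app 243 o l true) true) true

def Qword (l : PL) : PL :=
  frcL (cube opf4 (cube opf3 l)) (fun th =>
    mergeU 243 (cube opf2 (cube opf3 th)) (cube opf3 (cube opf2 th)) PL.nil)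

end

def t0N : List ℕ :=
  [20339, 242, 22661, 1, 42398, 242, 48074, 1, 184943, 241, 206057, 1, 385526, 242, 437138, 2,
  1681691, 242, 3974906, 1]

noncomputable def t0L : PL := ofL t0N PL.nil none

def yN : List ℕ :=
  [2392347, 1, 3567535, 1, 4064043, 2, 4281042, 1, 6060415, 1, 7058601, 1, 7103815, 1, 7216803, 2,
  7272498, 1, 7435494, 1, 8524578, 2, 9218439, 2, 9821214, 1, 11164286, 2, 12204725, 1, 12338205,
  1, 12712090, 1, 13746795, 1, 13862039, 1, 14481282, 2, 14805846, 2, 15254508, 2, 16158835, 1,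
  16496154, 1, 16683966, 1, 17247402, 2, 17574804, 2, 18965534, 1, 19978196, 1, 20089631, 1,
  21162314, 1, 21433175, 1, 23548391, 1, 24076173, 1, 24302525, 2, 25312810, 2, 25719810, 2,
  26824827, 2, 27373155, 1, 28915810, 1, 29163030, 2, 29299338, 2, 29956014, 1, 30375372, 1,
  30863772, 2, 32847786, 2, 32940138, 1, 33678414, 1, 33938324, 1, 34995636, 1, 35521443, 1,
  35674551, 1, 35849485, 1, 35903065, 2, 36755598, 2, 37844118, 2, 38193610, 1, 39781364, 1,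
  40001935, 2, 40318668, 1, 40457365, 2, 40899837, 2, 41816511, 1, 41823655, 2, 42139226, 1,
  42678575, 2, 43083678, 1, 43316751, 1, 45832332, 1, 46590489, 2, 48548838, 1, 48712257, 2,
  49394186, 1, 50188386, 2, 51214290, 2, 53414643, 1, 53564819, 2, 55280225, 2, 56907318, 2,
  57578290, 1, 60899965, 1, 60990985, 2, 61457148, 1, 61539309, 2, 62357955, 2, 64151710, 1,
  64595155, 1, 64882090, 1, 67073230, 1, 67954015, 1, 68346460, 1, 68727685, 1, 69477045, 2,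
  69954941, 1, 71036559, 1, 71048695, 1, 72628677, 2, 72641085, 1, 73079958, 2, 73189182, 2,
  73585119, 2, 74829546, 1, 74842330, 1, 75234357, 1, 75407036, 2, 77514186, 2, 77858508, 1,
  79146441, 1, 79603524, 2, 79653415, 2, 80047539, 2, 80487876, 1, 80920323, 2, 81841617, 1,
  82365855, 1, 82473222, 1, 83372454, 1, 84321666, 1, 84605499, 1, 84861790, 1, 85258434, 1,
  86876868, 1, 88389596, 1, 90489476, 1, 92772801, 2, 93033633, 1, 95584098, 1, 95852834, 2,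
  95948385, 2, 96672342, 2, 97079675, 2, 98839026, 1, 101534081, 2, 101834148, 2, 103364199, 1,
  104541021, 2, 108071487, 1, 108324425, 2, 109732195, 1, 112191585, 1, 112355474, 2, 115138062, 1,
  115591330, 1, 119014841, 1, 120025780, 1, 121500687, 1, 122642975, 1, 124169595, 2, 124343532, 2,
  125182526, 1, 126047843, 1, 126166095, 1, 127139770, 1, 127805733, 1, 127932310, 1, 128624395, 1,
  130662350, 1, 130670199, 1, 130883438, 1, 130971610, 1, 132602159, 1, 134111861, 2, 134629902, 1,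
  136848725, 2, 138640967, 2, 138709596, 2, 138734365, 1, 139794732, 1, 139920495, 2, 142537690, 2,
  143080925, 1, 143725131, 1, 144645765, 2, 147391530, 1, 148080438, 1, 149003514, 2, 149028970, 2,
  151399314, 2, 152567724, 1, 153720644, 2, 154349274, 1, 155431799, 2, 155894505, 1, 155987172, 1,
  157201421, 1, 159388515, 1, 161131707, 2, 161584731, 2, 162510287, 1, 162619765, 2, 162831746, 1,
  162994065, 1, 164218470, 1, 165766734, 2, 166014486, 2, 166481238, 1, 166647195, 2, 166912587, 2,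
  167904594, 1, 168980110, 1, 171667782, 2, 171697110, 1, 172992612, 2, 176605884, 2, 176869836, 2,
  178834764, 1, 181185235, 1, 182734305, 2, 183248065, 1, 187073406, 1, 187703109, 1, 189203274, 1,
  189436555, 2, 190865906, 1, 191266218, 1, 193391082, 1, 193443822, 1, 194682930, 2, 195143718, 2,
  195592878, 2, 199305756, 1, 199976634, 2, 200757116, 1, 201057164, 2, 202144838, 2, 202198266, 2,
  202776132, 2, 206036532, 2, 206709987, 1, 212973926, 2, 215077226, 1, 215377925, 1, 215699825, 1,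
  217422282, 2, 218925201, 1, 220983425, 1, 222340622, 1, 223400265, 1, 224010836, 2, 225559298, 1,
  226561244, 2, 230169970, 2, 230309013, 2, 232931127, 1, 233619516, 1, 234212468, 2, 237129633, 2,
  237288074, 1, 239000020, 1, 239319535, 1, 239989646, 2, 240797469, 1, 243061325, 1, 248094362, 1,
  248508975, 2, 248904735, 2, 249268334, 2, 249640886, 1, 250991387, 2, 251226855, 1, 256039550, 1,
  265180110, 2, 266683420, 1, 268080318, 2, 269557617, 1, 272498525, 1, 273034047, 1, 276203964, 1,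
  278141114, 2, 279908145, 1, 281307806, 2, 282254709, 1, 283094955, 2, 284908325, 1, 287183442, 1,
  288390210, 1, 290807882, 2, 291003790, 2, 291673590, 1, 292578055, 2, 293491770, 2, 301472226, 2,
  302086278, 1, 302385460, 2, 304204953, 1, 307247460, 2, 308251735, 2, 309569260, 2, 310144212, 1,
  310607748, 2, 311295985, 2, 312288066, 1, 314478291, 1, 314690145, 2, 317380635, 1, 318216132, 2,
  321808795, 1, 326467405, 2, 326998230, 1, 329021385, 1, 329739566, 2, 330721170, 1, 331503942, 1,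
  335889774, 1, 338991730, 2, 339713946, 2, 341039804, 2, 341889990, 1, 343397222, 1, 350008308, 1,
  351093666, 1, 351186462, 2, 352190124, 1, 353614365, 1, 357852924, 1, 361732868, 1, 361828476, 1,
  369350058, 2, 369718245, 2, 369902082, 2, 371903169, 2, 376736490, 2, 380238507, 2, 380856762, 1,
  381111236, 1, 381927546, 2, 383172962, 2, 386170554, 1, 389071452, 2, 393501108, 2, 393893370, 1,
  396865404, 1, 397872692, 2, 400352876, 1, 401971885, 2, 402965150, 2, 404564589, 1, 405760212, 2,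
  406548415, 2, 406790076, 1, 407156035, 2, 410267988, 2, 412131918, 2, 415660245, 1, 416824122, 1,
  418227183, 2, 420834249, 2, 420906145, 2, 424620764, 1, 428256010, 2, 429455156, 2, 430900734, 2,
  431216305, 2, 432939738, 2, 433131790, 2, 433586802, 1, 434156954, 2, 440030825, 2, 443661894, 2,
  446059124, 1, 446725796, 2, 448532335, 1, 451137596, 1, 453638965, 1, 457230852, 1, 461248788, 1,
  465692730, 1, 466373012, 2, 468179019, 1, 468878751, 2, 468958855, 1, 474298045, 1, 482366262, 2,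
  483087198, 1, 487858098, 2, 488587242, 1, 490231863, 2, 494840775, 2, 497726204, 2, 498792294, 1,
  503392916, 1, 504333606, 2, 505087374, 1, 509835950, 2, 513907212, 1, 519758148, 2, 522408249, 2,
  523699110, 2, 528036990, 2, 537310956, 1, 539067221, 2, 539568780, 2, 542395062, 1, 543646180, 1,
  546199137, 2, 550564482, 2, 551334225, 2, 552417723, 2, 554592445, 2, 555956245, 2, 556330775, 2,
  558931065, 1, 562750626, 1, 567022335, 2, 569157654, 2, 570922583, 2, 572705562, 1, 575868370, 1,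
  579458110, 1, 587384850, 1, 588378738, 2, 588775110, 2, 596426754, 1, 606616780, 1, 607447841, 1,
  609794262, 2, 614500292, 1, 619321131, 2, 619844225, 1, 623672115, 1, 626623305, 2, 627962027, 1,
  628385065, 2, 628438932, 2, 633644388, 1, 638088438, 2, 642571270, 2, 644648410, 2, 645353202, 2,
  645937083, 2, 646576810, 2, 648072425, 2, 649104505, 2, 650074645, 1, 660414249, 2, 665510934, 1,
  667147494, 1, 669133530, 1, 675013570, 2, 680426802, 1, 685220094, 2, 685677932, 2, 686800660, 2,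
  687827140, 1, 691042044, 2, 691730910, 1, 693707820, 2, 698161695, 2, 704014619, 1, 704861820, 2,
  706110405, 1, 707165745, 1, 712570716, 1, 720296612, 1, 721450197, 1, 724290355, 2, 726394581, 1,
  727507690, 2, 728595010, 1, 729956535, 1, 730025244, 2, 732536545, 1, 735790510, 1, 737532026, 2,
  748954635, 1, 750172410, 2, 752076430, 2, 753200470, 2, 757145763, 2, 766352860, 2, 771085524, 2,
  771650230, 1, 774734268, 1, 775077940, 2, 778925406, 2, 783554772, 2, 793318799, 2, 801253180, 1,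
  802636810, 1, 803728652, 1, 810016284, 1, 814368357, 1, 814507485, 2, 820110053, 2, 820662535, 2,
  822960446, 2, 823780815, 1, 830077092, 2, 839046186, 2, 843585237, 2, 847332486, 1, 848743870, 1,
  851455341, 1, 852760090, 1, 853189623, 1, 854034610, 2, 869148426, 1, 872311869, 1, 874314012, 1,
  875947842, 1, 877257018, 2, 877406890, 2, 879043854, 2, 882002781, 2, 898745562, 2, 902491716, 1,
  902737836, 2, 903840564, 1, 907340643, 2, 908520340, 1, 917670897, 1, 922170795, 1, 923549055, 2,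
  934835814, 1, 936274647, 1, 948661659, 1, 951535390, 2, 956243574, 1, 962368810, 1, 964646606, 1,
  965608215, 1, 969865127, 2, 977408982, 1, 982469670, 2, 984795042, 2, 985220652, 2, 988536978, 1,
  991602381, 1, 994699134, 2, 994869070, 2, 1000924925, 1, 1014637316, 1, 1018492644, 2,
  1021650938, 1, 1021920966, 1, 1023312108, 1, 1024841532, 2, 1026189164, 1, 1030385694, 1,
  1031528550, 1, 1042534570, 1, 1043164353, 2, 1052888268, 2, 1060844708, 1, 1074775394, 2,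
  1075663017, 1, 1075846785, 1, 1082204717, 2, 1100924825, 2, 1106604954, 1, 1108258866, 2,
  1114254297, 1, 1123721522, 2, 1154842572, 1, 1159708550, 1, 1161555430, 1, 1163291470, 2,
  1169623650, 1, 1172391990, 2, 1174779970, 1, 1178963604, 2, 1198465983, 1, 1206116380, 1,
  1207919020, 2, 1214453590, 1, 1222762233, 2, 1234258025, 1, 1234783134, 2, 1237507180, 2,
  1237834260, 2, 1257935546, 2, 1257977985, 2, 1259815634, 1, 1266630953, 1, 1268524037, 1,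
  1269714105, 2, 1272300315, 2, 1291016142, 2, 1296098530, 2, 1305714618, 1, 1314963650, 2,
  1315042641, 2, 1317188642, 1, 1340189396, 2, 1340234610, 1, 1347832420, 2, 1349810046, 2,
  1353667692, 2, 1354892418, 2, 1355123890, 1, 1362222081, 1, 1362358767, 1, 1365725130, 2,
  1369628260, 2, 1375166975, 2, 1391650260, 1, 1394115415, 2, 1403548380, 2, 1407110740, 2,
  1409735964, 1, 1414670895, 1, 1419623114, 1, 1429436177, 2, 1430777205, 1, 1435785806, 2,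
  1437793175, 2, 1441331892, 1, 1457344308, 1, 1463849946, 1, 1465086350, 2, 1465174359, 1,
  1467565358, 2, 1468554010, 1, 1474134090, 2, 1481855661, 1, 1485273790, 2, 1501707580, 2,
  1523917230, 1, 1525991740, 1, 1526760378, 2, 1528272460, 1, 1531807550, 1, 1531899567, 2,
  1534399454, 1, 1535433130, 2, 1560979134, 2, 1570096540, 2, 1573306735, 1, 1578320766, 1,
  1604058885, 2, 1608281532, 2, 1626148668, 2, 1626439045, 1, 1636577635, 1, 1638437108, 1,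
  1638870156, 1, 1650200370, 2, 1668988230, 2, 1671482670, 1, 1672938498, 2, 1675537097, 1,
  1677109005, 1, 1684502589, 1, 1697605074, 1, 1702747540, 1, 1716932646, 1, 1722256767, 2,
  1723633604, 1, 1727930490, 2, 1735548122, 2, 1743257516, 1, 1749047652, 2, 1757761775, 2,
  1758103620, 1, 1770256410, 2, 1774915362, 2, 1787186115, 1, 1789617258, 2, 1823417365, 1,
  1828217468, 2, 1838169060, 2, 1843848084, 2, 1866715158, 2, 1868575995, 1, 1879618719, 1,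
  1894323123, 2, 1923282284, 2, 1924870662, 1, 1925199510, 2, 1936576862, 2, 1939747810, 1,
  1945179236, 1, 1947118290, 2, 1951726854, 2, 1953156205, 1, 1983200076, 1, 1993928742, 1,
  2002785876, 2, 2010870092, 2, 2012530806, 1, 2012874630, 2, 2016630018, 2, 2018627260, 1,
  2020385444, 1, 2031383805, 1, 2031587635, 1, 2054717665, 2, 2061828054, 1, 2070422172, 2,
  2073516588, 1, 2083029641, 2, 2124107755, 2, 2124307692, 2, 2144623338, 1, 2148291145, 2,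
  2169040302, 1, 2173232740, 2, 2182934130, 1, 2184835422, 2, 2188100838, 2, 2199937971, 1,
  2203225959, 1, 2213012802, 1, 2220620675, 1, 2242291194, 1, 2254406924, 1, 2260212084, 1,
  2269990382, 1, 2280073796, 2, 2282346690, 2, 2284411635, 2, 2287748694, 2, 2292408482, 2,
  2309256950, 1, 2310239412, 1, 2327697372, 1, 2351107044, 2, 2353556828, 1, 2357074412, 1,
  2365822550, 2, 2365964667, 2, 2369825654, 2, 2371422130, 2, 2393141751, 2, 2414811308, 2,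
  2415449556, 1, 2424958540, 1, 2437905162, 2, 2443929180, 1, 2454757041, 2, 2465661198, 2,
  2473960797, 1, 2500952025, 1, 2511977545, 1, 2531176956, 1, 2542476222, 1, 2548929306, 2,
  2566548633, 2, 2572893050, 1, 2602185950, 1, 2608344970, 2, 2619520956, 2, 2646104230, 2,
  2646803610, 2, 2668727490, 2, 2690064650, 1, 2720408999, 2, 2738816028, 1, 2741129300, 2,
  2741293962, 1, 2745767444, 1, 2749598020, 1, 2771108340, 1, 2783324852, 2, 2786472975, 2,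
  2802940195, 2, 2805639655, 1, 2824867815, 2, 2832737778, 2, 2885949495, 2, 2890165278, 2,
  2910143379, 1, 2917337150, 2, 2924242090, 1, 2925715023, 2, 2944455745, 2, 2973402510, 2,
  3001142430, 2, 3007255290, 1, 3011648276, 1, 3014373054, 2, 3017377935, 1, 3087471660, 1,
  3108095900, 2, 3108282606, 2, 3113354972, 1, 3122623140, 2, 3125411289, 1, 3166988055, 1,
  3197693772, 2, 3202472988, 1, 3219797646, 2, 3220120722, 1, 3228077580, 2, 3242379621, 1,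
  3258087910, 1, 3262957390, 1, 3280609255, 1, 3285512395, 2, 3295181890, 1, 3311215215, 2,
  3317959645, 2, 3343767570, 1, 3363528234, 2, 3381837030, 1, 3406463830, 1, 3411555070, 1,
  3463139394, 2, 3465453332, 1, 3471127660, 2, 3496045410, 2, 3500804580, 1, 3502567926, 1,
  3510647140, 2, 3528546945, 2, 3552817961, 2, 3568720155, 2, 3601986180, 1, 3608706348, 2,
  3620853522, 1, 3629205580, 1, 3635472610, 2, 3640418012, 1, 3689239785, 2, 3689587044, 2,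
  3702279295, 2, 3718725010, 1, 3730576356, 2, 3731242515, 1, 3791411910, 2, 3801034930, 2,
  3826655613, 1, 3827309365, 2, 3844310470, 1, 3868274410, 1, 3942614874, 1, 3950777220, 1,
  3954218268, 1, 3964075830, 1, 3974137090, 1, 4012521084, 2, 4058204436, 1, 4062088052, 2,
  4070788722, 2, 4084199340, 1, 4087756596, 1, 4116012978, 1, 4183133955, 2, 4195254492, 1,
  4224258090, 2, 4230004428, 2, 4263525387, 2, 4309895590, 1, 4312066473, 2, 4339687495, 2,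
  4412235828, 1, 4416634170, 2, 4457689731, 1, 4477491018, 2, 4499598675, 1, 4549694292, 1,
  4561241916, 1, 4577363492, 2, 4613172564, 1, 4616551030, 2, 4627477778, 2, 4628700846, 2,
  4660701045, 2, 4724920893, 2, 4756890996, 1, 4801452630, 2, 4801934410, 1, 4808466572, 1,
  4835127505, 1, 4856605390, 1, 4868100314, 2, 4872953085, 2, 4873411764, 1, 4901750777, 2,
  4923524606, 2, 4937777075, 1, 5020618330, 2, 5058728675, 2, 5077779070, 1, 5089797482, 2,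
  5126822532, 1, 5171874708, 1, 5213401050, 1, 5230757532, 1, 5249261290, 2, 5269026070, 1,
  5297530315, 1, 5299961004, 1, 5365431812, 1, 5407406004, 1, 5458243700, 2, 5501497925, 2,
  5539861236, 2, 5563140180, 2, 5564133575, 1, 5605179580, 1, 5631501447, 2, 5656516866, 2,
  5697900285, 1, 5745667697, 2, 5802153006, 2, 5827926468, 2, 5847543702, 1, 5879337970, 1,
  5887964511, 2, 5911143865, 1, 5911341150, 1, 5957387205, 2, 6009489252, 1, 6024741996, 2,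
  6095777380, 2, 6137914090, 2, 6165179020, 1, 6170683827, 1, 6238006775, 1, 6254428180, 1,
  6256081260, 1, 6307901340, 1, 6357036378, 1, 6357674246, 1, 6373383940, 2, 6401621303, 1,
  6430057634, 2, 6430274565, 1, 6474505037, 2, 6479422092, 2, 6522090575, 1, 6586208850, 1,
  6601797510, 1, 6625131370, 1, 6647207798, 1, 6647432055, 1, 6676960290, 2, 6693156239, 1,
  6697665205, 2, 6801851980, 1, 6821335170, 1, 6831299748, 2, 6848869390, 1, 6878520714, 2,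
  6902448630, 1, 6911844940, 2, 6915326418, 2, 6950168225, 2, 7045934665, 1, 7093372638, 2,
  7093609380, 2, 7124881764, 1, 7131984210, 2, 7266684425, 1, 7346849796, 2, 7365496908, 1,
  7366812145, 1, 7387335774, 2, 7405070409, 1, 7485608130, 1, 7526103585, 2, 7537351965, 1,
  7629466482, 2, 7712444740, 2, 7742303217, 2, 7754167330, 2, 7765756570, 2, 7826508690, 2,
  7842450070, 1, 7903450620, 1, 7950157644, 1, 7976918466, 2, 7993432980, 1, 8063675620, 2,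
  8259008065, 1, 8263380060, 1, 8278796916, 1, 8340201870, 1, 8397569726, 2, 8397853035, 2,
  8435156730, 2, 8455617443, 2, 8513567139, 1, 8652333430, 2, 8720021310, 2, 8750841970, 1,
  8771554022, 2, 8780297955, 2, 8789713660, 1, 8819300490, 1, 8961519060, 2, 8984264380, 2,
  9031324302, 2, 9044822358, 1, 9086552020, 1, 9093752811, 2, 9117138030, 1, 9143194060, 1,
  9201896935, 1, 9305000796, 2, 9306662365, 1, 9318907884, 2, 9369633780, 1, 9393414940, 1,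
  9410940084, 2, 9479791090, 2, 9620958655, 2, 9621864252, 2, 9728757948, 1, 9781028829, 2,
  9843465940, 1, 9887407530, 2, 9979317579, 1, 10073138075, 2, 10077423642, 2, 10187025940, 1,
  10192157118, 2, 10257443170, 1, 10266723555, 1, 10281721142, 1, 10293125150, 1, 10337342939, 2,
  10501010364, 2, 10536357546, 1, 10577836390, 1, 10583160588, 2, 10635415050, 2, 10660587630, 1,
  10855641108, 2, 10937674748, 1, 10940565636, 1, 11016202470, 1, 11041168446, 1, 11118605421, 1,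
  11167994838, 2, 11223136925, 2, 11377780645, 2, 11506418924, 1, 11517889110, 1, 11545150386, 2,
  11545539885, 2, 11637421796, 2, 11671109450, 1, 11734247525, 1, 11895003428, 2, 11956995050, 2,
  11957713317, 2, 12030430412, 1, 12154377235, 2, 12255871540, 2, 12308931804, 2, 12322584300, 2,
  12435475780, 2, 12454061620, 2, 12521435290, 2, 12762498060, 1, 13003540550, 2, 13151588450, 1,
  13218116652, 1, 13310821602, 1, 13369948956, 2, 13595732150, 2, 13821466932, 1, 13896617020, 2,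
  13917007026, 1, 13971794590, 2, 13972260900, 1, 14033858020, 2, 14507796940, 1, 14585252682, 2,
  14585744745, 2, 14744379650, 1, 14859230155, 1, 14881438495, 2, 15025722348, 2, 15131104898, 1,
  15198318044, 2, 15198830790, 1, 15249991185, 2, 15303375542, 1, 15415850450, 1, 15483122980, 1,
  15604248660, 2, 15711582068, 1, 15712112130, 1, 15781906140, 2, 15794412777, 1, 15830845030, 2,
  16314878580, 2, 16345316988, 2, 16427670350, 1, 16450017220, 1, 16580376505, 1, 16654027390, 1,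
  16766153508, 1, 16769147395, 2, 17175799550, 2, 17216452330, 2, 17335460065, 1, 17412465070, 1,
  17502893694, 1, 17693255580, 1, 17788972110, 1, 17815559190, 1, 17831076186, 1, 17954332473, 1,
  18000503290, 1, 18033284412, 1, 18123130025, 2, 18299989422, 2, 18355424620, 2, 18499020540, 2,
  18854534556, 1, 19208060564, 1, 19521291790, 1, 19849470810, 1, 19896451806, 1, 19937643180, 2,
  20033984883, 1, 20122976874, 1, 20190712311, 2, 20610959460, 2, 20732764052, 1, 20753431530, 1,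
  20802552078, 1, 20845619340, 1, 20998127150, 2, 21346766532, 1, 21378671028, 1, 21494324826, 1,
  21549598980, 2, 21749938210, 2, 21900283405, 2, 21997565590, 1, 22202047637, 1, 22406778940, 1,
  22740447730, 2, 22741214925, 1, 22897639765, 2, 23118795414, 2, 23370235980, 2, 23587477914, 1,
  23809235450, 2, 23819364972, 2, 24090553188, 2, 24265982468, 2, 24302249972, 2, 24329204900, 2,
  24433719674, 1, 24904117836, 1, 25002158740, 2, 25197752580, 2, 25507388907, 2, 26097307236, 2,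
  26280340086, 1, 26397078708, 2, 26462001423, 2, 26527414550, 1, 26590201330, 2, 26892936070, 2,
  27288537276, 1, 27289457910, 2, 27384987812, 1, 27586258700, 1, 27735494150, 2, 27801140290, 1,
  28261988300, 2, 28263686022, 2, 28309809164, 1, 28728528010, 1, 28797496035, 1, 28995578843, 2,
  29670147430, 1, 29875240615, 2, 30108956955, 1, 30735641300, 2, 31021349590, 1, 31085572700, 1,
  31183840611, 2, 31832897460, 2, 32099763332, 1, 32128805478, 1, 32135366900, 1, 33282592980, 1,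
  34475396670, 2, 34795868481, 2, 34850351900, 1, 35121816730, 2, 35174309170, 2, 35924509140, 1,
  36045433710, 2, 36437464700, 1, 37137719580, 1, 37332248382, 1, 37418360980, 2, 38037334335, 1,
  39189980830, 1, 39364064740, 1, 39460879315, 2, 39636166570, 2, 39769584855, 1, 40693432780, 1,
  40974723790, 1, 41156735620, 1, 41370476004, 1, 42109503540, 1, 42146180076, 2, 42546644140, 2,
  42836489150, 1, 42937877290, 1, 43254520452, 2, 44899321775, 1, 45960318261, 1, 46141235140, 1,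
  47027976996, 2, 47563399884, 1, 47723501826, 2, 49169668548, 2, 49631936900, 1, 50360742201, 2,
  51764306230, 1, 51886825298, 2, 51994245940, 1, 52245489989, 2, 52477567142, 1, 53460956890, 2,
  53750149180, 2, 53751962550, 1, 54121693990, 1, 54249792674, 2, 54644425524, 2, 55752220524, 1,
  56276374700, 2, 56722340675, 1, 57357893580, 2, 59305521275, 2, 60290191962, 2, 62117167476, 1,
  62546548818, 1, 62849566780, 1, 63565121620, 2, 64502355060, 2, 65711786140, 2, 66805076052, 2,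
  68066808810, 1, 68535004538, 2, 68537316705, 1, 69008748809, 1, 70129439380, 2, 71166625530, 1,
  73323189940, 2, 73707259626, 2, 75099352405, 2, 75940812948, 2, 78519436765, 1, 81487301220, 2,
  82244780046, 2, 83139276220, 2, 83786884874, 1, 85198297860, 2, 88239859812, 1, 89906426610, 1,
  90742166823, 1, 91595278775, 2, 92630863780, 1, 93271169290, 1, 93685484620, 2, 94000836930, 1,
  96849347140, 1, 99195401305, 1, 100306849188, 2, 101489528140, 2, 106125669650, 1, 108633479526,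
  1, 111925403148, 2, 112801004316, 2, 119034481566, 2, 121270491265, 2, 122641587068, 1,
  124037885972, 1, 126362261740, 1, 127050093300, 1, 128226782684, 1, 134070987050, 1,
  135317266315, 1, 140176686650, 2, 142504090092, 2, 160885184460, 1, 161991828908, 2,
  161997294030, 1, 163111588094, 2, 166906302940, 1, 168212023980, 1, 174217159116, 2,
  177507560230, 2, 178734571015, 1, 185591395990, 1, 194396752836, 2, 198041727884, 2,
  212506099260, 1, 214481485218, 1, 216497931650, 2, 222183796380, 1, 234461857630, 1,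
  236641337009, 2, 250842491900, 1, 256770042516, 1, 281354229156, 2, 286639342990, 2,
  291883894484, 1, 316895060300, 1, 319840811290, 1, 331326713900, 2, 382902694980, 1,
  419563324180, 2, 422463531490, 1, 438670572340, 1, 506956237788, 1, 511722383900, 2,
  554182572580, 1, 559334069294, 2, 677511174340, 2, 755987372140, 1, 998550165340, 1,
  1322062345604, 2]

noncomputable def yL : PL := ofL yN PL.nil none

end Pool.Agent.MP_2042ac_al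

end

-- part MP_2042ac_al.Small
section

/-!
Certificate, small parts.
-/

set_option autoImplicit false
set_option maxRecDepth 100000

namespace Pool.Agent.MP_2042ac_al

def cT0 : HT :=
  .nil

def cT1 : HT :=
  (.nd 0 (.nd 0 (.nd 1 (.nd 2 (.nd 1 (.nd 3 (.nd 2 (.nd 2 (.nd 3 (.lf 1) .nil) .nil) (.nd 3 (.nd 2
  (.nd 2 (.lf 1) .nil) .nil) .nil)) .nil) .nil) (.nd 3 (.nd 1 (.nd 2 (.nd 3 (.nd 2 (.nd 2 (.lf 2)
  .nil) .nil) .nil) .nil) (.nd 2 (.nd 1 (.nd 3 (.nd 2 (.nd 2 (.lf 2) .nil) .nil) .nil) .nil) .nil))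
  .nil)) (.nd 2 (.nd 1 (.nd 2 (.nd 1 (.nd 3 (.nd 2 (.nd 3 (.lf 2) .nil) .nil) .nil) .nil) .nil)
  .nil) .nil)) .nil) .nil)

def cT2 : HT :=
  .nil

def cT3 : HT :=
  .nil

def cT4 : HT :=
  .nil

def cT5 : HT :=
  (.nd 0 (.nd 1 (.nd 1 (.nd 2 (.nd 3 (.nd 0 (.nd 1 (.nd 2 (.nd 2 (.nd 1 (.nd 3 (.lf 2) .nil) .nil)
  (.nd 3 (.nd 2 (.nd 1 (.lf 2) .nil) .nil) .nil)) (.nd 3 (.nd 2 (.nd 1 (.nd 2 (.lf 1) .nil) (.nd 2
  (.nd 1 (.lf 1) .nil) .nil)) .nil) .nil)) .nil) (.nd 1 (.nd 0 (.nd 2 (.nd 2 (.nd 1 (.nd 3 (.lf 1)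
  .nil) .nil) (.nd 3 (.nd 1 (.nd 2 (.lf 1) .nil) (.nd 2 (.nd 1 (.lf 2) .nil) .nil)) .nil)) (.nd 3
  (.nd 2 (.nd 1 (.nd 2 (.lf 1) .nil) (.nd 2 (.nd 1 (.lf 2) .nil) .nil)) .nil) .nil)) .nil) (.nd 2
  (.nd 1 (.nd 0 (.nd 3 (.nd 2 (.nd 1 (.lf 2) .nil) .nil) .nil) .nil) .nil) .nil))) .nil) (.nd 3
  (.nd 1 (.nd 0 (.nd 1 (.nd 2 (.nd 3 (.nd 2 (.nd 2 (.lf 1) .nil) .nil) .nil) .nil) (.nd 2 (.nd 1
  (.nd 2 (.nd 2 (.nd 3 (.lf 1) .nil) .nil) (.nd 3 (.nd 2 (.nd 2 (.lf 1) .nil) .nil) .nil)) .nil)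
  .nil)) (.nd 1 (.nd 2 (.nd 0 (.nd 3 (.nd 2 (.nd 2 (.lf 2) .nil) .nil) .nil) .nil) .nil) .nil))
  (.nd 2 (.nd 1 (.nd 2 (.nd 3 (.nd 0 (.nd 1 (.nd 2 (.lf 1) .nil) .nil) (.nd 1 (.nd 2 (.nd 0 (.lf 1)
  .nil) .nil) .nil)) .nil) (.nd 3 (.nd 2 (.nd 0 (.nd 1 (.nd 2 (.lf 2) .nil) .nil) (.nd 1 (.nd 2
  (.nd 0 (.lf 2) .nil) .nil) .nil)) .nil) .nil)) .nil) .nil)) .nil)) .nil) .nil) .nil)

def cT6 : HT :=
  (.nd 0 (.nd 0 (.nd 1 (.nd 2 (.nd 1 (.nd 2 (.nd 1 (.nd 3 (.nd 2 (.nd 2 (.nd 3 (.lf 2) .nil) .nil)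
  (.nd 3 (.nd 2 (.nd 2 (.lf 2) .nil) .nil) .nil)) .nil) .nil) (.nd 3 (.nd 1 (.nd 2 (.nd 3 (.nd 2
  (.nd 2 (.lf 2) .nil) .nil) .nil) .nil) (.nd 2 (.nd 1 (.nd 3 (.nd 2 (.nd 2 (.lf 1) .nil) .nil)
  .nil) .nil) .nil)) .nil)) .nil) (.nd 3 (.nd 2 (.nd 1 (.nd 1 (.nd 2 (.nd 3 (.nd 2 (.nd 2 (.lf 1)
  .nil) .nil) .nil) .nil) (.nd 2 (.nd 3 (.nd 2 (.nd 1 (.nd 2 (.lf 1) .nil) (.nd 2 (.nd 1 (.lf 2)
  .nil) .nil)) .nil) .nil) .nil)) (.nd 2 (.nd 1 (.nd 3 (.nd 2 (.nd 1 (.nd 2 (.lf 2) .nil) .nil)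
  .nil) .nil) .nil) .nil)) .nil) .nil)) (.nd 3 (.nd 2 (.nd 1 (.nd 2 (.nd 1 (.nd 3 (.nd 2 (.nd 1
  (.nd 2 (.lf 2) .nil) .nil) .nil) .nil) .nil) .nil) .nil) .nil) .nil)) .nil) .nil)

def cT7 : HT :=
  .nil

def cE : Fin 4 → HT := ![cT0, cT1, cT2, cT3]
def cF : Fin 4 → HT := ![cT4, cT5, cT6, cT7]

theorem cE_ok : ∀ i : Fin 4, (valT env0 (cE i) true).beq (app 3 (opE i) t0L true) = true := by
  decide +kernel

theorem cF_ok : ∀ i : Fin 4, (valT env0 (cF i) true).beq (app 3 (opF i) t0L true) = true := by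
  decide +kernel

theorem Qword_ok : (Qword t0L).beq (passM 243 1 81 yL PL.nil) = true := by decide +kernel

end Pool.Agent.MP_2042ac_al

end

-- part MP_2042ac_al.Chk
section

/-!
The operators of the chart are the restrictions of the Chevalley generators.
-/

set_option autoImplicit false

namespace Pool.Agent.MP_2042ac_al

open Matrix MvPolynomial

def vL (i : Fin 16) : PL := PL.cons (pr i) 1 PL.nil
def oneL : PL := PL.cons 1 1 PL.nil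

def AL : Matrix (Fin 4) (Fin 4) PL :=
  !![oneL, .nil, .nil, .nil; vL 0, oneL, .nil, .nil; vL 1, vL 3, oneL, .nil; vL 2, vL 4, vL 5, oneL]

def SL : Matrix (Fin 4) (Fin 4) PL :=
  !![vL 6, vL 7, vL 8, vL 9; vL 7, vL 10, vL 11, vL 12; vL 8, vL 11, vL 13, vL 14;
    vL 9, vL 12, vL 14, vL 15]

noncomputable section

def sum4 (f : Fin 4 → PL) : PL := addL 243 (addL 243 (addL 243 (f 0) (f 1)) (f 2)) (f 3)

def FL (a : Idx) (j : Fin 4) : PL :=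
  Sum.elim (fun i => AL i j) (fun i => sum4 fun l => mulL 243 (SL i l) (AL l j)) a

def zsm (z : ℤ) (a : PL) : PL := smulL 243 1 (z % 243).toNat a

def subL' (a b : PL) : PL := addL 243 a (smulL 243 1 242 b)

def chkOp (x : Mat ℤ) (o : OT) (B : Matrix (Fin 4) (Fin 4) PL) : Prop :=
  o.wf = true ∧ (∀ i j, j < i → (B i j).beq .nil = true) ∧
  (app 243 o oneL true).beq (addL 243 (addL 243 (addL 243 (smulL 243 1 5 (B 0 0))
    (smulL 243 1 4 (B 1 1))) (smulL 243 1 3 (B 2 2))) (B 3 3)) = true ∧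
  ∀ a j, (addL 243 (addL 243 (sum4 fun b => zsm (x (.inl b) a) (FL (.inl b) j))
      (sum4 fun b => zsm (x (.inr b) a) (FL (.inr b) j))) (mulL 243 (app 243 o oneL true) (FL a j))).beq
    (addL 243 (app 243 o (FL a j) true) (sum4 fun l => mulL 243 (FL a l) (B l j))) = true

def det2 (a b : Idx) (i j : Fin 4) : PL :=
  subL' (mulL 243 (FL a i) (FL b j)) (mulL 243 (FL a j) (FL b i))

def det3 (a b c : Idx) (i j l : Fin 4) : PL :=
  addL 243 (subL' (mulL 243 (FL a i) (det2 b c j l)) (mulL 243 (FL a j) (det2 b c i l)))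
    (mulL 243 (FL a l) (det2 b c i j))

def det4 (a b c d : Idx) : PL :=
  subL' (addL 243 (subL' (mulL 243 (FL a 0) (det3 b c d 1 2 3)) (mulL 243 (FL a 1) (det3 b c d 0 2 3)))
    (mulL 243 (FL a 2) (det3 b c d 0 1 3))) (mulL 243 (FL a 3) (det3 b c d 0 1 2))

def t0C : PL :=
  subL' (mulL 243 (mulL 243 (mulL 243 (mulL 243 (det4 (ix 0) (ix 1) (ix 2) (ix 5))
      (det3 (ix 0) (ix 1) (ix 2) 0 1 2)) (det3 (ix 2) (ix 3) (ix 7) 0 1 2))
      (det2 (ix 0) (ix 1) 0 1)) (FL (ix 1) 0))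
    (mulL 243 (mulL 243 (mulL 243 (mulL 243 (det4 (ix 1) (ix 2) (ix 3) (ix 7))
      (det3 (ix 0) (ix 1) (ix 2) 0 1 2)) (det3 (ix 2) (ix 3) (ix 7) 0 1 2))
      (det2 (ix 0) (ix 1) 0 1)) (FL (ix 0) 0))

instance (x : Mat ℤ) (o : OT) (B : Matrix (Fin 4) (Fin 4) PL) : Decidable (chkOp x o B) := by
  unfold chkOp; infer_instance

end

theorem t0C_ok : t0C.beq t0L = true := by decide +kernel

theorem chkE : ∀ i : Fin 4, chkOp (eZ i) (opE i) (![Be1, Be2, Be3, Be4] i) := by decide +kernel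

theorem chkF : ∀ i : Fin 4, chkOp (fZ i) (opF i) (![Bf1, Bf2, Bf3, Bf4] i) := by decide +kernel

variable {K : Type} [CommRing K]

theorem sem_vL (i : Fin 16) : sem K (vL i) = X i := by simp [vL, mon_pr]

theorem sem_oneL : sem K oneL = 1 := by simp [oneL, mon_one]

theorem sem_AL (i j : Fin 4) : sem K (AL i j) = AM K i j := by
  fin_cases i <;> fin_cases j <;> simp [AL, AM, sem_vL, sem_oneL]

theorem sem_SL (i j : Fin 4) : sem K (SL i j) = SM K i j := by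
  fin_cases i <;> fin_cases j <;> simp [SL, SM, sem_vL]

variable (hK : ((243 : ℕ) : K) = 0)
include hK

theorem sem_sum4 (f : Fin 4 → PL) : sem K (sum4 f) = ∑ i, sem K (f i) := by
  simp only [sum4, sem_addL hK, Fin.sum_univ_four]

theorem sem_FL (a : Idx) (j : Fin 4) : sem K (FL a j) = FR K a j := by
  rcases a with a | a
  · exact sem_AL a j
  · change sem K (sum4 fun l => mulL 243 (SL a l) (AL l j)) = (SM K * AM K) a j
    simp only [sem_sum4 hK, sem_mulL hK, sem_AL, sem_SL, Matrix.mul_apply]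

theorem cast_243 : (243 : QX K) = 0 := by
  have := congrArg (C : K →+* QX K) hK
  rw [map_natCast, map_zero] at this
  exact_mod_cast this

theorem sem_zsm (z : ℤ) (a : PL) : sem K (zsm z a) = (z : QX K) * sem K a := by
  rw [zsm, sem_smulL hK, mon_one, mul_one]
  congr 1
  rw [← Int.cast_natCast, Int.toNat_of_nonneg (Int.emod_nonneg _ (by norm_num))]
  conv_rhs => rw [← Int.emod_add_mul_ediv z 243]
  push_cast
  rw [cast_243 hK]; simp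

theorem sem_subL' (a b : PL) : sem K (subL' a b) = sem K a - sem K b := by
  rw [subL', sem_addL hK, sem_smulL hK, mon_one]
  push_cast
  linear_combination (sem K b) * cast_243 hK

theorem op_sound {x : Mat ℤ} {o : OT} {B : Matrix (Fin 4) (Fin 4) PL} (h : chkOp x o B)
    {ψ : PX K} (hψ : ψ ∈ E0 K) :
    resQ K (der (cst K x) ψ) = o.derS K (resQ K ψ) + o.mulS K * resQ K ψ := by
  obtain ⟨hw, h1, h2, h3⟩ := h
  have e1 : sem K (app 243 o oneL true) = o.mulS K := by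
    rw [sem_app hK o hw, sem_oneL]; simp
  rw [resQ_der (cst K x) (o.derS K) (B.map (sem K))
    (fun i j hij => by rw [Matrix.map_apply, PL.eq_of_beq _ _ (h1 i j hij), sem_nil]) ?_ hψ]
  · congr 2
    have := congrArg (sem K) (PL.eq_of_beq _ _ h2)
    simp only [e1, sem_addL hK, sem_smulL hK, mon_one, mul_one] at this
    rw [this]
    simp only [Matrix.map_apply]
    push_cast
    rfl
  · refine Matrix.ext fun a j => ?_
    have := congrArg (sem K) (PL.eq_of_beq _ _ (h3 a j))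
    simp only [e1, sem_addL hK, sem_sum4 hK, sem_zsm hK, sem_mulL hK, sem_app hK o hw,
      sem_FL hK] at this
    change ∑ b, C (cst K x b a) * FR K b j = _
    simp only [Matrix.mul_apply, Matrix.add_apply, Matrix.map_apply, cst_apply,
      Fintype.sum_sum_type, map_intCast]
    linear_combination this

theorem app_sound {M : ℕ} (hM : (M : K) = 0) {x : Mat ℤ} {o : OT} {B : Matrix (Fin 4) (Fin 4) PL}
    (h : chkOp x o B) {ψ : PX K} (hψ : ψ ∈ E0 K) {l : PL} (hl : resQ K ψ = sem K l) (dir : Bool) :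
    resQ K (der (cst K x) ψ) = sem K (app M o l dir) := by
  rw [op_sound hK h hψ, sem_app hM o h.1, hl]

theorem resQ_t0P : resQ K (t0P K) = sem K t0L := by
  rw [← PL.eq_of_beq _ _ t0C_ok]
  simp only [t0C, det4, det3, det2, sem_subL' hK, sem_addL hK, sem_mulL hK, sem_FL hK]
  simp only [t0P, map_sub, map_mul, resQ, evF_mnr]
  generalize FR K = Y
  generalize ix 0 = i0
  generalize ix 1 = i1
  generalize ix 2 = i2
  generalize ix 3 = i3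
  generalize ix 5 = i5
  generalize ix 7 = i7
  have d4 : ∀ a b c d : Idx, det (of fun (i j : Fin 4) => Y (![a, b, c, d] i) (Fin.castLE (by omega) j))
      = Y a 0 * (Y b 1 * (Y c 2 * Y d 3 - Y c 3 * Y d 2) - Y b 2 * (Y c 1 * Y d 3 - Y c 3 * Y d 1)
          + Y b 3 * (Y c 1 * Y d 2 - Y c 2 * Y d 1))
        - Y a 1 * (Y b 0 * (Y c 2 * Y d 3 - Y c 3 * Y d 2) - Y b 2 * (Y c 0 * Y d 3 - Y c 3 * Y d 0)
          + Y b 3 * (Y c 0 * Y d 2 - Y c 2 * Y d 0))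
        + Y a 2 * (Y b 0 * (Y c 1 * Y d 3 - Y c 3 * Y d 1) - Y b 1 * (Y c 0 * Y d 3 - Y c 3 * Y d 0)
          + Y b 3 * (Y c 0 * Y d 1 - Y c 1 * Y d 0))
        - Y a 3 * (Y b 0 * (Y c 1 * Y d 2 - Y c 2 * Y d 1) - Y b 1 * (Y c 0 * Y d 2 - Y c 2 * Y d 0)
          + Y b 2 * (Y c 0 * Y d 1 - Y c 1 * Y d 0)) := by
    intro a b c d
    simp [det_succ_row_zero, Fin.sum_univ_succ, Fin.succAbove]
    ring
  have d3 : ∀ a b c : Idx, det (of fun (i j : Fin 3) => Y (![a, b, c] i) (Fin.castLE (by omega) j))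
      = Y a 0 * (Y b 1 * Y c 2 - Y b 2 * Y c 1) - Y a 1 * (Y b 0 * Y c 2 - Y b 2 * Y c 0)
        + Y a 2 * (Y b 0 * Y c 1 - Y b 1 * Y c 0) := by
    intro a b c
    simp [det_fin_three]
    ring
  have d2 : ∀ a b : Idx, det (of fun (i j : Fin 2) => Y (![a, b] i) (Fin.castLE (by omega) j))
      = Y a 0 * Y b 1 - Y a 1 * Y b 0 := by
    intro a b
    simp [det_fin_two]
  have d1 : ∀ a : Idx, det (of fun (i j : Fin 1) => Y (![a] i) (Fin.castLE (by omega) j))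
      = Y a 0 := by
    intro a
    simp
  rw [d4, d4, d3, d3, d2, d1, d1]

end Pool.Agent.MP_2042ac_al

end

-- part MP_2042ac_al.Sub1
section

/-!
Certificate, part 1.
-/

set_option autoImplicit false
set_option maxRecDepth 100000

namespace Pool.Agent.MP_2042ac_al

def sT1 : HT :=
  (.nd 2 (.nd 3 (.nd 1 (.nd 2 (.nd 2 (.nd 3 (.nd 2 (.nd 0 (.nd 0 (.nd 1 (.nd 3 (.nd 2 (.nd 1 (.nd 2
  (.nd 3 (.nd 2 (.nd 3 (.nd 1 (.nd 2 (.lf 2) .nil) (.nd 2 (.nd 1 (.lf 2) .nil) .nil)) .nil) (.nd 3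
  (.nd 2 (.nd 1 (.nd 2 (.lf 1) .nil) .nil) .nil) .nil)) .nil) (.nd 3 (.nd 1 (.nd 2 (.nd 3 (.nd 2
  (.nd 2 (.lf 2) .nil) .nil) .nil) .nil) (.nd 2 (.nd 1 (.nd 3 (.nd 2 (.nd 2 (.lf 1) .nil) .nil)
  .nil) .nil) .nil)) .nil)) .nil) (.nd 3 (.nd 2 (.nd 1 (.nd 1 (.nd 2 (.nd 3 (.nd 2 (.nd 2 (.lf 1)
  .nil) .nil) .nil) .nil) (.nd 2 (.nd 2 (.nd 3 (.nd 2 (.nd 1 (.lf 1) .nil) .nil) .nil) (.nd 3 (.nd
  2 (.nd 1 (.nd 2 (.lf 2) .nil) (.nd 2 (.nd 1 (.lf 1) .nil) .nil)) .nil) .nil)) .nil)) (.nd 2 (.nd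
  1 (.nd 3 (.nd 2 (.nd 1 (.nd 2 (.lf 1) .nil) .nil) .nil) .nil) .nil) .nil)) .nil) .nil)) .nil)
  .nil) (.nd 1 (.nd 0 (.nd 3 (.nd 2 (.nd 1 (.nd 2 (.nd 3 (.nd 2 (.nd 2 (.nd 1 (.nd 3 (.lf 2) .nil)
  .nil) (.nd 3 (.nd 1 (.nd 2 (.lf 2) .nil) (.nd 2 (.nd 1 (.lf 2) .nil) .nil)) .nil)) (.nd 3 (.nd 2
  (.nd 2 (.nd 1 (.lf 2) .nil) .nil) .nil) .nil)) .nil) (.nd 3 (.nd 2 (.nd 1 (.nd 3 (.nd 2 (.nd 2
  (.lf 2) .nil) .nil) .nil) .nil) .nil) .nil)) (.nd 2 (.nd 1 (.nd 3 (.nd 2 (.nd 1 (.nd 2 (.nd 3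
  (.lf 2) .nil) .nil) .nil) .nil) .nil) .nil) .nil)) (.nd 3 (.nd 2 (.nd 1 (.nd 1 (.nd 2 (.nd 3 (.nd
  2 (.nd 2 (.lf 1) .nil) .nil) .nil) .nil) (.nd 2 (.nd 3 (.nd 2 (.nd 1 (.nd 2 (.lf 1) .nil) (.nd 2
  (.nd 1 (.lf 2) .nil) .nil)) .nil) .nil) .nil)) (.nd 2 (.nd 1 (.nd 3 (.nd 2 (.nd 1 (.nd 2 (.lf 2)
  .nil) .nil) .nil) .nil) .nil) .nil)) .nil) .nil)) .nil) (.nd 2 (.nd 1 (.nd 2 (.nd 0 (.nd 3 (.nd 2
  (.nd 1 (.nd 3 (.nd 2 (.nd 3 (.lf 1) .nil) .nil) .nil) .nil) .nil) .nil) .nil) .nil) .nil) .nil))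
  .nil)) (.nd 1 (.nd 0 (.nd 3 (.nd 2 (.nd 2 (.nd 3 (.nd 0 (.nd 1 (.nd 2 (.nd 1 (.nd 2 (.nd 3 (.lf
  2) .nil) .nil) .nil) (.nd 3 (.nd 2 (.nd 1 (.nd 2 (.lf 2) .nil) (.nd 2 (.nd 1 (.lf 1) .nil) .nil))
  .nil) .nil)) .nil) (.nd 1 (.nd 0 (.nd 1 (.nd 2 (.nd 2 (.nd 3 (.lf 2) .nil) .nil) (.nd 3 (.nd 2
  (.nd 2 (.lf 1) .nil) .nil) .nil)) (.nd 2 (.nd 3 (.nd 1 (.nd 2 (.lf 2) .nil) (.nd 2 (.nd 1 (.lf 1)
  .nil) .nil)) .nil) .nil)) .nil) (.nd 2 (.nd 1 (.nd 0 (.nd 2 (.nd 1 (.nd 3 (.lf 1) .nil) .nil)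
  (.nd 3 (.nd 2 (.nd 1 (.lf 1) .nil) .nil) .nil)) .nil) .nil) .nil))) .nil) (.nd 3 (.nd 0 (.nd 1
  (.nd 2 (.nd 2 (.nd 1 (.nd 2 (.nd 3 (.lf 1) .nil) .nil) (.nd 2 (.nd 1 (.nd 3 (.lf 1) .nil) .nil)
  .nil)) .nil) .nil) .nil) (.nd 1 (.nd 0 (.nd 1 (.nd 2 (.nd 3 (.nd 2 (.nd 2 (.lf 2) .nil) .nil)
  .nil) .nil) (.nd 2 (.nd 1 (.nd 3 (.nd 2 (.nd 2 (.lf 1) .nil) .nil) .nil) (.nd 2 (.nd 3 (.nd 2
  (.nd 1 (.lf 2) .nil) .nil) .nil) .nil)) .nil)) .nil) .nil)) .nil)) (.nd 3 (.nd 2 (.nd 0 (.nd 1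
  (.nd 1 (.nd 2 (.nd 3 (.nd 2 (.nd 2 (.lf 1) .nil) .nil) .nil) .nil) (.nd 2 (.nd 2 (.nd 3 (.nd 2
  (.nd 1 (.lf 2) .nil) .nil) .nil) (.nd 3 (.nd 2 (.nd 1 (.nd 2 (.lf 2) .nil) .nil) .nil) .nil))
  .nil)) .nil) (.nd 1 (.nd 0 (.nd 2 (.nd 2 (.nd 3 (.nd 2 (.nd 1 (.lf 1) .nil) .nil) .nil) (.nd 3
  (.nd 2 (.nd 1 (.nd 2 (.lf 1) .nil) .nil) .nil) .nil)) .nil) .nil) (.nd 2 (.nd 1 (.nd 0 (.nd 3
  (.nd 2 (.nd 1 (.nd 2 (.lf 1) .nil) .nil) .nil) .nil) .nil) .nil) .nil))) (.nd 3 (.nd 2 (.nd 1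
  (.nd 0 (.nd 2 (.nd 2 (.nd 1 (.nd 2 (.lf 2) .nil) (.nd 2 (.nd 1 (.lf 2) .nil) .nil)) .nil) .nil)
  .nil) .nil) .nil) .nil)) .nil)) .nil) .nil) .nil)) (.nd 3 (.nd 0 (.nd 1 (.nd 1 (.nd 2 (.nd 0 (.nd
  2 (.nd 2 (.nd 1 (.nd 3 (.nd 2 (.nd 2 (.nd 3 (.lf 2) .nil) .nil) .nil) .nil) .nil) (.nd 3 (.nd 1
  (.nd 2 (.nd 3 (.nd 2 (.nd 2 (.lf 1) .nil) .nil) .nil) .nil) (.nd 2 (.nd 1 (.nd 3 (.nd 2 (.nd 2
  (.lf 1) .nil) .nil) .nil) .nil) .nil)) .nil)) (.nd 3 (.nd 2 (.nd 1 (.nd 2 (.nd 3 (.nd 2 (.nd 2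
  (.lf 1) .nil) .nil) .nil) .nil) (.nd 2 (.nd 1 (.nd 3 (.nd 2 (.nd 2 (.lf 2) .nil) .nil) .nil)
  .nil) .nil)) .nil) .nil)) (.nd 1 (.nd 0 (.nd 2 (.nd 2 (.nd 3 (.nd 2 (.nd 2 (.nd 3 (.lf 2) .nil)
  .nil) .nil) .nil) .nil) (.nd 3 (.nd 2 (.nd 2 (.nd 3 (.nd 2 (.nd 2 (.lf 1) .nil) .nil) .nil) .nil)
  .nil) .nil)) .nil) .nil)) .nil) (.nd 2 (.nd 0 (.nd 2 (.nd 1 (.nd 2 (.nd 3 (.nd 2 (.nd 1 (.nd 2
  (.nd 3 (.lf 1) .nil) .nil) .nil) .nil) .nil) (.nd 3 (.nd 2 (.nd 1 (.nd 3 (.nd 2 (.nd 2 (.lf 2)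
  .nil) .nil) .nil) .nil) .nil) .nil)) (.nd 2 (.nd 1 (.nd 3 (.nd 2 (.nd 1 (.nd 2 (.nd 3 (.lf 1)
  .nil) .nil) .nil) .nil) .nil) .nil) .nil)) (.nd 3 (.nd 2 (.nd 1 (.nd 2 (.nd 3 (.nd 2 (.nd 1 (.nd
  2 (.lf 2) .nil) (.nd 2 (.nd 1 (.lf 1) .nil) .nil)) .nil) .nil) .nil) (.nd 2 (.nd 1 (.nd 3 (.nd 2
  (.nd 1 (.nd 2 (.lf 1) .nil) .nil) .nil) .nil) .nil) .nil)) .nil) .nil)) (.nd 1 (.nd 0 (.nd 2 (.nd
  2 (.nd 3 (.nd 2 (.nd 1 (.nd 2 (.nd 3 (.lf 1) .nil) .nil) .nil) .nil) .nil) .nil) .nil) .nil)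
  .nil)) .nil)) .nil) (.nd 1 (.nd 0 (.nd 1 (.nd 0 (.nd 2 (.nd 1 (.nd 3 (.nd 2 (.nd 2 (.nd 3 (.nd 2
  (.nd 2 (.lf 1) .nil) .nil) .nil) .nil) .nil) .nil) (.nd 2 (.nd 3 (.nd 2 (.nd 1 (.nd 3 (.nd 2 (.nd
  2 (.lf 2) .nil) .nil) .nil) .nil) .nil) .nil) .nil)) .nil) .nil) .nil) .nil) .nil)) .nil)) .nil)
  (.nd 3 (.nd 2 (.nd 2 (.nd 0 (.nd 3 (.nd 0 (.nd 1 (.nd 1 (.nd 2 (.nd 2 (.nd 3 (.nd 2 (.nd 1 (.nd 2
  (.nd 3 (.lf 1) .nil) .nil) .nil) .nil) .nil) (.nd 3 (.nd 2 (.nd 1 (.nd 3 (.nd 2 (.nd 2 (.lf 2)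
  .nil) .nil) .nil) .nil) .nil) .nil)) (.nd 3 (.nd 2 (.nd 1 (.nd 2 (.nd 3 (.nd 2 (.nd 2 (.lf 2)
  .nil) .nil) .nil) .nil) .nil) .nil) .nil)) (.nd 2 (.nd 1 (.nd 2 (.nd 1 (.nd 2 (.nd 3 (.nd 2 (.nd
  3 (.lf 1) .nil) .nil) .nil) .nil) .nil) (.nd 3 (.nd 2 (.nd 1 (.nd 3 (.nd 2 (.nd 2 (.lf 1) .nil)
  .nil) .nil) .nil) .nil) .nil)) .nil) .nil)) (.nd 2 (.nd 1 (.nd 2 (.nd 1 (.nd 3 (.nd 2 (.nd 1 (.nd
  2 (.nd 3 (.lf 2) .nil) .nil) .nil) .nil) .nil) .nil) .nil) .nil) .nil)) (.nd 1 (.nd 0 (.nd 2 (.nd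
  1 (.nd 3 (.nd 2 (.nd 2 (.nd 2 (.nd 1 (.nd 3 (.lf 1) .nil) .nil) (.nd 3 (.nd 1 (.nd 2 (.lf 2)
  .nil) (.nd 2 (.nd 1 (.lf 1) .nil) .nil)) .nil)) (.nd 3 (.nd 2 (.nd 1 (.nd 2 (.lf 1) .nil) (.nd 2
  (.nd 1 (.lf 1) .nil) .nil)) .nil) .nil)) .nil) .nil) (.nd 2 (.nd 1 (.nd 3 (.nd 2 (.nd 1 (.nd 2
  (.nd 3 (.lf 1) .nil) .nil) .nil) .nil) .nil) .nil) .nil)) (.nd 3 (.nd 2 (.nd 1 (.nd 2 (.nd 2 (.nd
  3 (.nd 2 (.nd 1 (.lf 1) .nil) .nil) .nil) (.nd 3 (.nd 2 (.nd 1 (.nd 2 (.lf 2) .nil) (.nd 2 (.nd 1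
  (.lf 1) .nil) .nil)) .nil) .nil)) .nil) (.nd 2 (.nd 1 (.nd 3 (.nd 2 (.nd 1 (.nd 2 (.lf 1) .nil)
  .nil) .nil) .nil) .nil) .nil)) .nil) .nil)) (.nd 1 (.nd 2 (.nd 1 (.nd 2 (.nd 0 (.nd 3 (.nd 2 (.nd
  2 (.nd 3 (.lf 2) .nil) .nil) .nil) .nil) .nil) .nil) .nil) .nil) .nil)) .nil)) .nil) (.nd 1 (.nd
  0 (.nd 2 (.nd 2 (.nd 1 (.nd 0 (.nd 1 (.nd 3 (.nd 2 (.nd 3 (.nd 2 (.nd 3 (.lf 1) .nil) .nil) .nil)
  .nil) .nil) .nil) .nil) .nil) .nil) (.nd 3 (.nd 1 (.nd 0 (.nd 1 (.nd 3 (.nd 2 (.nd 2 (.nd 3 (.nd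
  2 (.nd 2 (.lf 1) .nil) .nil) .nil) .nil) .nil) .nil) (.nd 2 (.nd 1 (.nd 2 (.nd 3 (.nd 2 (.nd 2
  (.nd 3 (.lf 1) .nil) .nil) .nil) .nil) .nil) (.nd 2 (.nd 3 (.nd 2 (.nd 1 (.nd 2 (.nd 3 (.lf 2)
  .nil) .nil) .nil) .nil) .nil) .nil)) .nil)) .nil) (.nd 2 (.nd 1 (.nd 0 (.nd 2 (.nd 1 (.nd 3 (.nd
  2 (.nd 2 (.nd 3 (.lf 1) .nil) .nil) .nil) .nil) .nil) .nil) .nil) .nil) .nil)) .nil)) .nil)
  .nil)) (.nd 3 (.nd 2 (.nd 1 (.nd 0 (.nd 2 (.nd 1 (.nd 0 (.nd 3 (.nd 1 (.nd 2 (.nd 3 (.nd 2 (.nd 2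
  (.lf 2) .nil) .nil) .nil) .nil) (.nd 2 (.nd 2 (.nd 1 (.nd 2 (.nd 3 (.lf 2) .nil) .nil) (.nd 2
  (.nd 1 (.nd 3 (.lf 2) .nil) .nil) .nil)) (.nd 3 (.nd 2 (.nd 1 (.nd 2 (.lf 2) .nil) .nil) .nil)
  .nil)) .nil)) .nil) (.nd 2 (.nd 1 (.nd 0 (.nd 3 (.nd 2 (.nd 2 (.nd 3 (.lf 2) .nil) .nil) (.nd 3
  (.nd 2 (.nd 2 (.lf 2) .nil) .nil) .nil)) .nil) .nil) .nil) .nil)) (.nd 2 (.nd 3 (.nd 0 (.nd 1
  (.nd 2 (.nd 2 (.nd 1 (.nd 3 (.lf 1) .nil) .nil) (.nd 3 (.nd 1 (.nd 2 (.lf 2) .nil) (.nd 2 (.nd 1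
  (.lf 2) .nil) .nil)) .nil)) (.nd 3 (.nd 2 (.nd 1 (.nd 2 (.lf 2) .nil) (.nd 2 (.nd 1 (.lf 1) .nil)
  .nil)) .nil) .nil)) .nil) (.nd 2 (.nd 1 (.nd 2 (.nd 1 (.nd 0 (.nd 3 (.lf 2) .nil) .nil) .nil)
  .nil) .nil) .nil)) .nil) .nil)) (.nd 3 (.nd 2 (.nd 2 (.nd 0 (.nd 1 (.nd 2 (.nd 2 (.nd 1 (.nd 3
  (.lf 2) .nil) .nil) (.nd 3 (.nd 1 (.nd 2 (.lf 1) .nil) (.nd 2 (.nd 1 (.lf 2) .nil) .nil)) .nil))
  (.nd 3 (.nd 2 (.nd 1 (.nd 2 (.lf 2) .nil) (.nd 2 (.nd 1 (.lf 2) .nil) .nil)) .nil) .nil)) .nil)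
  (.nd 1 (.nd 0 (.nd 2 (.nd 2 (.nd 1 (.nd 3 (.lf 2) .nil) .nil) (.nd 3 (.nd 1 (.nd 2 (.lf 1) .nil)
  (.nd 2 (.nd 1 (.lf 2) .nil) .nil)) .nil)) (.nd 3 (.nd 2 (.nd 1 (.nd 2 (.lf 2) .nil) .nil) .nil)
  .nil)) .nil) .nil)) (.nd 3 (.nd 2 (.nd 2 (.nd 1 (.nd 0 (.nd 1 (.nd 2 (.lf 1) .nil) (.nd 2 (.nd 1
  (.lf 1) .nil) .nil)) (.nd 1 (.nd 2 (.nd 0 (.lf 1) .nil) .nil) .nil)) .nil) .nil) .nil) .nil))
  .nil) .nil)) .nil) (.nd 2 (.nd 0 (.nd 1 (.nd 2 (.nd 3 (.nd 0 (.nd 1 (.nd 2 (.nd 2 (.nd 1 (.nd 3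
  (.lf 2) .nil) .nil) (.nd 3 (.nd 1 (.nd 2 (.lf 2) .nil) (.nd 2 (.nd 1 (.lf 2) .nil) .nil)) .nil))
  .nil) .nil) (.nd 1 (.nd 0 (.nd 1 (.nd 2 (.nd 2 (.nd 3 (.lf 1) .nil) .nil) (.nd 3 (.nd 2 (.nd 2
  (.lf 2) .nil) .nil) .nil)) (.nd 2 (.nd 3 (.nd 2 (.nd 1 (.lf 1) .nil) .nil) .nil) .nil)) .nil)
  (.nd 2 (.nd 1 (.nd 0 (.nd 2 (.nd 1 (.nd 3 (.lf 1) .nil) .nil) (.nd 3 (.nd 2 (.nd 1 (.lf 1) .nil)
  .nil) .nil)) .nil) .nil) .nil))) .nil) (.nd 3 (.nd 1 (.nd 0 (.nd 2 (.nd 1 (.nd 2 (.nd 2 (.nd 3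
  (.lf 2) .nil) .nil) (.nd 3 (.nd 2 (.nd 2 (.lf 2) .nil) .nil) .nil)) (.nd 3 (.nd 2 (.nd 1 (.nd 2
  (.lf 2) .nil) .nil) .nil) .nil)) (.nd 3 (.nd 2 (.nd 2 (.nd 1 (.nd 2 (.lf 1) .nil) (.nd 2 (.nd 1
  (.lf 1) .nil) .nil)) .nil) .nil) .nil)) (.nd 1 (.nd 2 (.nd 0 (.nd 3 (.nd 2 (.nd 2 (.lf 2) .nil)
  .nil) .nil) .nil) .nil) .nil)) (.nd 2 (.nd 1 (.nd 0 (.nd 1 (.nd 2 (.nd 2 (.nd 3 (.lf 1) .nil)
  .nil) (.nd 3 (.nd 2 (.nd 2 (.lf 2) .nil) .nil) .nil)) .nil) (.nd 1 (.nd 0 (.nd 2 (.nd 2 (.nd 3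
  (.lf 1) .nil) .nil) (.nd 3 (.nd 2 (.nd 2 (.lf 2) .nil) .nil) .nil)) .nil) .nil)) .nil) .nil))
  .nil)) .nil) .nil) (.nd 3 (.nd 2 (.nd 1 (.nd 0 (.nd 1 (.nd 0 (.nd 1 (.nd 2 (.nd 3 (.nd 2 (.nd 2
  (.lf 2) .nil) .nil) .nil) .nil) .nil) .nil) (.nd 2 (.nd 1 (.nd 3 (.nd 2 (.nd 1 (.nd 2 (.nd 0 (.lf
  1) .nil) .nil) .nil) .nil) .nil) .nil) .nil)) .nil) (.nd 2 (.nd 0 (.nd 0 (.nd 1 (.nd 1 (.nd 2
  (.nd 1 (.nd 2 (.nd 3 (.lf 2) .nil) .nil) .nil) (.nd 3 (.nd 2 (.nd 1 (.nd 2 (.lf 2) .nil) .nil)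
  .nil) .nil)) .nil) .nil) .nil) .nil) .nil)) .nil) .nil))) (.nd 3 (.nd 2 (.nd 1 (.nd 0 (.nd 1 (.nd
  0 (.nd 2 (.nd 1 (.nd 2 (.nd 3 (.nd 2 (.nd 2 (.lf 1) .nil) .nil) .nil) .nil) (.nd 2 (.nd 3 (.nd 2
  (.nd 1 (.nd 2 (.lf 2) .nil) .nil) .nil) .nil) .nil)) .nil) .nil) (.nd 2 (.nd 1 (.nd 2 (.nd 0 (.nd
  1 (.nd 2 (.nd 2 (.nd 3 (.lf 2) .nil) .nil) (.nd 3 (.nd 2 (.nd 2 (.lf 1) .nil) .nil) .nil)) (.nd 3
  (.nd 2 (.nd 1 (.nd 2 (.lf 1) .nil) .nil) .nil) .nil)) (.nd 1 (.nd 2 (.nd 2 (.nd 0 (.nd 3 (.lf 2)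
  .nil) .nil) .nil) .nil) .nil)) .nil) (.nd 2 (.nd 0 (.nd 1 (.nd 2 (.nd 2 (.nd 1 (.nd 3 (.lf 1)
  .nil) .nil) (.nd 3 (.nd 1 (.nd 2 (.lf 2) .nil) (.nd 2 (.nd 1 (.lf 2) .nil) .nil)) .nil)) (.nd 3
  (.nd 2 (.nd 1 (.nd 2 (.lf 1) .nil) (.nd 2 (.nd 1 (.lf 1) .nil) .nil)) .nil) .nil)) .nil) .nil)
  .nil)) .nil)) .nil) (.nd 2 (.nd 0 (.nd 0 (.nd 1 (.nd 2 (.nd 1 (.nd 1 (.nd 2 (.nd 2 (.nd 3 (.lf 2)
  .nil) .nil) (.nd 3 (.nd 2 (.nd 2 (.lf 1) .nil) .nil) .nil)) (.nd 2 (.nd 3 (.nd 1 (.nd 2 (.lf 2)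
  .nil) (.nd 2 (.nd 1 (.lf 1) .nil) .nil)) .nil) .nil)) .nil) .nil) .nil) .nil) .nil) .nil)) .nil)
  .nil)) .nil)) (.nd 3 (.nd 0 (.nd 2 (.nd 1 (.nd 1 (.nd 2 (.nd 0 (.nd 2 (.nd 2 (.nd 1 (.nd 3 (.nd 2
  (.nd 2 (.nd 3 (.lf 2) .nil) .nil) .nil) .nil) .nil) (.nd 3 (.nd 1 (.nd 2 (.nd 3 (.nd 2 (.nd 2
  (.lf 1) .nil) .nil) .nil) .nil) (.nd 2 (.nd 1 (.nd 3 (.nd 2 (.nd 2 (.lf 1) .nil) .nil) .nil)
  .nil) .nil)) .nil)) (.nd 3 (.nd 1 (.nd 2 (.nd 2 (.nd 3 (.nd 2 (.nd 2 (.lf 2) .nil) .nil) .nil)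
  .nil) .nil) .nil) .nil)) (.nd 1 (.nd 3 (.nd 0 (.nd 2 (.nd 2 (.nd 3 (.nd 2 (.nd 2 (.lf 1) .nil)
  .nil) .nil) .nil) .nil) .nil) .nil) .nil)) .nil) (.nd 2 (.nd 0 (.nd 2 (.nd 1 (.nd 3 (.nd 2 (.nd 1
  (.nd 2 (.nd 2 (.nd 3 (.lf 2) .nil) .nil) (.nd 3 (.nd 2 (.nd 2 (.lf 1) .nil) .nil) .nil)) .nil)
  (.nd 3 (.nd 2 (.nd 2 (.nd 1 (.nd 2 (.lf 2) .nil) (.nd 2 (.nd 1 (.lf 2) .nil) .nil)) .nil) .nil)
  .nil)) .nil) (.nd 2 (.nd 1 (.nd 3 (.nd 2 (.nd 1 (.nd 2 (.nd 3 (.lf 1) .nil) .nil) .nil) .nil)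
  .nil) .nil) .nil)) (.nd 3 (.nd 2 (.nd 1 (.nd 1 (.nd 2 (.nd 3 (.nd 2 (.nd 2 (.lf 1) .nil) .nil)
  .nil) .nil) (.nd 2 (.nd 3 (.nd 2 (.nd 2 (.nd 1 (.lf 2) .nil) .nil) .nil) .nil) .nil)) (.nd 2 (.nd
  1 (.nd 3 (.nd 2 (.nd 1 (.nd 2 (.lf 1) .nil) .nil) .nil) .nil) .nil) .nil)) .nil) .nil)) (.nd 1
  (.nd 0 (.nd 2 (.nd 3 (.nd 2 (.nd 1 (.nd 3 (.nd 2 (.nd 2 (.lf 1) .nil) .nil) .nil) .nil) .nil)
  .nil) .nil) .nil) .nil)) .nil)) (.nd 2 (.nd 0 (.nd 1 (.nd 1 (.nd 2 (.nd 2 (.nd 3 (.nd 2 (.nd 1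
  (.nd 2 (.nd 3 (.lf 1) .nil) .nil) .nil) .nil) .nil) (.nd 3 (.nd 2 (.nd 1 (.nd 3 (.nd 2 (.nd 2
  (.lf 1) .nil) .nil) .nil) .nil) .nil) .nil)) .nil) (.nd 3 (.nd 2 (.nd 1 (.nd 2 (.nd 1 (.nd 3 (.nd
  2 (.nd 2 (.lf 2) .nil) .nil) .nil) .nil) .nil) .nil) .nil) .nil)) .nil) (.nd 1 (.nd 0 (.nd 3 (.nd
  2 (.nd 1 (.nd 2 (.nd 1 (.nd 3 (.nd 2 (.nd 2 (.lf 1) .nil) .nil) .nil) .nil) .nil) .nil) .nil)
  .nil) .nil) .nil)) .nil)) .nil) (.nd 1 (.nd 0 (.nd 2 (.nd 1 (.nd 0 (.nd 2 (.nd 1 (.nd 2 (.nd 2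
  (.nd 3 (.nd 2 (.nd 2 (.nd 3 (.lf 1) .nil) .nil) .nil) .nil) .nil) .nil) (.nd 3 (.nd 2 (.nd 1 (.nd
  2 (.nd 3 (.nd 2 (.nd 2 (.lf 1) .nil) .nil) .nil) .nil) .nil) .nil) .nil)) .nil) .nil) (.nd 2 (.nd
  1 (.nd 0 (.nd 3 (.nd 2 (.nd 1 (.nd 2 (.nd 3 (.nd 2 (.nd 2 (.lf 1) .nil) .nil) .nil) .nil) .nil)
  .nil) .nil) .nil) .nil) .nil)) .nil) .nil) .nil)) .nil)) .nil)) (.nd 3 (.nd 0 (.nd 0 (.nd 2 (.nd
  1 (.nd 1 (.nd 2 (.nd 2 (.nd 3 (.nd 2 (.nd 1 (.nd 2 (.nd 3 (.nd 2 (.nd 2 (.nd 3 (.lf 1) .nil)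
  .nil) .nil) .nil) .nil) .nil) .nil) .nil) (.nd 3 (.nd 2 (.nd 1 (.nd 3 (.nd 2 (.nd 2 (.nd 3 (.nd 2
  (.nd 2 (.lf 1) .nil) .nil) .nil) .nil) .nil) .nil) .nil) .nil) .nil)) (.nd 3 (.nd 2 (.nd 1 (.nd 2
  (.nd 3 (.nd 2 (.nd 2 (.nd 3 (.nd 2 (.nd 2 (.lf 1) .nil) .nil) .nil) .nil) .nil) .nil) .nil) .nil)
  .nil) .nil)) (.nd 2 (.nd 1 (.nd 3 (.nd 2 (.nd 1 (.nd 3 (.nd 2 (.nd 2 (.nd 3 (.nd 2 (.nd 2 (.lf 1)
  .nil) .nil) .nil) .nil) .nil) .nil) .nil) .nil) .nil) .nil) .nil)) .nil) (.nd 3 (.nd 1 (.nd 2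
  (.nd 1 (.nd 2 (.nd 1 (.nd 2 (.nd 3 (.nd 2 (.nd 2 (.nd 3 (.nd 2 (.nd 2 (.lf 1) .nil) .nil) .nil)
  .nil) .nil) .nil) .nil) .nil) .nil) .nil) .nil) .nil) .nil)) (.nd 1 (.nd 2 (.nd 0 (.nd 1 (.nd 2
  (.nd 3 (.nd 2 (.nd 3 (.nd 2 (.nd 1 (.nd 2 (.nd 3 (.nd 2 (.nd 2 (.lf 1) .nil) .nil) .nil) .nil)
  .nil) .nil) .nil) .nil) .nil) .nil) .nil) (.nd 1 (.nd 0 (.nd 2 (.nd 1 (.nd 2 (.nd 3 (.nd 2 (.nd 2
  (.nd 3 (.nd 2 (.nd 2 (.nd 3 (.lf 1) .nil) .nil) .nil) .nil) .nil) .nil) .nil) .nil) (.nd 2 (.nd 3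
  (.nd 2 (.nd 1 (.nd 2 (.nd 3 (.nd 2 (.nd 2 (.nd 3 (.lf 1) .nil) .nil) .nil) .nil) .nil) .nil)
  .nil) .nil) .nil)) .nil) .nil) .nil)) .nil) .nil)) (.nd 1 (.nd 0 (.nd 2 (.nd 0 (.nd 1 (.nd 2 (.nd
  1 (.nd 2 (.nd 3 (.nd 2 (.nd 2 (.nd 3 (.nd 2 (.nd 2 (.nd 3 (.lf 2) .nil) .nil) .nil) .nil) .nil)
  .nil) .nil) .nil) .nil) .nil) .nil) (.nd 1 (.nd 2 (.nd 0 (.nd 2 (.nd 3 (.nd 2 (.nd 1 (.nd 2 (.nd
  3 (.nd 2 (.nd 2 (.nd 3 (.lf 2) .nil) .nil) .nil) .nil) .nil) (.nd 2 (.nd 1 (.nd 3 (.nd 2 (.nd 2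
  (.nd 3 (.lf 1) .nil) .nil) .nil) .nil) .nil) .nil)) .nil) .nil) .nil) (.nd 1 (.nd 2 (.nd 0 (.nd 3
  (.nd 2 (.nd 2 (.nd 3 (.nd 2 (.nd 2 (.nd 3 (.lf 2) .nil) .nil) .nil) .nil) .nil) .nil) .nil) .nil)
  .nil) .nil)) .nil) .nil)) .nil) .nil) .nil)) .nil)) (.nd 2 (.nd 0 (.nd 0 (.nd 1 (.nd 3 (.nd 1
  (.nd 1 (.nd 2 (.nd 3 (.nd 2 (.nd 1 (.nd 3 (.nd 2 (.nd 2 (.nd 3 (.nd 2 (.nd 2 (.lf 1) .nil) .nil)
  .nil) .nil) .nil) .nil) .nil) .nil) .nil) .nil) (.nd 2 (.nd 1 (.nd 2 (.nd 3 (.nd 2 (.nd 1 (.nd 2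
  (.nd 3 (.nd 2 (.nd 2 (.nd 3 (.lf 2) .nil) .nil) .nil) .nil) .nil) (.nd 2 (.nd 3 (.nd 2 (.nd 1
  (.nd 2 (.nd 3 (.lf 2) .nil) .nil) .nil) .nil) .nil) .nil)) (.nd 3 (.nd 2 (.nd 1 (.nd 2 (.nd 3
  (.nd 2 (.nd 2 (.lf 1) .nil) .nil) .nil) .nil) (.nd 2 (.nd 1 (.nd 3 (.nd 2 (.nd 2 (.lf 2) .nil)
  .nil) .nil) .nil) .nil)) .nil) .nil)) .nil) (.nd 3 (.nd 2 (.nd 1 (.nd 3 (.nd 2 (.nd 2 (.nd 3 (.nd
  2 (.nd 2 (.lf 2) .nil) .nil) .nil) .nil) .nil) .nil) .nil) .nil) .nil)) (.nd 2 (.nd 3 (.nd 2 (.nd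
  1 (.nd 2 (.nd 1 (.nd 3 (.nd 2 (.nd 2 (.nd 3 (.lf 2) .nil) .nil) .nil) .nil) .nil) .nil) .nil)
  .nil) .nil) .nil)) .nil)) (.nd 2 (.nd 1 (.nd 2 (.nd 3 (.nd 1 (.nd 2 (.nd 1 (.nd 2 (.nd 3 (.nd 2
  (.nd 2 (.nd 3 (.lf 2) .nil) .nil) .nil) .nil) .nil) (.nd 2 (.nd 3 (.nd 2 (.nd 1 (.nd 2 (.nd 3
  (.lf 2) .nil) .nil) (.nd 2 (.nd 1 (.nd 3 (.lf 1) .nil) .nil) .nil)) .nil) .nil) .nil)) (.nd 3
  (.nd 2 (.nd 2 (.nd 1 (.nd 3 (.nd 2 (.nd 2 (.lf 2) .nil) .nil) .nil) .nil) .nil) .nil) .nil)) (.nd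
  2 (.nd 1 (.nd 2 (.nd 1 (.nd 3 (.nd 2 (.nd 2 (.nd 3 (.lf 2) .nil) .nil) .nil) .nil) .nil) .nil)
  .nil) .nil)) .nil) .nil) (.nd 2 (.nd 3 (.nd 2 (.nd 1 (.nd 2 (.nd 1 (.nd 3 (.nd 2 (.nd 1 (.nd 2
  (.nd 3 (.lf 1) .nil) .nil) .nil) .nil) .nil) .nil) .nil) .nil) .nil) .nil) .nil)) .nil)) .nil)
  .nil) (.nd 1 (.nd 0 (.nd 3 (.nd 1 (.nd 2 (.nd 1 (.nd 3 (.nd 2 (.nd 2 (.nd 3 (.nd 2 (.nd 1 (.nd 3
  (.nd 2 (.nd 2 (.lf 1) .nil) .nil) .nil) .nil) .nil) .nil) (.nd 3 (.nd 2 (.nd 2 (.nd 1 (.nd 3 (.nd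
  2 (.nd 2 (.lf 2) .nil) .nil) .nil) .nil) .nil) .nil) .nil)) (.nd 3 (.nd 2 (.nd 1 (.nd 2 (.nd 2
  (.nd 3 (.nd 2 (.nd 2 (.lf 2) .nil) .nil) .nil) .nil) .nil) .nil) .nil) .nil)) .nil) (.nd 2 (.nd 3
  (.nd 2 (.nd 1 (.nd 2 (.nd 1 (.nd 3 (.nd 2 (.nd 2 (.nd 3 (.lf 2) .nil) .nil) .nil) .nil) .nil)
  .nil) .nil) .nil) .nil) .nil)) (.nd 3 (.nd 2 (.nd 1 (.nd 2 (.nd 2 (.nd 3 (.nd 2 (.nd 1 (.nd 3
  (.nd 2 (.nd 2 (.lf 1) .nil) .nil) .nil) .nil) .nil) .nil) (.nd 3 (.nd 2 (.nd 2 (.nd 1 (.nd 3 (.nd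
  2 (.nd 2 (.lf 2) .nil) .nil) .nil) .nil) .nil) .nil) .nil)) (.nd 3 (.nd 2 (.nd 1 (.nd 2 (.nd 2
  (.nd 3 (.nd 2 (.nd 2 (.lf 1) .nil) .nil) .nil) .nil) .nil) .nil) .nil) .nil)) .nil) .nil) .nil))
  (.nd 2 (.nd 2 (.nd 1 (.nd 3 (.nd 2 (.nd 1 (.nd 2 (.nd 1 (.nd 3 (.nd 3 (.nd 2 (.nd 2 (.lf 2) .nil)
  .nil) .nil) .nil) .nil) .nil) .nil) (.nd 3 (.nd 2 (.nd 1 (.nd 2 (.nd 2 (.nd 2 (.nd 1 (.nd 3 (.lf
  1) .nil) .nil) (.nd 3 (.nd 1 (.nd 2 (.lf 2) .nil) (.nd 2 (.nd 1 (.lf 2) .nil) .nil)) .nil)) (.nd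
  3 (.nd 2 (.nd 2 (.nd 1 (.lf 1) .nil) .nil) .nil) .nil)) (.nd 3 (.nd 2 (.nd 2 (.nd 1 (.nd 2 (.lf
  2) .nil) (.nd 2 (.nd 1 (.lf 2) .nil) .nil)) .nil) .nil) .nil)) (.nd 2 (.nd 1 (.nd 3 (.nd 2 (.nd 1
  (.nd 2 (.lf 1) .nil) .nil) .nil) .nil) .nil) .nil)) .nil) .nil)) .nil) .nil) (.nd 3 (.nd 2 (.nd 1
  (.nd 2 (.nd 1 (.nd 3 (.nd 2 (.nd 2 (.nd 3 (.nd 2 (.nd 1 (.lf 1) .nil) .nil) .nil) (.nd 3 (.nd 2
  (.nd 1 (.nd 2 (.lf 2) .nil) (.nd 2 (.nd 1 (.lf 1) .nil) .nil)) .nil) .nil)) .nil) .nil) .nil)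
  (.nd 3 (.nd 2 (.nd 2 (.nd 1 (.nd 2 (.nd 2 (.nd 1 (.nd 3 (.lf 1) .nil) .nil) (.nd 3 (.nd 2 (.nd 1
  (.lf 2) .nil) .nil) .nil)) (.nd 3 (.nd 2 (.nd 1 (.nd 2 (.lf 2) .nil) (.nd 2 (.nd 1 (.lf 1) .nil)
  .nil)) .nil) .nil)) .nil) (.nd 3 (.nd 1 (.nd 2 (.nd 2 (.nd 1 (.nd 2 (.lf 1) .nil) (.nd 2 (.nd 1
  (.lf 1) .nil) .nil)) .nil) .nil) .nil) .nil)) .nil) .nil)) (.nd 3 (.nd 2 (.nd 1 (.nd 2 (.nd 1
  (.nd 3 (.nd 2 (.nd 1 (.nd 2 (.lf 2) .nil) .nil) .nil) .nil) .nil) .nil) .nil) .nil) .nil)) (.nd 3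
  (.nd 2 (.nd 2 (.nd 1 (.nd 1 (.nd 2 (.nd 2 (.nd 3 (.nd 2 (.nd 1 (.lf 1) .nil) .nil) .nil) (.nd 3
  (.nd 2 (.nd 1 (.nd 2 (.lf 2) .nil) .nil) .nil) .nil)) .nil) .nil) .nil) .nil) .nil) .nil)) .nil))
  .nil)) .nil) (.nd 1 (.nd 2 (.nd 2 (.nd 3 (.nd 2 (.nd 1 (.nd 2 (.nd 0 (.nd 1 (.nd 3 (.nd 2 (.nd 3
  (.nd 2 (.nd 3 (.lf 2) .nil) .nil) .nil) .nil) .nil) .nil) .nil) .nil) .nil) .nil) .nil) .nil)
  .nil) .nil)) .nil)) (.nd 1 (.nd 2 (.nd 3 (.nd 2 (.nd 2 (.nd 3 (.nd 0 (.nd 0 (.nd 1 (.nd 1 (.nd 2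
  (.nd 3 (.nd 2 (.nd 2 (.nd 1 (.nd 3 (.lf 2) .nil) .nil) (.nd 3 (.nd 1 (.nd 2 (.lf 2) .nil) (.nd 2
  (.nd 1 (.lf 1) .nil) .nil)) .nil)) (.nd 3 (.nd 2 (.nd 1 (.nd 2 (.lf 1) .nil) (.nd 2 (.nd 1 (.lf
  2) .nil) .nil)) .nil) .nil)) .nil) .nil) (.nd 2 (.nd 1 (.nd 3 (.nd 2 (.nd 1 (.nd 2 (.nd 3 (.lf 1)
  .nil) .nil) .nil) .nil) .nil) .nil) .nil)) .nil) (.nd 1 (.nd 2 (.nd 3 (.nd 0 (.nd 1 (.nd 1 (.nd 3
  (.nd 2 (.nd 2 (.lf 1) .nil) .nil) .nil) (.nd 2 (.nd 3 (.nd 1 (.nd 2 (.lf 1) .nil) (.nd 2 (.nd 1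
  (.lf 1) .nil) .nil)) .nil) .nil)) .nil) (.nd 1 (.nd 0 (.nd 1 (.nd 2 (.nd 2 (.nd 3 (.lf 2) .nil)
  .nil) (.nd 3 (.nd 2 (.nd 2 (.lf 1) .nil) .nil) .nil)) (.nd 2 (.nd 3 (.nd 2 (.nd 1 (.lf 2) .nil)
  .nil) .nil) .nil)) .nil) .nil)) .nil) (.nd 3 (.nd 0 (.nd 2 (.nd 1 (.nd 2 (.nd 1 (.nd 2 (.nd 3
  (.lf 2) .nil) .nil) .nil) .nil) .nil) .nil) (.nd 1 (.nd 0 (.nd 1 (.nd 2 (.nd 3 (.nd 2 (.nd 2 (.lf
  1) .nil) .nil) .nil) .nil) .nil) .nil) .nil)) .nil)) .nil)) (.nd 1 (.nd 2 (.nd 0 (.nd 3 (.nd 1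
  (.nd 0 (.nd 1 (.nd 2 (.nd 2 (.nd 3 (.lf 2) .nil) .nil) (.nd 3 (.nd 2 (.nd 2 (.lf 1) .nil) .nil)
  .nil)) (.nd 2 (.nd 3 (.nd 2 (.nd 1 (.lf 1) .nil) .nil) .nil) .nil)) .nil) (.nd 2 (.nd 1 (.nd 3
  (.nd 0 (.nd 1 (.nd 2 (.lf 2) .nil) (.nd 2 (.nd 1 (.lf 1) .nil) .nil)) (.nd 1 (.nd 2 (.nd 0 (.lf
  2) .nil) .nil) .nil)) .nil) .nil) (.nd 3 (.nd 2 (.nd 1 (.nd 0 (.nd 1 (.nd 2 (.lf 2) .nil) (.nd 2
  (.nd 1 (.lf 1) .nil) .nil)) (.nd 1 (.nd 2 (.nd 0 (.lf 1) .nil) .nil) .nil)) .nil) .nil) .nil)))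
  .nil) .nil) .nil) .nil)) .nil) (.nd 3 (.nd 2 (.nd 0 (.nd 2 (.nd 3 (.nd 1 (.nd 0 (.nd 1 (.nd 2
  (.nd 3 (.nd 2 (.nd 1 (.lf 1) .nil) .nil) .nil) .nil) .nil) (.nd 1 (.nd 0 (.nd 3 (.nd 2 (.nd 1
  (.nd 2 (.lf 2) .nil) .nil) .nil) .nil) .nil) .nil)) .nil) .nil) (.nd 3 (.nd 1 (.nd 2 (.nd 0 (.nd
  1 (.nd 2 (.nd 2 (.nd 1 (.nd 3 (.lf 1) .nil) .nil) (.nd 3 (.nd 1 (.nd 2 (.lf 2) .nil) (.nd 2 (.nd
  1 (.lf 2) .nil) .nil)) .nil)) (.nd 3 (.nd 2 (.nd 1 (.nd 2 (.lf 2) .nil) .nil) .nil) .nil)) .nil)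
  (.nd 1 (.nd 2 (.nd 0 (.nd 1 (.nd 2 (.nd 3 (.lf 2) .nil) .nil) (.nd 2 (.nd 1 (.nd 3 (.lf 1) .nil)
  .nil) .nil)) .nil) .nil) (.nd 2 (.nd 1 (.nd 0 (.nd 3 (.nd 2 (.nd 1 (.lf 2) .nil) .nil) .nil)
  .nil) .nil) .nil))) (.nd 3 (.nd 2 (.nd 1 (.nd 2 (.nd 0 (.nd 1 (.nd 2 (.lf 2) .nil) (.nd 2 (.nd 1
  (.lf 1) .nil) .nil)) (.nd 1 (.nd 2 (.nd 0 (.lf 2) .nil) .nil) .nil)) .nil) .nil) .nil) .nil))
  .nil) .nil)) (.nd 1 (.nd 0 (.nd 1 (.nd 2 (.nd 0 (.nd 1 (.nd 3 (.nd 2 (.nd 2 (.nd 3 (.lf 2) .nil)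
  .nil) (.nd 3 (.nd 2 (.nd 2 (.lf 2) .nil) .nil) .nil)) .nil) .nil) .nil) .nil) (.nd 2 (.nd 1 (.nd
  0 (.nd 3 (.nd 2 (.nd 1 (.nd 2 (.nd 3 (.lf 1) .nil) .nil) .nil) .nil) .nil) .nil) .nil) .nil))
  .nil) .nil)) (.nd 3 (.nd 0 (.nd 0 (.nd 2 (.nd 1 (.nd 2 (.nd 1 (.nd 2 (.nd 1 (.nd 2 (.nd 3 (.lf 2)
  .nil) .nil) (.nd 2 (.nd 1 (.nd 3 (.lf 1) .nil) .nil) .nil)) (.nd 3 (.nd 2 (.nd 1 (.nd 2 (.lf 2)
  .nil) (.nd 2 (.nd 1 (.lf 1) .nil) .nil)) .nil) .nil)) .nil) .nil) .nil) .nil) (.nd 1 (.nd 2 (.nd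
  0 (.nd 1 (.nd 2 (.nd 2 (.nd 3 (.nd 2 (.nd 1 (.lf 1) .nil) .nil) .nil) (.nd 3 (.nd 2 (.nd 1 (.nd 2
  (.lf 1) .nil) (.nd 2 (.nd 1 (.lf 2) .nil) .nil)) .nil) .nil)) .nil) (.nd 2 (.nd 1 (.nd 3 (.nd 2
  (.nd 1 (.nd 2 (.lf 1) .nil) .nil) .nil) .nil) .nil) .nil)) (.nd 1 (.nd 0 (.nd 2 (.nd 2 (.nd 2
  (.nd 1 (.nd 3 (.lf 2) .nil) .nil) (.nd 3 (.nd 1 (.nd 2 (.lf 1) .nil) (.nd 2 (.nd 1 (.lf 2) .nil)
  .nil)) .nil)) .nil) .nil) .nil) .nil)) .nil) .nil)) (.nd 1 (.nd 0 (.nd 1 (.nd 0 (.nd 2 (.nd 1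
  (.nd 2 (.nd 3 (.nd 2 (.nd 2 (.lf 2) .nil) .nil) .nil) .nil) (.nd 2 (.nd 3 (.nd 2 (.nd 1 (.nd 2
  (.lf 2) .nil) .nil) .nil) .nil) .nil)) .nil) .nil) .nil) .nil) .nil)) .nil)) .nil)) (.nd 3 (.nd 0
  (.nd 1 (.nd 1 (.nd 2 (.nd 0 (.nd 1 (.nd 2 (.nd 2 (.nd 3 (.nd 2 (.nd 2 (.nd 3 (.lf 1) .nil) .nil)
  .nil) .nil) .nil) (.nd 3 (.nd 2 (.nd 2 (.nd 3 (.nd 2 (.nd 2 (.lf 1) .nil) .nil) .nil) .nil) .nil)
  .nil)) (.nd 2 (.nd 3 (.nd 2 (.nd 1 (.nd 3 (.nd 2 (.nd 2 (.lf 2) .nil) .nil) .nil) .nil) .nil)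
  .nil) .nil)) (.nd 1 (.nd 0 (.nd 2 (.nd 2 (.nd 3 (.nd 2 (.nd 2 (.nd 3 (.lf 1) .nil) .nil) .nil)
  .nil) .nil) (.nd 3 (.nd 2 (.nd 2 (.nd 3 (.nd 2 (.nd 2 (.lf 2) .nil) .nil) .nil) .nil) .nil)
  .nil)) .nil) .nil)) .nil) (.nd 2 (.nd 0 (.nd 2 (.nd 1 (.nd 2 (.nd 3 (.nd 2 (.nd 2 (.nd 1 (.nd 3
  (.lf 1) .nil) .nil) (.nd 3 (.nd 1 (.nd 2 (.lf 1) .nil) (.nd 2 (.nd 1 (.lf 2) .nil) .nil)) .nil))
  (.nd 3 (.nd 2 (.nd 1 (.nd 2 (.lf 2) .nil) (.nd 2 (.nd 1 (.lf 1) .nil) .nil)) .nil) .nil)) .nil)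
  (.nd 3 (.nd 1 (.nd 2 (.nd 3 (.nd 2 (.nd 2 (.lf 1) .nil) .nil) .nil) .nil) (.nd 2 (.nd 1 (.nd 3
  (.nd 2 (.nd 2 (.lf 2) .nil) .nil) .nil) .nil) .nil)) .nil)) (.nd 2 (.nd 1 (.nd 3 (.nd 2 (.nd 1
  (.nd 2 (.nd 3 (.lf 1) .nil) .nil) .nil) .nil) .nil) .nil) .nil)) (.nd 3 (.nd 2 (.nd 1 (.nd 1 (.nd
  2 (.nd 3 (.nd 2 (.nd 2 (.lf 2) .nil) .nil) .nil) .nil) (.nd 2 (.nd 1 (.nd 3 (.nd 2 (.nd 2 (.lf 1)
  .nil) .nil) .nil) .nil) .nil)) .nil) .nil) .nil)) (.nd 1 (.nd 0 (.nd 2 (.nd 1 (.nd 2 (.nd 3 (.nd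
  2 (.nd 2 (.nd 3 (.lf 2) .nil) .nil) .nil) .nil) .nil) .nil) .nil) .nil) .nil)) .nil)) .nil) (.nd
  1 (.nd 0 (.nd 1 (.nd 0 (.nd 2 (.nd 2 (.nd 3 (.nd 2 (.nd 1 (.nd 3 (.nd 2 (.nd 2 (.lf 2) .nil)
  .nil) .nil) .nil) .nil) .nil) (.nd 3 (.nd 2 (.nd 1 (.nd 2 (.nd 3 (.nd 2 (.nd 2 (.lf 2) .nil)
  .nil) .nil) .nil) (.nd 2 (.nd 1 (.nd 3 (.nd 2 (.nd 2 (.lf 1) .nil) .nil) .nil) .nil) .nil)) .nil)
  .nil)) .nil) .nil) (.nd 2 (.nd 1 (.nd 0 (.nd 2 (.nd 1 (.nd 2 (.nd 3 (.nd 2 (.nd 2 (.nd 3 (.lf 2)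
  .nil) .nil) .nil) .nil) .nil) .nil) .nil) .nil) .nil) .nil)) .nil) .nil)) .nil)) .nil) .nil)
  .nil)) .nil)) .nil) (.nd 3 (.nd 0 (.nd 1 (.nd 2 (.nd 2 (.nd 0 (.nd 1 (.nd 3 (.nd 1 (.nd 2 (.nd 2
  (.nd 3 (.nd 2 (.nd 1 (.nd 2 (.nd 3 (.nd 2 (.nd 2 (.nd 3 (.lf 1) .nil) .nil) .nil) .nil) .nil)
  (.nd 2 (.nd 1 (.nd 3 (.nd 2 (.nd 2 (.nd 3 (.lf 2) .nil) .nil) .nil) .nil) .nil) .nil)) .nil)
  .nil) (.nd 3 (.nd 2 (.nd 1 (.nd 3 (.nd 2 (.nd 2 (.nd 3 (.nd 2 (.nd 2 (.lf 1) .nil) .nil) .nil)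
  .nil) .nil) .nil) .nil) .nil) .nil)) .nil) (.nd 2 (.nd 1 (.nd 2 (.nd 3 (.nd 2 (.nd 1 (.nd 2 (.nd
  3 (.nd 2 (.nd 2 (.nd 3 (.lf 2) .nil) .nil) .nil) .nil) .nil) (.nd 2 (.nd 3 (.nd 2 (.nd 1 (.nd 2
  (.nd 3 (.lf 2) .nil) .nil) .nil) .nil) .nil) .nil)) (.nd 3 (.nd 2 (.nd 1 (.nd 2 (.nd 3 (.nd 2
  (.nd 2 (.lf 2) .nil) .nil) .nil) .nil) .nil) .nil) .nil)) .nil) .nil) (.nd 2 (.nd 3 (.nd 2 (.nd 1
  (.nd 2 (.nd 1 (.nd 3 (.nd 2 (.nd 2 (.nd 3 (.lf 2) .nil) .nil) .nil) .nil) .nil) .nil) .nil) .nil)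
  .nil) .nil)) .nil)) .nil) .nil) (.nd 1 (.nd 2 (.nd 3 (.nd 0 (.nd 2 (.nd 3 (.nd 2 (.nd 1 (.nd 2
  (.nd 3 (.nd 2 (.nd 2 (.nd 1 (.nd 3 (.lf 1) .nil) .nil) (.nd 3 (.nd 2 (.nd 1 (.lf 2) .nil) .nil)
  .nil)) (.nd 3 (.nd 2 (.nd 2 (.nd 1 (.lf 2) .nil) .nil) .nil) .nil)) .nil) .nil) (.nd 2 (.nd 1
  (.nd 3 (.nd 2 (.nd 1 (.nd 2 (.nd 3 (.lf 1) .nil) .nil) .nil) .nil) .nil) .nil) .nil)) (.nd 3 (.nd
  2 (.nd 1 (.nd 2 (.nd 2 (.nd 3 (.nd 2 (.nd 1 (.lf 2) .nil) .nil) .nil) (.nd 3 (.nd 2 (.nd 1 (.nd 2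
  (.lf 2) .nil) (.nd 2 (.nd 1 (.lf 1) .nil) .nil)) .nil) .nil)) .nil) (.nd 2 (.nd 1 (.nd 3 (.nd 2
  (.nd 1 (.nd 2 (.lf 1) .nil) .nil) .nil) .nil) .nil) .nil)) .nil) .nil)) .nil) .nil) (.nd 1 (.nd 0
  (.nd 1 (.nd 2 (.nd 3 (.nd 2 (.nd 2 (.nd 3 (.nd 2 (.nd 2 (.nd 3 (.lf 2) .nil) .nil) .nil) .nil)
  .nil) .nil) .nil) .nil) (.nd 2 (.nd 3 (.nd 2 (.nd 1 (.nd 2 (.nd 3 (.nd 2 (.nd 2 (.nd 3 (.lf 1)
  .nil) .nil) .nil) .nil) .nil) (.nd 2 (.nd 3 (.nd 2 (.nd 1 (.nd 2 (.nd 3 (.lf 1) .nil) .nil) (.nd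
  2 (.nd 1 (.nd 3 (.lf 2) .nil) .nil) .nil)) .nil) .nil) .nil)) (.nd 3 (.nd 2 (.nd 1 (.nd 2 (.nd 3
  (.nd 2 (.nd 2 (.lf 2) .nil) .nil) .nil) .nil) .nil) .nil) .nil)) .nil) .nil)) .nil) .nil)) .nil)
  (.nd 3 (.nd 1 (.nd 0 (.nd 1 (.nd 2 (.nd 2 (.nd 3 (.nd 2 (.nd 2 (.nd 3 (.nd 2 (.nd 2 (.nd 3 (.lf
  2) .nil) .nil) .nil) .nil) .nil) .nil) .nil) .nil) .nil) .nil) .nil) (.nd 2 (.nd 0 (.nd 1 (.nd 2
  (.nd 3 (.nd 2 (.nd 2 (.nd 1 (.nd 3 (.nd 2 (.nd 2 (.nd 3 (.lf 1) .nil) .nil) .nil) .nil) .nil)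
  .nil) .nil) .nil) .nil) (.nd 2 (.nd 1 (.nd 3 (.nd 2 (.nd 1 (.nd 2 (.nd 3 (.nd 2 (.nd 2 (.nd 3
  (.lf 2) .nil) .nil) .nil) .nil) .nil) .nil) .nil) .nil) .nil) .nil)) (.nd 1 (.nd 0 (.nd 2 (.nd 3
  (.nd 2 (.nd 1 (.nd 2 (.nd 3 (.nd 2 (.nd 2 (.nd 3 (.lf 1) .nil) .nil) .nil) .nil) .nil) .nil)
  .nil) .nil) .nil) .nil) .nil)) .nil)) .nil)) .nil)) (.nd 3 (.nd 0 (.nd 1 (.nd 2 (.nd 1 (.nd 2
  (.nd 3 (.nd 1 (.nd 2 (.nd 3 (.nd 2 (.nd 2 (.nd 3 (.nd 2 (.nd 2 (.lf 1) .nil) .nil) .nil) .nil)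
  .nil) .nil) .nil) (.nd 2 (.nd 1 (.nd 3 (.nd 2 (.nd 2 (.nd 3 (.nd 2 (.nd 2 (.lf 1) .nil) .nil)
  .nil) .nil) .nil) .nil) .nil) .nil)) .nil) .nil) (.nd 2 (.nd 1 (.nd 3 (.nd 2 (.nd 1 (.nd 3 (.nd 2
  (.nd 2 (.nd 3 (.nd 2 (.nd 2 (.lf 1) .nil) .nil) .nil) .nil) .nil) .nil) .nil) .nil) .nil) .nil)
  .nil)) .nil) .nil) (.nd 1 (.nd 2 (.nd 0 (.nd 1 (.nd 2 (.nd 2 (.nd 1 (.nd 3 (.nd 2 (.nd 2 (.nd 3
  (.nd 2 (.nd 2 (.nd 3 (.lf 2) .nil) .nil) .nil) .nil) .nil) .nil) .nil) .nil) (.nd 3 (.nd 1 (.nd 2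
  (.nd 3 (.nd 2 (.nd 2 (.nd 3 (.nd 2 (.nd 2 (.lf 2) .nil) .nil) .nil) .nil) .nil) .nil) .nil) (.nd
  2 (.nd 1 (.nd 3 (.nd 2 (.nd 2 (.nd 3 (.nd 2 (.nd 2 (.lf 1) .nil) .nil) .nil) .nil) .nil) .nil)
  .nil) .nil)) .nil)) .nil) (.nd 2 (.nd 1 (.nd 3 (.nd 2 (.nd 1 (.nd 3 (.nd 2 (.nd 2 (.nd 3 (.nd 2
  (.nd 2 (.lf 1) .nil) .nil) .nil) .nil) .nil) .nil) .nil) .nil) .nil) .nil) .nil)) (.nd 1 (.nd 0
  (.nd 2 (.nd 2 (.nd 3 (.nd 2 (.nd 1 (.nd 2 (.nd 3 (.nd 2 (.nd 2 (.nd 3 (.lf 2) .nil) .nil) .nil)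
  .nil) .nil) .nil) .nil) .nil) .nil) .nil) .nil) .nil)) .nil) .nil)) .nil)) .nil) .nil) (.nd 1
  (.nd 0 (.nd 1 (.nd 0 (.nd 2 (.nd 1 (.nd 2 (.nd 3 (.nd 2 (.nd 1 (.nd 2 (.nd 3 (.nd 2 (.nd 2 (.nd 3
  (.nd 2 (.nd 2 (.nd 3 (.lf 1) .nil) .nil) .nil) .nil) .nil) .nil) .nil) .nil) .nil) .nil) .nil)
  .nil) (.nd 2 (.nd 3 (.nd 1 (.nd 2 (.nd 1 (.nd 2 (.nd 3 (.nd 2 (.nd 2 (.nd 3 (.nd 2 (.nd 2 (.nd 3
  (.lf 1) .nil) .nil) .nil) .nil) .nil) .nil) .nil) .nil) .nil) .nil) (.nd 2 (.nd 1 (.nd 2 (.nd 1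
  (.nd 3 (.nd 2 (.nd 2 (.nd 3 (.nd 2 (.nd 2 (.nd 3 (.lf 2) .nil) .nil) .nil) .nil) .nil) .nil)
  .nil) .nil) .nil) .nil) .nil)) .nil) .nil)) .nil) .nil) .nil) (.nd 2 (.nd 1 (.nd 2 (.nd 0 (.nd 1
  (.nd 0 (.nd 3 (.nd 2 (.nd 2 (.nd 3 (.nd 2 (.nd 1 (.nd 2 (.nd 3 (.nd 2 (.nd 2 (.nd 3 (.lf 1) .nil)
  .nil) .nil) .nil) .nil) (.nd 2 (.nd 1 (.nd 3 (.nd 2 (.nd 2 (.nd 3 (.lf 2) .nil) .nil) .nil) .nil)
  .nil) .nil)) .nil) .nil) .nil) (.nd 3 (.nd 2 (.nd 1 (.nd 2 (.nd 3 (.nd 2 (.nd 2 (.nd 3 (.nd 2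
  (.nd 2 (.lf 2) .nil) .nil) .nil) .nil) .nil) .nil) .nil) .nil) .nil) .nil)) .nil) .nil) .nil)
  .nil) .nil) .nil) .nil)) .nil)) .nil))

def sN1 : List ℕ :=
  [88245, 2, 99405, 2, 105894, 2, 119286, 1, 172197, 1, 256785, 2, 299079, 1, 329517, 1, 386575, 1,
  411810, 2, 463890, 2, 491385, 2, 494172, 2, 519453, 2, 535194, 2, 556668, 2, 559773, 2, 575985,
  1, 589095, 1, 669655, 1, 706914, 1, 747441, 1, 803586, 1, 858925, 1, 878475, 1, 978465, 1,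
  1000395, 1, 1023165, 1, 1030710, 1, 1114605, 2, 1198330, 1, 1200474, 1, 1236852, 1, 1265004, 1,
  1269729, 1, 1281455, 2, 1352754, 1, 1395702, 2, 1437996, 2, 1537746, 1, 1710325, 1, 1734425, 2,
  1737825, 1, 1799865, 1, 2020095, 2, 2024055, 1, 2052390, 2, 2081310, 2, 2085390, 1, 2164820, 1,
  2176895, 2, 2219445, 2, 2290925, 1, 2293130, 1, 2364570, 1, 2375622, 1, 2418390, 2, 2424114, 2,
  2428866, 2, 2429045, 2, 2462868, 2, 2612274, 2, 2663334, 2, 2670822, 1, 2687930, 2, 2751756, 2,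
  2829123, 1, 2880117, 1, 2902068, 1, 2914854, 2, 3225516, 1, 3298932, 2, 3337445, 1, 3416694, 2,
  3488058, 1, 3512169, 1, 3694797, 1, 3736863, 2, 3750068, 2, 3863061, 1, 3978975, 2, 3986775, 2,
  4099550, 2, 4152510, 1, 4330917, 1, 4334575, 1, 4383925, 1, 4566170, 2, 4784130, 2, 4809980, 2,
  4937835, 2, 4945215, 2, 4983012, 1, 5095070, 2, 5201490, 2, 5237445, 2, 5260710, 2, 5388606, 2,
  5438370, 1, 5479404, 1, 5509785, 2, 5572515, 1, 5602212, 2, 5729724, 1, 5759721, 1, 5760705, 1,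
  5796615, 1, 5925402, 1, 5934258, 2, 5972270, 1, 6114084, 1, 6312852, 2, 6458385, 1, 6513276, 1,
  6526044, 2, 6611742, 1, 6687018, 1, 6752505, 2, 6912846, 2, 6999475, 1, 7166724, 2, 7176148, 1,
  7377909, 2, 7522119, 2, 7698775, 1, 7750062, 2, 7810225, 1, 7838298, 2, 7855925, 2, 8380881, 1,
  8399370, 1, 8401590, 1, 8590525, 1, 8631175, 1, 8644075, 2, 8762553, 2, 8897205, 1, 9195550, 1,
  9238530, 1, 9372270, 2, 9404850, 1, 9427110, 1, 9445590, 1, 9577820, 2, 9630925, 1, 9635451, 1,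
  9712780, 2, 9740575, 2, 9944025, 1, 10067805, 1, 10079244, 1, 10081908, 2, 10357410, 1, 10362627,
  1, 10594881, 2, 11002145, 1, 11034660, 2, 11086236, 2, 11246724, 2, 11285820, 1, 11334708, 1,
  11344905, 1, 11417575, 1, 11557110, 2, 11653389, 2, 11688690, 1, 11728035, 1, 11932830, 2,
  12006522, 1, 12190612, 1, 12370356, 1, 12447468, 1, 12463836, 1, 12497805, 1, 12640095, 2,
  12896345, 1, 13064733, 2, 13202574, 2, 13215735, 1, 13460634, 1, 13533453, 1, 13564670, 2,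
  13602652, 2, 13613886, 2, 13658435, 1, 13868532, 1, 14073642, 2, 14319396, 2, 14418378, 1,
  14532245, 2, 14816295, 1, 14997366, 2, 15023015, 1, 15219171, 2, 15475614, 2, 15504125, 2,
  15552025, 2, 15680358, 2, 15858882, 1, 16148650, 2, 16277604, 2, 16390122, 1, 16441308, 1,
  17361573, 2, 17438694, 2, 17489175, 1, 17779554, 2, 17917575, 1, 18027618, 1, 18113535, 2,
  18662430, 2, 18689692, 1, 19378380, 2, 19633075, 1, 19707675, 2, 19830525, 2, 20181465, 2,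
  20210946, 1, 20350653, 1, 20369745, 1, 20431450, 2, 20868705, 1, 20955690, 2, 21100545, 1,
  21622980, 2, 21786380, 1, 21856023, 2, 22094475, 2, 22282260, 2, 22325940, 2, 22394916, 2,
  22695255, 2, 23043230, 2, 23077670, 2, 23100675, 2, 23202515, 2, 23505471, 1, 23559690, 2,
  23796630, 1, 24217758, 1, 24273620, 2, 24441410, 1, 24447870, 2, 24493482, 1, 24956085, 1,
  25042446, 1, 25184412, 1, 25240215, 2, 25379060, 2, 25712330, 1, 25733565, 2, 25890065, 1,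
  26092605, 2, 26433297, 2, 26815230, 2, 26878698, 2, 26883290, 2, 27050870, 2, 27227375, 2,
  27234306, 1, 27544374, 1, 27693204, 1, 27720810, 1, 28059588, 1, 28271628, 2, 28379052, 1,
  28467054, 1, 28671435, 1, 29252685, 2, 29329692, 2, 29947302, 1, 29977155, 1, 30139130, 1,
  30154311, 1, 30347465, 2, 30880278, 1, 31068078, 2, 31206084, 1, 31816044, 1, 32259948, 1,
  32592315, 2, 33393789, 2, 34076595, 2, 34430242, 2, 35103222, 1, 35375725, 1, 35385075, 1,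
  36166956, 2, 36416958, 1, 36457350, 1, 36732850, 2, 37758870, 2, 37814028, 2, 37960461, 1,
  39152575, 2, 39197060, 1, 39207420, 2, 39381129, 2, 39829491, 1, 40122225, 2, 41174577, 1,
  41202315, 2, 41520290, 2, 42462090, 1, 42813810, 1, 43113140, 2, 43737260, 2, 43889300, 1,
  44119075, 1, 44702775, 2, 44965438, 1, 44966955, 1, 45276259, 1, 45310644, 2, 45318735, 2,
  45609025, 2, 46329590, 1, 46692030, 1, 46872150, 1, 48106940, 1, 48146670, 2, 48358926, 2,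
  48406820, 1, 48602575, 2, 49326030, 2, 49442778, 2, 49455846, 2, 49605660, 2, 49824348, 1,
  50807295, 2, 50815975, 1, 50954508, 2, 52065585, 1, 52268790, 2, 52708755, 1, 52942890, 2,
  53130175, 2, 53643330, 1, 53933180, 2, 53960346, 1, 54305990, 2, 54382482, 2, 54547220, 1,
  55595508, 2, 55686540, 2, 56071470, 1, 56086290, 2, 56246580, 1, 56607705, 2, 57252195, 2,
  58323090, 2, 58987110, 1, 59185665, 1, 59394855, 1, 59658690, 1, 59799894, 1, 60824790, 1,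
  60968754, 2, 60979170, 1, 61400685, 1, 61612012, 1, 61673430, 2, 62478702, 1, 62722548, 2,
  63531468, 1, 63756210, 2, 65081555, 2, 65167188, 1, 65676996, 1, 65931327, 2, 67285764, 2,
  67303548, 1, 67929246, 1, 68398803, 1, 68702634, 2, 69142710, 1, 69620655, 2, 69987708, 2,
  70471494, 2, 70784532, 1, 71022798, 2, 71273826, 2, 71513739, 1, 72219532, 2, 73175004, 2,
  73680822, 1, 74008116, 2, 74770605, 1, 76487236, 2, 78097866, 2, 78483475, 2, 78600775, 1,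
  78637713, 2, 78930774, 1, 79215675, 2, 79377025, 1, 81020674, 1, 81156075, 2, 81380572, 1,
  81494350, 2, 81616150, 2, 82971252, 1, 83544786, 1, 84128884, 2, 84529830, 2, 84995645, 1,
  86623290, 2, 86823100, 2, 87091340, 1, 87574225, 2, 88571275, 1, 89264175, 1, 89724726, 1,
  90344943, 2, 90933850, 2, 91410165, 1, 91546785, 1, 91969150, 2, 92278725, 1, 92542450, 1,
  94180170, 2, 94317748, 1, 94320930, 1, 94834350, 1, 94969714, 2, 95058810, 1, 97179140, 1,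
  97387290, 1, 97413030, 2, 97939380, 1, 98469210, 1, 100074975, 2, 100338420, 2, 100364940, 1,
  102796155, 2, 103107550, 2, 103159485, 1, 104281450, 2, 104528270, 2, 106285530, 1, 107117010, 2,
  109945220, 2, 110450439, 2, 110705210, 1, 113016204, 1, 113036385, 1, 113185116, 1, 114090060, 1,
  114302916, 1, 116461730, 2, 116864748, 1, 116895636, 1, 117266765, 1, 118163052, 1, 118797921, 1,
  120089970, 1, 120150459, 2, 121765490, 2, 123064110, 2, 123355386, 1, 123791382, 1, 124208073, 2,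
  125137740, 1, 126106884, 1, 127093428, 2, 127542636, 1, 127971954, 1, 128540412, 1, 129363780, 1,
  129934084, 1, 132846252, 2, 132881364, 1, 133800030, 2, 135323370, 1, 135643662, 2, 136512530, 1,
  136581291, 1, 137456165, 2, 139893390, 1, 140720118, 1, 141345204, 2, 144107964, 1, 144984364, 1,
  146118588, 1, 146840050, 2, 147624015, 2, 149501196, 2, 152097470, 2, 152473300, 1, 153148835, 1,
  153829130, 1, 154892465, 1, 155837682, 1, 156914901, 2, 160123355, 1, 160231225, 2, 162388044, 1,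
  164706795, 1, 164947398, 1, 167872068, 1, 169032474, 1, 169945804, 2, 170134300, 2, 171025470, 1,
  176208060, 2, 176239525, 1, 177148818, 1, 180319425, 2, 182516964, 1, 183778602, 2, 184594956, 2,
  185222565, 1, 188062490, 2, 190835370, 2, 191823450, 1, 191834973, 1, 192148026, 2, 192277470, 1,
  192910900, 2, 196618260, 2, 197583925, 1, 197648154, 2, 198104060, 2, 198156420, 2, 199797780, 1,
  202477275, 2, 210019095, 2, 210988050, 2, 211487430, 2, 215729811, 1, 216060390, 1, 216383310, 1,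
  217553895, 2, 218113350, 2, 220141075, 1, 222267078, 1, 222647425, 1, 224684460, 2, 229002444, 1,
  230248980, 1, 236540850, 1, 241086690, 2, 242972730, 2, 243831510, 2, 243921020, 2, 244285580, 2,
  244408626, 2, 244652265, 2, 245607110, 1, 245974190, 2, 247066820, 1, 252065970, 1, 253185660, 2,
  256399605, 1, 264169290, 1, 267176910, 2, 269023755, 2, 272536407, 1, 275273180, 2, 277175990, 1,
  278108985, 2, 280723625, 1, 280795086, 2, 283991994, 2, 284569460, 1, 286536530, 1, 287809340, 1,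
  289304028, 2, 290774575, 1, 291567276, 2, 292597812, 2, 293582718, 2, 295169028, 2, 297528980, 2,
  302479164, 1, 309806343, 2, 320612292, 1, 321400827, 1, 322828506, 1, 324896390, 1, 328866972, 1,
  331439724, 1, 333730782, 1, 343843836, 2, 348929490, 2, 351341445, 2, 364456708, 1, 366975994, 1,
  369673150, 2, 370889766, 1, 375887850, 2, 378728350, 1, 378828450, 1, 389306970, 1, 389875668, 2,
  396659725, 1, 399762825, 2, 404242020, 2, 411876850, 1, 414653085, 1, 414723925, 1, 416566150, 1,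
  418715388, 1, 421609734, 1, 424524087, 2, 424922355, 2, 426209550, 1, 426580770, 1, 427218330, 1,
  430634050, 1, 437798790, 2, 439507460, 1, 440164340, 2, 442560300, 1, 444511340, 2, 451065420, 1,
  453428118, 1, 454474020, 2, 459522980, 2, 461991915, 2, 467168364, 1, 470244775, 2, 475975612, 2,
  475991670, 2, 478582650, 1, 479715390, 1, 483031395, 2, 490415660, 2, 495999140, 2, 496408770, 2,
  497668710, 1, 499879380, 1, 505029525, 2, 509906826, 1, 511451460, 1, 511896924, 1, 512749580, 2,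
  516760860, 2, 523930225, 1, 525358548, 2, 526257550, 2, 527503130, 1, 531149465, 2, 538084701, 1,
  544029850, 1, 547790425, 1, 554390298, 2, 558222489, 1, 564293730, 2, 571190004, 1, 574299180, 2,
  575138322, 1, 577693116, 1, 578268990, 1, 579637674, 1, 581393540, 2, 597202452, 2, 610224615, 2,
  623286125, 1, 624400140, 2, 628716270, 2, 633062235, 2, 635874330, 1, 637379358, 2, 640526425, 1,
  644176962, 1, 657348510, 1, 665099050, 2, 671253804, 2, 688912070, 2, 693674135, 1, 693922788, 2,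
  714718675, 1, 732269538, 2, 737331309, 1, 742137550, 2, 746024895, 2, 754459524, 2, 759674682, 2,
  763049196, 1, 768631710, 1, 769754524, 1, 787411625, 1, 788818212, 2, 832408962, 2, 832437045, 2,
  838949265, 2, 840234850, 2, 864371970, 1, 867397804, 2, 873772900, 1, 895412700, 2, 922358052, 2,
  922522755, 2, 937559350, 2, 950477990, 1, 951425475, 2, 969544323, 2, 973527100, 1, 980089110, 1,
  984610900, 1, 997109575, 2, 998924454, 1, 1004361930, 2, 1009788780, 2, 1015251510, 2,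
  1029194892, 2, 1059863805, 2, 1071739188, 1, 1091980890, 1, 1103857300, 2, 1111487650, 1,
  1125071220, 2, 1133872740, 2, 1141710570, 1, 1173329820, 2, 1176307860, 2, 1193706150, 1,
  1204802445, 2, 1205234316, 1, 1218301812, 2, 1241311610, 1, 1246825580, 2, 1249892105, 2,
  1271836566, 1, 1288932260, 1, 1297841930, 2, 1310377068, 1, 1333785180, 1, 1370052684, 2,
  1432447380, 2, 1442349090, 1, 1445762934, 2, 1455756687, 1, 1489573932, 2, 1499870526, 1,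
  1506533028, 1, 1513971550, 1, 1522600092, 1, 1572052300, 2, 1612539775, 1, 1639593410, 1,
  1650927005, 2, 1652475825, 1, 1730818908, 2, 1742783094, 2, 1754143300, 1, 1763331570, 2,
  1796635225, 1, 1816765860, 1, 1861154750, 2, 1878455425, 2, 1909708515, 2, 1967512092, 1,
  1967578470, 2, 1981112406, 1, 1982970990, 2, 1990710260, 1, 2004470930, 2, 2027202060, 1,
  2043061020, 2, 2092551615, 2, 2155962270, 2, 2170865235, 1, 2180508330, 2, 2233385700, 1,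
  2246584340, 2, 2248823850, 1, 2254146510, 1, 2291650218, 2, 2316574260, 1, 2322453980, 1,
  2356804450, 2, 2361094164, 2, 2373095725, 1, 2373946380, 2, 2505132630, 2, 2683978836, 2,
  2847714870, 1, 2934009260, 1, 2954290430, 2, 2967413540, 1, 3006159156, 1, 3067626380, 2,
  3118664484, 2, 3262580475, 1, 3361446550, 2, 3417257844, 1, 3440879442, 1, 3482160500, 2,
  3545148516, 1, 3586947980, 2, 3770450145, 2, 3811457650, 1, 3884575156, 1, 3884706210, 2,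
  3905851950, 1, 4002424580, 1, 4121692575, 1, 4167874620, 2, 4246592350, 2, 4513856490, 2,
  4650640020, 2, 4687022340, 2, 4737840380, 1, 4946031090, 2, 5095910820, 1, 5131136010, 2,
  5153928780, 2, 5286624980, 1, 5327982660, 2, 5416627788, 2, 5570628700, 2, 5609135350, 2,
  5622411410, 1, 5661276005, 1, 5921222580, 2, 6426294875, 1, 6793531206, 1, 7711553850, 1,
  7945237300, 1, 8132987772, 1, 8137700725, 1, 8911973070, 2, 9008899900, 1, 9182032860, 1,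
  9232013700, 1, 9742182450, 1, 9832742535, 2, 10494511300, 1, 10669115340, 2, 11690618940, 2,
  13289336060, 2, 14662861675, 1, 15189424250, 1, 16057437396, 2, 18227309100, 1, 19234565350, 1,
  19367523175, 2, 21064663620, 2, 23026976700, 1, 23241027810, 2, 31628285780, 2, 34657673050, 1,
  35902275500, 1, 45463518100, 1, 45777782050, 2, 54933338460, 2, 81918136300, 1, 108202030300, 2]

noncomputable def sL1 : PL := ofL sN1 PL.nil none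

theorem sub1_ok : (valT env0 sT1 true).beq sL1 = true := by decide +kernel

end Pool.Agent.MP_2042ac_al

end

-- part MP_2042ac_al.Sub2
section

/-!
Certificate, part 2.
-/

set_option autoImplicit false
set_option maxRecDepth 100000

namespace Pool.Agent.MP_2042ac_al

def sT2 : HT :=
  (.nd 0 (.nd 0 (.nd 2 (.nd 1 (.nd 2 (.nd 1 (.nd 2 (.nd 1 (.nd 3 (.nd 1 (.nd 2 (.nd 1 (.nd 2 (.nd 3
  (.nd 2 (.nd 2 (.nd 3 (.nd 2 (.nd 2 (.nd 3 (.lf 2) .nil) .nil) .nil) .nil) .nil) .nil) .nil) .nil)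
  (.nd 2 (.nd 3 (.nd 2 (.nd 1 (.nd 2 (.nd 3 (.nd 2 (.nd 2 (.nd 3 (.lf 2) .nil) .nil) .nil) .nil)
  .nil) .nil) .nil) .nil) .nil)) (.nd 3 (.nd 2 (.nd 1 (.nd 2 (.nd 3 (.nd 2 (.nd 2 (.nd 3 (.nd 2
  (.nd 2 (.lf 1) .nil) .nil) .nil) .nil) .nil) .nil) .nil) .nil) .nil) .nil)) (.nd 2 (.nd 1 (.nd 2
  (.nd 3 (.nd 2 (.nd 2 (.nd 3 (.nd 2 (.nd 2 (.nd 1 (.nd 3 (.lf 2) .nil) .nil) .nil) .nil) .nil)
  .nil) (.nd 3 (.nd 2 (.nd 2 (.nd 1 (.nd 3 (.nd 2 (.nd 2 (.lf 2) .nil) .nil) .nil) .nil) .nil)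
  .nil) .nil)) .nil) .nil) (.nd 2 (.nd 3 (.nd 2 (.nd 1 (.nd 2 (.nd 1 (.nd 3 (.nd 2 (.nd 2 (.nd 3
  (.lf 2) .nil) .nil) .nil) .nil) .nil) .nil) .nil) .nil) .nil) .nil)) .nil)) .nil) .nil) (.nd 3
  (.nd 2 (.nd 1 (.nd 1 (.nd 2 (.nd 1 (.nd 2 (.nd 3 (.nd 2 (.nd 2 (.nd 3 (.nd 2 (.nd 2 (.nd 3 (.lf
  1) .nil) .nil) .nil) .nil) .nil) .nil) .nil) .nil) .nil) .nil) (.nd 2 (.nd 1 (.nd 2 (.nd 1 (.nd 3
  (.nd 2 (.nd 2 (.nd 3 (.nd 2 (.nd 2 (.nd 3 (.lf 1) .nil) .nil) .nil) .nil) .nil) .nil) .nil) .nil)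
  (.nd 3 (.nd 2 (.nd 1 (.nd 3 (.nd 2 (.nd 2 (.nd 3 (.nd 2 (.nd 2 (.lf 2) .nil) .nil) .nil) .nil)
  .nil) .nil) .nil) .nil) .nil)) .nil) .nil)) .nil) .nil) .nil)) .nil) (.nd 3 (.nd 1 (.nd 1 (.nd 2
  (.nd 1 (.nd 2 (.nd 2 (.nd 3 (.nd 2 (.nd 1 (.nd 3 (.nd 2 (.nd 2 (.nd 3 (.nd 2 (.nd 2 (.lf 2) .nil)
  .nil) .nil) .nil) .nil) .nil) .nil) .nil) .nil) .nil) .nil) .nil) .nil) .nil) .nil) .nil)) .nil)
  .nil) (.nd 1 (.nd 0 (.nd 2 (.nd 1 (.nd 3 (.nd 2 (.nd 1 (.nd 2 (.nd 1 (.nd 2 (.nd 3 (.nd 1 (.nd 2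
  (.nd 3 (.nd 2 (.nd 2 (.nd 3 (.nd 2 (.nd 2 (.lf 1) .nil) .nil) .nil) .nil) .nil) .nil) .nil) (.nd
  2 (.nd 3 (.nd 2 (.nd 1 (.nd 2 (.nd 3 (.nd 2 (.nd 2 (.lf 2) .nil) .nil) .nil) .nil) (.nd 2 (.nd 1
  (.nd 3 (.nd 2 (.nd 2 (.lf 1) .nil) .nil) .nil) .nil) .nil)) .nil) .nil) .nil)) .nil) .nil) (.nd 2
  (.nd 1 (.nd 3 (.nd 2 (.nd 1 (.nd 3 (.nd 2 (.nd 2 (.nd 3 (.nd 2 (.nd 2 (.lf 1) .nil) .nil) .nil)
  .nil) .nil) .nil) .nil) .nil) .nil) .nil) .nil)) .nil) .nil) .nil) .nil) .nil) .nil) (.nd 1 (.nd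
  2 (.nd 1 (.nd 0 (.nd 2 (.nd 1 (.nd 2 (.nd 3 (.nd 2 (.nd 1 (.nd 2 (.nd 3 (.nd 2 (.nd 2 (.nd 3 (.nd
  2 (.nd 2 (.nd 3 (.lf 1) .nil) .nil) .nil) .nil) .nil) .nil) .nil) .nil) (.nd 2 (.nd 3 (.nd 2 (.nd
  1 (.nd 2 (.nd 3 (.nd 2 (.nd 2 (.nd 3 (.lf 1) .nil) .nil) .nil) .nil) .nil) (.nd 2 (.nd 1 (.nd 3
  (.nd 2 (.nd 2 (.nd 3 (.lf 2) .nil) .nil) .nil) .nil) .nil) .nil)) .nil) .nil) .nil)) (.nd 3 (.nd
  2 (.nd 1 (.nd 2 (.nd 3 (.nd 2 (.nd 2 (.nd 3 (.nd 2 (.nd 2 (.lf 2) .nil) .nil) .nil) .nil) .nil)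
  .nil) .nil) .nil) .nil) .nil)) .nil) .nil) (.nd 2 (.nd 3 (.nd 2 (.nd 1 (.nd 2 (.nd 1 (.nd 3 (.nd
  2 (.nd 2 (.nd 3 (.nd 2 (.nd 2 (.nd 3 (.lf 1) .nil) .nil) .nil) .nil) .nil) .nil) .nil) .nil)
  .nil) .nil) .nil) .nil) .nil)) .nil) .nil) .nil) .nil) .nil)) .nil)) (.nd 1 (.nd 1 (.nd 2 (.nd 0
  (.nd 0 (.nd 1 (.nd 2 (.nd 1 (.nd 2 (.nd 3 (.nd 2 (.nd 1 (.nd 2 (.nd 3 (.nd 2 (.nd 2 (.nd 3 (.nd 2
  (.nd 2 (.nd 3 (.lf 2) .nil) .nil) .nil) .nil) .nil) .nil) .nil) .nil) (.nd 2 (.nd 3 (.nd 2 (.nd 1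
  (.nd 2 (.nd 3 (.nd 2 (.nd 2 (.nd 3 (.lf 2) .nil) .nil) .nil) .nil) .nil) (.nd 2 (.nd 1 (.nd 3
  (.nd 2 (.nd 2 (.nd 3 (.lf 1) .nil) .nil) .nil) .nil) .nil) .nil)) .nil) .nil) .nil)) (.nd 3 (.nd
  2 (.nd 1 (.nd 2 (.nd 3 (.nd 2 (.nd 2 (.nd 3 (.nd 2 (.nd 2 (.lf 1) .nil) .nil) .nil) .nil) .nil)
  .nil) .nil) .nil) .nil) .nil)) .nil) .nil) (.nd 2 (.nd 3 (.nd 1 (.nd 2 (.nd 1 (.nd 2 (.nd 3 (.nd
  2 (.nd 2 (.nd 3 (.nd 2 (.nd 2 (.nd 3 (.lf 1) .nil) .nil) .nil) .nil) .nil) .nil) .nil) .nil)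
  .nil) .nil) (.nd 2 (.nd 1 (.nd 2 (.nd 1 (.nd 3 (.nd 2 (.nd 2 (.nd 3 (.nd 2 (.nd 2 (.nd 3 (.lf 1)
  .nil) .nil) .nil) .nil) .nil) .nil) .nil) .nil) .nil) .nil) .nil)) .nil) .nil)) .nil) (.nd 2 (.nd
  3 (.nd 2 (.nd 1 (.nd 2 (.nd 1 (.nd 3 (.nd 2 (.nd 1 (.nd 3 (.nd 2 (.nd 2 (.nd 3 (.nd 2 (.nd 2 (.lf
  2) .nil) .nil) .nil) .nil) .nil) .nil) .nil) .nil) .nil) .nil) .nil) .nil) .nil) .nil) .nil))
  (.nd 1 (.nd 2 (.nd 0 (.nd 2 (.nd 1 (.nd 3 (.nd 2 (.nd 1 (.nd 2 (.nd 3 (.nd 2 (.nd 2 (.nd 3 (.nd 2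
  (.nd 2 (.nd 3 (.lf 2) .nil) .nil) .nil) .nil) .nil) .nil) .nil) .nil) .nil) .nil) .nil) .nil)
  .nil) (.nd 1 (.nd 0 (.nd 2 (.nd 3 (.nd 2 (.nd 1 (.nd 2 (.nd 3 (.nd 2 (.nd 2 (.nd 3 (.nd 2 (.nd 2
  (.nd 3 (.lf 1) .nil) .nil) .nil) .nil) .nil) .nil) .nil) .nil) .nil) .nil) .nil) .nil) .nil)
  .nil)) .nil) .nil)) (.nd 1 (.nd 0 (.nd 2 (.nd 1 (.nd 0 (.nd 2 (.nd 3 (.nd 2 (.nd 1 (.nd 2 (.nd 3
  (.nd 2 (.nd 2 (.nd 3 (.nd 2 (.nd 2 (.nd 3 (.lf 1) .nil) .nil) .nil) .nil) .nil) .nil) .nil) .nil)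
  (.nd 2 (.nd 3 (.nd 2 (.nd 1 (.nd 2 (.nd 3 (.nd 2 (.nd 2 (.nd 3 (.lf 1) .nil) .nil) .nil) .nil)
  .nil) (.nd 2 (.nd 1 (.nd 3 (.nd 2 (.nd 2 (.nd 3 (.lf 2) .nil) .nil) .nil) .nil) .nil) .nil))
  .nil) .nil) .nil)) (.nd 3 (.nd 2 (.nd 1 (.nd 2 (.nd 3 (.nd 2 (.nd 2 (.nd 3 (.nd 2 (.nd 2 (.lf 2)
  .nil) .nil) .nil) .nil) .nil) .nil) .nil) .nil) .nil) .nil)) .nil) .nil) .nil) (.nd 2 (.nd 1 (.nd
  0 (.nd 3 (.nd 2 (.nd 1 (.nd 2 (.nd 3 (.nd 2 (.nd 2 (.nd 3 (.nd 2 (.nd 2 (.nd 3 (.lf 1) .nil)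
  .nil) .nil) .nil) .nil) .nil) .nil) .nil) .nil) .nil) .nil) .nil) .nil) .nil)) .nil) .nil) .nil))
  .nil) (.nd 2 (.nd 0 (.nd 0 (.nd 1 (.nd 1 (.nd 2 (.nd 1 (.nd 2 (.nd 3 (.nd 2 (.nd 2 (.nd 3 (.nd 2
  (.nd 1 (.nd 2 (.nd 3 (.nd 2 (.nd 2 (.nd 3 (.lf 2) .nil) .nil) .nil) .nil) .nil) (.nd 2 (.nd 1
  (.nd 3 (.nd 2 (.nd 2 (.nd 3 (.lf 1) .nil) .nil) .nil) .nil) .nil) .nil)) .nil) .nil) .nil) (.nd 3
  (.nd 2 (.nd 1 (.nd 2 (.nd 3 (.nd 2 (.nd 2 (.nd 3 (.nd 2 (.nd 2 (.lf 1) .nil) .nil) .nil) .nil)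
  .nil) .nil) .nil) .nil) .nil) .nil)) .nil) .nil) (.nd 2 (.nd 3 (.nd 2 (.nd 1 (.nd 2 (.nd 1 (.nd 3
  (.nd 2 (.nd 2 (.nd 3 (.nd 2 (.nd 2 (.nd 3 (.lf 2) .nil) .nil) .nil) .nil) .nil) .nil) .nil) .nil)
  .nil) .nil) .nil) .nil) .nil)) .nil) (.nd 2 (.nd 2 (.nd 3 (.nd 2 (.nd 1 (.nd 1 (.nd 2 (.nd 3 (.nd
  2 (.nd 1 (.nd 2 (.nd 3 (.nd 2 (.nd 2 (.nd 3 (.lf 1) .nil) .nil) .nil) .nil) .nil) (.nd 2 (.nd 3
  (.nd 2 (.nd 1 (.nd 2 (.nd 3 (.lf 2) .nil) .nil) (.nd 2 (.nd 1 (.nd 3 (.lf 1) .nil) .nil) .nil))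
  .nil) .nil) .nil)) (.nd 3 (.nd 2 (.nd 1 (.nd 2 (.nd 3 (.nd 2 (.nd 2 (.lf 1) .nil) .nil) .nil)
  .nil) .nil) .nil) .nil)) .nil) .nil) (.nd 2 (.nd 3 (.nd 1 (.nd 2 (.nd 2 (.nd 3 (.nd 2 (.nd 1 (.nd
  2 (.nd 3 (.lf 1) .nil) .nil) (.nd 2 (.nd 1 (.nd 3 (.lf 2) .nil) .nil) .nil)) .nil) .nil) .nil)
  (.nd 3 (.nd 2 (.nd 2 (.nd 1 (.nd 3 (.nd 2 (.nd 2 (.lf 1) .nil) .nil) .nil) .nil) .nil) .nil)
  .nil)) (.nd 2 (.nd 1 (.nd 2 (.nd 1 (.nd 3 (.nd 2 (.nd 2 (.nd 3 (.lf 2) .nil) .nil) .nil) .nil)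
  .nil) .nil) .nil) .nil)) .nil) .nil)) (.nd 2 (.nd 3 (.nd 1 (.nd 2 (.nd 1 (.nd 2 (.nd 1 (.nd 3
  (.nd 2 (.nd 2 (.nd 3 (.lf 1) .nil) .nil) .nil) .nil) .nil) .nil) .nil) .nil) (.nd 2 (.nd 1 (.nd 2
  (.nd 1 (.nd 3 (.nd 2 (.nd 1 (.nd 2 (.nd 3 (.lf 2) .nil) .nil) .nil) .nil) .nil) .nil) .nil) .nil)
  .nil)) .nil) .nil)) (.nd 3 (.nd 2 (.nd 1 (.nd 2 (.nd 2 (.nd 1 (.nd 1 (.nd 2 (.nd 3 (.nd 2 (.nd 2
  (.nd 3 (.lf 2) .nil) .nil) .nil) .nil) .nil) (.nd 2 (.nd 3 (.nd 2 (.nd 1 (.nd 2 (.nd 3 (.lf 2)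
  .nil) .nil) .nil) .nil) .nil) .nil)) (.nd 2 (.nd 1 (.nd 3 (.nd 2 (.nd 1 (.nd 2 (.nd 3 (.lf 2)
  .nil) .nil) .nil) .nil) .nil) .nil) .nil)) (.nd 3 (.nd 2 (.nd 1 (.nd 2 (.nd 2 (.nd 3 (.nd 2 (.nd
  1 (.lf 2) .nil) .nil) .nil) (.nd 3 (.nd 2 (.nd 2 (.nd 1 (.lf 1) .nil) .nil) .nil) .nil)) .nil)
  (.nd 2 (.nd 1 (.nd 3 (.nd 2 (.nd 1 (.nd 2 (.lf 2) .nil) .nil) .nil) .nil) .nil) .nil)) .nil)
  .nil)) (.nd 3 (.nd 1 (.nd 2 (.nd 1 (.nd 2 (.nd 2 (.nd 3 (.nd 2 (.nd 2 (.lf 2) .nil) .nil) .nil)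
  .nil) .nil) .nil) .nil) .nil) .nil)) (.nd 2 (.nd 1 (.nd 3 (.nd 2 (.nd 1 (.nd 2 (.nd 1 (.nd 3 (.nd
  2 (.nd 2 (.lf 2) .nil) .nil) .nil) .nil) .nil) .nil) .nil) .nil) .nil) .nil)) .nil) .nil)) .nil)
  (.nd 3 (.nd 2 (.nd 1 (.nd 1 (.nd 2 (.nd 1 (.nd 2 (.nd 3 (.nd 2 (.nd 2 (.nd 3 (.nd 2 (.nd 2 (.nd 3
  (.lf 1) .nil) .nil) .nil) .nil) .nil) .nil) .nil) .nil) .nil) .nil) (.nd 2 (.nd 1 (.nd 2 (.nd 1
  (.nd 3 (.nd 2 (.nd 2 (.nd 3 (.nd 2 (.nd 2 (.nd 3 (.lf 2) .nil) .nil) .nil) .nil) .nil) .nil)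
  .nil) .nil) (.nd 3 (.nd 2 (.nd 1 (.nd 3 (.nd 2 (.nd 2 (.nd 3 (.nd 2 (.nd 2 (.lf 1) .nil) .nil)
  .nil) .nil) .nil) .nil) .nil) .nil) .nil)) .nil) .nil)) .nil) .nil) .nil)) .nil)) (.nd 3 (.nd 2
  (.nd 1 (.nd 2 (.nd 2 (.nd 2 (.nd 1 (.nd 3 (.nd 2 (.nd 1 (.nd 2 (.nd 3 (.nd 2 (.nd 3 (.nd 2 (.nd 1
  (.lf 1) .nil) .nil) .nil) (.nd 3 (.nd 2 (.nd 1 (.nd 2 (.lf 2) .nil) .nil) .nil) .nil)) .nil)
  .nil) .nil) (.nd 3 (.nd 2 (.nd 1 (.nd 2 (.nd 2 (.nd 2 (.nd 1 (.nd 3 (.lf 1) .nil) .nil) (.nd 3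
  (.nd 1 (.nd 2 (.lf 2) .nil) (.nd 2 (.nd 1 (.lf 2) .nil) .nil)) .nil)) (.nd 3 (.nd 2 (.nd 2 (.nd 1
  (.lf 1) .nil) .nil) .nil) .nil)) (.nd 3 (.nd 2 (.nd 2 (.nd 1 (.nd 2 (.lf 2) .nil) (.nd 2 (.nd 1
  (.lf 2) .nil) .nil)) .nil) .nil) .nil)) (.nd 2 (.nd 1 (.nd 3 (.nd 2 (.nd 1 (.nd 2 (.lf 1) .nil)
  .nil) .nil) .nil) .nil) .nil)) .nil) .nil)) .nil) .nil) (.nd 3 (.nd 2 (.nd 1 (.nd 1 (.nd 2 (.nd 2
  (.nd 3 (.nd 2 (.nd 1 (.nd 2 (.nd 3 (.lf 1) .nil) .nil) .nil) .nil) .nil) .nil) (.nd 3 (.nd 2 (.nd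
  1 (.nd 2 (.nd 3 (.nd 2 (.nd 2 (.lf 1) .nil) .nil) .nil) .nil) .nil) .nil) .nil)) (.nd 2 (.nd 1
  (.nd 3 (.nd 2 (.nd 1 (.nd 3 (.nd 2 (.nd 2 (.lf 2) .nil) .nil) .nil) .nil) .nil) .nil) .nil)
  .nil)) .nil) .nil) .nil)) .nil) .nil) .nil) .nil) .nil)) (.nd 1 (.nd 2 (.nd 2 (.nd 3 (.nd 0 (.nd
  1 (.nd 1 (.nd 2 (.nd 1 (.nd 2 (.nd 3 (.nd 2 (.nd 2 (.nd 3 (.nd 2 (.nd 2 (.nd 3 (.lf 1) .nil)
  .nil) .nil) .nil) .nil) .nil) .nil) .nil) (.nd 2 (.nd 3 (.nd 2 (.nd 1 (.nd 2 (.nd 3 (.nd 2 (.nd 2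
  (.nd 3 (.lf 1) .nil) .nil) .nil) .nil) .nil) .nil) .nil) .nil) .nil)) (.nd 3 (.nd 2 (.nd 1 (.nd 2
  (.nd 3 (.nd 2 (.nd 2 (.nd 3 (.nd 2 (.nd 2 (.lf 1) .nil) .nil) .nil) .nil) .nil) .nil) .nil) .nil)
  .nil) .nil)) (.nd 2 (.nd 1 (.nd 2 (.nd 3 (.nd 2 (.nd 2 (.nd 3 (.nd 2 (.nd 1 (.nd 2 (.nd 3 (.lf 1)
  .nil) .nil) .nil) .nil) .nil) .nil) (.nd 3 (.nd 2 (.nd 2 (.nd 1 (.nd 3 (.nd 2 (.nd 2 (.lf 2)
  .nil) .nil) .nil) .nil) .nil) .nil) .nil)) .nil) .nil) (.nd 2 (.nd 3 (.nd 2 (.nd 1 (.nd 2 (.nd 1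
  (.nd 3 (.nd 2 (.nd 2 (.nd 3 (.lf 1) .nil) .nil) .nil) .nil) .nil) .nil) .nil) .nil) .nil) .nil))
  .nil)) .nil) (.nd 1 (.nd 2 (.nd 1 (.nd 2 (.nd 3 (.nd 0 (.nd 2 (.nd 1 (.nd 2 (.nd 3 (.nd 2 (.nd 2
  (.nd 3 (.lf 1) .nil) .nil) .nil) .nil) .nil) (.nd 2 (.nd 3 (.nd 2 (.nd 1 (.nd 2 (.nd 3 (.lf 2)
  .nil) .nil) .nil) .nil) .nil) .nil)) (.nd 3 (.nd 2 (.nd 1 (.nd 2 (.nd 3 (.nd 2 (.nd 2 (.lf 1)
  .nil) .nil) .nil) .nil) (.nd 2 (.nd 1 (.nd 3 (.nd 2 (.nd 2 (.lf 2) .nil) .nil) .nil) .nil) .nil))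
  .nil) .nil)) (.nd 1 (.nd 2 (.nd 2 (.nd 0 (.nd 3 (.nd 2 (.nd 2 (.nd 3 (.lf 1) .nil) .nil) .nil)
  .nil) .nil) .nil) .nil) .nil)) .nil) (.nd 3 (.nd 2 (.nd 0 (.nd 1 (.nd 2 (.nd 2 (.nd 3 (.nd 2 (.nd
  2 (.nd 3 (.lf 1) .nil) .nil) .nil) .nil) .nil) (.nd 3 (.nd 2 (.nd 2 (.nd 3 (.nd 2 (.nd 2 (.lf 2)
  .nil) .nil) .nil) .nil) .nil) .nil)) .nil) (.nd 1 (.nd 0 (.nd 2 (.nd 2 (.nd 3 (.nd 2 (.nd 2 (.nd
  3 (.lf 1) .nil) .nil) .nil) .nil) .nil) (.nd 3 (.nd 2 (.nd 2 (.nd 3 (.nd 2 (.nd 2 (.lf 2) .nil)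
  .nil) .nil) .nil) .nil) .nil)) .nil) .nil)) .nil) .nil)) (.nd 2 (.nd 3 (.nd 2 (.nd 2 (.nd 3 (.nd
  0 (.nd 1 (.nd 2 (.nd 2 (.nd 1 (.nd 3 (.lf 2) .nil) .nil) (.nd 3 (.nd 1 (.nd 2 (.lf 2) .nil) (.nd
  2 (.nd 1 (.lf 1) .nil) .nil)) .nil)) (.nd 3 (.nd 2 (.nd 2 (.nd 1 (.lf 2) .nil) .nil) .nil) .nil))
  .nil) (.nd 1 (.nd 2 (.nd 0 (.nd 3 (.nd 1 (.nd 2 (.lf 2) .nil) (.nd 2 (.nd 1 (.lf 2) .nil) .nil))
  .nil) .nil) .nil) (.nd 2 (.nd 1 (.nd 0 (.nd 2 (.nd 1 (.nd 3 (.lf 1) .nil) .nil) (.nd 3 (.nd 2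
  (.nd 1 (.lf 2) .nil) .nil) .nil)) .nil) .nil) .nil))) .nil) (.nd 3 (.nd 0 (.nd 1 (.nd 1 (.nd 2
  (.nd 3 (.nd 2 (.nd 2 (.lf 2) .nil) .nil) .nil) .nil) (.nd 2 (.nd 2 (.nd 1 (.nd 2 (.nd 3 (.lf 2)
  .nil) .nil) (.nd 2 (.nd 1 (.nd 3 (.lf 2) .nil) .nil) .nil)) .nil) .nil)) .nil) (.nd 1 (.nd 0 (.nd
  2 (.nd 2 (.nd 3 (.nd 2 (.nd 1 (.lf 2) .nil) .nil) .nil) (.nd 3 (.nd 2 (.nd 1 (.nd 2 (.lf 1) .nil)
  .nil) .nil) .nil)) (.nd 3 (.nd 2 (.nd 2 (.nd 1 (.nd 2 (.lf 2) .nil) (.nd 2 (.nd 1 (.lf 2) .nil)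
  .nil)) .nil) .nil) .nil)) .nil) .nil)) .nil)) (.nd 3 (.nd 2 (.nd 0 (.nd 1 (.nd 2 (.nd 2 (.nd 3
  (.nd 2 (.nd 1 (.lf 2) .nil) .nil) .nil) (.nd 3 (.nd 2 (.nd 1 (.nd 2 (.lf 1) .nil) (.nd 2 (.nd 1
  (.lf 2) .nil) .nil)) .nil) .nil)) .nil) (.nd 2 (.nd 1 (.nd 3 (.nd 2 (.nd 1 (.nd 2 (.lf 2) .nil)
  .nil) .nil) .nil) .nil) .nil)) (.nd 1 (.nd 0 (.nd 2 (.nd 2 (.nd 1 (.nd 2 (.nd 3 (.lf 1) .nil)
  .nil) (.nd 2 (.nd 1 (.nd 3 (.lf 1) .nil) .nil) .nil)) .nil) .nil) .nil) .nil)) .nil) .nil)) .nil)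
  .nil)) (.nd 3 (.nd 2 (.nd 1 (.nd 2 (.nd 0 (.nd 1 (.nd 2 (.nd 2 (.nd 3 (.nd 2 (.nd 2 (.nd 3 (.lf
  2) .nil) .nil) .nil) .nil) .nil) (.nd 3 (.nd 2 (.nd 2 (.nd 3 (.nd 2 (.nd 2 (.lf 2) .nil) .nil)
  .nil) .nil) .nil) .nil)) .nil) (.nd 1 (.nd 0 (.nd 2 (.nd 2 (.nd 3 (.nd 2 (.nd 2 (.nd 3 (.lf 1)
  .nil) .nil) .nil) .nil) .nil) (.nd 3 (.nd 2 (.nd 2 (.nd 3 (.nd 2 (.nd 2 (.lf 2) .nil) .nil) .nil)
  .nil) .nil) .nil)) .nil) .nil)) .nil) .nil) .nil) .nil)) .nil)) .nil) (.nd 3 (.nd 0 (.nd 2 (.nd 1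
  (.nd 1 (.nd 2 (.nd 2 (.nd 3 (.nd 2 (.nd 1 (.nd 2 (.nd 3 (.nd 2 (.nd 2 (.nd 3 (.lf 2) .nil) .nil)
  .nil) .nil) .nil) .nil) .nil) .nil) (.nd 3 (.nd 2 (.nd 1 (.nd 3 (.nd 2 (.nd 2 (.nd 3 (.nd 2 (.nd
  2 (.lf 2) .nil) .nil) .nil) .nil) .nil) .nil) .nil) .nil) .nil)) (.nd 3 (.nd 2 (.nd 1 (.nd 2 (.nd
  3 (.nd 2 (.nd 2 (.nd 3 (.nd 2 (.nd 2 (.lf 2) .nil) .nil) .nil) .nil) .nil) .nil) .nil) .nil)
  .nil) .nil)) (.nd 2 (.nd 1 (.nd 2 (.nd 1 (.nd 3 (.nd 2 (.nd 2 (.nd 3 (.nd 2 (.nd 2 (.nd 3 (.lf 2)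
  .nil) .nil) .nil) .nil) .nil) .nil) .nil) .nil) (.nd 3 (.nd 2 (.nd 1 (.nd 3 (.nd 2 (.nd 2 (.nd 3
  (.nd 2 (.nd 2 (.lf 1) .nil) .nil) .nil) .nil) .nil) .nil) .nil) .nil) .nil)) .nil) .nil)) .nil)
  (.nd 3 (.nd 1 (.nd 2 (.nd 1 (.nd 2 (.nd 1 (.nd 2 (.nd 3 (.nd 2 (.nd 2 (.nd 3 (.nd 2 (.nd 2 (.lf
  2) .nil) .nil) .nil) .nil) .nil) .nil) .nil) .nil) .nil) .nil) .nil) .nil) .nil)) (.nd 1 (.nd 2
  (.nd 0 (.nd 1 (.nd 2 (.nd 3 (.nd 1 (.nd 2 (.nd 3 (.nd 2 (.nd 2 (.nd 3 (.nd 2 (.nd 2 (.lf 2) .nil)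
  .nil) .nil) .nil) .nil) .nil) .nil) (.nd 2 (.nd 1 (.nd 3 (.nd 2 (.nd 2 (.nd 3 (.nd 2 (.nd 2 (.lf
  2) .nil) .nil) .nil) .nil) .nil) .nil) .nil) .nil)) .nil) .nil) .nil) (.nd 1 (.nd 0 (.nd 2 (.nd 2
  (.nd 3 (.nd 2 (.nd 1 (.nd 2 (.nd 3 (.nd 2 (.nd 2 (.nd 3 (.lf 1) .nil) .nil) .nil) .nil) .nil)
  .nil) .nil) .nil) .nil) .nil) .nil) .nil)) .nil) .nil)) .nil)) .nil) .nil)) (.nd 1 (.nd 0 (.nd 2
  (.nd 1 (.nd 0 (.nd 2 (.nd 3 (.nd 2 (.nd 1 (.nd 2 (.nd 1 (.nd 3 (.nd 2 (.nd 2 (.nd 3 (.nd 2 (.nd 2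
  (.nd 3 (.lf 2) .nil) .nil) .nil) .nil) .nil) .nil) .nil) .nil) .nil) .nil) .nil) .nil) .nil) (.nd
  3 (.nd 2 (.nd 1 (.nd 0 (.nd 2 (.nd 3 (.nd 2 (.nd 1 (.nd 3 (.nd 2 (.nd 2 (.nd 3 (.nd 2 (.nd 2 (.lf
  2) .nil) .nil) .nil) .nil) .nil) .nil) .nil) .nil) .nil) .nil) .nil) .nil) .nil) .nil)) .nil)
  .nil) .nil) .nil)) .nil)) .nil))

def sN2 : List ℕ :=
  [419710, 2, 503652, 1, 539275, 2, 647130, 2, 666740, 1, 728970, 1, 776556, 2, 1262778, 1,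
  1301044, 2, 1347725, 2, 1391294, 1, 1529580, 1, 1617270, 1, 1723020, 2, 1827705, 1, 1883090, 2,
  1940724, 1, 2193246, 2, 2259708, 2, 2363486, 1, 2416458, 2, 2487290, 2, 2489684, 1, 2521550, 1,
  2629885, 2, 2725525, 1, 3019940, 2, 3025860, 1, 3174435, 2, 3270630, 2, 3369740, 1, 3497505, 2,
  3600025, 1, 4105002, 1, 4197006, 1, 4229396, 1, 4320030, 2, 4324188, 1, 4567695, 1, 5184036, 1,
  5647332, 1, 5892964, 2, 5904516, 1, 6113525, 1, 6252675, 2, 6442150, 2, 6675251, 1, 6889025, 2,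
  7121675, 2, 7175410, 1, 7503210, 2, 7547260, 1, 7558540, 1, 7599430, 1, 7730580, 1, 7759455, 1,
  8085610, 2, 8266830, 2, 8421460, 1, 8509150, 2, 8517340, 1, 8529290, 1, 8546010, 1, 8610492, 2,
  8804980, 1, 9119316, 2, 9370990, 1, 9520038, 2, 9593508, 2, 9808524, 1, 9920196, 2, 10030404, 2,
  10133745, 1, 10255212, 2, 10999175, 1, 11245188, 2, 11276804, 1, 11945186, 1, 12160494, 2,
  12345025, 1, 12369225, 2, 12955644, 1, 13563275, 2, 13598980, 2, 14001746, 2, 14450150, 2,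
  14727356, 2, 14779050, 2, 14829158, 1, 14957620, 1, 15292860, 2, 15600254, 1, 15799925, 1,
  15838812, 1, 16099850, 2, 16275930, 1, 16283150, 1, 16321690, 1, 16769140, 2, 16833050, 1,
  17289085, 2, 17600715, 2, 17734860, 2, 18286094, 2, 18340530, 1, 18751590, 2, 18959910, 1,
  19156676, 1, 19319820, 2, 19539780, 2, 19774497, 1, 20136699, 2, 20160140, 2, 20199660, 1,
  20265685, 2, 20746902, 2, 21120858, 2, 21315910, 2, 21375596, 1, 21463255, 1, 21760884, 1,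
  22008636, 2, 22501908, 1, 22836385, 2, 23607595, 1, 24318822, 2, 25055756, 1, 25376450, 1,
  25755906, 2, 25998050, 2, 26298261, 1, 26536388, 1, 27095178, 1, 27403662, 1, 27441975, 1,
  27916244, 2, 28234076, 1, 28273550, 1, 28329114, 2, 29179150, 1, 29187572, 1, 29236350, 2,
  29282910, 1, 29369516, 1, 29824015, 2, 30122300, 1, 30451740, 2, 30831205, 2, 30851975, 2,
  31197660, 2, 31760058, 1, 32058650, 2, 32722484, 1, 32930370, 1, 33928260, 2, 34314540, 2,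
  34932300, 2, 35139492, 1, 35198295, 2, 35385942, 1, 36264910, 1, 36461095, 2, 36997446, 1,
  37278285, 2, 38470380, 2, 38578540, 2, 39216705, 2, 39516444, 1, 39663195, 2, 39881380, 2,
  40405090, 2, 40865110, 1, 41002665, 1, 41601690, 1, 42508510, 2, 42785875, 1, 43452948, 2,
  43753314, 1, 44321940, 1, 44733942, 1, 45079172, 1, 45656150, 2, 46089516, 1, 47060046, 2,
  47361490, 1, 47595834, 2, 47900710, 1, 48486108, 2, 49038132, 1, 49203198, 2, 49518370, 1,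
  50383060, 2, 50694204, 1, 50731330, 1, 51216495, 2, 51799605, 2, 52768510, 1, 52898900, 2,
  53548935, 1, 53976910, 1, 54052375, 1, 54104666, 2, 54787380, 2, 55590425, 2, 55799770, 1,
  56833788, 2, 57141246, 1, 57480852, 1, 57684190, 1, 59652153, 1, 60877596, 2, 61144325, 2,
  61595380, 1, 61611660, 1, 63322212, 1, 64043148, 1, 64746495, 1, 64772292, 2, 64862850, 1,
  66205956, 2, 66959724, 2, 67649595, 2, 67749220, 1, 68447225, 1, 68549525, 2, 68729980, 1,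
  68968900, 1, 69104100, 2, 69221028, 2, 70659974, 1, 71148407, 2, 71215155, 1, 71671325, 1,
  72922850, 2, 73373190, 1, 73426925, 2, 75069228, 1, 75596620, 2, 75992598, 1, 76375475, 2,
  76479370, 1, 77835420, 1, 78295404, 2, 78309385, 1, 81179514, 1, 82136670, 2, 82259430, 2,
  82704435, 2, 83195970, 2, 83490275, 1, 84625660, 1, 84752140, 1, 85210630, 1, 85717060, 2,
  86005590, 2, 86180770, 1, 88479580, 2, 88954965, 2, 89091190, 1, 89967735, 1, 90544025, 1,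
  90782380, 1, 91775244, 2, 92280986, 1, 92694030, 1, 92918873, 2, 93006045, 2, 93749370, 2,
  94427860, 1, 95502940, 2, 95824410, 1, 96915390, 1, 98728180, 2, 99245322, 2, 100474660, 1,
  100880975, 1, 101130250, 1, 103224340, 2, 103416924, 1, 105734772, 2, 106909428, 2, 110693825, 2,
  111232836, 1, 111607254, 1, 111945340, 2, 112499244, 2, 114989292, 1, 116298468, 1, 120194228, 2,
  121356300, 1, 122435430, 1, 122725218, 2, 123331175, 1, 124481775, 2, 126444164, 1, 127318202, 1,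
  127530975, 2, 127883756, 1, 128947775, 1, 133564585, 2, 136857820, 2, 138693225, 2, 143644545, 2,
  145268604, 2, 146922516, 2, 147997410, 2, 149238122, 2, 149403650, 2, 149682390, 2, 151884252, 2,
  153037170, 1, 153675060, 1, 154218220, 1, 157260675, 2, 159426340, 2, 160277502, 1, 161385411, 1,
  161536815, 1, 162026150, 2, 162902675, 1, 165134396, 2, 166275878, 2, 166431870, 2, 167014484, 2,
  168168962, 1, 168326730, 1, 169404950, 2, 171475260, 1, 172363100, 2, 172373454, 1, 172654748, 2,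
  173427540, 2, 173554550, 1, 173848214, 1, 174011310, 1, 177596892, 2, 177628605, 2, 179618868, 2,
  183011290, 1, 185094910, 1, 188745050, 1, 194431380, 1, 195483210, 1, 196645020, 2, 197340650, 2,
  203285940, 1, 204073155, 2, 208265460, 1, 212651010, 1, 214013150, 2, 214627743, 1, 216002545, 1,
  216628620, 2, 219832470, 1, 221589420, 2, 227832572, 2, 229072740, 1, 230748650, 2, 234579852, 2,
  238986330, 2, 239010310, 2, 239600900, 1, 241731490, 1, 243402445, 2, 249895030, 2, 251622415, 2,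
  251791925, 2, 259203054, 2, 261639950, 1, 263798964, 2, 267057692, 1, 268754310, 1, 273183625, 1,
  276898380, 2, 280300977, 1, 282936225, 1, 286783596, 2, 288794946, 1, 290077788, 1, 292082934, 2,
  294229650, 2, 295526770, 1, 297546308, 2, 299874036, 2, 300933932, 1, 301436850, 2, 301946898, 1,
  302693300, 1, 310571300, 1, 311096804, 2, 315698110, 2, 317880355, 2, 320058915, 1, 327820350, 2,
  333263268, 2, 337754300, 1, 339523470, 1, 341599700, 1, 345935975, 2, 353135900, 2, 353794740, 1,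
  361690175, 2, 361724220, 1, 365742780, 1, 371707050, 2, 375162315, 2, 381456426, 2, 381814290, 1,
  382970900, 2, 386530870, 1, 393384420, 1, 397863180, 1, 407428164, 2, 411299460, 2, 419849430, 2,
  422751615, 2, 430659130, 2, 432572140, 2, 437028405, 2, 437497060, 1, 441137125, 1, 450271690, 2,
  456931475, 2, 466346298, 2, 470730650, 1, 482354730, 2, 486838539, 2, 496971540, 1, 502629660, 1,
  507301938, 1, 510551470, 2, 511117750, 2, 516790956, 2, 524434086, 1, 529364550, 2, 540326028, 2,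
  559452575, 2, 564876780, 1, 564933460, 1, 571365340, 2, 575314870, 1, 576676562, 1, 594743890, 2,
  595144550, 2, 612661764, 1, 623322425, 1, 630419075, 2, 635237460, 2, 645706750, 2, 647235050, 2,
  662529582, 2, 668758350, 2, 670341210, 1, 690377844, 1, 690654580, 2, 695428690, 2, 695451900, 2,
  698517820, 2, 712487100, 2, 713692668, 1, 722107540, 2, 725987295, 1, 753131918, 1, 756502890, 1,
  758337899, 1, 759049335, 2, 770653180, 2, 774848100, 2, 805749340, 2, 809969886, 2, 823318925, 1,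
  834663445, 2, 860813525, 2, 878580300, 2, 886747290, 2, 902470140, 1, 912254980, 2, 913618420, 2,
  918560890, 2, 958924395, 2, 979449625, 2, 987982710, 1, 992371380, 2, 999231090, 2, 1006541525,
  2, 1017921580, 2, 1032976230, 2, 1042687750, 2, 1045155650, 1, 1064278540, 2, 1080019850, 1,
  1090059355, 1, 1102273068, 1, 1131915675, 2, 1140111180, 2, 1150709274, 2, 1166216150, 2,
  1172324835, 2, 1199077308, 1, 1207849830, 1, 1208096500, 1, 1237361125, 1, 1239571476, 2,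
  1251225300, 1, 1308071226, 2, 1317113193, 1, 1322342450, 2, 1347709748, 1, 1357025714, 1,
  1363053692, 2, 1406705300, 2, 1409085524, 2, 1429974975, 2, 1473307550, 1, 1490081450, 2,
  1529828300, 1, 1584442860, 2, 1595395230, 1, 1643740540, 1, 1715969970, 1, 1788097740, 1,
  1792435034, 2, 1794116610, 2, 1914474276, 1, 1932667100, 1, 1946026550, 2, 1950632530, 1,
  1972840870, 2, 2020682300, 1, 2034650150, 1, 2095948140, 2, 2229530875, 2, 2266548570, 2,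
  2287617651, 2, 2309124675, 1, 2315062750, 2, 2335231860, 2, 2356939398, 1, 2361818940, 2,
  2428361804, 1, 2441580180, 2, 2470367900, 2, 2576503930, 2, 2675437050, 2, 2719858284, 2,
  2756510900, 1, 2770949610, 2, 2823283925, 1, 2854917780, 2, 2924671750, 1, 2951858525, 1,
  3091804716, 1, 3113176638, 2, 3125536700, 2, 3207515324, 1, 3379940850, 2, 3411359655, 1,
  3482363300, 1, 3522010700, 2, 3729150425, 1, 3770934180, 2, 4055929020, 1, 4240639260, 2,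
  4505913555, 1, 4559041025, 2, 4610585980, 2, 4642456390, 1, 4663078420, 2, 5269800250, 2,
  5357296620, 2, 5407096266, 2, 5457931050, 1, 5471966500, 2, 5570947668, 2, 5623322900, 1,
  6146528234, 1, 6323760300, 2, 6549517260, 2, 6673216550, 1, 6719344775, 1, 6912860500, 1,
  6977120150, 1, 7988951100, 2, 8063213730, 1, 8814355550, 1, 10650341130, 1, 10775915150, 2,
  10973078740, 2, 12455891500, 2, 12780409356, 2, 12900564300, 1, 14528157644, 2, 15773057300, 1,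
  15882087650, 1, 16491374900, 1, 19058505180, 1, 20833931300, 1, 25173533580, 1, 25470344900, 2,
  37539479900, 1]

noncomputable def sL2 : PL := ofL sN2 PL.nil none

theorem sub2_ok : (valT env0 sT2 true).beq sL2 = true := by decide +kernel

end Pool.Agent.MP_2042ac_al

end
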