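import Pool.Agent.MP_2042ac_al.Mg.Sub2
import Pool.Agent.MP_2042ac_al.Mg.Core
import Pool.Agent.MP_2042ac_al.Sp
import Mathlib

-- part MP_2042ac_al.Sub3
section

/-!
Certificate, part 3.
-/

set_option autoImplicit false
set_option maxRecDepth 100000

namespace Pool.Agent.MP_2042ac_al

def sT3 : HT :=
  (.nd 0 (.nd 3 (.nd 1 (.nd 2 (.nd 1 (.nd 1 (.nd 2 (.nd 3 (.nd 1 (.nd 1 (.nd 2 (.nd 2 (.nd 3 (.nd 2
  (.nd 1 (.nd 2 (.nd 3 (.nd 2 (.nd 2 (.nd 3 (.lf 2) .nil) .nil) .nil) .nil) .nil) .nil) .nil) .nil)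
  (.nd 3 (.nd 1 (.nd 2 (.nd 3 (.nd 2 (.nd 2 (.nd 3 (.nd 2 (.nd 2 (.lf 2) .nil) .nil) .nil) .nil)
  .nil) .nil) .nil) (.nd 2 (.nd 1 (.nd 3 (.nd 2 (.nd 2 (.nd 3 (.nd 2 (.nd 2 (.lf 2) .nil) .nil)
  .nil) .nil) .nil) .nil) .nil) .nil)) .nil)) (.nd 3 (.nd 2 (.nd 1 (.nd 2 (.nd 3 (.nd 2 (.nd 2 (.nd
  3 (.nd 2 (.nd 2 (.lf 1) .nil) .nil) .nil) .nil) .nil) .nil) .nil) .nil) .nil) .nil)) (.nd 2 (.nd
  1 (.nd 2 (.nd 3 (.nd 1 (.nd 2 (.nd 2 (.nd 3 (.nd 2 (.nd 2 (.nd 3 (.lf 1) .nil) .nil) .nil) .nil)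
  .nil) (.nd 3 (.nd 2 (.nd 2 (.nd 3 (.nd 2 (.nd 2 (.lf 1) .nil) .nil) .nil) .nil) .nil) .nil)) (.nd
  2 (.nd 1 (.nd 2 (.nd 3 (.nd 2 (.nd 2 (.nd 3 (.lf 2) .nil) .nil) .nil) .nil) .nil) .nil) .nil))
  .nil) (.nd 3 (.nd 2 (.nd 1 (.nd 3 (.nd 2 (.nd 2 (.nd 3 (.nd 2 (.nd 2 (.lf 1) .nil) .nil) .nil)
  .nil) .nil) .nil) .nil) .nil) .nil)) (.nd 2 (.nd 3 (.nd 2 (.nd 1 (.nd 2 (.nd 1 (.nd 3 (.nd 2 (.nd
  2 (.nd 3 (.lf 1) .nil) .nil) .nil) .nil) .nil) .nil) .nil) .nil) .nil) .nil)) .nil)) (.nd 2 (.nd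
  2 (.nd 3 (.nd 1 (.nd 2 (.nd 1 (.nd 2 (.nd 3 (.nd 1 (.nd 3 (.nd 2 (.nd 2 (.lf 2) .nil) .nil) .nil)
  (.nd 2 (.nd 1 (.nd 2 (.nd 3 (.lf 1) .nil) .nil) .nil) .nil)) .nil) .nil) (.nd 2 (.nd 1 (.nd 3
  (.nd 2 (.nd 1 (.nd 2 (.nd 3 (.lf 1) .nil) .nil) .nil) .nil) .nil) .nil) .nil)) (.nd 3 (.nd 2 (.nd
  1 (.nd 2 (.nd 1 (.nd 3 (.nd 2 (.nd 2 (.lf 1) .nil) .nil) .nil) .nil) .nil) .nil) .nil) .nil))
  (.nd 2 (.nd 1 (.nd 2 (.nd 1 (.nd 3 (.nd 2 (.nd 1 (.nd 2 (.nd 3 (.lf 2) .nil) .nil) .nil) .nil)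
  .nil) .nil) .nil) .nil) .nil)) .nil) (.nd 3 (.nd 2 (.nd 1 (.nd 2 (.nd 1 (.nd 2 (.nd 3 (.nd 2 (.nd
  1 (.nd 2 (.nd 3 (.lf 1) .nil) .nil) .nil) .nil) .nil) (.nd 3 (.nd 1 (.nd 2 (.nd 3 (.nd 2 (.nd 2
  (.lf 1) .nil) .nil) .nil) .nil) (.nd 2 (.nd 1 (.nd 3 (.nd 2 (.nd 2 (.lf 1) .nil) .nil) .nil)
  .nil) .nil)) .nil)) .nil) (.nd 3 (.nd 2 (.nd 1 (.nd 1 (.nd 2 (.nd 3 (.nd 2 (.nd 2 (.lf 2) .nil)
  .nil) .nil) .nil) (.nd 2 (.nd 3 (.nd 2 (.nd 2 (.nd 1 (.lf 2) .nil) .nil) .nil) .nil) .nil)) (.nd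
  2 (.nd 1 (.nd 3 (.nd 2 (.nd 1 (.nd 2 (.lf 1) .nil) .nil) .nil) .nil) .nil) .nil)) .nil) .nil))
  (.nd 3 (.nd 2 (.nd 1 (.nd 2 (.nd 1 (.nd 3 (.nd 2 (.nd 1 (.nd 2 (.lf 1) .nil) .nil) .nil) .nil)
  .nil) .nil) .nil) .nil) .nil)) (.nd 3 (.nd 2 (.nd 2 (.nd 1 (.nd 1 (.nd 2 (.nd 2 (.nd 3 (.nd 2
  (.nd 1 (.lf 2) .nil) .nil) .nil) (.nd 3 (.nd 2 (.nd 1 (.nd 2 (.lf 1) .nil) .nil) .nil) .nil))
  .nil) .nil) .nil) .nil) .nil) .nil)) .nil)) .nil)) .nil) (.nd 3 (.nd 2 (.nd 1 (.nd 2 (.nd 1 (.nd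
  3 (.nd 2 (.nd 1 (.nd 3 (.nd 2 (.nd 2 (.nd 3 (.nd 2 (.nd 2 (.lf 1) .nil) .nil) .nil) .nil) .nil)
  .nil) .nil) .nil) .nil) .nil) .nil) .nil) .nil) .nil)) (.nd 2 (.nd 1 (.nd 3 (.nd 2 (.nd 1 (.nd 2
  (.nd 1 (.nd 3 (.nd 2 (.nd 1 (.nd 2 (.nd 3 (.nd 2 (.nd 2 (.nd 3 (.lf 2) .nil) .nil) .nil) .nil)
  .nil) .nil) .nil) .nil) .nil) .nil) .nil) .nil) .nil) .nil) .nil)) .nil) (.nd 3 (.nd 2 (.nd 1
  (.nd 2 (.nd 1 (.nd 2 (.nd 2 (.nd 3 (.nd 1 (.nd 2 (.nd 1 (.nd 2 (.nd 3 (.nd 2 (.nd 2 (.nd 1 (.nd 3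
  (.lf 2) .nil) .nil) (.nd 3 (.nd 2 (.nd 1 (.lf 2) .nil) .nil) .nil)) (.nd 3 (.nd 2 (.nd 1 (.nd 2
  (.lf 1) .nil) .nil) .nil) .nil)) .nil) .nil) (.nd 2 (.nd 1 (.nd 3 (.nd 2 (.nd 1 (.nd 2 (.nd 3
  (.lf 1) .nil) .nil) .nil) .nil) .nil) .nil) .nil)) (.nd 3 (.nd 2 (.nd 2 (.nd 1 (.nd 2 (.nd 2 (.nd
  1 (.nd 3 (.lf 1) .nil) .nil) (.nd 3 (.nd 2 (.nd 1 (.lf 2) .nil) .nil) .nil)) (.nd 3 (.nd 2 (.nd 1
  (.nd 2 (.lf 2) .nil) (.nd 2 (.nd 1 (.lf 1) .nil) .nil)) .nil) .nil)) .nil) (.nd 3 (.nd 1 (.nd 2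
  (.nd 2 (.nd 1 (.nd 2 (.lf 1) .nil) (.nd 2 (.nd 1 (.lf 1) .nil) .nil)) .nil) .nil) .nil) .nil))
  .nil) .nil)) (.nd 2 (.nd 1 (.nd 2 (.nd 1 (.nd 3 (.nd 2 (.nd 1 (.nd 2 (.nd 3 (.lf 2) .nil) .nil)
  .nil) .nil) .nil) .nil) .nil) .nil) .nil)) .nil) (.nd 3 (.nd 2 (.nd 1 (.nd 1 (.nd 2 (.nd 1 (.nd 2
  (.nd 3 (.nd 2 (.nd 2 (.nd 3 (.lf 1) .nil) .nil) .nil) .nil) .nil) .nil) .nil) (.nd 2 (.nd 1 (.nd
  2 (.nd 1 (.nd 3 (.nd 2 (.nd 2 (.nd 3 (.lf 2) .nil) .nil) .nil) .nil) .nil) (.nd 3 (.nd 2 (.nd 1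
  (.nd 3 (.nd 2 (.nd 2 (.lf 2) .nil) .nil) .nil) .nil) .nil) .nil)) .nil) .nil)) .nil) (.nd 3 (.nd
  1 (.nd 1 (.nd 2 (.nd 1 (.nd 2 (.nd 2 (.nd 3 (.nd 2 (.nd 2 (.lf 2) .nil) .nil) .nil) .nil) .nil)
  .nil) .nil) .nil) .nil) .nil)) .nil)) (.nd 3 (.nd 1 (.nd 2 (.nd 1 (.nd 1 (.nd 2 (.nd 3 (.nd 2
  (.nd 2 (.nd 3 (.nd 2 (.nd 2 (.lf 1) .nil) .nil) .nil) .nil) .nil) .nil) .nil) (.nd 2 (.nd 1 (.nd
  2 (.nd 2 (.nd 3 (.nd 2 (.nd 2 (.nd 3 (.lf 1) .nil) .nil) .nil) .nil) .nil) (.nd 3 (.nd 2 (.nd 2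
  (.nd 3 (.nd 2 (.nd 2 (.lf 1) .nil) .nil) .nil) .nil) .nil) .nil)) (.nd 3 (.nd 2 (.nd 1 (.nd 2
  (.nd 3 (.nd 2 (.nd 2 (.lf 1) .nil) .nil) .nil) .nil) .nil) .nil) .nil)) .nil)) .nil) .nil) .nil)
  .nil)) (.nd 3 (.nd 2 (.nd 1 (.nd 2 (.nd 3 (.nd 2 (.nd 1 (.nd 2 (.nd 1 (.nd 2 (.nd 1 (.nd 2 (.nd 3
  (.lf 2) .nil) .nil) .nil) (.nd 3 (.nd 2 (.nd 2 (.nd 1 (.lf 2) .nil) .nil) .nil) .nil)) .nil)
  .nil) .nil) .nil) .nil) .nil) .nil) .nil) .nil)) (.nd 3 (.nd 1 (.nd 2 (.nd 1 (.nd 2 (.nd 1 (.nd 2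
  (.nd 2 (.nd 3 (.nd 2 (.nd 1 (.nd 3 (.nd 2 (.nd 2 (.lf 2) .nil) .nil) .nil) .nil) .nil) .nil)
  .nil) .nil) .nil) .nil) .nil) .nil) .nil) .nil)) .nil) .nil) .nil)) .nil) .nil) (.nd 1 (.nd 0
  (.nd 3 (.nd 2 (.nd 1 (.nd 1 (.nd 2 (.nd 3 (.nd 1 (.nd 1 (.nd 2 (.nd 2 (.nd 3 (.nd 2 (.nd 1 (.nd 2
  (.nd 3 (.nd 2 (.nd 2 (.nd 3 (.lf 1) .nil) .nil) .nil) .nil) .nil) .nil) .nil) .nil) .nil) (.nd 3
  (.nd 2 (.nd 1 (.nd 2 (.nd 3 (.nd 2 (.nd 2 (.nd 3 (.nd 2 (.nd 2 (.lf 2) .nil) .nil) .nil) .nil)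
  .nil) .nil) .nil) .nil) .nil) .nil)) (.nd 2 (.nd 1 (.nd 2 (.nd 1 (.nd 3 (.nd 2 (.nd 2 (.nd 3 (.nd
  2 (.nd 2 (.nd 3 (.lf 1) .nil) .nil) .nil) .nil) .nil) .nil) .nil) .nil) .nil) (.nd 2 (.nd 3 (.nd
  2 (.nd 1 (.nd 2 (.nd 1 (.nd 3 (.nd 2 (.nd 2 (.nd 3 (.lf 1) .nil) .nil) .nil) .nil) .nil) .nil)
  .nil) .nil) .nil) .nil)) .nil)) (.nd 2 (.nd 2 (.nd 3 (.nd 1 (.nd 2 (.nd 1 (.nd 2 (.nd 3 (.nd 1
  (.nd 3 (.nd 2 (.nd 2 (.lf 2) .nil) .nil) .nil) (.nd 2 (.nd 1 (.nd 2 (.nd 3 (.lf 1) .nil) .nil)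
  .nil) .nil)) .nil) .nil) (.nd 2 (.nd 1 (.nd 3 (.nd 2 (.nd 1 (.nd 2 (.nd 3 (.lf 1) .nil) .nil)
  .nil) .nil) .nil) .nil) .nil)) (.nd 3 (.nd 2 (.nd 1 (.nd 2 (.nd 1 (.nd 3 (.nd 2 (.nd 2 (.lf 1)
  .nil) .nil) .nil) .nil) .nil) .nil) .nil) .nil)) (.nd 2 (.nd 1 (.nd 2 (.nd 1 (.nd 3 (.nd 2 (.nd 1
  (.nd 2 (.nd 3 (.lf 2) .nil) .nil) .nil) .nil) .nil) .nil) .nil) .nil) .nil)) .nil) (.nd 3 (.nd 2
  (.nd 1 (.nd 2 (.nd 1 (.nd 2 (.nd 3 (.nd 2 (.nd 1 (.nd 2 (.nd 3 (.lf 1) .nil) .nil) .nil) .nil)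
  .nil) (.nd 3 (.nd 1 (.nd 2 (.nd 3 (.nd 2 (.nd 2 (.lf 1) .nil) .nil) .nil) .nil) (.nd 2 (.nd 1
  (.nd 3 (.nd 2 (.nd 2 (.lf 1) .nil) .nil) .nil) .nil) .nil)) .nil)) .nil) (.nd 3 (.nd 2 (.nd 1
  (.nd 1 (.nd 2 (.nd 3 (.nd 2 (.nd 2 (.lf 2) .nil) .nil) .nil) .nil) (.nd 2 (.nd 3 (.nd 2 (.nd 2
  (.nd 1 (.lf 2) .nil) .nil) .nil) .nil) .nil)) (.nd 2 (.nd 1 (.nd 3 (.nd 2 (.nd 1 (.nd 2 (.lf 1)
  .nil) .nil) .nil) .nil) .nil) .nil)) .nil) .nil)) (.nd 3 (.nd 2 (.nd 1 (.nd 2 (.nd 1 (.nd 3 (.nd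
  2 (.nd 1 (.nd 2 (.lf 1) .nil) .nil) .nil) .nil) .nil) .nil) .nil) .nil) .nil)) (.nd 3 (.nd 2 (.nd
  2 (.nd 1 (.nd 1 (.nd 2 (.nd 2 (.nd 3 (.nd 2 (.nd 1 (.lf 2) .nil) .nil) .nil) (.nd 3 (.nd 2 (.nd 1
  (.nd 2 (.lf 1) .nil) .nil) .nil) .nil)) .nil) .nil) .nil) .nil) .nil) .nil)) .nil)) .nil)) .nil)
  (.nd 3 (.nd 2 (.nd 1 (.nd 2 (.nd 1 (.nd 3 (.nd 2 (.nd 1 (.nd 3 (.nd 2 (.nd 2 (.nd 3 (.nd 2 (.nd 2
  (.lf 1) .nil) .nil) .nil) .nil) .nil) .nil) .nil) .nil) .nil) .nil) .nil) .nil) .nil) .nil)) (.nd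
  2 (.nd 3 (.nd 2 (.nd 1 (.nd 1 (.nd 2 (.nd 3 (.nd 2 (.nd 1 (.nd 2 (.nd 3 (.nd 2 (.nd 3 (.nd 1 (.nd
  2 (.lf 1) .nil) (.nd 2 (.nd 1 (.lf 2) .nil) .nil)) .nil) (.nd 3 (.nd 2 (.nd 1 (.nd 2 (.lf 2)
  .nil) (.nd 2 (.nd 1 (.lf 1) .nil) .nil)) .nil) .nil)) .nil) .nil) (.nd 2 (.nd 1 (.nd 3 (.nd 2
  (.nd 1 (.nd 2 (.nd 3 (.lf 2) .nil) .nil) .nil) .nil) .nil) .nil) .nil)) (.nd 3 (.nd 1 (.nd 2 (.nd
  1 (.nd 2 (.nd 3 (.nd 2 (.nd 2 (.lf 1) .nil) .nil) .nil) .nil) (.nd 2 (.nd 3 (.nd 2 (.nd 1 (.nd 2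
  (.lf 2) .nil) .nil) .nil) .nil) .nil)) .nil) .nil) .nil)) .nil) .nil) (.nd 2 (.nd 1 (.nd 3 (.nd 2
  (.nd 1 (.nd 2 (.nd 1 (.nd 3 (.nd 2 (.nd 2 (.nd 3 (.lf 2) .nil) .nil) .nil) .nil) .nil) .nil)
  .nil) .nil) .nil) .nil) .nil)) .nil) (.nd 3 (.nd 1 (.nd 2 (.nd 1 (.nd 2 (.nd 1 (.nd 2 (.nd 2 (.nd
  3 (.nd 2 (.nd 1 (.nd 2 (.nd 3 (.lf 2) .nil) .nil) .nil) .nil) .nil) .nil) .nil) .nil) .nil) .nil)
  .nil) .nil) .nil)) .nil) .nil)) (.nd 2 (.nd 1 (.nd 3 (.nd 2 (.nd 1 (.nd 2 (.nd 1 (.nd 3 (.nd 2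
  (.nd 1 (.nd 2 (.nd 1 (.nd 3 (.nd 2 (.nd 2 (.nd 3 (.lf 2) .nil) .nil) .nil) .nil) .nil) .nil)
  .nil) .nil) .nil) .nil) .nil) .nil) .nil) .nil) .nil) .nil)) (.nd 3 (.nd 1 (.nd 2 (.nd 1 (.nd 2
  (.nd 1 (.nd 2 (.nd 1 (.nd 2 (.nd 3 (.nd 2 (.nd 1 (.nd 2 (.nd 3 (.nd 2 (.nd 2 (.nd 3 (.lf 2) .nil)
  .nil) .nil) .nil) .nil) .nil) .nil) .nil) (.nd 3 (.nd 2 (.nd 1 (.nd 3 (.nd 2 (.nd 2 (.nd 3 (.nd 2
  (.nd 2 (.lf 1) .nil) .nil) .nil) .nil) .nil) .nil) .nil) .nil) .nil)) (.nd 2 (.nd 3 (.nd 1 (.nd 2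
  (.nd 1 (.nd 2 (.nd 3 (.nd 2 (.nd 2 (.nd 3 (.lf 2) .nil) .nil) .nil) .nil) .nil) .nil) .nil) (.nd
  2 (.nd 1 (.nd 2 (.nd 1 (.nd 3 (.nd 2 (.nd 2 (.nd 3 (.lf 2) .nil) .nil) .nil) .nil) .nil) .nil)
  .nil) .nil)) .nil) .nil)) .nil) .nil) .nil) .nil) .nil) .nil) .nil)) .nil) (.nd 2 (.nd 1 (.nd 2
  (.nd 3 (.nd 1 (.nd 3 (.nd 1 (.nd 2 (.nd 2 (.nd 2 (.nd 3 (.nd 1 (.nd 0 (.nd 1 (.nd 2 (.nd 3 (.nd 2
  (.nd 2 (.nd 3 (.lf 1) .nil) .nil) .nil) .nil) .nil) (.nd 2 (.nd 1 (.nd 3 (.nd 2 (.nd 2 (.nd 3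
  (.lf 1) .nil) .nil) .nil) .nil) .nil) .nil)) .nil) (.nd 2 (.nd 1 (.nd 3 (.nd 2 (.nd 3 (.nd 0 (.nd
  1 (.nd 2 (.lf 1) .nil) .nil) (.nd 1 (.nd 2 (.nd 0 (.lf 1) .nil) .nil) .nil)) .nil) .nil) .nil)
  .nil) .nil)) .nil) (.nd 3 (.nd 1 (.nd 0 (.nd 2 (.nd 2 (.nd 3 (.nd 2 (.nd 2 (.nd 1 (.nd 3 (.lf 1)
  .nil) .nil) .nil) .nil) .nil) .nil) .nil) (.nd 1 (.nd 0 (.nd 2 (.nd 2 (.nd 3 (.nd 2 (.nd 2 (.nd 3
  (.lf 2) .nil) .nil) .nil) .nil) .nil) (.nd 3 (.nd 2 (.nd 2 (.nd 3 (.nd 2 (.nd 2 (.lf 1) .nil)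
  .nil) .nil) .nil) .nil) .nil)) .nil) .nil)) (.nd 2 (.nd 0 (.nd 1 (.nd 1 (.nd 2 (.nd 3 (.nd 2 (.nd
  2 (.nd 3 (.lf 2) .nil) .nil) .nil) .nil) .nil) (.nd 2 (.nd 3 (.nd 2 (.nd 1 (.nd 2 (.nd 3 (.lf 1)
  .nil) .nil) .nil) .nil) .nil) .nil)) (.nd 2 (.nd 1 (.nd 3 (.nd 2 (.nd 1 (.nd 2 (.nd 3 (.lf 1)
  .nil) .nil) .nil) .nil) .nil) .nil) .nil)) (.nd 1 (.nd 0 (.nd 2 (.nd 1 (.nd 3 (.nd 2 (.nd 2 (.nd
  3 (.lf 2) .nil) .nil) .nil) .nil) .nil) .nil) .nil) .nil)) .nil)) .nil)) (.nd 3 (.nd 0 (.nd 1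
  (.nd 2 (.nd 2 (.nd 3 (.nd 2 (.nd 1 (.nd 3 (.nd 2 (.nd 2 (.lf 1) .nil) .nil) .nil) .nil) .nil)
  .nil) (.nd 3 (.nd 2 (.nd 2 (.nd 1 (.nd 3 (.nd 2 (.nd 2 (.lf 2) .nil) .nil) .nil) .nil) .nil)
  .nil) .nil)) (.nd 3 (.nd 2 (.nd 1 (.nd 2 (.nd 2 (.nd 3 (.nd 2 (.nd 2 (.lf 1) .nil) .nil) .nil)
  .nil) .nil) .nil) .nil) .nil)) .nil) (.nd 1 (.nd 0 (.nd 1 (.nd 2 (.nd 3 (.nd 2 (.nd 2 (.nd 3 (.nd
  2 (.nd 2 (.lf 1) .nil) .nil) .nil) .nil) .nil) .nil) .nil) (.nd 2 (.nd 1 (.nd 2 (.nd 2 (.nd 3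
  (.nd 2 (.nd 2 (.nd 3 (.lf 1) .nil) .nil) .nil) .nil) .nil) .nil) .nil) .nil)) .nil) .nil)) .nil))
  (.nd 3 (.nd 2 (.nd 1 (.nd 0 (.nd 1 (.nd 2 (.nd 3 (.nd 2 (.nd 2 (.nd 3 (.nd 2 (.nd 2 (.lf 2) .nil)
  .nil) .nil) .nil) .nil) .nil) .nil) (.nd 2 (.nd 1 (.nd 2 (.nd 2 (.nd 3 (.nd 2 (.nd 2 (.nd 3 (.lf
  2) .nil) .nil) .nil) .nil) .nil) .nil) (.nd 3 (.nd 2 (.nd 1 (.nd 2 (.nd 3 (.nd 2 (.nd 2 (.lf 2)
  .nil) .nil) .nil) .nil) .nil) .nil) .nil)) .nil)) .nil) (.nd 2 (.nd 0 (.nd 1 (.nd 2 (.nd 3 (.nd 2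
  (.nd 3 (.nd 2 (.nd 1 (.nd 2 (.lf 1) .nil) .nil) .nil) .nil) .nil) .nil) (.nd 3 (.nd 1 (.nd 2 (.nd
  2 (.nd 3 (.nd 2 (.nd 2 (.lf 2) .nil) .nil) .nil) .nil) .nil) .nil) .nil)) (.nd 3 (.nd 2 (.nd 1
  (.nd 2 (.nd 1 (.nd 3 (.nd 2 (.nd 2 (.lf 2) .nil) .nil) .nil) .nil) .nil) .nil) .nil) .nil)) (.nd
  1 (.nd 0 (.nd 3 (.nd 2 (.nd 1 (.nd 2 (.nd 3 (.nd 2 (.nd 2 (.lf 2) .nil) .nil) .nil) .nil) .nil)
  .nil) .nil) .nil) .nil)) .nil)) .nil) .nil)) (.nd 2 (.nd 0 (.nd 2 (.nd 3 (.nd 2 (.nd 1 (.nd 2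
  (.nd 1 (.nd 3 (.nd 2 (.nd 1 (.nd 2 (.nd 3 (.lf 1) .nil) .nil) .nil) .nil) .nil) .nil) .nil) .nil)
  .nil) .nil) (.nd 3 (.nd 2 (.nd 1 (.nd 1 (.nd 2 (.nd 1 (.nd 2 (.nd 3 (.nd 2 (.nd 2 (.nd 3 (.lf 1)
  .nil) .nil) .nil) .nil) .nil) (.nd 2 (.nd 3 (.nd 2 (.nd 1 (.nd 2 (.nd 3 (.lf 1) .nil) .nil) .nil)
  .nil) .nil) .nil)) (.nd 3 (.nd 2 (.nd 1 (.nd 2 (.nd 3 (.nd 2 (.nd 2 (.lf 1) .nil) .nil) .nil)
  .nil) .nil) .nil) .nil)) (.nd 2 (.nd 1 (.nd 3 (.nd 2 (.nd 1 (.nd 3 (.nd 2 (.nd 2 (.lf 2) .nil)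
  .nil) .nil) .nil) .nil) .nil) .nil) .nil)) .nil) (.nd 3 (.nd 1 (.nd 1 (.nd 2 (.nd 1 (.nd 2 (.nd 2
  (.nd 3 (.nd 2 (.nd 2 (.lf 2) .nil) .nil) .nil) .nil) .nil) .nil) .nil) .nil) .nil) .nil)) .nil))
  (.nd 1 (.nd 0 (.nd 2 (.nd 1 (.nd 3 (.nd 2 (.nd 2 (.nd 3 (.nd 2 (.nd 1 (.nd 2 (.nd 3 (.lf 2) .nil)
  .nil) (.nd 2 (.nd 1 (.nd 3 (.lf 1) .nil) .nil) .nil)) .nil) .nil) .nil) (.nd 3 (.nd 2 (.nd 2 (.nd
  1 (.nd 3 (.nd 2 (.nd 2 (.lf 2) .nil) .nil) .nil) .nil) .nil) .nil) .nil)) .nil) .nil) .nil) .nil)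
  .nil)) .nil)) .nil) (.nd 2 (.nd 3 (.nd 0 (.nd 1 (.nd 1 (.nd 2 (.nd 1 (.nd 2 (.nd 3 (.nd 1 (.nd 2
  (.nd 3 (.nd 2 (.nd 2 (.nd 3 (.lf 1) .nil) .nil) .nil) .nil) .nil) (.nd 2 (.nd 1 (.nd 3 (.nd 2
  (.nd 2 (.nd 3 (.lf 2) .nil) .nil) .nil) .nil) .nil) .nil)) .nil) .nil) .nil) .nil) (.nd 2 (.nd 3
  (.nd 1 (.nd 1 (.nd 2 (.nd 2 (.nd 3 (.nd 2 (.nd 1 (.nd 2 (.nd 3 (.lf 1) .nil) .nil) .nil) .nil)
  .nil) (.nd 3 (.nd 1 (.nd 2 (.nd 3 (.nd 2 (.nd 2 (.lf 1) .nil) .nil) .nil) .nil) (.nd 2 (.nd 1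
  (.nd 3 (.nd 2 (.nd 2 (.lf 2) .nil) .nil) .nil) .nil) .nil)) .nil)) (.nd 3 (.nd 2 (.nd 1 (.nd 2
  (.nd 3 (.nd 2 (.nd 2 (.lf 2) .nil) .nil) .nil) .nil) .nil) .nil) .nil)) (.nd 2 (.nd 1 (.nd 3 (.nd
  2 (.nd 3 (.nd 2 (.nd 1 (.nd 2 (.lf 1) .nil) .nil) .nil) .nil) (.nd 3 (.nd 2 (.nd 2 (.nd 1 (.nd 2
  (.lf 2) .nil) (.nd 2 (.nd 1 (.lf 2) .nil) .nil)) .nil) .nil) .nil)) .nil) .nil) .nil)) (.nd 2
  (.nd 1 (.nd 2 (.nd 1 (.nd 3 (.nd 2 (.nd 1 (.nd 2 (.nd 3 (.lf 2) .nil) .nil) .nil) .nil) .nil)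
  .nil) .nil) .nil) .nil)) .nil) .nil)) .nil) (.nd 1 (.nd 1 (.nd 1 (.nd 3 (.nd 2 (.nd 0 (.nd 2 (.nd
  2 (.nd 1 (.nd 3 (.nd 2 (.nd 2 (.nd 3 (.lf 2) .nil) .nil) .nil) .nil) .nil) (.nd 3 (.nd 1 (.nd 2
  (.nd 3 (.nd 2 (.nd 2 (.lf 1) .nil) .nil) .nil) .nil) (.nd 2 (.nd 1 (.nd 3 (.nd 2 (.nd 2 (.lf 2)
  .nil) .nil) .nil) .nil) .nil)) .nil)) .nil) (.nd 1 (.nd 0 (.nd 2 (.nd 2 (.nd 3 (.nd 2 (.nd 2 (.nd
  3 (.lf 1) .nil) .nil) .nil) .nil) .nil) (.nd 3 (.nd 2 (.nd 2 (.nd 3 (.nd 2 (.nd 2 (.lf 2) .nil)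
  .nil) .nil) .nil) .nil) .nil)) .nil) .nil)) .nil) .nil) (.nd 2 (.nd 3 (.nd 0 (.nd 2 (.nd 2 (.nd 1
  (.nd 3 (.nd 1 (.nd 3 (.nd 2 (.nd 2 (.lf 2) .nil) .nil) .nil) (.nd 2 (.nd 3 (.nd 2 (.nd 1 (.lf 2)
  .nil) .nil) .nil) .nil)) .nil) .nil) .nil) (.nd 3 (.nd 2 (.nd 1 (.nd 1 (.nd 2 (.nd 3 (.nd 2 (.nd
  2 (.lf 1) .nil) .nil) .nil) .nil) (.nd 2 (.nd 1 (.nd 3 (.nd 2 (.nd 2 (.lf 2) .nil) .nil) .nil)
  .nil) .nil)) .nil) .nil) .nil)) (.nd 1 (.nd 0 (.nd 2 (.nd 1 (.nd 2 (.nd 3 (.nd 2 (.nd 2 (.nd 3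
  (.lf 1) .nil) .nil) .nil) .nil) .nil) .nil) (.nd 3 (.nd 2 (.nd 1 (.nd 2 (.nd 3 (.nd 2 (.nd 2 (.lf
  2) .nil) .nil) .nil) .nil) .nil) .nil) .nil)) .nil) .nil)) .nil) .nil)) (.nd 2 (.nd 3 (.nd 0 (.nd
  1 (.nd 1 (.nd 2 (.nd 1 (.nd 2 (.nd 3 (.nd 2 (.nd 2 (.nd 3 (.lf 2) .nil) .nil) .nil) .nil) .nil)
  .nil) (.nd 3 (.nd 2 (.nd 1 (.nd 2 (.nd 3 (.nd 2 (.nd 2 (.lf 1) .nil) .nil) .nil) .nil) .nil)
  .nil) .nil)) (.nd 2 (.nd 1 (.nd 3 (.nd 2 (.nd 3 (.nd 2 (.nd 1 (.nd 2 (.lf 1) .nil) .nil) .nil)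
  .nil) (.nd 3 (.nd 2 (.nd 2 (.nd 1 (.nd 2 (.lf 2) .nil) (.nd 2 (.nd 1 (.lf 2) .nil) .nil)) .nil)
  .nil) .nil)) .nil) .nil) .nil)) (.nd 2 (.nd 1 (.nd 2 (.nd 1 (.nd 3 (.nd 2 (.nd 1 (.nd 2 (.nd 3
  (.lf 1) .nil) .nil) .nil) .nil) .nil) .nil) .nil) .nil) .nil)) (.nd 1 (.nd 0 (.nd 1 (.nd 2 (.nd 1
  (.nd 2 (.nd 3 (.nd 2 (.nd 2 (.nd 3 (.lf 1) .nil) .nil) .nil) .nil) .nil) (.nd 2 (.nd 3 (.nd 2
  (.nd 1 (.nd 2 (.nd 3 (.lf 1) .nil) .nil) .nil) .nil) .nil) .nil)) (.nd 3 (.nd 2 (.nd 2 (.nd 1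
  (.nd 3 (.nd 2 (.nd 2 (.lf 1) .nil) .nil) .nil) .nil) .nil) .nil) .nil)) (.nd 2 (.nd 1 (.nd 2 (.nd
  3 (.nd 1 (.nd 3 (.nd 2 (.nd 2 (.lf 1) .nil) .nil) .nil) (.nd 2 (.nd 1 (.nd 2 (.nd 3 (.lf 1) .nil)
  .nil) .nil) .nil)) .nil) .nil) .nil) .nil)) (.nd 2 (.nd 1 (.nd 0 (.nd 2 (.nd 1 (.nd 3 (.nd 2 (.nd
  2 (.nd 3 (.lf 1) .nil) .nil) .nil) .nil) .nil) .nil) .nil) .nil) .nil)) .nil)) .nil) .nil))
  .nil)) .nil) .nil)) .nil) .nil) .nil) .nil)) .nil))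

def sN3 : List ℕ :=
  [579087, 1, 1685091, 2, 2252005, 1, 2702406, 1, 2862579, 2, 2926737, 1, 3865797, 1, 4903463, 2,
  5003695, 2, 5764785, 1, 6004434, 2, 6493167, 2, 6567093, 2, 6714279, 1, 6788871, 1, 7465157, 2,
  7632471, 1, 7863758, 1, 8329847, 2, 8516541, 1, 9763967, 1, 10485171, 2, 11381755, 2, 12148506,
  2, 12611228, 2, 12700105, 1, 12965799, 2, 13256397, 1, 13358702, 1, 13774878, 2, 14467629, 1,
  14896089, 2, 15033655, 2, 15240126, 2, 15701948, 2, 15870114, 2, 16775005, 1, 16933161, 2,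
  16958469, 2, 17472362, 1, 19109649, 2, 19755003, 1, 22209803, 1, 23225085, 1, 25251205, 2,
  25288945, 1, 25538695, 1, 26111085, 2, 26902330, 2, 27196554, 2, 27870102, 2, 28020692, 2,
  28496845, 2, 29335943, 1, 29454183, 2, 30018430, 1, 30510903, 2, 30646434, 1, 31266332, 1,
  31333302, 1, 31681398, 1, 32282796, 2, 32816817, 1, 33190443, 2, 33403045, 2, 33811266, 2,
  33934329, 2, 34196214, 2, 34311321, 1, 35351058, 1, 36022116, 1, 37729307, 2, 38904723, 2,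
  40083654, 2, 43346277, 1, 44225027, 1, 45320301, 2, 45854655, 1, 47244190, 2, 48930798, 2,
  49273973, 2, 49347617, 2, 51517949, 1, 52495898, 1, 52716490, 1, 52992621, 1, 53568970, 2,
  54598458, 1, 54981383, 1, 55025586, 2, 55607357, 2, 56693028, 1, 57929235, 1, 58015815, 1,
  59773870, 2, 60507062, 2, 61717110, 1, 63737828, 1, 64639185, 2, 65181077, 1, 65529849, 2,
  66998547, 1, 67515602, 1, 67571361, 2, 69028806, 1, 69515082, 2, 69618978, 1, 69995601, 1,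
  71728644, 2, 73120179, 1, 74060532, 1, 75285639, 2, 75335942, 2, 75980905, 1, 77567022, 2,
  78450138, 1, 78714207, 1, 79139522, 2, 80208414, 2, 81099486, 2, 84188468, 1, 85709019, 2,
  86555469, 1, 88306262, 2, 88495407, 1, 88783979, 2, 89178362, 2, 89478543, 1, 90319775, 1,
  91177086, 1, 91956618, 1, 95493981, 2, 98387738, 1, 99842853, 2, 100597343, 2, 100781525, 2,
  102868394, 2, 104531882, 1, 108383730, 1, 113040291, 2, 114373105, 2, 114544045, 2, 120937830, 1,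
  121571307, 1, 126133761, 2, 126917252, 1, 127620955, 1, 129073945, 2, 130060476, 2, 131966835, 1,
  133410123, 1, 135965830, 1, 136714149, 1, 137128290, 2, 137247726, 1, 141406748, 2, 141618092, 1,
  142384214, 1, 142403305, 1, 143016692, 1, 144024595, 1, 145125396, 2, 147846524, 2, 148640877, 2,
  148863033, 1, 150333183, 1, 151296145, 1, 153145146, 2, 154203753, 1, 154888734, 2, 157785908, 1,
  158021732, 1, 158360202, 1, 158876594, 2, 159714126, 2, 160119498, 2, 163158996, 2, 164971604, 1,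
  165857967, 1, 167746293, 2, 168568855, 1, 170883966, 2, 170891567, 2, 173411271, 2, 176062268, 1,
  177947874, 1, 178066772, 1, 178666158, 2, 179591230, 2, 180016298, 2, 186051762, 2, 188094205, 1,
  189583524, 2, 190685957, 2, 196333137, 2, 196626573, 1, 196660165, 2, 202584954, 2, 203680893, 1,
  204585654, 2, 208723892, 1, 209170962, 1, 215509476, 2, 223182113, 2, 225713046, 2, 229952965, 1,
  237775538, 1, 238774690, 1, 247298898, 1, 251868617, 2, 258595755, 2, 260374499, 1, 260549905, 1,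
  266431990, 2, 270740470, 2, 278102286, 1, 284305484, 1, 286529628, 2, 287350362, 2, 292777485, 1,
  293215065, 1, 295231937, 2, 296811669, 1, 301649530, 2, 302100370, 2, 305083870, 1, 310314906, 2,
  311921610, 1, 315333018, 1, 315386890, 2, 319718388, 2, 321373780, 2, 323142534, 1, 324403716, 1,
  331191399, 1, 336589630, 1, 340421770, 2, 341227502, 1, 343917119, 1, 344148805, 1, 351332982, 1,
  351858078, 1, 355332978, 1, 357609070, 2, 358455482, 2, 361979436, 1, 366100644, 2, 367332966, 1,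
  374305932, 1, 377506116, 2, 378464268, 1, 387632091, 1, 392027922, 1, 396491238, 2, 397825857, 2,
  399378518, 2, 399975422, 1, 403907556, 1, 403925522, 2, 408506124, 2, 409881186, 2, 422301828, 2,
  425493068, 1, 437456019, 2, 456481025, 2, 464060142, 1, 464753718, 1, 465933314, 1, 478837164, 2,
  487103890, 1, 494404092, 1, 505790740, 1, 509355275, 1, 518817145, 2, 527521358, 2, 527539155, 1,
  528309782, 2, 531167819, 1, 531666135, 2, 547777230, 2, 564376540, 2, 571311741, 2, 578911795, 1,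
  584629045, 1, 588624218, 1, 595325822, 1, 611226330, 1, 614427957, 1, 615430634, 1, 615845230, 1,
  633046986, 1, 639932020, 2, 640489388, 1, 644916734, 1, 645003205, 2, 652230228, 2, 652346695, 2,
  657332676, 2, 673255737, 2, 692019510, 2, 693053790, 1, 693657426, 1, 697820942, 1, 698452293, 1,
  701554854, 1, 714055420, 1, 714677348, 1, 725247138, 2, 733471596, 1, 737269260, 1, 745332588, 1,
  751239027, 2, 763517755, 1, 763791444, 1, 764658895, 2, 774003846, 2, 779354103, 1, 782816034, 1,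
  785451051, 2, 797458508, 2, 802970894, 2, 806537732, 2, 813442630, 1, 831664548, 1, 839877948, 1,
  847258412, 1, 851956105, 1, 868241556, 2, 890754865, 2, 916221306, 2, 922554633, 2, 926611452, 1,
  937161108, 2, 940315662, 2, 945396452, 2, 950510834, 2, 954733052, 2, 968810076, 2, 992278287, 2,
  1012394537, 1, 1022347326, 2, 1033986954, 2, 1037467431, 2, 1041551665, 1, 1049699805, 1,
  1065319892, 1, 1068905838, 2, 1078955150, 1, 1081508890, 2, 1098508788, 1, 1101296924, 2,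
  1120118538, 2, 1127974463, 1, 1154061524, 2, 1162194715, 1, 1203930650, 2, 1206780190, 1,
  1213101351, 1, 1226295070, 2, 1246910730, 2, 1248732212, 1, 1249861998, 1, 1256665410, 2,
  1287736604, 1, 1294746180, 1, 1326109785, 1, 1350373206, 1, 1366294930, 2, 1368336970, 1,
  1375739365, 2, 1381850470, 1, 1394633658, 1, 1428517090, 2, 1436895284, 1, 1452284262, 1,
  1455634180, 1, 1496292876, 2, 1524348644, 1, 1524553030, 1, 1535091415, 2, 1541910370, 2,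
  1591331742, 2, 1602331731, 1, 1638127140, 1, 1639553916, 2, 1658220564, 1, 1700914124, 1,
  1714220508, 1, 1775655882, 2, 1787930001, 2, 1804678330, 2, 1807375570, 2, 1808949758, 1,
  1821454019, 1, 1829463636, 1, 1842109698, 1, 1850292444, 1, 1856520666, 2, 1897931204, 2,
  1922682580, 1, 1959113541, 1, 2013714430, 2, 2032433249, 2, 2048333133, 1, 2067590525, 1,
  2105420590, 1, 2110403834, 2, 2180583678, 1, 2222564292, 2, 2307079775, 2, 2345385042, 2,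
  2389442055, 2, 2392932542, 1, 2416457316, 1, 2443969164, 2, 2452195746, 2, 2481108630, 1,
  2526504708, 1, 2556293740, 1, 2587706121, 1, 2618216755, 2, 2647552908, 1, 2666121458, 2,
  2666211405, 2, 2684550869, 1, 2747005690, 2, 2787538754, 1, 2852389540, 2, 2867330466, 1,
  2898515620, 2, 2921485105, 1, 2954219268, 2, 2970300060, 2, 3134441310, 1, 3163578033, 2,
  3229424380, 1, 3234251020, 1, 3251747590, 1, 3266192020, 1, 3296406828, 2, 3376494940, 1,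
  3432671892, 1, 3530015643, 1, 3628397890, 1, 3644515420, 2, 3761329572, 2, 3787329546, 1,
  3902097108, 2, 4197004812, 2, 4226016366, 2, 4271978620, 2, 4275699428, 2, 4305254954, 2,
  4354077468, 1, 4388139756, 2, 4630632006, 1, 4662640983, 1, 4803933134, 2, 4841514678, 1,
  4887032150, 1, 4988227244, 1, 5109060803, 2, 5264058415, 1, 5453097650, 2, 5543637372, 2,
  5647772130, 2, 5656022372, 1, 5796099036, 2, 5818916740, 2, 5864438580, 1, 6116396286, 1,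
  6188512330, 2, 6231290065, 2, 6301954230, 2, 6345302054, 2, 6588727964, 2, 6777326556, 1,
  6905328430, 1, 6953061115, 2, 7408679460, 1, 7477548078, 2, 8343673338, 1, 8951869836, 1,
  9205727069, 2, 9988765956, 2, 10945130196, 1, 11020787778, 1, 11354751044, 2, 11443580148, 1,
  11551166900, 1, 12075961898, 2, 12442319890, 1, 12889139900, 2, 13349279580, 2, 14456936676, 1,
  14627392780, 2, 14728503790, 2, 14895528180, 2, 16321685380, 1, 16434508090, 2, 17674204548, 2,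
  19721409708, 1, 21758991254, 2, 26049134748, 1, 28543182668, 2, 29409119740, 1, 34812827140, 2,
  38845200940, 2, 51430342964, 2]

noncomputable def sL3 : PL := ofL sN3 PL.nil none

theorem sub3_ok : (valT env0 sT3 true).beq sL3 = true := by decide +kernel

end Pool.Agent.MP_2042ac_al

end

-- part MP_2042ac_al.Sub4
section

/-!
Certificate, part 4.
-/

set_option autoImplicit false
set_option maxRecDepth 100000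

namespace Pool.Agent.MP_2042ac_al

def sT4 : HT :=
  (.nd 2 (.nd 3 (.nd 0 (.nd 0 (.nd 2 (.nd 1 (.nd 3 (.nd 1 (.nd 2 (.nd 1 (.nd 1 (.nd 3 (.nd 2 (.nd 2
  (.nd 3 (.nd 2 (.nd 1 (.nd 3 (.nd 2 (.nd 2 (.lf 1) .nil) .nil) .nil) .nil) .nil) .nil) (.nd 3 (.nd
  2 (.nd 1 (.nd 2 (.nd 3 (.nd 2 (.nd 2 (.lf 1) .nil) .nil) .nil) .nil) .nil) .nil) .nil)) .nil)
  .nil) (.nd 2 (.nd 3 (.nd 1 (.nd 1 (.nd 2 (.nd 2 (.nd 3 (.nd 2 (.nd 2 (.nd 3 (.lf 2) .nil) .nil)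
  .nil) .nil) .nil) (.nd 3 (.nd 2 (.nd 2 (.nd 3 (.nd 2 (.nd 2 (.lf 2) .nil) .nil) .nil) .nil) .nil)
  .nil)) (.nd 2 (.nd 2 (.nd 3 (.nd 2 (.nd 1 (.nd 2 (.nd 3 (.lf 1) .nil) .nil) .nil) .nil) .nil)
  (.nd 3 (.nd 2 (.nd 1 (.nd 3 (.nd 2 (.nd 2 (.lf 1) .nil) .nil) .nil) .nil) .nil) .nil)) .nil))
  (.nd 2 (.nd 1 (.nd 2 (.nd 1 (.nd 3 (.nd 2 (.nd 2 (.nd 3 (.lf 1) .nil) .nil) .nil) .nil) .nil)
  .nil) .nil) .nil)) .nil) .nil)) (.nd 2 (.nd 1 (.nd 3 (.nd 2 (.nd 1 (.nd 2 (.nd 1 (.nd 3 (.nd 2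
  (.nd 2 (.nd 3 (.lf 1) .nil) .nil) .nil) .nil) .nil) .nil) .nil) .nil) .nil) .nil) .nil)) (.nd 3
  (.nd 2 (.nd 1 (.nd 2 (.nd 1 (.nd 2 (.nd 1 (.nd 2 (.nd 3 (.nd 2 (.nd 2 (.nd 3 (.lf 2) .nil) .nil)
  .nil) .nil) .nil) (.nd 2 (.nd 3 (.nd 2 (.nd 1 (.nd 2 (.nd 3 (.lf 2) .nil) .nil) (.nd 2 (.nd 1
  (.nd 3 (.lf 1) .nil) .nil) .nil)) .nil) .nil) .nil)) .nil) .nil) .nil) .nil) .nil) .nil)) (.nd 2
  (.nd 1 (.nd 2 (.nd 1 (.nd 3 (.nd 2 (.nd 1 (.nd 2 (.nd 1 (.nd 3 (.nd 2 (.nd 2 (.nd 3 (.lf 1) .nil)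
  .nil) .nil) .nil) .nil) .nil) .nil) .nil) .nil) .nil) .nil) .nil) (.nd 3 (.nd 2 (.nd 1 (.nd 2
  (.nd 1 (.nd 3 (.nd 2 (.nd 1 (.nd 2 (.nd 1 (.nd 3 (.nd 2 (.nd 2 (.lf 2) .nil) .nil) .nil) .nil)
  .nil) .nil) .nil) .nil) .nil) .nil) .nil) .nil) .nil))) .nil) .nil) .nil) (.nd 1 (.nd 0 (.nd 2
  (.nd 3 (.nd 1 (.nd 1 (.nd 2 (.nd 1 (.nd 2 (.nd 3 (.nd 1 (.nd 3 (.nd 2 (.nd 2 (.nd 3 (.nd 2 (.nd 2
  (.lf 2) .nil) .nil) .nil) .nil) .nil) .nil) (.nd 2 (.nd 1 (.nd 2 (.nd 3 (.nd 2 (.nd 2 (.nd 3 (.lf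
  1) .nil) .nil) .nil) .nil) .nil) .nil) .nil)) .nil) .nil) (.nd 2 (.nd 3 (.nd 2 (.nd 1 (.nd 2 (.nd
  1 (.nd 3 (.nd 2 (.nd 2 (.nd 3 (.lf 2) .nil) .nil) .nil) .nil) .nil) .nil) .nil) .nil) .nil)
  .nil)) .nil) (.nd 2 (.nd 1 (.nd 2 (.nd 3 (.nd 1 (.nd 1 (.nd 2 (.nd 2 (.nd 3 (.nd 2 (.nd 2 (.nd 3
  (.lf 2) .nil) .nil) .nil) .nil) .nil) (.nd 3 (.nd 2 (.nd 2 (.nd 3 (.nd 2 (.nd 2 (.lf 2) .nil)
  .nil) .nil) .nil) .nil) .nil)) (.nd 2 (.nd 2 (.nd 3 (.nd 2 (.nd 1 (.nd 2 (.nd 3 (.lf 1) .nil)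
  .nil) .nil) .nil) .nil) (.nd 3 (.nd 2 (.nd 1 (.nd 3 (.nd 2 (.nd 2 (.lf 1) .nil) .nil) .nil) .nil)
  .nil) .nil)) .nil)) (.nd 2 (.nd 1 (.nd 2 (.nd 1 (.nd 3 (.nd 2 (.nd 2 (.nd 3 (.lf 2) .nil) .nil)
  .nil) .nil) .nil) .nil) .nil) .nil)) .nil) .nil) (.nd 2 (.nd 3 (.nd 2 (.nd 1 (.nd 2 (.nd 1 (.nd 3
  (.nd 2 (.nd 1 (.nd 2 (.nd 3 (.lf 2) .nil) .nil) .nil) .nil) .nil) .nil) .nil) .nil) .nil) .nil)
  .nil)) .nil)) (.nd 2 (.nd 1 (.nd 2 (.nd 3 (.nd 1 (.nd 2 (.nd 1 (.nd 2 (.nd 1 (.nd 3 (.nd 2 (.nd 2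
  (.nd 3 (.lf 1) .nil) .nil) .nil) .nil) .nil) .nil) .nil) .nil) (.nd 2 (.nd 1 (.nd 2 (.nd 1 (.nd 3
  (.nd 2 (.nd 1 (.nd 2 (.nd 3 (.lf 1) .nil) .nil) .nil) .nil) .nil) .nil) .nil) .nil) .nil)) .nil)
  .nil) .nil) .nil)) .nil) (.nd 3 (.nd 1 (.nd 1 (.nd 2 (.nd 1 (.nd 2 (.nd 3 (.nd 1 (.nd 2 (.nd 3
  (.nd 2 (.nd 2 (.nd 3 (.nd 2 (.nd 2 (.lf 2) .nil) .nil) .nil) .nil) .nil) .nil) .nil) (.nd 2 (.nd
  1 (.nd 3 (.nd 2 (.nd 2 (.nd 3 (.nd 2 (.nd 2 (.lf 2) .nil) .nil) .nil) .nil) .nil) .nil) .nil)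
  .nil)) .nil) .nil) .nil) .nil) .nil) .nil) .nil)) (.nd 1 (.nd 2 (.nd 1 (.nd 0 (.nd 3 (.nd 1 (.nd
  2 (.nd 1 (.nd 2 (.nd 3 (.nd 2 (.nd 2 (.nd 3 (.nd 2 (.nd 2 (.nd 3 (.lf 1) .nil) .nil) .nil) .nil)
  .nil) .nil) .nil) .nil) (.nd 2 (.nd 3 (.nd 2 (.nd 1 (.nd 2 (.nd 3 (.nd 2 (.nd 2 (.nd 3 (.lf 1)
  .nil) .nil) .nil) .nil) .nil) (.nd 2 (.nd 1 (.nd 3 (.nd 2 (.nd 2 (.nd 3 (.lf 2) .nil) .nil) .nil)
  .nil) .nil) .nil)) .nil) .nil) .nil)) (.nd 3 (.nd 2 (.nd 1 (.nd 2 (.nd 3 (.nd 2 (.nd 2 (.nd 3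
  (.nd 2 (.nd 2 (.lf 2) .nil) .nil) .nil) .nil) .nil) .nil) .nil) .nil) .nil) .nil)) (.nd 2 (.nd 1
  (.nd 3 (.nd 1 (.nd 2 (.nd 3 (.nd 2 (.nd 2 (.nd 3 (.nd 2 (.nd 2 (.lf 1) .nil) .nil) .nil) .nil)
  .nil) .nil) .nil) (.nd 2 (.nd 1 (.nd 2 (.nd 2 (.nd 3 (.nd 2 (.nd 2 (.nd 3 (.lf 2) .nil) .nil)
  .nil) .nil) .nil) (.nd 3 (.nd 2 (.nd 2 (.nd 3 (.nd 2 (.nd 2 (.lf 2) .nil) .nil) .nil) .nil) .nil)
  .nil)) (.nd 3 (.nd 2 (.nd 1 (.nd 2 (.nd 3 (.nd 2 (.nd 2 (.lf 1) .nil) .nil) .nil) .nil) .nil)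
  .nil) .nil)) .nil)) .nil) (.nd 2 (.nd 3 (.nd 2 (.nd 1 (.nd 2 (.nd 1 (.nd 3 (.nd 2 (.nd 2 (.nd 3
  (.lf 1) .nil) .nil) .nil) .nil) .nil) .nil) .nil) .nil) .nil) .nil)) .nil)) .nil) (.nd 2 (.nd 2
  (.nd 3 (.nd 2 (.nd 1 (.nd 2 (.nd 0 (.nd 1 (.nd 3 (.nd 2 (.nd 3 (.nd 2 (.nd 3 (.lf 1) .nil) .nil)
  .nil) .nil) .nil) .nil) .nil) .nil) .nil) .nil) .nil) .nil) .nil)) .nil) .nil) .nil)) .nil)) (.nd
  1 (.nd 1 (.nd 2 (.nd 2 (.nd 3 (.nd 2 (.nd 0 (.nd 0 (.nd 3 (.nd 1 (.nd 1 (.nd 2 (.nd 2 (.nd 3 (.nd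
  2 (.nd 1 (.nd 2 (.nd 3 (.lf 1) .nil) .nil) .nil) .nil) .nil) (.nd 3 (.nd 2 (.nd 1 (.nd 3 (.nd 2
  (.nd 2 (.lf 2) .nil) .nil) .nil) .nil) .nil) .nil)) (.nd 3 (.nd 2 (.nd 1 (.nd 2 (.nd 3 (.nd 2
  (.nd 2 (.lf 1) .nil) .nil) .nil) .nil) .nil) .nil) .nil)) (.nd 2 (.nd 1 (.nd 3 (.nd 2 (.nd 3 (.nd
  2 (.nd 1 (.nd 2 (.lf 1) .nil) (.nd 2 (.nd 1 (.lf 2) .nil) .nil)) .nil) .nil) .nil) .nil) .nil)
  .nil)) (.nd 2 (.nd 1 (.nd 2 (.nd 1 (.nd 3 (.nd 2 (.nd 1 (.nd 2 (.nd 3 (.lf 1) .nil) .nil) .nil)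
  .nil) .nil) .nil) .nil) .nil) .nil)) .nil) (.nd 1 (.nd 2 (.nd 3 (.nd 1 (.nd 2 (.nd 3 (.nd 0 (.nd
  2 (.nd 2 (.nd 1 (.nd 3 (.lf 1) .nil) .nil) (.nd 3 (.nd 1 (.nd 2 (.lf 1) .nil) (.nd 2 (.nd 1 (.lf
  2) .nil) .nil)) .nil)) (.nd 3 (.nd 2 (.nd 1 (.nd 2 (.lf 2) .nil) (.nd 2 (.nd 1 (.lf 1) .nil)
  .nil)) .nil) .nil)) (.nd 1 (.nd 0 (.nd 2 (.nd 2 (.nd 3 (.lf 2) .nil) .nil) (.nd 3 (.nd 2 (.nd 2
  (.lf 1) .nil) .nil) .nil)) .nil) .nil)) .nil) (.nd 3 (.nd 2 (.nd 2 (.nd 3 (.nd 0 (.nd 1 (.nd 2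
  (.lf 1) .nil) .nil) (.nd 1 (.nd 2 (.nd 0 (.lf 1) .nil) .nil) .nil)) .nil) .nil) .nil) .nil)) (.nd
  2 (.nd 0 (.nd 1 (.nd 3 (.nd 2 (.nd 2 (.nd 1 (.nd 3 (.lf 2) .nil) .nil) (.nd 3 (.nd 1 (.nd 2 (.lf
  2) .nil) (.nd 2 (.nd 1 (.lf 1) .nil) .nil)) .nil)) (.nd 3 (.nd 2 (.nd 1 (.nd 2 (.lf 1) .nil) (.nd
  2 (.nd 1 (.lf 2) .nil) .nil)) .nil) .nil)) .nil) .nil) .nil) .nil)) .nil) (.nd 3 (.nd 1 (.nd 0
  (.nd 1 (.nd 2 (.nd 2 (.nd 3 (.nd 2 (.nd 2 (.nd 3 (.lf 1) .nil) .nil) .nil) .nil) .nil) (.nd 3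
  (.nd 2 (.nd 2 (.nd 3 (.nd 2 (.nd 2 (.lf 2) .nil) .nil) .nil) .nil) .nil) .nil)) .nil) (.nd 1 (.nd
  0 (.nd 2 (.nd 2 (.nd 3 (.nd 2 (.nd 2 (.nd 3 (.lf 2) .nil) .nil) .nil) .nil) .nil) (.nd 3 (.nd 2
  (.nd 2 (.nd 3 (.nd 2 (.nd 2 (.lf 1) .nil) .nil) .nil) .nil) .nil) .nil)) .nil) .nil)) (.nd 2 (.nd
  0 (.nd 1 (.nd 1 (.nd 2 (.nd 3 (.nd 2 (.nd 2 (.nd 3 (.lf 2) .nil) .nil) .nil) .nil) .nil) (.nd 2
  (.nd 3 (.nd 2 (.nd 1 (.nd 2 (.nd 3 (.lf 2) .nil) .nil) .nil) .nil) .nil) .nil)) (.nd 2 (.nd 1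
  (.nd 3 (.nd 2 (.nd 1 (.nd 2 (.nd 3 (.lf 2) .nil) .nil) .nil) .nil) .nil) .nil) .nil)) (.nd 1 (.nd
  0 (.nd 2 (.nd 1 (.nd 3 (.nd 2 (.nd 2 (.nd 3 (.lf 2) .nil) .nil) .nil) .nil) .nil) .nil) .nil)
  .nil)) .nil)) .nil)) .nil)) (.nd 1 (.nd 0 (.nd 1 (.nd 2 (.nd 0 (.nd 1 (.nd 2 (.nd 3 (.nd 2 (.nd 3
  (.nd 2 (.nd 3 (.lf 1) .nil) .nil) .nil) .nil) .nil) .nil) .nil) .nil) .nil) (.nd 2 (.nd 1 (.nd 0
  (.nd 3 (.nd 1 (.nd 2 (.nd 3 (.nd 2 (.nd 2 (.nd 3 (.lf 2) .nil) .nil) .nil) .nil) .nil) (.nd 2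
  (.nd 3 (.nd 2 (.nd 2 (.nd 1 (.nd 3 (.lf 2) .nil) .nil) (.nd 3 (.nd 1 (.nd 2 (.lf 2) .nil) (.nd 2
  (.nd 1 (.lf 2) .nil) .nil)) .nil)) (.nd 3 (.nd 2 (.nd 2 (.nd 1 (.lf 2) .nil) .nil) .nil) .nil))
  .nil) .nil)) .nil) .nil) .nil) .nil)) .nil) .nil)) (.nd 3 (.nd 2 (.nd 1 (.nd 0 (.nd 2 (.nd 1 (.nd
  2 (.nd 3 (.nd 0 (.nd 2 (.nd 3 (.nd 1 (.nd 2 (.lf 2) .nil) (.nd 2 (.nd 1 (.lf 1) .nil) .nil))
  .nil) (.nd 3 (.nd 2 (.nd 1 (.nd 2 (.lf 2) .nil) .nil) .nil) .nil)) (.nd 1 (.nd 0 (.nd 2 (.nd 2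
  (.nd 3 (.lf 2) .nil) .nil) (.nd 3 (.nd 2 (.nd 2 (.lf 2) .nil) .nil) .nil)) .nil) .nil)) .nil)
  (.nd 3 (.nd 1 (.nd 2 (.nd 0 (.nd 3 (.nd 2 (.nd 2 (.lf 1) .nil) .nil) .nil) .nil) .nil) (.nd 2
  (.nd 0 (.nd 1 (.nd 3 (.nd 2 (.nd 2 (.lf 2) .nil) .nil) .nil) .nil) .nil) .nil)) .nil)) (.nd 2
  (.nd 3 (.nd 0 (.nd 1 (.nd 2 (.nd 3 (.nd 2 (.nd 1 (.lf 2) .nil) .nil) .nil) (.nd 3 (.nd 2 (.nd 2
  (.nd 1 (.lf 2) .nil) .nil) .nil) .nil)) .nil) (.nd 1 (.nd 0 (.nd 2 (.nd 1 (.nd 2 (.nd 3 (.lf 1)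
  .nil) .nil) .nil) .nil) .nil) (.nd 2 (.nd 1 (.nd 2 (.nd 1 (.nd 0 (.nd 3 (.lf 1) .nil) .nil) .nil)
  .nil) .nil) .nil))) .nil) .nil)) (.nd 3 (.nd 2 (.nd 2 (.nd 0 (.nd 1 (.nd 2 (.nd 2 (.nd 1 (.nd 3
  (.lf 2) .nil) .nil) (.nd 3 (.nd 1 (.nd 2 (.lf 1) .nil) (.nd 2 (.nd 1 (.lf 1) .nil) .nil)) .nil))
  (.nd 3 (.nd 2 (.nd 1 (.nd 2 (.lf 2) .nil) (.nd 2 (.nd 1 (.lf 1) .nil) .nil)) .nil) .nil)) .nil)
  (.nd 1 (.nd 0 (.nd 2 (.nd 2 (.nd 1 (.nd 3 (.lf 2) .nil) .nil) (.nd 3 (.nd 1 (.nd 2 (.lf 1) .nil)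
  (.nd 2 (.nd 1 (.lf 1) .nil) .nil)) .nil)) (.nd 3 (.nd 2 (.nd 1 (.nd 2 (.lf 1) .nil) .nil) .nil)
  .nil)) .nil) (.nd 2 (.nd 1 (.nd 0 (.nd 3 (.nd 2 (.nd 1 (.lf 1) .nil) .nil) .nil) .nil) .nil)
  .nil))) (.nd 3 (.nd 2 (.nd 1 (.nd 2 (.nd 0 (.nd 1 (.nd 2 (.lf 1) .nil) (.nd 2 (.nd 1 (.lf 2)
  .nil) .nil)) (.nd 1 (.nd 2 (.nd 0 (.lf 2) .nil) .nil) .nil)) .nil) .nil) .nil) .nil)) .nil)
  .nil)) .nil) (.nd 2 (.nd 0 (.nd 1 (.nd 2 (.nd 3 (.nd 1 (.nd 0 (.nd 2 (.nd 2 (.nd 1 (.nd 3 (.lf 1)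
  .nil) .nil) (.nd 3 (.nd 1 (.nd 2 (.lf 2) .nil) (.nd 2 (.nd 1 (.lf 1) .nil) .nil)) .nil)) .nil)
  (.nd 1 (.nd 0 (.nd 2 (.nd 2 (.nd 3 (.lf 1) .nil) .nil) (.nd 3 (.nd 2 (.nd 2 (.lf 1) .nil) .nil)
  .nil)) .nil) .nil)) (.nd 2 (.nd 1 (.nd 0 (.nd 2 (.nd 1 (.nd 3 (.lf 1) .nil) .nil) (.nd 3 (.nd 1
  (.nd 2 (.lf 2) .nil) (.nd 2 (.nd 1 (.lf 1) .nil) .nil)) .nil)) (.nd 1 (.nd 2 (.nd 0 (.nd 3 (.lf
  1) .nil) .nil) .nil) .nil)) .nil) .nil)) .nil) (.nd 3 (.nd 2 (.nd 0 (.nd 1 (.nd 2 (.nd 1 (.nd 2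
  (.nd 3 (.lf 2) .nil) .nil) .nil) (.nd 3 (.nd 2 (.nd 1 (.nd 2 (.lf 1) .nil) (.nd 2 (.nd 1 (.lf 2)
  .nil) .nil)) .nil) .nil)) .nil) (.nd 1 (.nd 2 (.nd 0 (.nd 3 (.nd 2 (.nd 1 (.lf 1) .nil) .nil)
  .nil) .nil) .nil) .nil)) (.nd 3 (.nd 2 (.nd 1 (.nd 2 (.nd 1 (.nd 2 (.nd 0 (.lf 2) .nil) .nil)
  (.nd 2 (.nd 1 (.nd 0 (.lf 1) .nil) .nil) .nil)) .nil) .nil) .nil) .nil)) .nil)) .nil) .nil) (.nd
  3 (.nd 2 (.nd 0 (.nd 0 (.nd 1 (.nd 1 (.nd 2 (.nd 1 (.nd 3 (.nd 2 (.nd 2 (.lf 2) .nil) .nil) .nil)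
  (.nd 2 (.nd 3 (.nd 2 (.nd 1 (.lf 1) .nil) .nil) .nil) .nil)) .nil) .nil) .nil) .nil) (.nd 1 (.nd
  2 (.nd 0 (.nd 1 (.nd 0 (.nd 3 (.nd 2 (.nd 1 (.nd 2 (.lf 1) .nil) .nil) .nil) .nil) .nil) .nil)
  .nil) .nil) .nil)) .nil) .nil))) (.nd 3 (.nd 2 (.nd 1 (.nd 0 (.nd 2 (.nd 1 (.nd 2 (.nd 0 (.nd 1
  (.nd 3 (.nd 2 (.nd 2 (.lf 1) .nil) .nil) .nil) .nil) .nil) .nil) (.nd 2 (.nd 0 (.nd 1 (.nd 1 (.nd
  2 (.nd 2 (.nd 3 (.lf 2) .nil) .nil) (.nd 3 (.nd 2 (.nd 2 (.lf 1) .nil) .nil) .nil)) (.nd 2 (.nd 3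
  (.nd 2 (.nd 1 (.lf 2) .nil) .nil) .nil) .nil)) .nil) (.nd 1 (.nd 0 (.nd 3 (.nd 2 (.nd 1 (.nd 2
  (.lf 1) .nil) .nil) .nil) .nil) .nil) .nil)) .nil)) .nil) .nil) (.nd 2 (.nd 0 (.nd 0 (.nd 1 (.nd
  1 (.nd 2 (.nd 2 (.nd 2 (.nd 1 (.nd 3 (.lf 1) .nil) .nil) (.nd 3 (.nd 1 (.nd 2 (.lf 2) .nil) (.nd
  2 (.nd 1 (.lf 2) .nil) .nil)) .nil)) (.nd 3 (.nd 2 (.nd 2 (.nd 1 (.lf 2) .nil) .nil) .nil) .nil))
  .nil) .nil) .nil) .nil) .nil) .nil)) .nil) .nil)) .nil)) .nil) (.nd 3 (.nd 2 (.nd 2 (.nd 2 (.nd 3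
  (.nd 1 (.nd 0 (.nd 0 (.nd 1 (.nd 3 (.nd 2 (.nd 2 (.nd 2 (.nd 1 (.nd 3 (.lf 2) .nil) .nil) (.nd 3
  (.nd 1 (.nd 2 (.lf 1) .nil) (.nd 2 (.nd 1 (.lf 1) .nil) .nil)) .nil)) (.nd 3 (.nd 2 (.nd 2 (.nd 1
  (.lf 2) .nil) .nil) .nil) .nil)) (.nd 3 (.nd 2 (.nd 2 (.nd 1 (.nd 2 (.lf 2) .nil) (.nd 2 (.nd 1
  (.lf 2) .nil) .nil)) .nil) .nil) .nil)) .nil) .nil) (.nd 1 (.nd 0 (.nd 1 (.nd 2 (.nd 3 (.nd 2
  (.nd 2 (.nd 3 (.lf 1) .nil) .nil) .nil) .nil) .nil) (.nd 2 (.nd 3 (.nd 2 (.nd 2 (.nd 1 (.nd 3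
  (.lf 1) .nil) .nil) (.nd 3 (.nd 1 (.nd 2 (.lf 1) .nil) (.nd 2 (.nd 1 (.lf 1) .nil) .nil)) .nil))
  (.nd 3 (.nd 2 (.nd 2 (.nd 1 (.lf 1) .nil) .nil) .nil) .nil)) .nil) .nil)) (.nd 2 (.nd 1 (.nd 0
  (.nd 3 (.nd 2 (.nd 2 (.nd 3 (.lf 2) .nil) .nil) .nil) .nil) .nil) .nil) .nil)) .nil)) .nil) (.nd
  2 (.nd 1 (.nd 0 (.nd 1 (.nd 3 (.nd 2 (.nd 0 (.nd 1 (.nd 2 (.nd 3 (.lf 1) .nil) .nil) (.nd 2 (.nd
  1 (.nd 3 (.lf 2) .nil) .nil) .nil)) (.nd 1 (.nd 2 (.nd 0 (.nd 3 (.lf 2) .nil) .nil) .nil) .nil))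
  (.nd 3 (.nd 2 (.nd 0 (.nd 1 (.nd 2 (.lf 1) .nil) (.nd 2 (.nd 1 (.lf 2) .nil) .nil)) (.nd 1 (.nd 2
  (.nd 0 (.lf 2) .nil) .nil) .nil)) .nil) .nil)) .nil) .nil) .nil) .nil) .nil)) .nil) (.nd 3 (.nd 1
  (.nd 0 (.nd 2 (.nd 1 (.nd 2 (.nd 3 (.nd 0 (.nd 2 (.nd 1 (.nd 2 (.nd 3 (.lf 1) .nil) .nil) (.nd 2
  (.nd 1 (.nd 3 (.lf 2) .nil) .nil) .nil)) (.nd 3 (.nd 2 (.nd 1 (.nd 2 (.lf 1) .nil) (.nd 2 (.nd 1
  (.lf 1) .nil) .nil)) .nil) .nil)) (.nd 1 (.nd 0 (.nd 2 (.nd 2 (.nd 3 (.lf 2) .nil) .nil) (.nd 3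
  (.nd 2 (.nd 2 (.lf 2) .nil) .nil) .nil)) .nil) .nil)) .nil) (.nd 3 (.nd 0 (.nd 1 (.nd 2 (.nd 3
  (.nd 2 (.nd 2 (.lf 2) .nil) .nil) .nil) .nil) .nil) (.nd 1 (.nd 2 (.nd 0 (.nd 3 (.nd 2 (.nd 2
  (.lf 1) .nil) .nil) .nil) .nil) .nil) .nil)) .nil)) (.nd 2 (.nd 3 (.nd 0 (.nd 1 (.nd 2 (.nd 2
  (.nd 1 (.nd 3 (.lf 2) .nil) .nil) (.nd 3 (.nd 2 (.nd 1 (.lf 2) .nil) .nil) .nil)) (.nd 3 (.nd 2
  (.nd 2 (.nd 1 (.lf 2) .nil) .nil) .nil) .nil)) .nil) (.nd 1 (.nd 0 (.nd 2 (.nd 1 (.nd 2 (.nd 3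
  (.lf 2) .nil) .nil) .nil) .nil) .nil) .nil)) .nil) .nil)) (.nd 3 (.nd 1 (.nd 2 (.nd 2 (.nd 3 (.nd
  2 (.nd 0 (.nd 1 (.nd 2 (.lf 2) .nil) .nil) (.nd 1 (.nd 2 (.nd 0 (.lf 2) .nil) .nil) .nil)) .nil)
  .nil) .nil) .nil) .nil) .nil)) .nil) (.nd 2 (.nd 0 (.nd 0 (.nd 1 (.nd 2 (.nd 1 (.nd 3 (.nd 2 (.nd
  2 (.nd 1 (.nd 3 (.lf 2) .nil) .nil) (.nd 3 (.nd 2 (.nd 1 (.lf 2) .nil) .nil) .nil)) .nil) .nil)
  .nil) .nil) .nil) .nil) (.nd 1 (.nd 2 (.nd 0 (.nd 1 (.nd 0 (.nd 3 (.nd 2 (.nd 1 (.nd 2 (.nd 3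
  (.lf 2) .nil) .nil) .nil) .nil) .nil) .nil) .nil) .nil) .nil) .nil)) (.nd 3 (.nd 0 (.nd 0 (.nd 1
  (.nd 1 (.nd 2 (.nd 1 (.nd 2 (.nd 3 (.nd 2 (.nd 2 (.lf 2) .nil) .nil) .nil) .nil) (.nd 2 (.nd 3
  (.nd 2 (.nd 1 (.nd 2 (.lf 1) .nil) .nil) .nil) .nil) .nil)) .nil) .nil) .nil) .nil) .nil) .nil)))
  .nil)) (.nd 3 (.nd 0 (.nd 0 (.nd 1 (.nd 1 (.nd 2 (.nd 1 (.nd 2 (.nd 2 (.nd 3 (.nd 2 (.nd 2 (.nd 3
  (.lf 2) .nil) .nil) .nil) .nil) .nil) (.nd 3 (.nd 2 (.nd 2 (.nd 3 (.nd 2 (.nd 2 (.lf 2) .nil)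
  .nil) .nil) .nil) .nil) .nil)) (.nd 2 (.nd 3 (.nd 2 (.nd 1 (.nd 3 (.nd 2 (.nd 2 (.lf 2) .nil)
  .nil) .nil) .nil) .nil) .nil) .nil)) .nil) (.nd 2 (.nd 1 (.nd 2 (.nd 1 (.nd 2 (.nd 3 (.nd 2 (.nd
  2 (.nd 3 (.lf 1) .nil) .nil) .nil) .nil) .nil) .nil) .nil) .nil) .nil)) .nil) (.nd 1 (.nd 1 (.nd
  2 (.nd 0 (.nd 1 (.nd 2 (.nd 2 (.nd 3 (.nd 2 (.nd 2 (.nd 3 (.lf 1) .nil) .nil) .nil) .nil) .nil)
  (.nd 3 (.nd 2 (.nd 2 (.nd 3 (.nd 2 (.nd 2 (.lf 2) .nil) .nil) .nil) .nil) .nil) .nil)) .nil) (.nd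
  1 (.nd 0 (.nd 2 (.nd 2 (.nd 3 (.nd 2 (.nd 2 (.nd 3 (.lf 1) .nil) .nil) .nil) .nil) .nil) (.nd 3
  (.nd 2 (.nd 2 (.nd 3 (.nd 2 (.nd 2 (.lf 2) .nil) .nil) .nil) .nil) .nil) .nil)) .nil) .nil))
  .nil) (.nd 2 (.nd 0 (.nd 1 (.nd 2 (.nd 1 (.nd 2 (.nd 3 (.nd 2 (.nd 2 (.nd 3 (.lf 1) .nil) .nil)
  .nil) .nil) .nil) (.nd 2 (.nd 3 (.nd 2 (.nd 1 (.nd 2 (.nd 3 (.lf 2) .nil) .nil) .nil) .nil) .nil)
  .nil)) .nil) .nil) (.nd 1 (.nd 0 (.nd 2 (.nd 1 (.nd 2 (.nd 3 (.nd 2 (.nd 2 (.nd 3 (.lf 2) .nil)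
  .nil) .nil) .nil) .nil) (.nd 2 (.nd 3 (.nd 2 (.nd 1 (.nd 2 (.nd 3 (.lf 1) .nil) .nil) .nil) .nil)
  .nil) .nil)) .nil) .nil) .nil)) .nil)) .nil)) (.nd 1 (.nd 0 (.nd 1 (.nd 0 (.nd 2 (.nd 1 (.nd 2
  (.nd 2 (.nd 3 (.nd 2 (.nd 2 (.nd 3 (.lf 1) .nil) .nil) .nil) .nil) .nil) (.nd 3 (.nd 2 (.nd 2
  (.nd 3 (.nd 2 (.nd 2 (.lf 1) .nil) .nil) .nil) .nil) .nil) .nil)) (.nd 2 (.nd 3 (.nd 2 (.nd 1
  (.nd 3 (.nd 2 (.nd 2 (.lf 2) .nil) .nil) .nil) .nil) .nil) .nil) .nil)) .nil) .nil) .nil) .nil)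
  .nil)) .nil)) (.nd 3 (.nd 2 (.nd 1 (.nd 0 (.nd 2 (.nd 2 (.nd 2 (.nd 3 (.nd 0 (.nd 1 (.nd 2 (.nd 2
  (.nd 1 (.nd 3 (.lf 1) .nil) .nil) (.nd 3 (.nd 2 (.nd 1 (.lf 1) .nil) .nil) .nil)) (.nd 3 (.nd 2
  (.nd 2 (.nd 1 (.lf 2) .nil) .nil) .nil) .nil)) .nil) (.nd 1 (.nd 0 (.nd 2 (.nd 2 (.nd 1 (.nd 3
  (.lf 1) .nil) .nil) .nil) (.nd 3 (.nd 2 (.nd 1 (.nd 2 (.lf 1) .nil) (.nd 2 (.nd 1 (.lf 1) .nil)
  .nil)) .nil) .nil)) .nil) .nil)) .nil) (.nd 3 (.nd 2 (.nd 0 (.nd 1 (.nd 2 (.nd 1 (.nd 2 (.nd 3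
  (.lf 1) .nil) .nil) .nil) (.nd 3 (.nd 2 (.nd 2 (.nd 1 (.lf 1) .nil) .nil) .nil) .nil)) .nil) (.nd
  1 (.nd 2 (.nd 0 (.nd 3 (.nd 2 (.nd 1 (.lf 1) .nil) .nil) .nil) .nil) .nil) .nil)) (.nd 3 (.nd 2
  (.nd 1 (.nd 2 (.nd 1 (.nd 2 (.nd 0 (.lf 2) .nil) .nil) (.nd 2 (.nd 1 (.nd 0 (.lf 1) .nil) .nil)
  .nil)) .nil) .nil) .nil) .nil)) .nil)) (.nd 3 (.nd 0 (.nd 1 (.nd 2 (.nd 1 (.nd 2 (.nd 3 (.nd 2
  (.nd 2 (.lf 2) .nil) .nil) .nil) .nil) (.nd 2 (.nd 3 (.nd 2 (.nd 1 (.nd 2 (.lf 2) .nil) (.nd 2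
  (.nd 1 (.lf 1) .nil) .nil)) .nil) .nil) .nil)) .nil) .nil) (.nd 1 (.nd 0 (.nd 2 (.nd 1 (.nd 2
  (.nd 3 (.nd 2 (.nd 2 (.lf 1) .nil) .nil) .nil) .nil) (.nd 2 (.nd 1 (.nd 3 (.nd 2 (.nd 2 (.lf 2)
  .nil) .nil) .nil) .nil) .nil)) .nil) .nil) .nil)) .nil)) (.nd 3 (.nd 2 (.nd 1 (.nd 0 (.nd 2 (.nd
  2 (.nd 1 (.nd 3 (.nd 2 (.nd 2 (.lf 2) .nil) .nil) .nil) .nil) .nil) .nil) .nil) .nil) .nil)
  .nil)) .nil) (.nd 2 (.nd 1 (.nd 0 (.nd 2 (.nd 2 (.nd 3 (.nd 1 (.nd 2 (.nd 0 (.nd 2 (.nd 1 (.nd 3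
  (.lf 1) .nil) .nil) (.nd 3 (.nd 1 (.nd 2 (.lf 1) .nil) (.nd 2 (.nd 1 (.lf 1) .nil) .nil)) .nil))
  (.nd 1 (.nd 2 (.nd 0 (.nd 3 (.lf 2) .nil) .nil) .nil) .nil)) (.nd 3 (.nd 2 (.nd 0 (.nd 1 (.nd 2
  (.lf 1) .nil) .nil) (.nd 1 (.nd 2 (.nd 0 (.lf 1) .nil) .nil) .nil)) .nil) .nil)) (.nd 2 (.nd 1
  (.nd 0 (.nd 2 (.nd 1 (.nd 3 (.lf 2) .nil) .nil) (.nd 3 (.nd 1 (.nd 2 (.lf 1) .nil) (.nd 2 (.nd 1
  (.lf 1) .nil) .nil)) .nil)) (.nd 1 (.nd 2 (.nd 0 (.nd 3 (.lf 2) .nil) .nil) .nil) .nil)) .nil)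
  (.nd 3 (.nd 2 (.nd 1 (.nd 0 (.nd 1 (.nd 2 (.lf 1) .nil) (.nd 2 (.nd 1 (.lf 2) .nil) .nil)) (.nd 1
  (.nd 2 (.nd 0 (.lf 2) .nil) .nil) .nil)) .nil) .nil) .nil))) .nil) (.nd 3 (.nd 0 (.nd 1 (.nd 2
  (.nd 2 (.nd 1 (.nd 2 (.nd 3 (.lf 2) .nil) .nil) (.nd 2 (.nd 1 (.nd 3 (.lf 2) .nil) .nil) .nil))
  .nil) .nil) .nil) (.nd 1 (.nd 0 (.nd 2 (.nd 2 (.nd 3 (.nd 2 (.nd 1 (.lf 1) .nil) .nil) .nil) (.nd
  3 (.nd 2 (.nd 1 (.nd 2 (.lf 2) .nil) .nil) .nil) .nil)) (.nd 3 (.nd 2 (.nd 2 (.nd 1 (.nd 2 (.lf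
  1) .nil) (.nd 2 (.nd 1 (.lf 1) .nil) .nil)) .nil) .nil) .nil)) .nil) .nil)) .nil)) (.nd 3 (.nd 2
  (.nd 0 (.nd 1 (.nd 2 (.nd 1 (.nd 3 (.nd 2 (.nd 2 (.lf 2) .nil) .nil) .nil) (.nd 2 (.nd 3 (.nd 2
  (.nd 1 (.lf 1) .nil) .nil) .nil) .nil)) .nil) .nil) (.nd 1 (.nd 2 (.nd 0 (.nd 1 (.nd 2 (.nd 2
  (.nd 3 (.lf 1) .nil) .nil) (.nd 3 (.nd 2 (.nd 2 (.lf 2) .nil) .nil) .nil)) .nil) .nil) .nil)
  .nil)) .nil) .nil)) .nil) (.nd 2 (.nd 0 (.nd 0 (.nd 1 (.nd 1 (.nd 2 (.nd 3 (.nd 2 (.nd 3 (.nd 1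
  (.nd 2 (.lf 1) .nil) (.nd 2 (.nd 1 (.lf 1) .nil) .nil)) .nil) (.nd 3 (.nd 2 (.nd 1 (.nd 2 (.lf 1)
  .nil) (.nd 2 (.nd 1 (.lf 2) .nil) .nil)) .nil) .nil)) .nil) .nil) (.nd 2 (.nd 1 (.nd 3 (.nd 2
  (.nd 1 (.nd 2 (.nd 3 (.lf 1) .nil) .nil) .nil) .nil) .nil) .nil) .nil)) .nil) .nil) .nil) (.nd 3
  (.nd 2 (.nd 1 (.nd 0 (.nd 1 (.nd 0 (.nd 2 (.nd 2 (.nd 2 (.nd 1 (.nd 3 (.lf 2) .nil) .nil) (.nd 3
  (.nd 1 (.nd 2 (.lf 1) .nil) (.nd 2 (.nd 1 (.lf 2) .nil) .nil)) .nil)) .nil) .nil) (.nd 1 (.nd 2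
  (.nd 0 (.nd 3 (.nd 2 (.nd 2 (.lf 1) .nil) .nil) .nil) .nil) .nil) .nil)) (.nd 2 (.nd 1 (.nd 2
  (.nd 3 (.nd 0 (.nd 1 (.nd 2 (.lf 1) .nil) (.nd 2 (.nd 1 (.lf 2) .nil) .nil)) (.nd 1 (.nd 2 (.nd 0
  (.lf 1) .nil) .nil) .nil)) .nil) (.nd 3 (.nd 0 (.nd 2 (.nd 1 (.nd 2 (.lf 2) .nil) .nil) .nil)
  .nil) .nil)) .nil) .nil)) .nil) (.nd 2 (.nd 0 (.nd 1 (.nd 0 (.nd 1 (.nd 2 (.nd 3 (.nd 2 (.nd 1
  (.lf 2) .nil) .nil) .nil) (.nd 3 (.nd 2 (.nd 1 (.nd 2 (.lf 2) .nil) .nil) .nil) .nil)) .nil) (.nd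
  1 (.nd 0 (.nd 3 (.nd 2 (.nd 1 (.nd 2 (.lf 2) .nil) .nil) .nil) .nil) .nil) .nil)) .nil) .nil)
  .nil)) .nil) .nil))) .nil)) (.nd 3 (.nd 1 (.nd 0 (.nd 2 (.nd 1 (.nd 0 (.nd 2 (.nd 1 (.nd 2 (.nd 2
  (.nd 3 (.nd 2 (.nd 2 (.lf 1) .nil) .nil) .nil) .nil) .nil) .nil) .nil) .nil) .nil) .nil) .nil)
  .nil) .nil)) .nil)) .nil)) (.nd 3 (.nd 0 (.nd 0 (.nd 2 (.nd 1 (.nd 1 (.nd 2 (.nd 1 (.nd 2 (.nd 3
  (.nd 2 (.nd 2 (.nd 3 (.nd 2 (.nd 2 (.nd 3 (.lf 1) .nil) .nil) .nil) .nil) .nil) .nil) .nil) .nil)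
  .nil) .nil) (.nd 2 (.nd 1 (.nd 2 (.nd 1 (.nd 3 (.nd 2 (.nd 2 (.nd 3 (.nd 2 (.nd 2 (.nd 3 (.lf 2)
  .nil) .nil) .nil) .nil) .nil) .nil) .nil) .nil) (.nd 3 (.nd 2 (.nd 1 (.nd 3 (.nd 2 (.nd 2 (.nd 3
  (.nd 2 (.nd 2 (.lf 1) .nil) .nil) .nil) .nil) .nil) .nil) .nil) .nil) .nil)) .nil) .nil)) .nil)
  .nil) (.nd 1 (.nd 2 (.nd 0 (.nd 1 (.nd 2 (.nd 2 (.nd 3 (.nd 2 (.nd 1 (.nd 2 (.nd 3 (.nd 2 (.nd 2
  (.nd 3 (.lf 2) .nil) .nil) .nil) .nil) .nil) (.nd 2 (.nd 1 (.nd 3 (.nd 2 (.nd 2 (.nd 3 (.lf 1)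
  .nil) .nil) .nil) .nil) .nil) .nil)) .nil) .nil) (.nd 3 (.nd 1 (.nd 2 (.nd 3 (.nd 2 (.nd 2 (.nd 3
  (.nd 2 (.nd 2 (.lf 1) .nil) .nil) .nil) .nil) .nil) .nil) .nil) (.nd 2 (.nd 1 (.nd 3 (.nd 2 (.nd
  2 (.nd 3 (.nd 2 (.nd 2 (.lf 2) .nil) .nil) .nil) .nil) .nil) .nil) .nil) .nil)) .nil)) .nil) (.nd
  2 (.nd 1 (.nd 3 (.nd 2 (.nd 1 (.nd 3 (.nd 2 (.nd 2 (.nd 3 (.nd 2 (.nd 2 (.lf 2) .nil) .nil) .nil)
  .nil) .nil) .nil) .nil) .nil) .nil) .nil) .nil)) (.nd 1 (.nd 0 (.nd 2 (.nd 1 (.nd 2 (.nd 3 (.nd 2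
  (.nd 2 (.nd 3 (.nd 2 (.nd 2 (.nd 3 (.lf 2) .nil) .nil) .nil) .nil) .nil) .nil) .nil) .nil) .nil)
  .nil) .nil) .nil)) .nil) .nil)) (.nd 1 (.nd 0 (.nd 2 (.nd 1 (.nd 0 (.nd 2 (.nd 1 (.nd 2 (.nd 3
  (.nd 2 (.nd 2 (.nd 3 (.nd 2 (.nd 2 (.nd 3 (.lf 2) .nil) .nil) .nil) .nil) .nil) .nil) .nil) .nil)
  .nil) .nil) .nil) .nil) .nil) .nil) .nil)) .nil)) (.nd 2 (.nd 0 (.nd 0 (.nd 3 (.nd 1 (.nd 2 (.nd
  2 (.nd 3 (.nd 2 (.nd 1 (.nd 1 (.nd 2 (.nd 3 (.nd 2 (.nd 3 (.nd 2 (.nd 1 (.lf 2) .nil) .nil) .nil)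
  (.nd 3 (.nd 2 (.nd 1 (.nd 2 (.lf 2) .nil) (.nd 2 (.nd 1 (.lf 1) .nil) .nil)) .nil) .nil)) .nil)
  .nil) (.nd 2 (.nd 1 (.nd 3 (.nd 2 (.nd 1 (.nd 2 (.nd 3 (.lf 2) .nil) .nil) .nil) .nil) .nil)
  .nil) .nil)) .nil) (.nd 3 (.nd 2 (.nd 1 (.nd 2 (.nd 1 (.nd 2 (.nd 2 (.nd 1 (.nd 3 (.lf 1) .nil)
  .nil) (.nd 3 (.nd 1 (.nd 2 (.lf 1) .nil) (.nd 2 (.nd 1 (.lf 2) .nil) .nil)) .nil)) .nil) .nil)
  .nil) .nil) .nil) .nil)) .nil) (.nd 3 (.nd 2 (.nd 1 (.nd 1 (.nd 2 (.nd 1 (.nd 2 (.nd 3 (.nd 2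
  (.nd 2 (.nd 3 (.lf 1) .nil) .nil) .nil) .nil) .nil) (.nd 2 (.nd 3 (.nd 2 (.nd 1 (.nd 2 (.nd 3
  (.lf 1) .nil) .nil) .nil) .nil) .nil) .nil)) (.nd 3 (.nd 2 (.nd 1 (.nd 2 (.nd 3 (.nd 2 (.nd 2
  (.lf 1) .nil) .nil) .nil) .nil) .nil) .nil) .nil)) (.nd 2 (.nd 1 (.nd 3 (.nd 2 (.nd 1 (.nd 3 (.nd
  2 (.nd 2 (.lf 1) .nil) .nil) .nil) .nil) .nil) .nil) .nil) .nil)) .nil) .nil) .nil)) (.nd 3 (.nd
  2 (.nd 1 (.nd 2 (.nd 1 (.nd 2 (.nd 1 (.nd 2 (.nd 3 (.nd 2 (.nd 2 (.nd 3 (.lf 2) .nil) .nil) .nil)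
  .nil) .nil) (.nd 2 (.nd 3 (.nd 2 (.nd 1 (.nd 2 (.nd 3 (.lf 2) .nil) .nil) (.nd 2 (.nd 1 (.nd 3
  (.lf 1) .nil) .nil) .nil)) .nil) .nil) .nil)) .nil) .nil) .nil) .nil) .nil) .nil)) (.nd 2 (.nd 1
  (.nd 2 (.nd 3 (.nd 1 (.nd 2 (.nd 1 (.nd 2 (.nd 1 (.nd 3 (.nd 2 (.nd 2 (.nd 3 (.lf 1) .nil) .nil)
  .nil) .nil) .nil) .nil) .nil) .nil) (.nd 2 (.nd 1 (.nd 2 (.nd 1 (.nd 3 (.nd 2 (.nd 1 (.nd 2 (.nd
  3 (.lf 1) .nil) .nil) .nil) .nil) .nil) .nil) .nil) .nil) .nil)) .nil) .nil) .nil) .nil)) .nil)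
  (.nd 1 (.nd 0 (.nd 3 (.nd 1 (.nd 1 (.nd 2 (.nd 2 (.nd 3 (.nd 2 (.nd 1 (.nd 2 (.nd 3 (.nd 2 (.nd 2
  (.nd 3 (.lf 2) .nil) .nil) .nil) .nil) .nil) .nil) .nil) .nil) (.nd 3 (.nd 1 (.nd 2 (.nd 3 (.nd 2
  (.nd 2 (.nd 3 (.nd 2 (.nd 2 (.lf 2) .nil) .nil) .nil) .nil) .nil) .nil) .nil) (.nd 2 (.nd 1 (.nd
  3 (.nd 2 (.nd 2 (.nd 3 (.nd 2 (.nd 2 (.lf 2) .nil) .nil) .nil) .nil) .nil) .nil) .nil) .nil))
  .nil)) (.nd 3 (.nd 2 (.nd 1 (.nd 2 (.nd 3 (.nd 2 (.nd 2 (.nd 3 (.nd 2 (.nd 2 (.lf 1) .nil) .nil)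
  .nil) .nil) .nil) .nil) .nil) .nil) .nil) .nil)) (.nd 2 (.nd 1 (.nd 3 (.nd 1 (.nd 2 (.nd 3 (.nd 2
  (.nd 2 (.nd 3 (.nd 2 (.nd 2 (.lf 2) .nil) .nil) .nil) .nil) .nil) .nil) .nil) (.nd 2 (.nd 1 (.nd
  2 (.nd 2 (.nd 3 (.nd 2 (.nd 2 (.nd 3 (.lf 1) .nil) .nil) .nil) .nil) .nil) (.nd 3 (.nd 2 (.nd 2
  (.nd 3 (.nd 2 (.nd 2 (.lf 2) .nil) .nil) .nil) .nil) .nil) .nil)) (.nd 3 (.nd 2 (.nd 1 (.nd 2
  (.nd 3 (.nd 2 (.nd 2 (.lf 1) .nil) .nil) .nil) .nil) .nil) .nil) .nil)) .nil)) .nil) .nil) .nil))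
  (.nd 2 (.nd 2 (.nd 1 (.nd 3 (.nd 2 (.nd 1 (.nd 1 (.nd 2 (.nd 3 (.nd 2 (.nd 2 (.nd 3 (.lf 1) .nil)
  .nil) .nil) .nil) .nil) (.nd 2 (.nd 3 (.nd 1 (.nd 3 (.nd 2 (.nd 2 (.lf 1) .nil) .nil) .nil) (.nd
  2 (.nd 1 (.nd 2 (.nd 3 (.lf 1) .nil) .nil) .nil) .nil)) .nil) .nil)) (.nd 2 (.nd 1 (.nd 3 (.nd 2
  (.nd 1 (.nd 2 (.nd 3 (.lf 1) .nil) .nil) .nil) .nil) .nil) .nil) .nil)) (.nd 3 (.nd 2 (.nd 1 (.nd
  1 (.nd 2 (.nd 3 (.nd 2 (.nd 2 (.lf 2) .nil) .nil) .nil) .nil) (.nd 2 (.nd 2 (.nd 3 (.nd 2 (.nd 1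
  (.lf 2) .nil) .nil) .nil) (.nd 3 (.nd 2 (.nd 2 (.nd 1 (.lf 1) .nil) .nil) .nil) .nil)) .nil))
  (.nd 2 (.nd 1 (.nd 3 (.nd 2 (.nd 1 (.nd 2 (.lf 2) .nil) .nil) .nil) .nil) .nil) .nil)) .nil)
  .nil)) .nil) .nil) (.nd 3 (.nd 2 (.nd 1 (.nd 1 (.nd 2 (.nd 1 (.nd 2 (.nd 3 (.nd 2 (.nd 2 (.nd 3
  (.lf 1) .nil) .nil) .nil) .nil) .nil) (.nd 2 (.nd 3 (.nd 2 (.nd 1 (.nd 2 (.nd 3 (.lf 2) .nil)
  .nil) .nil) .nil) .nil) .nil)) (.nd 3 (.nd 2 (.nd 1 (.nd 2 (.nd 3 (.nd 2 (.nd 2 (.lf 2) .nil)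
  .nil) .nil) .nil) .nil) .nil) .nil)) (.nd 2 (.nd 1 (.nd 3 (.nd 2 (.nd 1 (.nd 3 (.nd 2 (.nd 2 (.lf
  2) .nil) .nil) .nil) .nil) .nil) .nil) .nil) .nil)) .nil) .nil) .nil)) .nil)) .nil) (.nd 2 (.nd 3
  (.nd 1 (.nd 1 (.nd 0 (.nd 2 (.nd 3 (.nd 2 (.nd 3 (.nd 1 (.nd 2 (.nd 3 (.nd 2 (.nd 2 (.lf 1) .nil)
  .nil) .nil) .nil) (.nd 2 (.nd 3 (.nd 2 (.nd 2 (.nd 1 (.lf 1) .nil) .nil) .nil) .nil) .nil)) .nil)
  (.nd 3 (.nd 2 (.nd 1 (.nd 2 (.nd 3 (.nd 2 (.nd 2 (.lf 2) .nil) .nil) .nil) .nil) (.nd 2 (.nd 1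
  (.nd 3 (.nd 2 (.nd 2 (.lf 1) .nil) .nil) .nil) .nil) .nil)) .nil) .nil)) .nil) .nil) .nil) (.nd 2
  (.nd 3 (.nd 2 (.nd 2 (.nd 3 (.nd 1 (.nd 2 (.nd 0 (.nd 2 (.nd 1 (.nd 3 (.lf 1) .nil) .nil) (.nd 3
  (.nd 2 (.nd 1 (.lf 1) .nil) .nil) .nil)) (.nd 1 (.nd 2 (.nd 0 (.nd 3 (.lf 1) .nil) .nil) .nil)
  .nil)) (.nd 3 (.nd 2 (.nd 0 (.nd 1 (.nd 2 (.lf 2) .nil) (.nd 2 (.nd 1 (.lf 1) .nil) .nil)) (.nd 1
  (.nd 2 (.nd 0 (.lf 1) .nil) .nil) .nil)) .nil) .nil)) (.nd 2 (.nd 1 (.nd 0 (.nd 2 (.nd 1 (.nd 3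
  (.lf 2) .nil) .nil) (.nd 3 (.nd 2 (.nd 1 (.lf 1) .nil) .nil) .nil)) .nil) .nil) .nil)) .nil) (.nd
  3 (.nd 0 (.nd 1 (.nd 1 (.nd 2 (.nd 3 (.nd 2 (.nd 2 (.lf 1) .nil) .nil) .nil) .nil) (.nd 2 (.nd 2
  (.nd 1 (.nd 2 (.nd 3 (.lf 1) .nil) .nil) (.nd 2 (.nd 1 (.nd 3 (.lf 1) .nil) .nil) .nil)) .nil)
  .nil)) .nil) (.nd 1 (.nd 0 (.nd 2 (.nd 1 (.nd 3 (.nd 2 (.nd 2 (.lf 2) .nil) .nil) .nil) (.nd 2
  (.nd 3 (.nd 2 (.nd 1 (.lf 1) .nil) .nil) .nil) .nil)) .nil) .nil) .nil)) .nil)) (.nd 3 (.nd 2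
  (.nd 2 (.nd 0 (.nd 1 (.nd 2 (.nd 3 (.nd 2 (.nd 1 (.lf 2) .nil) .nil) .nil) (.nd 3 (.nd 2 (.nd 1
  (.nd 2 (.lf 1) .nil) .nil) .nil) .nil)) .nil) (.nd 2 (.nd 1 (.nd 0 (.nd 3 (.nd 2 (.nd 1 (.lf 2)
  .nil) .nil) .nil) .nil) .nil) .nil)) (.nd 3 (.nd 2 (.nd 1 (.nd 2 (.nd 0 (.nd 1 (.nd 2 (.lf 2)
  .nil) (.nd 2 (.nd 1 (.lf 2) .nil) .nil)) (.nd 1 (.nd 2 (.nd 0 (.lf 1) .nil) .nil) .nil)) .nil)
  .nil) .nil) .nil)) .nil) .nil)) .nil) .nil)) (.nd 2 (.nd 3 (.nd 0 (.nd 1 (.nd 1 (.nd 2 (.nd 2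
  (.nd 3 (.nd 2 (.nd 1 (.nd 2 (.nd 3 (.lf 1) .nil) .nil) .nil) .nil) .nil) (.nd 3 (.nd 1 (.nd 2
  (.nd 3 (.nd 2 (.nd 2 (.lf 2) .nil) .nil) .nil) .nil) (.nd 2 (.nd 1 (.nd 3 (.nd 2 (.nd 2 (.lf 1)
  .nil) .nil) .nil) .nil) .nil)) .nil)) (.nd 3 (.nd 2 (.nd 1 (.nd 2 (.nd 3 (.nd 2 (.nd 2 (.lf 1)
  .nil) .nil) .nil) .nil) .nil) .nil) .nil)) (.nd 2 (.nd 1 (.nd 2 (.nd 1 (.nd 3 (.nd 2 (.nd 2 (.nd
  3 (.lf 1) .nil) .nil) .nil) .nil) .nil) .nil) .nil) .nil)) .nil) (.nd 1 (.nd 0 (.nd 1 (.nd 2 (.nd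
  1 (.nd 2 (.nd 3 (.nd 2 (.nd 2 (.nd 3 (.lf 2) .nil) .nil) .nil) .nil) .nil) (.nd 2 (.nd 3 (.nd 2
  (.nd 1 (.nd 2 (.nd 3 (.lf 2) .nil) .nil) .nil) .nil) .nil) .nil)) (.nd 3 (.nd 2 (.nd 2 (.nd 1
  (.nd 3 (.nd 2 (.nd 2 (.lf 2) .nil) .nil) .nil) .nil) .nil) .nil) .nil)) (.nd 2 (.nd 1 (.nd 2 (.nd
  3 (.nd 1 (.nd 3 (.nd 2 (.nd 2 (.lf 2) .nil) .nil) .nil) (.nd 2 (.nd 1 (.nd 2 (.nd 3 (.lf 2) .nil)
  .nil) .nil) .nil)) .nil) .nil) .nil) .nil)) (.nd 2 (.nd 1 (.nd 0 (.nd 2 (.nd 1 (.nd 3 (.nd 2 (.nd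
  2 (.nd 3 (.lf 2) .nil) .nil) .nil) .nil) .nil) .nil) .nil) .nil) .nil)) .nil)) .nil) .nil)) .nil)
  .nil)) .nil)) (.nd 1 (.nd 2 (.nd 3 (.nd 2 (.nd 2 (.nd 3 (.nd 0 (.nd 1 (.nd 2 (.nd 3 (.nd 0 (.nd 1
  (.nd 2 (.nd 2 (.nd 1 (.nd 3 (.lf 1) .nil) .nil) (.nd 3 (.nd 1 (.nd 2 (.lf 2) .nil) (.nd 2 (.nd 1
  (.lf 2) .nil) .nil)) .nil)) (.nd 3 (.nd 2 (.nd 2 (.nd 1 (.lf 2) .nil) .nil) .nil) .nil)) .nil)
  (.nd 1 (.nd 0 (.nd 2 (.nd 2 (.nd 1 (.nd 3 (.lf 2) .nil) .nil) (.nd 3 (.nd 1 (.nd 2 (.lf 1) .nil)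
  (.nd 2 (.nd 1 (.lf 2) .nil) .nil)) .nil)) .nil) .nil) .nil)) .nil) (.nd 3 (.nd 0 (.nd 1 (.nd 1
  (.nd 2 (.nd 3 (.nd 2 (.nd 2 (.lf 1) .nil) .nil) .nil) .nil) (.nd 2 (.nd 2 (.nd 1 (.nd 2 (.nd 3
  (.lf 1) .nil) .nil) (.nd 2 (.nd 1 (.nd 3 (.lf 1) .nil) .nil) .nil)) .nil) .nil)) .nil) (.nd 1
  (.nd 0 (.nd 2 (.nd 3 (.nd 2 (.nd 1 (.nd 2 (.lf 2) .nil) (.nd 2 (.nd 1 (.lf 1) .nil) .nil)) .nil)
  .nil) (.nd 3 (.nd 2 (.nd 2 (.nd 1 (.nd 2 (.lf 2) .nil) (.nd 2 (.nd 1 (.lf 2) .nil) .nil)) .nil)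
  .nil) .nil)) .nil) .nil)) .nil)) (.nd 2 (.nd 0 (.nd 1 (.nd 1 (.nd 3 (.nd 2 (.nd 1 (.nd 2 (.nd 3
  (.lf 2) .nil) .nil) .nil) .nil) .nil) .nil) .nil) .nil) .nil)) (.nd 1 (.nd 0 (.nd 1 (.nd 0 (.nd 2
  (.nd 3 (.nd 2 (.nd 2 (.nd 1 (.nd 3 (.lf 2) .nil) .nil) (.nd 3 (.nd 1 (.nd 2 (.lf 1) .nil) (.nd 2
  (.nd 1 (.lf 1) .nil) .nil)) .nil)) (.nd 3 (.nd 2 (.nd 1 (.nd 2 (.lf 2) .nil) .nil) .nil) .nil))
  .nil) .nil) .nil) .nil) .nil) .nil)) .nil) (.nd 3 (.nd 1 (.nd 0 (.nd 2 (.nd 2 (.nd 3 (.nd 0 (.nd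
  1 (.nd 2 (.nd 2 (.nd 1 (.nd 3 (.lf 1) .nil) .nil) (.nd 3 (.nd 1 (.nd 2 (.lf 1) .nil) (.nd 2 (.nd
  1 (.lf 2) .nil) .nil)) .nil)) (.nd 3 (.nd 2 (.nd 1 (.nd 2 (.lf 1) .nil) (.nd 2 (.nd 1 (.lf 1)
  .nil) .nil)) .nil) .nil)) .nil) (.nd 1 (.nd 0 (.nd 1 (.nd 3 (.nd 2 (.nd 2 (.lf 1) .nil) .nil)
  .nil) (.nd 2 (.nd 3 (.nd 1 (.nd 2 (.lf 1) .nil) (.nd 2 (.nd 1 (.lf 2) .nil) .nil)) .nil) .nil))
  .nil) (.nd 2 (.nd 1 (.nd 0 (.nd 3 (.nd 2 (.nd 1 (.lf 2) .nil) .nil) .nil) .nil) .nil) .nil)))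
  .nil) (.nd 3 (.nd 2 (.nd 0 (.nd 1 (.nd 2 (.nd 2 (.nd 1 (.nd 3 (.lf 1) .nil) .nil) .nil) (.nd 3
  (.nd 2 (.nd 1 (.nd 2 (.lf 1) .nil) (.nd 2 (.nd 1 (.lf 2) .nil) .nil)) .nil) .nil)) .nil) (.nd 2
  (.nd 1 (.nd 0 (.nd 3 (.nd 2 (.nd 1 (.lf 2) .nil) .nil) .nil) .nil) .nil) .nil)) (.nd 3 (.nd 2
  (.nd 1 (.nd 2 (.nd 1 (.nd 2 (.nd 0 (.lf 2) .nil) .nil) (.nd 2 (.nd 1 (.nd 0 (.lf 1) .nil) .nil)
  .nil)) .nil) .nil) .nil) .nil)) .nil)) (.nd 3 (.nd 2 (.nd 0 (.nd 1 (.nd 2 (.nd 2 (.nd 3 (.nd 2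
  (.nd 1 (.lf 1) .nil) .nil) .nil) (.nd 3 (.nd 2 (.nd 1 (.nd 2 (.lf 2) .nil) .nil) .nil) .nil))
  .nil) (.nd 2 (.nd 1 (.nd 3 (.nd 2 (.nd 1 (.nd 2 (.lf 2) .nil) .nil) .nil) .nil) .nil) .nil)) (.nd
  1 (.nd 0 (.nd 1 (.nd 2 (.nd 3 (.nd 2 (.nd 2 (.lf 1) .nil) .nil) .nil) .nil) (.nd 2 (.nd 3 (.nd 2
  (.nd 1 (.nd 2 (.lf 2) .nil) .nil) .nil) .nil) .nil)) .nil) (.nd 2 (.nd 1 (.nd 0 (.nd 3 (.nd 2
  (.nd 1 (.nd 2 (.lf 2) .nil) .nil) .nil) .nil) .nil) .nil) .nil))) .nil) .nil)) .nil) (.nd 2 (.nd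
  0 (.nd 0 (.nd 1 (.nd 1 (.nd 2 (.nd 3 (.nd 2 (.nd 2 (.nd 1 (.nd 3 (.lf 1) .nil) .nil) (.nd 3 (.nd
  2 (.nd 1 (.lf 1) .nil) .nil) .nil)) (.nd 3 (.nd 2 (.nd 1 (.nd 2 (.lf 2) .nil) .nil) .nil) .nil))
  .nil) .nil) (.nd 2 (.nd 1 (.nd 3 (.nd 2 (.nd 1 (.nd 2 (.nd 3 (.lf 1) .nil) .nil) .nil) .nil)
  .nil) .nil) .nil)) .nil) .nil) (.nd 1 (.nd 2 (.nd 0 (.nd 1 (.nd 0 (.nd 3 (.nd 2 (.nd 1 (.nd 2
  (.nd 3 (.lf 2) .nil) .nil) .nil) .nil) .nil) .nil) .nil) .nil) .nil) .nil)) .nil)) .nil)) (.nd 3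
  (.nd 2 (.nd 2 (.nd 0 (.nd 1 (.nd 2 (.nd 3 (.nd 1 (.nd 0 (.nd 2 (.nd 3 (.nd 1 (.nd 2 (.lf 2) .nil)
  (.nd 2 (.nd 1 (.lf 2) .nil) .nil)) .nil) (.nd 3 (.nd 2 (.nd 1 (.nd 2 (.lf 2) .nil) .nil) .nil)
  .nil)) .nil) (.nd 2 (.nd 1 (.nd 0 (.nd 2 (.nd 1 (.nd 3 (.lf 2) .nil) .nil) (.nd 3 (.nd 1 (.nd 2
  (.lf 1) .nil) (.nd 2 (.nd 1 (.lf 1) .nil) .nil)) .nil)) (.nd 1 (.nd 2 (.nd 0 (.nd 3 (.lf 2) .nil)
  .nil) .nil) .nil)) .nil) (.nd 3 (.nd 2 (.nd 1 (.nd 0 (.nd 1 (.nd 2 (.lf 1) .nil) (.nd 2 (.nd 1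
  (.lf 2) .nil) .nil)) (.nd 1 (.nd 2 (.nd 0 (.lf 2) .nil) .nil) .nil)) .nil) .nil) .nil))) .nil)
  (.nd 3 (.nd 0 (.nd 1 (.nd 1 (.nd 2 (.nd 3 (.nd 2 (.nd 2 (.lf 1) .nil) .nil) .nil) .nil) (.nd 2
  (.nd 1 (.nd 2 (.nd 2 (.nd 3 (.lf 1) .nil) .nil) (.nd 3 (.nd 2 (.nd 2 (.lf 1) .nil) .nil) .nil))
  .nil) .nil)) .nil) (.nd 1 (.nd 0 (.nd 1 (.nd 2 (.nd 3 (.nd 2 (.nd 2 (.lf 2) .nil) .nil) .nil)
  .nil) (.nd 2 (.nd 1 (.nd 3 (.nd 2 (.nd 2 (.lf 1) .nil) .nil) .nil) .nil) .nil)) .nil) .nil))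
  .nil)) (.nd 2 (.nd 0 (.nd 1 (.nd 1 (.nd 3 (.nd 2 (.nd 1 (.nd 2 (.nd 3 (.lf 2) .nil) .nil) .nil)
  .nil) .nil) .nil) .nil) .nil) .nil)) (.nd 1 (.nd 0 (.nd 1 (.nd 0 (.nd 2 (.nd 3 (.nd 2 (.nd 1 (.nd
  2 (.nd 3 (.lf 1) .nil) .nil) (.nd 2 (.nd 1 (.nd 3 (.lf 2) .nil) .nil) .nil)) .nil) .nil) (.nd 3
  (.nd 2 (.nd 1 (.nd 3 (.nd 2 (.nd 2 (.lf 1) .nil) .nil) .nil) .nil) .nil) .nil)) .nil) .nil) .nil)
  .nil)) (.nd 3 (.nd 1 (.nd 0 (.nd 2 (.nd 0 (.nd 1 (.nd 2 (.nd 2 (.nd 3 (.nd 2 (.nd 1 (.lf 1) .nil)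
  .nil) .nil) (.nd 3 (.nd 2 (.nd 1 (.nd 2 (.lf 1) .nil) .nil) .nil) .nil)) .nil) (.nd 2 (.nd 1 (.nd
  3 (.nd 2 (.nd 1 (.nd 2 (.lf 1) .nil) .nil) .nil) .nil) .nil) .nil)) (.nd 1 (.nd 0 (.nd 2 (.nd 2
  (.nd 2 (.nd 1 (.nd 3 (.lf 2) .nil) .nil) (.nd 3 (.nd 1 (.nd 2 (.lf 1) .nil) (.nd 2 (.nd 1 (.lf 1)
  .nil) .nil)) .nil)) (.nd 3 (.nd 2 (.nd 1 (.nd 2 (.lf 2) .nil) (.nd 2 (.nd 1 (.lf 2) .nil) .nil))
  .nil) .nil)) .nil) .nil) .nil)) (.nd 3 (.nd 2 (.nd 1 (.nd 0 (.nd 2 (.nd 2 (.nd 1 (.nd 2 (.lf 2)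
  .nil) (.nd 2 (.nd 1 (.lf 2) .nil) .nil)) .nil) .nil) .nil) .nil) .nil) .nil)) .nil) (.nd 2 (.nd 1
  (.nd 2 (.nd 0 (.nd 0 (.nd 1 (.nd 1 (.nd 2 (.nd 2 (.nd 3 (.lf 2) .nil) .nil) (.nd 3 (.nd 2 (.nd 2
  (.lf 1) .nil) .nil) .nil)) (.nd 2 (.nd 3 (.nd 1 (.nd 2 (.lf 2) .nil) (.nd 2 (.nd 1 (.lf 1) .nil)
  .nil)) .nil) .nil)) .nil) (.nd 1 (.nd 0 (.nd 3 (.nd 2 (.nd 1 (.nd 2 (.lf 1) .nil) .nil) .nil)
  .nil) .nil) .nil)) .nil) .nil) (.nd 3 (.nd 2 (.nd 2 (.nd 1 (.nd 0 (.nd 1 (.nd 0 (.nd 1 (.nd 2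
  (.lf 1) .nil) (.nd 2 (.nd 1 (.lf 2) .nil) .nil)) (.nd 1 (.nd 2 (.nd 0 (.lf 1) .nil) .nil) .nil))
  .nil) .nil) .nil) .nil) .nil) .nil)) .nil)) .nil)) (.nd 3 (.nd 2 (.nd 1 (.nd 0 (.nd 2 (.nd 0 (.nd
  1 (.nd 1 (.nd 2 (.nd 3 (.nd 2 (.nd 2 (.lf 2) .nil) .nil) .nil) .nil) (.nd 2 (.nd 3 (.nd 2 (.nd 2
  (.nd 1 (.lf 2) .nil) .nil) .nil) .nil) .nil)) (.nd 2 (.nd 1 (.nd 3 (.nd 2 (.nd 1 (.nd 2 (.lf 1)
  .nil) .nil) .nil) .nil) .nil) .nil)) (.nd 1 (.nd 2 (.nd 0 (.nd 1 (.nd 3 (.nd 2 (.nd 2 (.lf 1)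
  .nil) .nil) .nil) .nil) .nil) .nil) (.nd 2 (.nd 1 (.nd 0 (.nd 3 (.nd 2 (.nd 1 (.nd 2 (.lf 1)
  .nil) .nil) .nil) .nil) .nil) .nil) .nil))) .nil) .nil) (.nd 2 (.nd 0 (.nd 0 (.nd 1 (.nd 1 (.nd 2
  (.nd 2 (.nd 2 (.nd 1 (.nd 3 (.lf 1) .nil) .nil) (.nd 3 (.nd 1 (.nd 2 (.lf 2) .nil) (.nd 2 (.nd 1
  (.lf 2) .nil) .nil)) .nil)) (.nd 3 (.nd 2 (.nd 2 (.nd 1 (.lf 1) .nil) .nil) .nil) .nil)) .nil)
  .nil) .nil) .nil) .nil) .nil)) .nil) .nil)) .nil)) .nil) .nil) .nil)) .nil)) .nil)) .nil) .nil)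

def sN4 : List ℕ :=
  [377739, 2, 500055, 2, 641691, 1, 656073, 2, 975783, 1, 1121655, 1, 1304065, 1, 1376622, 2,
  1455543, 1, 1468985, 1, 1550718, 2, 1694781, 2, 1762782, 2, 2188743, 2, 2238561, 1, 2333590, 1,
  2495465, 1, 2544689, 2, 2551395, 1, 2603890, 2, 2723274, 2, 2800308, 2, 2994558, 1, 3061674, 2,
  3124668, 1, 3801501, 2, 3888027, 1, 4283721, 1, 4553654, 2, 4869529, 1, 4978025, 2, 5234390, 2,
  5353530, 2, 5544635, 2, 5660445, 2, 5797935, 1, 5973630, 1, 6281268, 1, 6388005, 2, 6457869, 1,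
  6499235, 1, 6590815, 2, 6602607, 1, 6792534, 1, 6839487, 2, 7168356, 1, 7236684, 1, 7277049, 2,
  7302764, 2, 7440147, 1, 7487805, 2, 7522803, 1, 7676361, 1, 7691409, 2, 7908978, 1, 8226316, 2,
  8433891, 1, 8457603, 1, 9189882, 2, 9230371, 1, 9716733, 1, 9847675, 2, 10199235, 1, 10214134, 1,
  10446618, 2, 10569790, 1, 10590510, 1, 10819531, 2, 11045517, 2, 11166025, 1, 11447205, 2,
  11469645, 2, 11630210, 1, 11817210, 1, 11879109, 2, 12576855, 1, 12683748, 1, 12708612, 2,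
  13005135, 1, 13149615, 1, 13332627, 2, 13358763, 1, 13399230, 2, 13704210, 2, 13736646, 2,
  13956252, 2, 13974604, 2, 14180652, 1, 14287812, 2, 14489865, 2, 14648337, 2, 14689521, 1,
  14783615, 1, 15149745, 2, 16079076, 2, 16320663, 2, 16471385, 1, 16506477, 2, 16517506, 2,
  16876431, 1, 17063919, 2, 17221505, 1, 17387838, 2, 17585802, 2, 18144126, 1, 18693948, 1,
  18763773, 2, 18791817, 2, 19184319, 2, 19361266, 1, 19609075, 2, 19902291, 1, 19990698, 1,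
  20625374, 1, 20665806, 2, 20937183, 2, 21175557, 2, 22027137, 1, 22234225, 1, 22547525, 2,
  22591725, 2, 23530890, 2, 24541863, 1, 24983140, 1, 25113935, 1, 25676805, 1, 26415410, 2,
  26605035, 2, 26681070, 1, 27057030, 2, 27110070, 1, 27406566, 2, 27876940, 1, 27981065, 1,
  28077894, 1, 28142660, 1, 28237068, 1, 28608195, 1, 28933905, 1, 29255345, 2, 29637333, 1,
  29678855, 2, 29810690, 1, 29852515, 1, 29911035, 2, 30136722, 1, 30535434, 1, 30739410, 2,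
  30812166, 2, 30883086, 2, 31049956, 2, 31513482, 2, 31575258, 1, 31577585, 2, 31917606, 2,
  31926042, 2, 32017284, 2, 32468436, 1, 32589711, 2, 32638419, 1, 32798465, 1, 33320133, 2,
  33959562, 2, 34567137, 1, 34623342, 2, 34720686, 2, 34943090, 1, 35106414, 1, 35614626, 1,
  35772828, 2, 35823018, 1, 35893242, 1, 36395716, 1, 36887292, 2, 36908564, 1, 37014185, 1,
  37441521, 1, 39172794, 2, 39358158, 1, 39468814, 2, 39674175, 1, 39889746, 2, 41808151, 2,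
  41931708, 1, 42886116, 1, 43917018, 2, 44417022, 1, 44566533, 2, 46208745, 1, 47491659, 1,
  47596430, 2, 47609010, 1, 49422380, 1, 50417495, 1, 50575525, 2, 50811915, 2, 51849105, 1,
  51915771, 2, 51950745, 2, 52351670, 2, 52678010, 2, 53294150, 1, 53420290, 1, 53525010, 1,
  53982630, 2, 54600889, 1, 55146980, 1, 55222531, 1, 55435842, 1, 55450494, 1, 56301921, 2,
  56697465, 1, 56965755, 1, 57050895, 2, 57115716, 1, 57125915, 2, 57130812, 2, 58376565, 1,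
  58415570, 2, 58721553, 1, 58915675, 2, 59097695, 2, 59360210, 2, 60500994, 1, 60974298, 1,
  61364870, 1, 61856982, 1, 62340894, 2, 62529740, 2, 63213612, 2, 63564105, 2, 63952980, 2,
  64001329, 2, 64191855, 2, 64230012, 1, 64287795, 1, 64779156, 1, 65630565, 2, 66035871, 1,
  66235910, 2, 66359685, 2, 66458865, 1, 68036958, 1, 68358906, 2, 68389230, 2, 68551098, 2,
  68831433, 2, 70051878, 1, 70098684, 2, 70430388, 2, 70698810, 1, 70820895, 1, 70917234, 2,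
  72828756, 1, 73637844, 1, 73923003, 2, 74033487, 2, 74486412, 2, 74632428, 1, 74814586, 1,
  74876373, 1, 74889165, 2, 76276926, 1, 76689567, 1, 77145354, 2, 77405031, 2, 77418255, 2,
  77562693, 1, 78756678, 2, 79301079, 1, 79483092, 2, 79631622, 2, 80182071, 1, 81143244, 1,
  81704142, 2, 82167324, 1, 82788244, 2, 83959005, 1, 84672588, 2, 84838572, 2, 84985074, 1,
  86241969, 1, 87223851, 1, 87564274, 2, 87695146, 1, 87782565, 1, 90145671, 2, 90169497, 2,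
  92239756, 2, 92877358, 2, 93289924, 2, 94833123, 1, 95912817, 1, 97706854, 1, 97787547, 1,
  98382247, 2, 98957425, 2, 99105325, 1, 99151899, 2, 101532925, 2, 102156502, 2, 102327225, 1,
  102643365, 1, 102793306, 2, 105753770, 2, 106581090, 2, 108951453, 1, 109220670, 1, 109810820, 2,
  110419675, 1, 111676825, 1, 114361635, 1, 114528694, 1, 115256295, 1, 115320367, 1, 115832626, 2,
  118748910, 2, 118926390, 2, 119542150, 1, 119549331, 2, 119569755, 1, 119825090, 2, 121839510, 1,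
  122552430, 1, 123172038, 2, 123850797, 1, 124511660, 1, 125202025, 1, 125260863, 2, 126266140, 2,
  126513660, 2, 126737765, 2, 126904524, 1, 126927185, 2, 128606445, 2, 129491061, 1, 129578295, 2,
  130070655, 2, 130881465, 2, 130903825, 2, 131030172, 2, 131064804, 2, 134463285, 2, 134646330, 2,
  134714151, 1, 134847570, 2, 135024890, 2, 135577065, 1, 137233962, 1, 138514266, 1, 138796398, 2,
  139263597, 2, 139584830, 1, 141907194, 1, 142498692, 1, 142711668, 1, 143027885, 2, 143450580, 2,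
  143483706, 2, 144121068, 2, 145605915, 2, 145823535, 1, 147351204, 1, 147832839, 1, 147858095, 1,
  148779785, 1, 148988196, 1, 149788683, 1, 151494057, 2, 151952970, 2, 152085318, 2, 152464455, 2,
  153136599, 2, 154327734, 1, 155126790, 1, 156084786, 2, 156610179, 1, 157084590, 1, 160205892, 2,
  160814628, 2, 161313306, 2, 161355942, 1, 162029868, 1, 162471465, 2, 162692478, 2, 163829932, 1,
  164710161, 1, 165517835, 2, 166201588, 2, 166585419, 2, 166779340, 2, 167501796, 2, 167652485, 2,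
  169701378, 2, 171633462, 2, 172211193, 1, 173314295, 2, 174727098, 2, 175934889, 2, 176052442, 1,
  176834476, 1, 176980518, 1, 177559655, 1, 178305775, 1, 178535742, 2, 179700675, 2, 180290916, 2,
  182806372, 1, 184689785, 2, 185146150, 1, 186152148, 2, 187438914, 2, 188501508, 1, 189231471, 1,
  189366331, 1, 193100705, 1, 194965758, 2, 198918258, 2, 200293269, 2, 200515425, 1, 201894665, 2,
  202030675, 1, 202176325, 2, 206165466, 2, 206362762, 2, 206591650, 2, 207673785, 1, 207977154, 2,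
  209932450, 1, 213071586, 2, 213127902, 1, 214279492, 1, 215583830, 1, 217558341, 1, 218951915, 2,
  221627742, 2, 222175380, 1, 224905527, 2, 226703022, 2, 231134202, 2, 231720846, 2, 233322603, 2,
  233479785, 1, 233541495, 2, 237122270, 1, 240554930, 2, 240618510, 1, 241864350, 2, 242273598, 2,
  242611590, 2, 247309909, 1, 247909980, 2, 249208542, 2, 249783380, 1, 253315725, 2, 255229975, 1,
  256760316, 1, 256806165, 1, 258406995, 2, 262742298, 1, 264588170, 2, 264806685, 1, 271935279, 1,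
  272007153, 2, 272423970, 2, 272831130, 1, 274307085, 1, 280249794, 2, 281098740, 2, 282337972, 1,
  282571146, 2, 283222940, 1, 284128299, 1, 284546724, 1, 287478345, 1, 287908005, 1, 288742212, 2,
  289669380, 1, 290237220, 1, 291133908, 2, 295038315, 1, 296632490, 1, 296781903, 2, 301632695, 2,
  303978870, 1, 305571123, 2, 305775294, 1, 306275970, 2, 307439730, 1, 308393085, 2, 309356190, 2,
  310141370, 2, 314830854, 2, 315557060, 2, 317505804, 1, 317738330, 1, 317822310, 1, 318415266, 2,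
  318730620, 2, 319149740, 2, 320776995, 1, 321213354, 1, 326908764, 2, 327397356, 2, 329168502, 1,
  329927780, 2, 330947092, 2, 332782055, 2, 335417004, 2, 338065910, 1, 338866066, 2, 339203865, 1,
  343632861, 1, 344673810, 2, 347358627, 1, 347877783, 2, 349423074, 1, 349482770, 2, 350659155, 2,
  351661310, 1, 354045978, 1, 355958988, 2, 358076862, 2, 360370530, 1, 361223478, 2, 361285190, 1,
  361959234, 1, 364774644, 1, 369280732, 2, 370071702, 1, 370169514, 1, 371614236, 2, 372169644, 1,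
  374182998, 1, 380284905, 1, 381285996, 1, 384932394, 2, 389314926, 2, 390625389, 2, 393747354, 2,
  396269510, 1, 397207426, 2, 402462522, 2, 403885014, 1, 405679092, 1, 409054425, 2, 409651970, 2,
  413608572, 1, 414658356, 2, 417524658, 1, 417791836, 2, 418317588, 1, 419379324, 1, 420679798, 2,
  420790986, 2, 421993572, 1, 423700095, 1, 424747050, 1, 432444636, 1, 442554574, 1, 442995735, 1,
  445613707, 1, 447274386, 2, 462708862, 1, 464914065, 1, 470170428, 2, 473420454, 2, 476428095, 1,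
  479002370, 1, 490865310, 1, 497378420, 2, 500136175, 2, 505830325, 1, 508440114, 2, 508983475, 1,
  509561780, 2, 509696460, 1, 514228806, 2, 517990935, 2, 518747614, 2, 518765115, 1, 522333427, 1,
  522823455, 1, 522912775, 2, 533687630, 2, 534485270, 2, 535269501, 1, 537862710, 2, 538666590, 1,
  551861310, 2, 552007170, 1, 554161580, 1, 554989820, 2, 557992190, 1, 560470820, 1, 566245225, 2,
  567091525, 2, 568584380, 2, 571713714, 1, 574802844, 2, 577970386, 1, 577989885, 1, 579398540, 1,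
  581965573, 2, 582511545, 2, 584550694, 1, 584570415, 1, 592917325, 1, 602284670, 2, 603270850, 2,
  604208781, 2, 604698710, 2, 606996390, 2, 608468749, 1, 608878655, 2, 610780170, 2, 618350180, 2,
  622518138, 2, 622624490, 2, 625390220, 1, 625885821, 2, 625906710, 1, 627495330, 1, 628349540, 2,
  628666038, 1, 632692970, 2, 640425156, 2, 642756114, 1, 642925998, 2, 644873580, 2, 645435252, 2,
  660494835, 1, 660607675, 2, 662408604, 1, 667895436, 2, 669590628, 1, 669710195, 2, 678454623, 2,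
  679494270, 1, 680509830, 1, 680852601, 1, 684191235, 2, 693587862, 1, 697363290, 2, 699013854, 2,
  701131340, 2, 703845747, 1, 709113860, 1, 709731484, 2, 711500790, 2, 714637462, 2, 720196092, 2,
  722259018, 1, 722741604, 1, 723925020, 2, 725174406, 2, 728929110, 1, 730654386, 2, 730847502, 2,
  731205540, 2, 735900165, 1, 746040141, 1, 747149388, 1, 750818915, 2, 752795428, 2, 752994396, 1,
  758200170, 1, 759231564, 1, 769413645, 1, 773960649, 1, 792729210, 1, 797414002, 1, 798072561, 1,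
  798208905, 1, 800956156, 1, 801754590, 2, 807620275, 1, 812223126, 1, 815393124, 1, 821029482, 1,
  822256578, 2, 825909084, 1, 826704801, 2, 828005332, 1, 831199460, 1, 836536085, 1, 836835948, 1,
  838603150, 1, 846060215, 1, 846363492, 2, 853800948, 1, 857107251, 1, 874632605, 2, 874714932, 2,
  874946124, 1, 883080198, 1, 889184439, 2, 898855230, 2, 900982698, 1, 901167025, 2, 907210689, 2,
  908216925, 2, 909840204, 2, 916129422, 2, 929678607, 1, 930675564, 2, 933338505, 2, 935738650, 1,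
  938853916, 1, 951275052, 1, 962105508, 2, 969144330, 1, 974318499, 2, 994334068, 1, 994596876, 1,
  998512340, 1, 1003843302, 1, 1010782311, 2, 1015272258, 1, 1020285175, 2, 1034262796, 1,
  1034343695, 1, 1041412078, 1, 1046038084, 2, 1049559126, 2, 1053268762, 2, 1056814143, 2,
  1057526085, 2, 1057805595, 1, 1057947436, 2, 1061009950, 2, 1081363948, 2, 1081400430, 2,
  1087064847, 1, 1088838814, 2, 1089572330, 2, 1089860310, 1, 1093675492, 1, 1098887790, 1,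
  1104943385, 2, 1114170140, 1, 1120006206, 2, 1122886380, 1, 1126102770, 2, 1128700300, 2,
  1128768102, 1, 1130610124, 2, 1132187420, 1, 1138464925, 1, 1147371225, 1, 1154151845, 1,
  1162973196, 1, 1163180865, 1, 1190108205, 2, 1195598950, 2, 1198428770, 2, 1203051850, 1,
  1222468929, 2, 1226130724, 1, 1232805405, 2, 1234606282, 1, 1235764530, 1, 1235975650, 2,
  1241212434, 1, 1263328820, 1, 1271311860, 2, 1273211940, 2, 1280099730, 2, 1325932062, 2,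
  1325976795, 1, 1335097491, 1, 1336350015, 2, 1340398150, 1, 1341565610, 2, 1350839105, 1,
  1351323324, 2, 1352858045, 2, 1366157910, 1, 1381711890, 2, 1384982214, 1, 1386362835, 1,
  1401440950, 2, 1425998574, 2, 1428129846, 2, 1429287860, 1, 1439548110, 2, 1443662220, 2,
  1452931095, 2, 1469210652, 1, 1469473005, 1, 1471406508, 1, 1479366486, 1, 1479415860, 1,
  1485937908, 2, 1496959310, 1, 1514002490, 2, 1519098735, 2, 1519241724, 1, 1519643268, 2,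
  1524467945, 1, 1536119676, 1, 1544372973, 2, 1561169610, 1, 1575681723, 2, 1575950915, 1,
  1603620018, 2, 1608477780, 1, 1609287966, 1, 1614704949, 2, 1621006926, 1, 1623429654, 2,
  1639389492, 1, 1652214564, 1, 1658054268, 1, 1670128348, 1, 1681729140, 1, 1689143092, 1,
  1714048596, 1, 1727001276, 1, 1727457732, 1, 1739400390, 2, 1755569277, 1, 1763367606, 1,
  1808768346, 1, 1818614070, 2, 1822918482, 1, 1829361534, 1, 1838394025, 2, 1852775925, 1,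
  1863579508, 1, 1878158436, 2, 1884796732, 1, 1886353326, 1, 1891141098, 2, 1919800116, 1,
  1943515548, 2, 1948448404, 1, 1977267110, 1, 1990934855, 1, 1999778690, 2, 2004511894, 1,
  2018367967, 2, 2025889866, 1, 2033202325, 1, 2081603615, 1, 2087280468, 2, 2101708674, 1,
  2129595468, 2, 2141188335, 2, 2146694550, 1, 2182336884, 1, 2197422162, 2, 2209295452, 2,
  2223331110, 1, 2302934634, 1, 2346194235, 1, 2349700815, 2, 2368487275, 2, 2389121826, 2,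
  2399734428, 2, 2405636493, 1, 2417291030, 1, 2444812370, 2, 2480776116, 2, 2480859810, 1,
  2493854649, 2, 2499607110, 2, 2500267770, 1, 2507841700, 1, 2556037380, 2, 2568591025, 1,
  2569426002, 1, 2575352780, 1, 2576033460, 2, 2597371140, 1, 2617865866, 2, 2617954185, 1,
  2635961713, 1, 2647287396, 2, 2647760115, 1, 2667997332, 2, 2697286130, 1, 2711968350, 2,
  2715930965, 1, 2737177905, 2, 2749336590, 1, 2800762580, 1, 2812983030, 2, 2820122690, 1,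
  2832649820, 1, 2834894601, 2, 2843577100, 1, 2889472014, 2, 2898224940, 2, 2901267215, 2,
  2920897980, 1, 2928311540, 1, 2933774844, 2, 2992164175, 2, 3032851668, 2, 3103615515, 2,
  3134126970, 2, 3141545022, 1, 3158645490, 2, 3163260771, 2, 3170973260, 1, 3188007207, 2,
  3197664470, 1, 3254362020, 1, 3273594324, 2, 3276857610, 2, 3284613486, 1, 3370542084, 1,
  3375579636, 2, 3384147228, 2, 3401669180, 1, 3402568260, 1, 3434200770, 2, 3457939485, 1,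
  3473299830, 1, 3505586469, 2, 3538267460, 1, 3562725530, 1, 3578551340, 1, 3590597010, 2,
  3603287870, 2, 3611816362, 2, 3650336118, 2, 3658044775, 2, 3690037260, 1, 3724338618, 2,
  3724974890, 2, 3741521420, 1, 3789016385, 2, 3790374588, 2, 3803771556, 1, 3816575334, 2,
  3831470916, 1, 3837197364, 1, 3857955738, 2, 3867876740, 2, 3932229132, 2, 4027482459, 2,
  4149527382, 2, 4167959796, 1, 4194657740, 1, 4227474405, 1, 4233649882, 2, 4238345650, 2,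
  4275270636, 2, 4304823198, 2, 4308716412, 2, 4323945444, 1, 4338500166, 1, 4355579690, 1,
  4379288550, 2, 4389653730, 1, 4458653316, 1, 4522673540, 1, 4621291675, 2, 4628198575, 1,
  4716984118, 2, 4717143255, 1, 4737937204, 2, 4749589999, 1, 4770687922, 2, 4788466956, 1,
  4805750950, 1, 4897942588, 1, 4898107830, 2, 4923764307, 1, 5046535340, 2, 5060990610, 1,
  5068383684, 1, 5156576425, 2, 5226695628, 1, 5255146260, 2, 5354399050, 1, 5391411025, 2,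
  5545550010, 1, 5553838290, 2, 5583883305, 2, 5660571906, 1, 5753091890, 2, 5863850460, 2,
  5894565534, 2, 5908162260, 2, 5909723820, 1, 5973798740, 2, 6071215150, 1, 6073188732, 1,
  6127651145, 1, 6187891710, 2, 6230454958, 2, 6258342090, 1, 6273522619, 2, 6279408135, 2,
  6375403580, 1, 6419473190, 1, 6447988820, 2, 6498431940, 1, 6648868980, 2, 6665744540, 2,
  6827213855, 1, 6829661124, 2, 6857540690, 2, 6903710268, 2, 6904943045, 1, 7072388050, 1,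
  7089127430, 1, 7256892357, 1, 7335818490, 2, 7425470052, 2, 7465889340, 2, 7476798186, 2,
  7535289762, 2, 7703367828, 2, 7763631876, 2, 7951696137, 1, 8117201820, 2, 8173311510, 2,
  8192656626, 2, 8209617780, 1, 8285931654, 2, 8326843525, 1, 8440918948, 2, 8486865660, 2,
  8499266314, 2, 8537020492, 1, 8565756738, 1, 8628067188, 2, 8646287650, 1, 8802982188, 2,
  8825325124, 2, 8955856910, 1, 9017763755, 1, 9020996244, 2, 9291342775, 2, 9519503994, 2,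
  9647788150, 2, 10006808812, 1, 10017907900, 1, 10254636756, 2, 10260579175, 1, 10295006540, 2,
  10375545180, 2, 10821316506, 1, 10821681585, 1, 10896118233, 2, 10923053050, 1, 10939378450, 1,
  10948906430, 1, 11149235188, 2, 11226303634, 1, 11276171452, 2, 11359047700, 1, 11487478340, 2,
  11577345780, 1, 11637988362, 1, 11656980244, 1, 11857792485, 1, 12188271550, 1, 12217119530, 2,
  12301569665, 1, 12397805805, 2, 12655852300, 2, 12743335150, 1, 12773496890, 2, 12962424475, 2,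
  13107663660, 1, 13127254140, 2, 13198269630, 1, 13229508138, 2, 13232209900, 1, 13379533596, 2,
  13630402324, 2, 13932609444, 2, 14327710551, 2, 14350144900, 1, 14483539070, 1, 14792444940, 1,
  14842237410, 2, 15209213404, 2, 15292002180, 1, 15662431785, 2, 15837923556, 1, 16137050930, 2,
  16208732540, 2, 16320774470, 1, 16756119380, 2, 17152654662, 1, 17339207340, 2, 17672432076, 2,
  17810684892, 2, 18794918142, 1, 19147972305, 1, 19364461116, 1, 19584929364, 2, 19681630150, 2,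
  19728213890, 2, 20089174924, 2, 20246334108, 2, 21314714330, 2, 21365163358, 1, 21365884155, 1,
  21512848819, 2, 21961355650, 1, 22013335190, 2, 22500645804, 2, 22803862900, 1, 23617956180, 2,
  24252278050, 1, 24419920525, 2, 25577657196, 2, 25578520110, 1, 25754461278, 1, 25856712700, 1,
  25879233380, 2, 26353626780, 2, 27507972492, 1, 28027509510, 1, 28221248055, 2, 28876827980, 1,
  29076437390, 1, 29303904630, 2, 30191901740, 1, 30638457850, 2, 30923262755, 1, 31269746508, 1,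
  33865497666, 2, 34233819620, 1, 35081652060, 2, 37020293310, 2, 38576376020, 1, 40542638292, 1,
  42084317275, 2, 44424351972, 1, 45258843630, 1, 46630323740, 1, 50499477028, 2, 50501180730, 1,
  50848551754, 1, 52031519540, 1, 55718874365, 1, 57323566300, 1, 57719812150, 2, 60458320260, 1,
  66246840660, 1, 66704768130, 2, 68726124740, 1, 69263774580, 2, 72418173100, 2, 73091348330, 1,
  73596588065, 1, 80045721756, 2, 87502511460, 2, 99472022650, 2, 106975448580, 1, 119366427180, 1,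
  131699157590, 1, 136428646900, 2, 157665815580, 2, 172761368780, 1, 173955571790, 1,
  235115689900, 2, 311288917940, 1, 411167715140, 1]

noncomputable def sL4 : PL := ofL sN4 PL.nil none

theorem sub4_ok : (valT env0 sT4 true).beq sL4 = true := by decide +kernel

end Pool.Agent.MP_2042ac_al

end

-- part MP_2042ac_al.Sub0
section

/-!
Certificate, part 0.
-/

set_option autoImplicit false
set_option maxRecDepth 100000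

namespace Pool.Agent.MP_2042ac_al

def sT0 : HT :=
  (.nd 0 (.nd 1 (.nd 3 (.nd 2 (.nd 1 (.nd 2 (.nd 3 (.nd 2 (.nd 2 (.nd 3 (.nd 2 (.nd 1 (.nd 2 (.nd 1
  (.nd 3 (.nd 2 (.nd 2 (.nd 1 (.nd 3 (.lf 1) .nil) .nil) (.nd 3 (.nd 1 (.nd 2 (.lf 1) .nil) (.nd 2
  (.nd 1 (.lf 1) .nil) .nil)) .nil)) .nil) .nil) .nil) .nil) .nil) (.nd 3 (.nd 1 (.nd 2 (.nd 1 (.nd
  2 (.nd 2 (.nd 2 (.nd 1 (.nd 3 (.lf 2) .nil) .nil) (.nd 3 (.nd 1 (.nd 2 (.lf 1) .nil) (.nd 2 (.nd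
  1 (.lf 1) .nil) .nil)) .nil)) (.nd 3 (.nd 2 (.nd 2 (.nd 1 (.lf 2) .nil) .nil) .nil) .nil)) (.nd 3
  (.nd 2 (.nd 2 (.nd 1 (.nd 2 (.lf 1) .nil) (.nd 2 (.nd 1 (.lf 1) .nil) .nil)) .nil) .nil) .nil))
  (.nd 2 (.nd 1 (.nd 3 (.nd 2 (.nd 1 (.nd 2 (.lf 2) .nil) .nil) .nil) .nil) .nil) .nil)) .nil)
  .nil) .nil)) .nil) (.nd 3 (.nd 1 (.nd 1 (.nd 2 (.nd 2 (.nd 3 (.nd 2 (.nd 1 (.nd 3 (.nd 2 (.nd 2
  (.lf 1) .nil) .nil) .nil) .nil) .nil) .nil) (.nd 3 (.nd 2 (.nd 1 (.nd 2 (.nd 3 (.nd 2 (.nd 2 (.lf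
  1) .nil) .nil) .nil) .nil) .nil) .nil) .nil)) .nil) .nil) .nil) .nil)) (.nd 3 (.nd 2 (.nd 2 (.nd
  1 (.nd 2 (.nd 1 (.nd 2 (.nd 3 (.nd 2 (.nd 2 (.nd 1 (.nd 3 (.lf 1) .nil) .nil) (.nd 3 (.nd 1 (.nd
  2 (.lf 1) .nil) (.nd 2 (.nd 1 (.lf 1) .nil) .nil)) .nil)) (.nd 3 (.nd 2 (.nd 1 (.nd 2 (.lf 1)
  .nil) (.nd 2 (.nd 1 (.lf 2) .nil) .nil)) .nil) .nil)) .nil) .nil) (.nd 2 (.nd 1 (.nd 3 (.nd 2
  (.nd 1 (.nd 2 (.nd 3 (.lf 1) .nil) .nil) .nil) .nil) .nil) .nil) .nil)) (.nd 3 (.nd 2 (.nd 2 (.nd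
  1 (.nd 2 (.nd 2 (.nd 1 (.nd 3 (.lf 1) .nil) .nil) (.nd 3 (.nd 2 (.nd 1 (.lf 1) .nil) .nil) .nil))
  (.nd 3 (.nd 2 (.nd 1 (.nd 2 (.lf 1) .nil) (.nd 2 (.nd 1 (.lf 1) .nil) .nil)) .nil) .nil)) .nil)
  .nil) .nil) .nil)) .nil) .nil) .nil) .nil)) .nil) (.nd 3 (.nd 2 (.nd 1 (.nd 1 (.nd 2 (.nd 2 (.nd
  3 (.nd 2 (.nd 1 (.nd 2 (.nd 3 (.nd 2 (.nd 2 (.nd 3 (.lf 2) .nil) .nil) .nil) .nil) .nil) .nil)
  .nil) .nil) (.nd 3 (.nd 2 (.nd 1 (.nd 3 (.nd 2 (.nd 2 (.nd 3 (.nd 2 (.nd 2 (.lf 2) .nil) .nil)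
  .nil) .nil) .nil) .nil) .nil) .nil) .nil)) (.nd 3 (.nd 2 (.nd 1 (.nd 2 (.nd 3 (.nd 2 (.nd 2 (.nd
  3 (.nd 2 (.nd 2 (.lf 2) .nil) .nil) .nil) .nil) .nil) .nil) .nil) .nil) .nil) .nil)) (.nd 2 (.nd
  1 (.nd 2 (.nd 1 (.nd 3 (.nd 2 (.nd 2 (.nd 3 (.nd 2 (.nd 2 (.nd 3 (.lf 1) .nil) .nil) .nil) .nil)
  .nil) .nil) .nil) .nil) (.nd 3 (.nd 2 (.nd 1 (.nd 3 (.nd 2 (.nd 2 (.nd 3 (.nd 2 (.nd 2 (.lf 2)
  .nil) .nil) .nil) .nil) .nil) .nil) .nil) .nil) .nil)) .nil) .nil)) .nil) (.nd 3 (.nd 1 (.nd 2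
  (.nd 1 (.nd 2 (.nd 1 (.nd 2 (.nd 3 (.nd 2 (.nd 2 (.nd 3 (.nd 2 (.nd 2 (.lf 2) .nil) .nil) .nil)
  .nil) .nil) .nil) .nil) .nil) .nil) .nil) .nil) .nil) .nil)) .nil)) (.nd 2 (.nd 3 (.nd 2 (.nd 1
  (.nd 1 (.nd 2 (.nd 3 (.nd 1 (.nd 2 (.nd 2 (.nd 3 (.nd 2 (.nd 1 (.nd 2 (.nd 3 (.lf 1) .nil) .nil)
  (.nd 2 (.nd 1 (.nd 3 (.lf 2) .nil) .nil) .nil)) .nil) .nil) .nil) (.nd 3 (.nd 2 (.nd 2 (.nd 1
  (.nd 3 (.nd 2 (.nd 2 (.lf 1) .nil) .nil) .nil) .nil) .nil) .nil) .nil)) (.nd 2 (.nd 1 (.nd 2 (.nd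
  1 (.nd 3 (.nd 2 (.nd 2 (.nd 3 (.lf 1) .nil) .nil) .nil) .nil) .nil) .nil) .nil) .nil)) .nil)
  .nil) (.nd 2 (.nd 3 (.nd 1 (.nd 2 (.nd 1 (.nd 2 (.nd 1 (.nd 3 (.nd 2 (.nd 2 (.nd 3 (.lf 1) .nil)
  .nil) .nil) .nil) .nil) .nil) .nil) .nil) (.nd 2 (.nd 1 (.nd 2 (.nd 1 (.nd 3 (.nd 2 (.nd 1 (.nd 2
  (.nd 3 (.lf 2) .nil) .nil) .nil) .nil) .nil) .nil) .nil) .nil) .nil)) .nil) .nil)) (.nd 2 (.nd 3
  (.nd 1 (.nd 2 (.nd 1 (.nd 2 (.nd 1 (.nd 3 (.nd 2 (.nd 1 (.nd 2 (.nd 3 (.lf 2) .nil) .nil) .nil)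
  .nil) .nil) .nil) .nil) .nil) .nil) .nil) .nil) .nil)) (.nd 3 (.nd 1 (.nd 2 (.nd 1 (.nd 2 (.nd 1
  (.nd 2 (.nd 1 (.nd 2 (.nd 3 (.nd 2 (.nd 2 (.nd 3 (.lf 1) .nil) .nil) .nil) .nil) .nil) (.nd 2
  (.nd 3 (.nd 2 (.nd 1 (.nd 2 (.nd 3 (.lf 1) .nil) .nil) (.nd 2 (.nd 1 (.nd 3 (.lf 2) .nil) .nil)
  .nil)) .nil) .nil) .nil)) .nil) .nil) .nil) .nil) .nil) .nil) .nil)) .nil) .nil)) (.nd 3 (.nd 1
  (.nd 1 (.nd 2 (.nd 1 (.nd 2 (.nd 1 (.nd 2 (.nd 2 (.nd 3 (.nd 2 (.nd 2 (.nd 3 (.nd 2 (.nd 2 (.nd 3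
  (.lf 1) .nil) .nil) .nil) .nil) .nil) .nil) .nil) .nil) .nil) .nil) .nil) .nil) .nil) .nil) .nil)
  .nil)) .nil) .nil) (.nd 1 (.nd 2 (.nd 3 (.nd 0 (.nd 1 (.nd 2 (.nd 3 (.nd 1 (.nd 1 (.nd 2 (.nd 3
  (.nd 2 (.nd 1 (.nd 3 (.nd 2 (.nd 2 (.nd 3 (.nd 2 (.nd 2 (.lf 2) .nil) .nil) .nil) .nil) .nil)
  .nil) .nil) .nil) .nil) (.nd 3 (.nd 2 (.nd 1 (.nd 2 (.nd 3 (.nd 2 (.nd 2 (.nd 3 (.nd 2 (.nd 2
  (.lf 2) .nil) .nil) .nil) .nil) .nil) .nil) .nil) .nil) .nil) .nil)) (.nd 2 (.nd 2 (.nd 3 (.nd 2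
  (.nd 1 (.nd 1 (.nd 2 (.nd 3 (.nd 2 (.nd 2 (.nd 3 (.lf 2) .nil) .nil) .nil) .nil) .nil) (.nd 2
  (.nd 3 (.nd 2 (.nd 3 (.nd 1 (.nd 2 (.lf 1) .nil) (.nd 2 (.nd 1 (.lf 1) .nil) .nil)) .nil) (.nd 3
  (.nd 2 (.nd 2 (.nd 1 (.lf 1) .nil) .nil) .nil) .nil)) .nil) .nil)) .nil) (.nd 3 (.nd 2 (.nd 2
  (.nd 1 (.nd 1 (.nd 3 (.nd 2 (.nd 2 (.lf 2) .nil) .nil) .nil) .nil) .nil) .nil) .nil) .nil)) .nil)
  .nil) .nil)) (.nd 2 (.nd 2 (.nd 3 (.nd 1 (.nd 2 (.nd 1 (.nd 2 (.nd 3 (.nd 1 (.nd 3 (.nd 2 (.nd 2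
  (.lf 2) .nil) .nil) .nil) (.nd 2 (.nd 1 (.nd 2 (.nd 3 (.lf 1) .nil) .nil) .nil) .nil)) .nil)
  .nil) (.nd 2 (.nd 1 (.nd 3 (.nd 2 (.nd 1 (.nd 2 (.nd 3 (.lf 1) .nil) .nil) .nil) .nil) .nil)
  .nil) .nil)) (.nd 3 (.nd 2 (.nd 1 (.nd 2 (.nd 1 (.nd 3 (.nd 2 (.nd 2 (.lf 1) .nil) .nil) .nil)
  .nil) .nil) .nil) .nil) .nil)) (.nd 2 (.nd 1 (.nd 2 (.nd 1 (.nd 3 (.nd 2 (.nd 1 (.nd 2 (.nd 3
  (.lf 2) .nil) .nil) .nil) .nil) .nil) .nil) .nil) .nil) .nil)) .nil) (.nd 3 (.nd 2 (.nd 1 (.nd 2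
  (.nd 1 (.nd 2 (.nd 3 (.nd 2 (.nd 1 (.nd 2 (.nd 3 (.lf 1) .nil) .nil) .nil) .nil) .nil) (.nd 3
  (.nd 1 (.nd 2 (.nd 3 (.nd 2 (.nd 2 (.lf 1) .nil) .nil) .nil) .nil) (.nd 2 (.nd 1 (.nd 3 (.nd 2
  (.nd 2 (.lf 1) .nil) .nil) .nil) .nil) .nil)) .nil)) .nil) (.nd 3 (.nd 2 (.nd 1 (.nd 1 (.nd 2
  (.nd 3 (.nd 2 (.nd 2 (.lf 2) .nil) .nil) .nil) .nil) (.nd 2 (.nd 3 (.nd 2 (.nd 2 (.nd 1 (.lf 2)
  .nil) .nil) .nil) .nil) .nil)) (.nd 2 (.nd 1 (.nd 3 (.nd 2 (.nd 1 (.nd 2 (.lf 1) .nil) .nil)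
  .nil) .nil) .nil) .nil)) .nil) .nil)) (.nd 3 (.nd 2 (.nd 1 (.nd 2 (.nd 1 (.nd 3 (.nd 2 (.nd 1
  (.nd 2 (.lf 1) .nil) .nil) .nil) .nil) .nil) .nil) .nil) .nil) .nil)) (.nd 3 (.nd 2 (.nd 2 (.nd 1
  (.nd 1 (.nd 2 (.nd 2 (.nd 3 (.nd 2 (.nd 1 (.lf 2) .nil) .nil) .nil) (.nd 3 (.nd 2 (.nd 1 (.nd 2
  (.lf 1) .nil) .nil) .nil) .nil)) .nil) .nil) .nil) .nil) .nil) .nil)) .nil)) .nil)) .nil) (.nd 3
  (.nd 1 (.nd 1 (.nd 2 (.nd 2 (.nd 3 (.nd 2 (.nd 1 (.nd 3 (.nd 2 (.nd 2 (.nd 3 (.nd 2 (.nd 2 (.lf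
  2) .nil) .nil) .nil) .nil) .nil) .nil) .nil) .nil) .nil) .nil) .nil) .nil) .nil) .nil)) .nil)
  (.nd 1 (.nd 1 (.nd 2 (.nd 2 (.nd 3 (.nd 1 (.nd 0 (.nd 1 (.nd 2 (.nd 3 (.nd 2 (.nd 2 (.nd 3 (.nd 2
  (.nd 2 (.nd 3 (.lf 1) .nil) .nil) .nil) .nil) .nil) .nil) .nil) .nil) (.nd 2 (.nd 1 (.nd 3 (.nd 2
  (.nd 2 (.nd 3 (.nd 2 (.nd 2 (.nd 3 (.lf 1) .nil) .nil) .nil) .nil) .nil) .nil) .nil) .nil) .nil))
  .nil) (.nd 2 (.nd 1 (.nd 3 (.nd 2 (.nd 2 (.nd 3 (.nd 2 (.nd 3 (.nd 0 (.nd 1 (.nd 2 (.lf 2) .nil)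
  .nil) (.nd 1 (.nd 2 (.nd 0 (.lf 2) .nil) .nil) .nil)) .nil) .nil) .nil) (.nd 3 (.nd 2 (.nd 2 (.nd
  3 (.nd 0 (.nd 1 (.nd 2 (.lf 1) .nil) .nil) (.nd 1 (.nd 2 (.nd 0 (.lf 1) .nil) .nil) .nil)) .nil)
  .nil) .nil) .nil)) .nil) .nil) .nil) .nil)) .nil) (.nd 3 (.nd 1 (.nd 2 (.nd 2 (.nd 3 (.nd 2 (.nd
  2 (.nd 3 (.nd 2 (.nd 3 (.nd 0 (.nd 1 (.nd 2 (.lf 1) .nil) .nil) (.nd 1 (.nd 2 (.nd 0 (.lf 1)
  .nil) .nil) .nil)) .nil) .nil) .nil) (.nd 3 (.nd 2 (.nd 2 (.nd 3 (.nd 0 (.nd 1 (.nd 2 (.lf 2)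
  .nil) .nil) (.nd 1 (.nd 2 (.nd 0 (.lf 2) .nil) .nil) .nil)) .nil) .nil) .nil) .nil)) .nil) .nil)
  (.nd 3 (.nd 0 (.nd 1 (.nd 2 (.nd 3 (.nd 2 (.nd 2 (.nd 3 (.nd 2 (.nd 2 (.lf 2) .nil) .nil) .nil)
  .nil) .nil) .nil) .nil) .nil) (.nd 1 (.nd 2 (.nd 3 (.nd 0 (.nd 2 (.nd 2 (.nd 3 (.nd 2 (.nd 2 (.lf
  1) .nil) .nil) .nil) .nil) .nil) .nil) .nil) .nil) .nil)) .nil)) .nil) (.nd 2 (.nd 0 (.nd 1 (.nd
  2 (.nd 3 (.nd 2 (.nd 1 (.nd 2 (.nd 3 (.nd 2 (.nd 2 (.nd 3 (.lf 1) .nil) .nil) .nil) .nil) .nil)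
  .nil) .nil) .nil) .nil) (.nd 2 (.nd 1 (.nd 3 (.nd 2 (.nd 1 (.nd 2 (.nd 3 (.nd 2 (.nd 2 (.nd 3
  (.lf 1) .nil) .nil) .nil) .nil) .nil) .nil) .nil) .nil) .nil) .nil)) (.nd 1 (.nd 2 (.nd 0 (.nd 1
  (.nd 3 (.nd 2 (.nd 2 (.nd 3 (.nd 2 (.nd 2 (.nd 3 (.lf 2) .nil) .nil) .nil) .nil) .nil) .nil)
  .nil) .nil) .nil) .nil) .nil)) .nil)) .nil)) (.nd 3 (.nd 2 (.nd 0 (.nd 1 (.nd 2 (.nd 1 (.nd 2
  (.nd 3 (.nd 2 (.nd 2 (.nd 3 (.nd 2 (.nd 2 (.nd 3 (.lf 1) .nil) .nil) .nil) .nil) .nil) .nil)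
  .nil) .nil) (.nd 2 (.nd 1 (.nd 3 (.nd 2 (.nd 2 (.nd 3 (.nd 2 (.nd 2 (.nd 3 (.lf 2) .nil) .nil)
  .nil) .nil) .nil) .nil) .nil) .nil) .nil)) .nil) .nil) (.nd 1 (.nd 2 (.nd 0 (.nd 1 (.nd 2 (.nd 3
  (.nd 2 (.nd 2 (.nd 3 (.nd 2 (.nd 2 (.nd 3 (.lf 1) .nil) .nil) .nil) .nil) .nil) .nil) .nil) .nil)
  (.nd 2 (.nd 1 (.nd 3 (.nd 2 (.nd 2 (.nd 3 (.nd 2 (.nd 2 (.nd 3 (.lf 2) .nil) .nil) .nil) .nil)
  .nil) .nil) .nil) .nil) .nil)) (.nd 1 (.nd 2 (.nd 0 (.nd 3 (.nd 2 (.nd 2 (.nd 3 (.nd 2 (.nd 2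
  (.nd 3 (.lf 2) .nil) .nil) .nil) .nil) .nil) .nil) .nil) .nil) .nil) .nil)) .nil) .nil)) .nil)
  .nil)) (.nd 2 (.nd 0 (.nd 1 (.nd 3 (.nd 1 (.nd 2 (.nd 3 (.nd 1 (.nd 2 (.nd 3 (.nd 2 (.nd 2 (.nd 3
  (.nd 2 (.nd 2 (.lf 1) .nil) .nil) .nil) .nil) .nil) .nil) .nil) (.nd 2 (.nd 1 (.nd 3 (.nd 2 (.nd
  2 (.nd 3 (.nd 2 (.nd 2 (.lf 2) .nil) .nil) .nil) .nil) .nil) .nil) .nil) .nil)) .nil) (.nd 3 (.nd
  2 (.nd 1 (.nd 2 (.nd 3 (.nd 2 (.nd 2 (.nd 3 (.nd 2 (.nd 2 (.lf 1) .nil) .nil) .nil) .nil) .nil)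
  .nil) .nil) .nil) .nil) .nil)) (.nd 2 (.nd 1 (.nd 2 (.nd 3 (.nd 2 (.nd 1 (.nd 2 (.nd 3 (.nd 2
  (.nd 2 (.nd 3 (.lf 2) .nil) .nil) .nil) .nil) .nil) (.nd 2 (.nd 3 (.nd 2 (.nd 1 (.nd 2 (.nd 3
  (.lf 2) .nil) .nil) .nil) .nil) .nil) .nil)) (.nd 3 (.nd 2 (.nd 2 (.nd 1 (.nd 3 (.nd 2 (.nd 2
  (.lf 1) .nil) .nil) .nil) .nil) .nil) .nil) .nil)) .nil) (.nd 3 (.nd 2 (.nd 1 (.nd 3 (.nd 2 (.nd
  2 (.nd 3 (.nd 2 (.nd 2 (.lf 1) .nil) .nil) .nil) .nil) .nil) .nil) .nil) .nil) .nil)) (.nd 2 (.nd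
  3 (.nd 2 (.nd 1 (.nd 2 (.nd 1 (.nd 3 (.nd 2 (.nd 2 (.nd 3 (.lf 1) .nil) .nil) .nil) .nil) .nil)
  .nil) .nil) .nil) .nil) .nil)) .nil)) .nil) .nil) (.nd 1 (.nd 2 (.nd 3 (.nd 1 (.nd 2 (.nd 3 (.nd
  0 (.nd 2 (.nd 2 (.nd 1 (.nd 3 (.nd 2 (.nd 2 (.nd 3 (.lf 2) .nil) .nil) .nil) .nil) .nil) .nil)
  .nil) (.nd 1 (.nd 0 (.nd 2 (.nd 2 (.nd 3 (.nd 2 (.nd 2 (.nd 3 (.lf 1) .nil) .nil) .nil) .nil)
  .nil) (.nd 3 (.nd 2 (.nd 2 (.nd 3 (.nd 2 (.nd 2 (.lf 2) .nil) .nil) .nil) .nil) .nil) .nil))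
  .nil) .nil)) .nil) .nil) (.nd 2 (.nd 3 (.nd 2 (.nd 1 (.nd 2 (.nd 3 (.nd 0 (.nd 2 (.nd 3 (.nd 1
  (.nd 2 (.lf 2) .nil) (.nd 2 (.nd 1 (.lf 2) .nil) .nil)) .nil) (.nd 3 (.nd 2 (.nd 2 (.nd 1 (.lf 2)
  .nil) .nil) .nil) .nil)) (.nd 1 (.nd 0 (.nd 2 (.nd 2 (.nd 3 (.lf 2) .nil) .nil) (.nd 3 (.nd 2
  (.nd 2 (.lf 2) .nil) .nil) .nil)) .nil) .nil)) .nil) (.nd 3 (.nd 0 (.nd 1 (.nd 2 (.nd 3 (.nd 2
  (.nd 2 (.lf 2) .nil) .nil) .nil) .nil) .nil) (.nd 1 (.nd 2 (.nd 0 (.nd 3 (.nd 2 (.nd 2 (.lf 1)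
  .nil) .nil) .nil) .nil) .nil) .nil)) .nil)) (.nd 2 (.nd 3 (.nd 0 (.nd 1 (.nd 2 (.nd 2 (.nd 1 (.nd
  3 (.lf 2) .nil) .nil) (.nd 3 (.nd 1 (.nd 2 (.lf 2) .nil) (.nd 2 (.nd 1 (.lf 2) .nil) .nil))
  .nil)) (.nd 3 (.nd 2 (.nd 1 (.nd 2 (.lf 1) .nil) .nil) .nil) .nil)) .nil) (.nd 2 (.nd 1 (.nd 2
  (.nd 1 (.nd 0 (.nd 3 (.lf 2) .nil) .nil) .nil) .nil) .nil) .nil)) .nil) .nil)) (.nd 3 (.nd 2 (.nd
  0 (.nd 1 (.nd 2 (.nd 3 (.nd 2 (.nd 2 (.nd 1 (.lf 2) .nil) .nil) .nil) .nil) .nil) .nil) (.nd 1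
  (.nd 0 (.nd 1 (.nd 2 (.nd 3 (.nd 2 (.nd 2 (.lf 1) .nil) .nil) .nil) .nil) (.nd 2 (.nd 2 (.nd 2
  (.nd 1 (.nd 3 (.lf 2) .nil) .nil) (.nd 3 (.nd 1 (.nd 2 (.lf 1) .nil) (.nd 2 (.nd 1 (.lf 2) .nil)
  .nil)) .nil)) (.nd 3 (.nd 2 (.nd 1 (.nd 2 (.lf 2) .nil) .nil) .nil) .nil)) .nil)) .nil) (.nd 2
  (.nd 1 (.nd 0 (.nd 3 (.nd 2 (.nd 1 (.nd 2 (.lf 2) .nil) .nil) .nil) .nil) .nil) .nil) .nil)))
  (.nd 3 (.nd 2 (.nd 1 (.nd 0 (.nd 2 (.nd 2 (.nd 1 (.nd 2 (.lf 1) .nil) (.nd 2 (.nd 1 (.lf 1) .nil)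
  .nil)) .nil) .nil) .nil) .nil) .nil) .nil)) .nil)) .nil) .nil)) .nil) .nil) .nil)) .nil)) .nil))
  .nil) (.nd 3 (.nd 0 (.nd 1 (.nd 2 (.nd 2 (.nd 1 (.nd 3 (.nd 1 (.nd 2 (.nd 1 (.nd 2 (.nd 3 (.nd 2
  (.nd 2 (.nd 3 (.nd 2 (.nd 2 (.nd 3 (.lf 2) .nil) .nil) .nil) .nil) .nil) .nil) .nil) .nil) (.nd 2
  (.nd 3 (.nd 2 (.nd 1 (.nd 2 (.nd 3 (.nd 2 (.nd 2 (.nd 3 (.lf 1) .nil) .nil) .nil) .nil) .nil)
  (.nd 2 (.nd 1 (.nd 3 (.nd 2 (.nd 2 (.nd 3 (.lf 2) .nil) .nil) .nil) .nil) .nil) .nil)) .nil)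
  .nil) .nil)) .nil) (.nd 2 (.nd 1 (.nd 2 (.nd 3 (.nd 2 (.nd 3 (.nd 1 (.nd 2 (.nd 3 (.nd 2 (.nd 2
  (.lf 2) .nil) .nil) .nil) .nil) (.nd 2 (.nd 3 (.nd 2 (.nd 2 (.nd 1 (.lf 1) .nil) .nil) .nil)
  .nil) .nil)) .nil) (.nd 3 (.nd 2 (.nd 2 (.nd 1 (.nd 3 (.nd 2 (.nd 2 (.lf 2) .nil) .nil) .nil)
  .nil) .nil) .nil) .nil)) .nil) .nil) (.nd 2 (.nd 3 (.nd 2 (.nd 1 (.nd 2 (.nd 1 (.nd 3 (.nd 2 (.nd
  2 (.nd 3 (.lf 1) .nil) .nil) .nil) .nil) .nil) .nil) .nil) .nil) .nil) .nil)) .nil)) .nil) .nil)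
  (.nd 3 (.nd 1 (.nd 2 (.nd 1 (.nd 2 (.nd 3 (.nd 1 (.nd 2 (.nd 3 (.nd 2 (.nd 2 (.nd 3 (.nd 2 (.nd 2
  (.lf 2) .nil) .nil) .nil) .nil) .nil) .nil) .nil) (.nd 2 (.nd 1 (.nd 3 (.nd 2 (.nd 2 (.nd 3 (.nd
  2 (.nd 2 (.lf 1) .nil) .nil) .nil) .nil) .nil) .nil) .nil) .nil)) .nil) .nil) (.nd 2 (.nd 1 (.nd
  3 (.nd 2 (.nd 1 (.nd 3 (.nd 2 (.nd 2 (.nd 3 (.nd 2 (.nd 2 (.lf 1) .nil) .nil) .nil) .nil) .nil)
  .nil) .nil) .nil) .nil) .nil) .nil)) .nil) .nil) .nil)) .nil) .nil) (.nd 1 (.nd 1 (.nd 2 (.nd 2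
  (.nd 2 (.nd 3 (.nd 0 (.nd 1 (.nd 1 (.nd 2 (.nd 3 (.nd 2 (.nd 2 (.nd 3 (.nd 2 (.nd 2 (.nd 3 (.lf
  2) .nil) .nil) .nil) .nil) .nil) .nil) .nil) .nil) (.nd 2 (.nd 3 (.nd 2 (.nd 1 (.nd 2 (.nd 3 (.nd
  2 (.nd 2 (.nd 3 (.lf 2) .nil) .nil) .nil) .nil) .nil) (.nd 2 (.nd 3 (.nd 2 (.nd 1 (.nd 2 (.nd 3
  (.lf 2) .nil) .nil) .nil) .nil) .nil) .nil)) (.nd 3 (.nd 2 (.nd 1 (.nd 2 (.nd 3 (.nd 2 (.nd 2
  (.lf 2) .nil) .nil) .nil) .nil) .nil) .nil) .nil)) .nil) .nil)) .nil) (.nd 1 (.nd 0 (.nd 1 (.nd 2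
  (.nd 3 (.nd 2 (.nd 2 (.nd 3 (.nd 2 (.nd 2 (.nd 3 (.lf 2) .nil) .nil) .nil) .nil) .nil) .nil)
  .nil) .nil) (.nd 2 (.nd 1 (.nd 3 (.nd 2 (.nd 2 (.nd 3 (.nd 2 (.nd 2 (.nd 3 (.lf 1) .nil) .nil)
  .nil) .nil) .nil) (.nd 3 (.nd 2 (.nd 2 (.nd 3 (.nd 2 (.nd 2 (.lf 1) .nil) .nil) .nil) .nil) .nil)
  .nil)) .nil) .nil) .nil)) (.nd 2 (.nd 1 (.nd 2 (.nd 2 (.nd 0 (.nd 3 (.nd 2 (.nd 3 (.nd 2 (.nd 3
  (.lf 1) .nil) .nil) .nil) .nil) .nil) .nil) .nil) .nil) .nil) .nil)) .nil)) .nil) (.nd 3 (.nd 1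
  (.nd 0 (.nd 2 (.nd 1 (.nd 2 (.nd 3 (.nd 2 (.nd 2 (.nd 3 (.nd 2 (.nd 2 (.nd 3 (.lf 2) .nil) .nil)
  .nil) .nil) .nil) .nil) .nil) .nil) (.nd 2 (.nd 3 (.nd 2 (.nd 1 (.nd 2 (.nd 3 (.nd 2 (.nd 2 (.nd
  3 (.lf 1) .nil) .nil) .nil) .nil) .nil) .nil) .nil) .nil) .nil)) .nil) .nil) (.nd 2 (.nd 0 (.nd 1
  (.nd 1 (.nd 2 (.nd 3 (.nd 2 (.nd 2 (.nd 3 (.nd 2 (.nd 2 (.nd 3 (.lf 1) .nil) .nil) .nil) .nil)
  .nil) .nil) .nil) .nil) (.nd 2 (.nd 3 (.nd 2 (.nd 1 (.nd 2 (.nd 3 (.nd 2 (.nd 2 (.nd 3 (.lf 2)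
  .nil) .nil) .nil) .nil) .nil) .nil) .nil) .nil) .nil)) (.nd 2 (.nd 1 (.nd 3 (.nd 2 (.nd 1 (.nd 2
  (.nd 3 (.nd 2 (.nd 2 (.nd 3 (.lf 2) .nil) .nil) .nil) .nil) .nil) .nil) .nil) .nil) .nil) .nil))
  (.nd 1 (.nd 0 (.nd 2 (.nd 3 (.nd 2 (.nd 1 (.nd 2 (.nd 3 (.nd 2 (.nd 2 (.nd 3 (.lf 1) .nil) .nil)
  .nil) .nil) .nil) .nil) .nil) .nil) .nil) .nil) .nil)) .nil)) .nil)) (.nd 3 (.nd 2 (.nd 0 (.nd 1
  (.nd 2 (.nd 1 (.nd 2 (.nd 3 (.nd 2 (.nd 2 (.nd 3 (.nd 2 (.nd 2 (.nd 3 (.lf 2) .nil) .nil) .nil)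
  .nil) .nil) .nil) .nil) .nil) (.nd 2 (.nd 1 (.nd 3 (.nd 2 (.nd 2 (.nd 3 (.nd 2 (.nd 2 (.nd 3 (.lf
  1) .nil) .nil) .nil) .nil) .nil) .nil) .nil) .nil) .nil)) .nil) .nil) (.nd 1 (.nd 2 (.nd 0 (.nd 1
  (.nd 2 (.nd 3 (.nd 2 (.nd 2 (.nd 3 (.nd 2 (.nd 2 (.nd 3 (.lf 2) .nil) .nil) .nil) .nil) .nil)
  .nil) .nil) .nil) (.nd 2 (.nd 1 (.nd 3 (.nd 2 (.nd 2 (.nd 3 (.nd 2 (.nd 2 (.nd 3 (.lf 1) .nil)
  .nil) .nil) .nil) .nil) .nil) .nil) .nil) .nil)) (.nd 1 (.nd 2 (.nd 0 (.nd 3 (.nd 2 (.nd 2 (.nd 3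
  (.nd 2 (.nd 2 (.nd 3 (.lf 1) .nil) .nil) .nil) .nil) .nil) .nil) .nil) .nil) .nil) .nil)) .nil)
  .nil)) .nil) .nil)) .nil) (.nd 2 (.nd 1 (.nd 0 (.nd 1 (.nd 2 (.nd 3 (.nd 2 (.nd 1 (.nd 2 (.nd 3
  (.nd 2 (.nd 2 (.nd 3 (.nd 2 (.nd 2 (.nd 3 (.lf 1) .nil) .nil) .nil) .nil) .nil) .nil) .nil) .nil)
  (.nd 2 (.nd 1 (.nd 3 (.nd 2 (.nd 2 (.nd 3 (.nd 2 (.nd 2 (.nd 3 (.lf 2) .nil) .nil) .nil) .nil)
  .nil) .nil) .nil) .nil) .nil)) .nil) .nil) .nil) (.nd 2 (.nd 1 (.nd 3 (.nd 2 (.nd 1 (.nd 2 (.nd 3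
  (.nd 2 (.nd 2 (.nd 3 (.nd 2 (.nd 2 (.nd 3 (.lf 1) .nil) .nil) .nil) .nil) .nil) .nil) .nil) .nil)
  .nil) .nil) .nil) .nil) .nil)) (.nd 1 (.nd 0 (.nd 2 (.nd 3 (.nd 2 (.nd 1 (.nd 2 (.nd 3 (.nd 2
  (.nd 2 (.nd 3 (.nd 2 (.nd 2 (.nd 3 (.lf 1) .nil) .nil) .nil) .nil) .nil) .nil) .nil) .nil) (.nd 2
  (.nd 1 (.nd 3 (.nd 2 (.nd 2 (.nd 3 (.nd 2 (.nd 2 (.nd 3 (.lf 2) .nil) .nil) .nil) .nil) .nil)
  .nil) .nil) .nil) .nil)) .nil) .nil) .nil) .nil) .nil)) .nil) .nil)) .nil)) .nil)) .nil))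

def sN0 : List ℕ :=
  [443445, 2, 505161, 2, 516483, 1, 865317, 2, 1017315, 1, 1145853, 1, 1220778, 2, 1290385, 2,
  1502919, 1, 1723053, 1, 1964515, 2, 2069410, 1, 2143854, 2, 2256611, 2, 2309110, 1, 2357418, 2,
  2483292, 2, 2610333, 1, 2630478, 1, 2770932, 2, 3083358, 1, 3334329, 2, 3447873, 2, 3486177, 2,
  3833459, 1, 3919377, 1, 4038146, 1, 4277489, 1, 4414475, 2, 4456095, 1, 5013929, 1, 5028855, 1,
  5197797, 2, 5198685, 2, 5347314, 2, 5355306, 1, 5696964, 1, 5791203, 1, 5857137, 1, 5894655, 2,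
  5966694, 1, 5988411, 1, 6034626, 2, 6054939, 1, 6238422, 1, 6658113, 1, 6807339, 2, 6947675, 1,
  7013622, 2, 7073586, 1, 7226156, 2, 7649343, 2, 7654454, 2, 7719985, 2, 7752425, 1, 8040914, 2,
  8149518, 1, 8695407, 1, 8790275, 2, 8972294, 1, 9029295, 2, 9263982, 2, 9302910, 2, 9351639, 1,
  9373210, 2, 9702597, 1, 9813063, 1, 9928765, 1, 10004652, 1, 10144461, 2, 10151295, 2, 10458910,
  2, 10516473, 1, 10835154, 1, 11001284, 1, 11078815, 2, 11163492, 1, 11247852, 1, 11502543, 2,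
  11564091, 2, 11823273, 1, 11914518, 2, 12181554, 1, 12285702, 2, 12657996, 2, 12903561, 1,
  12966835, 2, 12986215, 2, 13285701, 1, 13557355, 1, 13697444, 1, 13814710, 1, 13844142, 2,
  14154426, 1, 14311674, 2, 14583348, 2, 14633515, 2, 15102549, 2, 15127705, 2, 16090074, 1,
  16577652, 2, 16851879, 1, 17152915, 2, 17619327, 1, 19978101, 2, 19994975, 2, 20583498, 2,
  20795110, 2, 21341970, 1, 22103874, 2, 22258899, 2, 22777755, 2, 23238490, 2, 23272587, 1,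
  23288265, 1, 23467990, 2, 23546985, 2, 23993970, 2, 24256386, 1, 24260530, 1, 24721060, 2,
  24857118, 2, 24954132, 2, 25129995, 2, 25302851, 2, 25590929, 2, 25891510, 2, 26186290, 2,
  26274435, 1, 26455163, 2, 26472985, 1, 27025614, 2, 27066006, 2, 27070630, 1, 27212427, 2,
  27508390, 1, 27886188, 1, 27945918, 1, 28037046, 1, 28161588, 1, 28256382, 2, 28792764, 2,
  29038932, 2, 29112636, 2, 29602287, 2, 29747445, 2, 29791905, 2, 30155994, 1, 30499326, 1,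
  30601989, 2, 30694690, 1, 31069812, 2, 31071194, 2, 31402566, 2, 31423548, 1, 31529322, 1,
  32484756, 1, 32730236, 2, 33193095, 2, 33455916, 1, 34670174, 2, 34704735, 2, 35113925, 2,
  35750286, 1, 35943687, 2, 36367485, 1, 36833628, 1, 38660193, 2, 39181175, 1, 39814775, 1,
  40420809, 1, 40578566, 1, 40639214, 2, 40859063, 2, 43231916, 1, 43413580, 2, 43640982, 1,
  44360225, 2, 44447403, 2, 45278786, 1, 45591773, 2, 45634545, 2, 45794294, 1, 45948441, 1,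
  45979395, 1, 46380425, 2, 47017410, 1, 47220966, 1, 47260850, 1, 47340818, 2, 47372710, 2,
  47777730, 2, 49076874, 1, 49225540, 1, 49498475, 2, 50564052, 1, 51666615, 1, 51752675, 1,
  53232270, 2, 53311830, 2, 53600235, 2, 53678534, 2, 53838330, 1, 53965758, 2, 54927340, 2,
  55044990, 1, 55601084, 2, 55656510, 1, 56420892, 1, 56713020, 2, 57333276, 2, 58047717, 1,
  58445541, 2, 58732135, 2, 58819915, 2, 59398170, 2, 60276645, 2, 61999938, 1, 62103210, 1,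
  62428509, 2, 62572510, 1, 63974196, 1, 64320282, 1, 64605996, 1, 65535085, 2, 66053988, 1,
  66281215, 2, 66787812, 2, 68507901, 1, 68519605, 1, 69181398, 2, 69969042, 2, 70204563, 2,
  70417230, 1, 70478562, 1, 70583898, 2, 71277804, 1, 71632925, 1, 72089316, 1, 72614276, 1,
  72722804, 2, 73441004, 2, 76329099, 1, 77692615, 1, 79185711, 2, 79537458, 2, 79805187, 2,
  79930175, 1, 81585278, 2, 82223526, 2, 82996550, 1, 84500676, 2, 84715148, 1, 87755129, 1,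
  90504505, 1, 91378638, 1, 92610050, 1, 93095145, 2, 93231138, 2, 94107650, 2, 95540094, 2,
  95916210, 2, 96056324, 2, 96666570, 2, 99595860, 2, 103151412, 2, 103874862, 2, 104592891, 2,
  105057498, 1, 105099610, 1, 105256690, 2, 105826105, 2, 106296190, 1, 107863470, 1, 108605406, 2,
  108678570, 1, 109885930, 2, 111132060, 2, 111714174, 1, 111971860, 1, 112929180, 1, 114607031, 2,
  115099452, 2, 115120005, 1, 115999884, 2, 118083955, 1, 118608490, 2, 122121090, 2, 123256287, 1,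
  126009780, 1, 126119532, 2, 127555428, 1, 130106340, 1, 132571593, 2, 134939805, 2, 138144006, 2,
  138609009, 2, 138821410, 2, 139028890, 2, 139781005, 1, 142472070, 1, 142809282, 2, 145994708, 2,
  146545308, 2, 147136836, 1, 147558294, 1, 147898660, 1, 150345195, 1, 152416803, 2, 154901110, 2,
  155971855, 2, 156664690, 1, 157035494, 2, 157192035, 1, 159045425, 2, 161927766, 1, 161955430, 1,
  163519668, 1, 165381372, 2, 165938058, 2, 166834668, 1, 167737206, 1, 170966484, 1, 175107933, 2,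
  177467675, 1, 180414234, 2, 181661337, 2, 183637090, 2, 183803235, 1, 185881332, 1, 187166226, 2,
  187997628, 1, 188630442, 2, 190854510, 1, 196637980, 2, 200925725, 1, 201226025, 2, 203657916, 2,
  211308130, 2, 212961210, 1, 214426058, 2, 220043070, 1, 220364508, 1, 220563882, 1, 224198975, 2,
  227288215, 2, 228484620, 1, 234409175, 1, 238873239, 1, 241110870, 1, 248788540, 1, 250134430, 1,
  251245540, 2, 253569756, 2, 256876620, 1, 259730380, 1, 264051684, 2, 269038770, 1, 270898485, 2,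
  272101830, 1, 272761853, 2, 280347340, 1, 281291010, 2, 289814980, 1, 296835385, 1, 300161316, 2,
  310353505, 1, 313351038, 2, 318948630, 2, 325078182, 1, 326522196, 2, 327621294, 2, 328613740, 2,
  328899956, 2, 334929036, 1, 337549212, 1, 355361370, 2, 356202462, 2, 358664691, 2, 360257898, 2,
  366996476, 1, 369533318, 2, 371174804, 1, 371544810, 2, 375925550, 1, 382738356, 1, 392217228, 2,
  401144380, 2, 403971425, 2, 413891478, 2, 421666245, 2, 429381342, 1, 434444010, 2, 445853772, 2,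
  447608980, 2, 451110660, 2, 470492022, 2, 470507895, 2, 474915350, 2, 475625150, 2, 476039410, 2,
  479330005, 2, 484749356, 1, 484765710, 2, 488100158, 1, 490268324, 2, 503362860, 2, 506825228, 1,
  515556195, 2, 521332812, 2, 529924850, 1, 531179110, 1, 537226690, 2, 539035035, 2, 554058050, 2,
  564609474, 1, 569898420, 2, 592626188, 1, 622943937, 2, 635909820, 2, 640305510, 1, 643149780, 1,
  664869660, 1, 680975295, 2, 688605372, 2, 706460755, 1, 733562830, 2, 740647908, 2, 753878580, 2,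
  768366612, 2, 774377604, 2, 782773628, 1, 803824175, 2, 822818997, 2, 841933092, 1, 847752906, 2,
  851518668, 2, 857748430, 2, 935341253, 2, 954841550, 1, 978288948, 2, 991472300, 2, 996665670, 2,
  1015489475, 2, 1061735675, 1, 1112072052, 1, 1112109570, 2, 1124204900, 2, 1125184060, 1,
  1132961830, 2, 1145809860, 1, 1218587370, 2, 1227010785, 2, 1255514260, 2, 1264192930, 1,
  1269808540, 2, 1274082810, 2, 1334531484, 1, 1344489685, 2, 1472412942, 2, 1609577970, 2,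
  1624540071, 1, 1639813175, 1, 1658353060, 2, 1669816330, 2, 1673768558, 2, 1829752925, 2,
  1899948050, 2, 1944844902, 2, 2003779596, 2, 2027405380, 1, 2210806598, 1, 2355755220, 2,
  2400247850, 2, 2422559755, 2, 2509557050, 1, 2628622620, 2, 2677909780, 2, 2880297420, 2,
  2900207310, 2, 2988092380, 2, 3011468460, 2, 3177884710, 2, 3199851655, 1, 3480248772, 2,
  3804457020, 2, 3839821986, 1, 3875922050, 1, 3956180228, 1, 4324870550, 2, 4490786300, 2,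
  4596906132, 2, 5673313100, 2, 5726050330, 2, 5931680300, 1, 6855035460, 2, 7511363860, 2,
  7563285730, 1, 9075942876, 1, 9161270300, 1, 10222421300, 2, 13534300780, 2, 17876857180, 1]

noncomputable def sL0 : PL := ofL sN0 PL.nil none

theorem sub0_ok : (valT env0 sT0 true).beq sL0 = true := by decide +kernel

end Pool.Agent.MP_2042ac_al

end

-- part MP_2042ac_al.Top
section

/-!
Certificate, top part.
-/

set_option autoImplicit false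
set_option maxRecDepth 100000

namespace Pool.Agent.MP_2042ac_al

def topT : HT :=
  (.nd 1 (.nd 2 (.nd 0 (.lf 0) (.nd 1 (.lf 1) .nil)) (.nd 3 (.lf 2) .nil)) (.nd 2 (.nd 0 (.lf 3)
  (.nd 1 (.lf 4) .nil)) .nil))

noncomputable def subT (j : ℕ) : HT :=
  Nat.rec (motive := fun _ => HT) sT0 (fun j _ => Nat.rec (motive := fun _ => HT) sT1 (fun j _ =>
  Nat.rec (motive := fun _ => HT) sT2 (fun j _ => Nat.rec (motive := fun _ => HT) sT3 (fun j _ =>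
  Nat.rec (motive := fun _ => HT) sT4 (fun j _ => HT.nil) j) j) j) j) j

noncomputable def subL (j : ℕ) : PL :=
  Nat.rec (motive := fun _ => PL) sL0 (fun j _ => Nat.rec (motive := fun _ => PL) sL1 (fun j _ =>
  Nat.rec (motive := fun _ => PL) sL2 (fun j _ => Nat.rec (motive := fun _ => PL) sL3 (fun j _ =>
  Nat.rec (motive := fun _ => PL) sL4 (fun j _ => PL.nil) j) j) j) j) j

theorem sub_ok (j : ℕ) : valT env0 (subT j) true = subL j := by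
  rcases j with _ | _ | _ | _ | _ | j
  exacts [PL.eq_of_beq _ _ sub0_ok, PL.eq_of_beq _ _ sub1_ok, PL.eq_of_beq _ _ sub2_ok,
    PL.eq_of_beq _ _ sub3_ok, PL.eq_of_beq _ _ sub4_ok, rfl]

theorem top_ok : (valT (envL subL) topT true).beq yL = true := by decide +kernel

theorem kap_ok : Nat.mod (kap (topT.subst subT) yL) 3 = 1 := by decide +kernel

end Pool.Agent.MP_2042ac_al

end

-- part MP_2042ac_al.Form
section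

/-!
The submodule generated by a highest weight vector and its contravariant form.
-/

set_option autoImplicit false

namespace Pool.Agent.MP_2042ac_al

open Matrix

variable {k : Type} [Field k] {V : Type} [AddCommGroup V] [Module k V]

theorem Form_factor {F W : Type} [AddCommGroup F] [Module k F] [AddCommGroup W] [Module k W]
    (p : F →ₗ[k] V) (q : F →ₗ[k] W) :
    ∃ κ : V →ₗ[k] W, ∀ f, ∃ f', p f' = 0 ∧ κ (p f) = q f + q f' := by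
  obtain ⟨s, hs⟩ := p.rangeRestrict.exists_rightInverse_of_surjective p.range_rangeRestrict
  obtain ⟨κ, hκ⟩ := LinearMap.exists_extend (q ∘ₗ s)
  refine ⟨κ, fun f => ⟨s (p.rangeRestrict f) - f, ?_, ?_⟩⟩
  · have := congrArg Subtype.val (LinearMap.congr_fun hs (p.rangeRestrict f))
    rw [map_sub, sub_eq_zero]
    exact this
  · have := LinearMap.congr_fun hκ (p.rangeRestrict f)
    rw [map_sub, add_sub_cancel]
    exact this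

theorem Form_three [CharP k 3] : (3 : k) = 0 := by
  exact_mod_cast CharP.cast_eq_zero k 3

theorem Form_stab [Infinite k] [CharP k 3] (E : GPkg k V) (N : Submodule k V)
    (h : ∀ g ∈ HH k, ∀ w ∈ N, E.ρ g w ∈ N) : E.Stab N := by
  refine ResMod.stab_of_gen Form_three _ N (fun i w hw => ?_) (fun i w hw => ?_)
  · rw [← E.Δ_one _ (ee_sp k i) (ee_sq k i)]
    exact E.Δ_mem (ee_sp k i) (ee_sq k i) N (fun s => h _ (ee_mem_HH i s) w hw) 1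
  · rw [← E.Δ_one _ (ff_sp k i) (ff_sq k i)]
    exact E.Δ_mem (ff_sp k i) (ff_sq k i) N (fun s => h _ (ff_mem_HH i s) w hw) 1

/-- the span of the orbit -/
def FormOrb (E : GPkg k V) (v : V) : Submodule k V :=
  Submodule.span k (Set.range fun g : HH k => E.ρ g v)

theorem FormOrb_mem (E : GPkg k V) (v : V) {g : Mat k} (hg : g ∈ HH k) :
    E.ρ g v ∈ FormOrb E v :=
  Submodule.subset_span ⟨⟨g, hg⟩, rfl⟩

theorem FormOrb_self (E : GPkg k V) (v : V) : v ∈ FormOrb E v := by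
  have := FormOrb_mem E v (one_mem (HH k))
  rwa [E.ρ_one] at this

theorem Form_ind (E : GPkg k V) (v : V) (K N : Submodule k V)
    (h1 : ∀ g ∈ HH k, E.ρ g v ∈ N) (h2 : ∀ w ∈ K, w ∈ N) : ∀ l ∈ FormOrb E v ⊔ K, l ∈ N := by
  have : FormOrb E v ⊔ K ≤ N := by
    refine sup_le (Submodule.span_le.mpr ?_) h2
    rintro _ ⟨g, rfl⟩
    exact h1 g g.2
  exact fun l hl => this hl

theorem Form_stabH (E : GPkg k V) (v : V) (K : Submodule k V)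
    (hK : ∀ g ∈ HH k, ∀ w ∈ K, E.ρ g w ∈ K) :
    ∀ g ∈ HH k, ∀ l ∈ FormOrb E v ⊔ K, E.ρ g l ∈ FormOrb E v ⊔ K := by
  intro g hg
  refine Form_ind E v K ((FormOrb E v ⊔ K).comap (E.ρ g)) (fun h hh => ?_) (fun w hw => ?_)
  · rw [Submodule.mem_comap, ← E.ρ_mul_apply (HH_le hg) (HH_le hh)]
    exact Submodule.mem_sup_left (FormOrb_mem E v (mul_mem hg hh))
  · exact Submodule.mem_sup_right (hK g hg w hw)

theorem Form_kappa (E : GPkg k V) (v : V) (ev : V →ₗ[k] k)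
    (K : Submodule k V) (hK : ∀ g ∈ HH k, ∀ w ∈ K, E.ρ g w ∈ K) (hevK : ∀ w ∈ K, ev w = 0)
    (hsym : ∀ g ∈ HH k, ev (E.ρ g v) = ev (E.ρ gᵀ v)) :
    ∃ κ : V →ₗ[k] V →ₗ[k] k,
      (∀ g ∈ HH k, ∀ l ∈ FormOrb E v ⊔ K, κ (E.ρ g v) l = ev (E.ρ gᵀ l)) ∧
      ∀ w ∈ K, ∀ l ∈ FormOrb E v ⊔ K, κ w l = 0 := by
  let p1 : (HH k →₀ k) →ₗ[k] V := Finsupp.linearCombination k fun g : HH k => E.ρ g v
  let q1 : (HH k →₀ k) →ₗ[k] (V →ₗ[k] k) :=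
    Finsupp.linearCombination k fun g : HH k => ev ∘ₗ E.ρ (g : Mat k)ᵀ
  obtain ⟨κ, hκ⟩ := Form_factor (p1.coprod K.subtype) (q1.coprod 0)
  have hq1 : ∀ a, ∀ h ∈ HH k, q1 a (E.ρ h v) = ev (E.ρ hᵀ (p1 a)) := by
    intro a h hh
    induction a using Finsupp.induction_linear with
    | zero => simp
    | add a b ha hb => simp only [map_add, LinearMap.add_apply, ha, hb]
    | single g c =>
      simp only [p1, q1, Finsupp.linearCombination_single, LinearMap.smul_apply, map_smul,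
        LinearMap.comp_apply]
      rw [← E.ρ_mul_apply (HH_le (HH_transpose g.2)) (HH_le hh),
        ← E.ρ_mul_apply (HH_le (HH_transpose hh)) (HH_le g.2),
        hsym _ (mul_mem (HH_transpose g.2) hh), transpose_mul, transpose_transpose]
  have hq2 : ∀ a, ∀ w ∈ K, q1 a w = 0 := by
    intro a w hw
    induction a using Finsupp.induction_linear with
    | zero => simp
    | add a b ha hb => simp only [map_add, LinearMap.add_apply, ha, hb, add_zero]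
    | single g c =>
      simp only [q1, Finsupp.linearCombination_single, LinearMap.smul_apply,
        LinearMap.comp_apply]
      rw [hevK _ (hK _ (HH_transpose g.2) w hw), smul_zero]
  have hker : ∀ f, p1.coprod K.subtype f = 0 →
      ∀ l ∈ FormOrb E v ⊔ K, q1.coprod (0 : K →ₗ[k] (V →ₗ[k] k)) f l = 0 := by
    rintro ⟨a, w⟩ hf
    simp only [LinearMap.coprod_apply, Submodule.subtype_apply, LinearMap.zero_apply,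
      add_zero] at hf ⊢
    refine Form_ind E v K (LinearMap.ker (q1 a)) (fun h hh => ?_) (fun w' hw' => hq2 a w' hw')
    rw [LinearMap.mem_ker, hq1 a h hh, eq_neg_of_add_eq_zero_left hf, map_neg, map_neg,
      hevK _ (hK _ (HH_transpose hh) w w.2), neg_zero]
  refine ⟨κ, fun g hg l hl => ?_, fun w hw l hl => ?_⟩
  · obtain ⟨f', h1, h2⟩ := hκ (Finsupp.single ⟨g, hg⟩ 1, 0)
    have h3 := LinearMap.congr_fun h2 l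
    rw [LinearMap.add_apply, hker f' h1 l hl] at h3
    simpa [p1, q1] using h3
  · obtain ⟨f', h1, h2⟩ := hκ (0, ⟨w, hw⟩)
    have h3 := LinearMap.congr_fun h2 l
    rw [LinearMap.add_apply, hker f' h1 l hl] at h3
    simpa using h3

theorem Form_contra [Infinite k] [CharP k 3] (E : GPkg k V) (L : Submodule k V)
    (κ : V →ₗ[k] V →ₗ[k] k) (hs : E.Stab L)
    (hc : ∀ g ∈ HH k, ∀ l ∈ L, ∀ l' ∈ L, κ (E.ρ g l) l' = κ l (E.ρ gᵀ l')) :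
    ∀ x, IsSp x → ∀ l ∈ L, ∀ l' ∈ L, κ (E.φ x l) l' = κ l (E.φ xᵀ l') := by
  have gen : ∀ x : Mat k, IsSp x → x * x = 0 → (∀ s : k, 1 + s • x ∈ HH k) →
      ∀ l ∈ L, ∀ l' ∈ L, κ (E.φ x l) l' = κ l (E.φ xᵀ l') := by
    intro x hx h2 hH l hl l' hl'
    have h2' := ResMod.transpose_sq h2
    have a1 := ((E.exp x hx h2).apply l).map (κ.flip l')
    have a2 := ((E.exp xᵀ hx.transpose h2').apply l').map (κ l)
    have := a1.unique a2 (fun s => by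
      have := hc _ (hH s) l hl l' hl'
      rw [transpose_add, transpose_one, transpose_smul] at this
      exact this) 1
    rw [E.Δ_one x hx h2, E.Δ_one _ hx.transpose h2'] at this
    exact this
  intro x hx
  refine sp_induction Form_three
    (P := fun x => ∀ l ∈ L, ∀ l' ∈ L, κ (E.φ x l) l' = κ l (E.φ xᵀ l')) ?_ ?_ ?_
    (fun i => gen _ (ee_sp k i) (ee_sq k i) (ee_mem_HH i))
    (fun i => gen _ (ff_sp k i) (ff_sq k i) (ff_mem_HH i)) hx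
  · intro x y a b l hl l' hl'
    simp only [transpose_add, map_add, LinearMap.add_apply, a l hl l' hl', b l hl l' hl']
  · intro c x a l hl l' hl'
    simp only [transpose_smul, map_smul, LinearMap.smul_apply, a l hl l' hl']
  · intro x y hx hy a b l hl l' hl'
    rw [transpose_sub, transpose_mul, transpose_mul, E.lie_apply hx hy,
      E.lie_apply hy.transpose hx.transpose, map_sub, map_sub, LinearMap.sub_apply,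
      a _ (hs y hy l hl) l' hl', b _ (hs x hx l hl) l' hl',
      b l hl _ (hs _ hx.transpose l' hl'), a l hl _ (hs _ hy.transpose l' hl')]

/-- the span of the words of length `< n` in the lowering operators -/
def FormF (E : GPkg k V) (v : V) : ℕ → Submodule k V
  | 0 => ⊥
  | n + 1 => Submodule.span k {v} ⊔ ⨆ i, (FormF E v n).map (E.φ (ff k i))

theorem FormF_ind (E : GPkg k V) (v : V) (n : ℕ) (N : Submodule k V) (h1 : v ∈ N)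
    (h2 : ∀ i, ∀ u ∈ FormF E v n, E.φ (ff k i) u ∈ N) : ∀ u ∈ FormF E v (n + 1), u ∈ N := by
  have : FormF E v (n + 1) ≤ N := by
    refine sup_le ((Submodule.span_singleton_le_iff_mem v N).mpr h1) (iSup_le fun i => ?_)
    rintro _ ⟨u, hu, rfl⟩
    exact h2 i u hu
  exact fun u hu => this hu

theorem FormF_self (E : GPkg k V) (v : V) (n : ℕ) : v ∈ FormF E v (n + 1) :=
  Submodule.mem_sup_left (Submodule.mem_span_singleton_self v)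

theorem FormF_ff (E : GPkg k V) (v : V) (n : ℕ) (i : Fin 4) {u : V} (hu : u ∈ FormF E v n) :
    E.φ (ff k i) u ∈ FormF E v (n + 1) :=
  Submodule.mem_sup_right (Submodule.mem_iSup_of_mem i ⟨u, hu, rfl⟩)

theorem FormF_le (E : GPkg k V) (v : V) (N : Submodule k V) (h1 : v ∈ N)
    (h2 : ∀ i, ∀ u ∈ N, E.φ (ff k i) u ∈ N) (n : ℕ) : ∀ u ∈ FormF E v n, u ∈ N := by
  induction n with
  | zero => intro u hu; rw [(Submodule.mem_bot k).mp hu]; exact N.zero_mem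
  | succ n ih => exact FormF_ind E v n N h1 fun i u hu => h2 i u (ih u hu)

theorem Form_hf : ∀ i j, (eZ i * fZ i - fZ i * eZ i) * fZ j - fZ j * (eZ i * fZ i - fZ i * eZ i)
    = (-(cor i ⬝ᵥ al j)) • fZ j := by decide +kernel

theorem Form_hv [Infinite k] (E : GPkg k V) {v : V} (hwt : E.IsWt ![5, 4, 3, 1] v) (i : Fin 4) :
    E.φ (ee k i * ff k i - ff k i * ee k i) v = ((![1, 1, 2, 1] i : ℕ) : k) • v := by
  have hm : cor i ⬝ᵥ ![5, 4, 3, 1] = ((![1, 1, 2, 1] i : ℕ) : ℤ) := by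
    revert i; decide
  have h := hwt.sl2 i _ hm 1
  rw [Finset.Nat.sum_antidiagonal_succ, Finset.Nat.antidiagonal_zero, Finset.sum_singleton] at h
  simp only [E.Δ_one _ (ee_sp k i) (ee_sq k i), E.Δ_one _ (ff_sp k i) (ff_sq k i),
    E.Δ_zero (ee_sp k i) (ee_sq k i), E.Δ_zero (ff_sp k i) (ff_sq k i), Nat.choose_zero_right,
    Nat.cast_one, one_smul, zero_add, Nat.choose_one_right, Module.End.one_apply] at h
  rw [E.lie_apply (ee_sp k i) (ff_sp k i), h, add_sub_cancel_left]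

theorem FormF_h [Infinite k] (E : GPkg k V) {v : V} (hwt : E.IsWt ![5, 4, 3, 1] v) (i : Fin 4)
    (n : ℕ) : ∀ u ∈ FormF E v n, E.φ (ee k i * ff k i - ff k i * ee k i) u ∈ FormF E v n := by
  induction n with
  | zero => intro u hu; rw [(Submodule.mem_bot k).mp hu, map_zero]; exact Submodule.zero_mem _
  | succ n ih =>
    refine FormF_ind E v n ((FormF E v (n + 1)).comap _) ?_ fun j u hu => ?_
    · rw [Submodule.mem_comap, Form_hv E hwt]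
      exact Submodule.smul_mem _ _ (FormF_self E v n)
    · have h1 := E.lie_apply ((ee_sp k i).lie (ff_sp k i)) (ff_sp k j) u
      have h2 := congrArg (cst k) (Form_hf i j)
      simp only [map_sub, map_mul, cst_zsmul] at h2
      change (ee k i * ff k i - ff k i * ee k i) * ff k j
        - ff k j * (ee k i * ff k i - ff k i * ee k i) = _ • ff k j at h2
      rw [h2, map_smul, LinearMap.smul_apply] at h1
      rw [Submodule.mem_comap, ← sub_add_cancel (E.φ _ (E.φ (ff k j) u)) _, ← h1]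
      exact Submodule.add_mem _ (Submodule.smul_mem _ _ (FormF_ff E v n j hu))
        (FormF_ff E v n j (ih u hu))

theorem FormF_ee [Infinite k] (E : GPkg k V) {v : V} (hwt : E.IsWt ![5, 4, 3, 1] v)
    (hv : ∀ i, E.φ (ee k i) v = 0) (j : Fin 4) (n : ℕ) :
    ∀ u ∈ FormF E v (n + 1), E.φ (ee k j) u ∈ FormF E v n := by
  induction n with
  | zero =>
    refine FormF_ind E v 0 ((FormF E v 0).comap _) ?_ fun i u hu => ?_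
    · rw [Submodule.mem_comap, hv]; exact Submodule.zero_mem _
    · rw [(Submodule.mem_bot k).mp hu, map_zero]; exact Submodule.zero_mem _
  | succ n ih =>
    refine FormF_ind E v (n + 1) ((FormF E v (n + 1)).comap _) ?_ fun i u hu => ?_
    · rw [Submodule.mem_comap, hv]; exact Submodule.zero_mem _
    · have h1 := E.lie_apply (ee_sp k j) (ff_sp k i) u
      rw [Submodule.mem_comap, ← sub_add_cancel (E.φ _ (E.φ (ff k i) u)) _, ← h1]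
      refine Submodule.add_mem _ ?_ (FormF_ff E v n i (ih u hu))
      by_cases hij : j = i
      · subst hij; exact FormF_h E hwt j _ u hu
      · rw [ee_ff_comm hij, sub_self, map_zero]; exact Submodule.zero_mem _

theorem FormF_mono (E : GPkg k V) (v : V) : Monotone (FormF E v) := by
  refine monotone_nat_of_le_succ fun n => ?_
  induction n with
  | zero => exact bot_le
  | succ n ih =>
    exact FormF_ind E v n _ (FormF_self E v _) fun i u hu => FormF_ff E v _ i (ih hu)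

theorem FormOrb_sub [Infinite k] [CharP k 3] (E : GPkg k V) {v : V}
    (hwt : E.IsWt ![5, 4, 3, 1] v) (hv : ∀ i, E.φ (ee k i) v = 0)
    (hE : ∀ i (s : k), E.ρ (1 + s • ee k i) v = v)
    (hF : ∀ i n, 3 ≤ n → E.Δ (ff k i) n v = 0) :
    ∀ u ∈ FormOrb E v, ∃ n, u ∈ FormF E v n := by
  let L0 : Submodule k V := ⨆ n, FormF E v n
  have mem : ∀ u, u ∈ L0 ↔ ∃ n, u ∈ FormF E v n := fun u =>
    Submodule.mem_iSup_of_directed _ (FormF_mono E v).directed_le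
  have hv0 : v ∈ L0 := (mem v).mpr ⟨1, FormF_self E v 0⟩
  have hs : E.Stab L0 := by
    refine ResMod.stab_of_gen Form_three _ L0 (fun i u hu => ?_) (fun i u hu => ?_)
    · obtain ⟨n, hn⟩ := (mem u).mp hu
      exact (mem _).mpr ⟨n, FormF_ee E hwt hv i n u (FormF_mono E v (Nat.le_succ n) hn)⟩
    · obtain ⟨n, hn⟩ := (mem u).mp hu
      exact (mem _).mpr ⟨n + 1, FormF_ff E v n i hn⟩
  have gen : ∀ g ∈ HH k, E.ρ g v ∈ L0 → ∀ u ∈ L0, E.ρ g u ∈ L0 := by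
    intro g hg h u hu
    obtain ⟨n, hn⟩ := (mem u).mp hu
    refine FormF_le E v (L0.comap (E.ρ g)) h (fun i u hu => ?_) n u hn
    obtain ⟨y, hy, hy2⟩ := exists_conj_left (HH_le hg) (ff_sp k i)
    have := LinearMap.congr_fun (E.ad g _ y (HH_le hg) (ff_sp k i) hy hy2) u
    rw [Submodule.mem_comap, show E.ρ g (E.φ (ff k i) u) = E.φ y (E.ρ g u) from this]
    exact hs y hy _ hu
  have hH : ∀ g ∈ HH k, ∀ u ∈ L0, E.ρ g u ∈ L0 := by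
    intro g hg
    refine HH_induction (P := fun g => ∀ u ∈ L0, E.ρ g u ∈ L0) ?_ ?_ ?_ ?_ hg
    · intro u hu; rw [E.ρ_one]; exact hu
    · intro a b ha hb h1 h2 u hu
      rw [E.ρ_mul_apply (HH_le ha) (HH_le hb)]
      exact h1 _ (h2 u hu)
    · intro i s
      exact gen _ (ee_mem_HH i s) (by rw [hE]; exact hv0)
    · intro i s
      refine gen _ (ff_mem_HH i s) ?_
      obtain ⟨N, -, h2⟩ := (E.exp _ (ff_sp k i) (ff_sq k i)).apply v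
      rw [show E.ρ (1 + s • ff k i) v = _ from h2 s]
      refine Submodule.sum_mem _ fun n _ => Submodule.smul_mem _ _ ?_
      have hf := hs _ (ff_sp k i)
      clear h2
      beta_reduce
      match n with
      | 0 => rw [E.Δ_zero (ff_sp k i) (ff_sq k i)]; exact hv0
      | 1 => rw [E.Δ_one _ (ff_sp k i) (ff_sq k i)]; exact hf _ hv0
      | 2 =>
        rw [E.Δ_two (ff_sp k i) (ff_sq k i)]
        exact L0.neg_mem (hf _ (hf _ hv0))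
      | n + 3 => rw [hF i (n + 3) (by omega)]; exact L0.zero_mem
  intro u hu
  refine (mem u).mp ((Submodule.span_le.mpr ?_ : FormOrb E v ≤ L0) hu)
  rintro _ ⟨g, rfl⟩
  exact hH g g.2 v hv0

theorem exists_form [Infinite k] [CharP k 3] (E : GPkg k V) (v : V) (ev : V →ₗ[k] k)
    (K : Submodule k V) (hK : ∀ g ∈ HH k, ∀ w ∈ K, E.ρ g w ∈ K) (hevK : ∀ w ∈ K, ev w = 0)
    (hev : ev v = 1) (hsym : ∀ g ∈ HH k, ev (E.ρ g v) = ev (E.ρ gᵀ v))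
    (hwt : E.IsWt ![5, 4, 3, 1] v) (hE : ∀ i (s : k), E.ρ (1 + s • ee k i) v = v)
    (hF : ∀ i n, 3 ≤ n → E.Δ (ff k i) n v = 0) :
    ∃ (L : Submodule k V) (κ : V →ₗ[k] V →ₗ[k] k), FormData E L κ ∧ v ∈ L ∧ K ≤ L ∧
      (∀ l ∈ L, κ v l = ev l) ∧ ∀ w ∈ K, ∀ l ∈ L, κ w l = 0 := by
  obtain ⟨κ, k1, k2⟩ := Form_kappa E v ev K hK hevK hsym
  have hH := Form_stabH E v K hK
  have hs := Form_stab E _ hH
  have hsK := Form_stab E K hK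
  have hvL : v ∈ FormOrb E v ⊔ K := Submodule.mem_sup_left (FormOrb_self E v)
  have kv : ∀ l ∈ FormOrb E v ⊔ K, κ v l = ev l := fun l hl => by
    have := k1 1 (one_mem _) l hl
    rwa [transpose_one, E.ρ_one] at this
  have cH : ∀ g ∈ HH k, ∀ l ∈ FormOrb E v ⊔ K, ∀ l' ∈ FormOrb E v ⊔ K,
      κ (E.ρ g l) l' = κ l (E.ρ gᵀ l') := by
    intro g hg l hl l' hl'
    have hl2 := hH _ (HH_transpose hg) l' hl'
    refine Form_ind E v K (LinearMap.eqLocus (κ.flip l' ∘ₗ E.ρ g) (κ.flip (E.ρ gᵀ l')))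
      (fun h hh => ?_) (fun w hw => ?_) l hl
    · change κ (E.ρ g (E.ρ h v)) l' = κ (E.ρ h v) (E.ρ gᵀ l')
      rw [← E.ρ_mul_apply (HH_le hg) (HH_le hh), k1 _ (mul_mem hg hh) l' hl', k1 h hh _ hl2,
        transpose_mul, E.ρ_mul_apply (HH_le (HH_transpose hh)) (HH_le (HH_transpose hg))]
    · change κ (E.ρ g w) l' = κ w (E.ρ gᵀ l')
      rw [k2 _ (hK g hg w hw) l' hl', k2 w hw _ hl2]
  have c := Form_contra E _ κ hs cH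
  have k3 : ∀ l ∈ FormOrb E v ⊔ K, ∀ w ∈ K, κ l w = 0 := by
    intro l hl w hw
    refine Form_ind E v K (LinearMap.ker (κ.flip w)) (fun h hh => ?_) (fun w' hw' => ?_) l hl
    · change κ (E.ρ h v) w = 0
      rw [k1 h hh w (Submodule.mem_sup_right hw), hevK _ (hK _ (HH_transpose hh) w hw)]
    · exact k2 w' hw' w (Submodule.mem_sup_right hw)
  have hv : ∀ i, E.φ (ee k i) v = 0 := by
    intro i
    have := ((E.exp _ (ee_sp k i) (ee_sq k i)).apply v).unique (HasExp.const v) (hE i) 1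
    rw [E.Δ_one _ (ee_sp k i) (ee_sq k i)] at this
    simpa using this
  have dec : ∀ l ∈ FormOrb E v ⊔ K, ∃ n, ∃ w ∈ K, l - w ∈ FormF E v n := by
    intro l hl
    obtain ⟨u, hu, w, hw, rfl⟩ := Submodule.mem_sup.mp hl
    obtain ⟨n, hn⟩ := FormOrb_sub E hwt hv hE hF u hu
    exact ⟨n, w, hw, by rwa [add_sub_cancel_right]⟩
  have FL : ∀ n, ∀ u ∈ FormF E v n, u ∈ FormOrb E v ⊔ K :=
    FormF_le E v _ hvL fun i u hu => hs _ (ff_sp k i) u hu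
  have key : ∀ n ∈ FormOrb E v ⊔ K,
      (∀ i, ∀ l' ∈ FormOrb E v ⊔ K, κ (E.φ (ee k i) n) l' = 0) →
      ∀ l' ∈ FormOrb E v ⊔ K, κ (n - κ n v • v) l' = 0 := by
    intro n hn h l' hl'
    have hn' : n - κ n v • v ∈ FormOrb E v ⊔ K :=
      Submodule.sub_mem _ hn (Submodule.smul_mem _ _ hvL)
    obtain ⟨m, w, hw, hm⟩ := dec l' hl'
    have h1 : κ (n - κ n v • v) (l' - w) = 0 := by
      refine FormF_ind E v m (LinearMap.ker (κ (n - κ n v • v))) ?_ (fun i u hu => ?_) _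
        (FormF_mono E v (Nat.le_succ m) hm)
      · rw [LinearMap.mem_ker, map_sub, map_smul, LinearMap.sub_apply, LinearMap.smul_apply,
          kv v hvL, hev, smul_eq_mul, mul_one, sub_self]
      · rw [LinearMap.mem_ker, ← ee_transpose, ← c _ (ee_sp k i) _ hn' u (FL m u hu), map_sub,
          map_smul, hv, smul_zero, sub_zero]
        exact h i u (FL m u hu)
    rw [map_sub _ l' w, k3 _ hn' w hw, sub_zero] at h1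
    exact h1
  refine ⟨FormOrb E v ⊔ K, κ, ⟨hs, hH, c, cH, ?_, ?_⟩, hvL, le_sup_right, kv, k2⟩
  · intro N hN hNL hrad
    have Q : ∀ m, ∀ n ∈ N, (∃ w ∈ K, n - w ∈ FormF E v m) →
        (¬ ∀ l' ∈ FormOrb E v ⊔ K, κ n l' = 0) → v ∈ N := by
      intro m
      induction m with
      | zero =>
        rintro n - ⟨w, hw, h⟩ hn
        rw [sub_eq_zero.mp ((Submodule.mem_bot k).mp h)] at hn
        exact absurd (k2 w hw) hn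
      | succ m ih =>
        rintro n hnN ⟨w, hw, h⟩ hn
        by_cases h0 : ∀ i, ∀ l' ∈ FormOrb E v ⊔ K, κ (E.φ (ee k i) n) l' = 0
        · have h1 := key n (hNL hnN) h0
          have h2 := hrad _ (Submodule.sub_mem _ (hNL hnN) (Submodule.smul_mem _ _ hvL)) h1
          have h3 : κ n v ≠ 0 := fun h3 => hn (by simpa [h3] using h1)
          have h4 := N.sub_mem hnN h2
          rw [sub_sub_cancel] at h4
          exact (N.smul_mem_iff h3).mp h4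
        · obtain ⟨i, hi⟩ := not_forall.mp h0
          refine ih _ (hN _ (ee_sp k i) n hnN) ⟨_, hsK _ (ee_sp k i) w hw, ?_⟩ hi
          rw [← map_sub]
          exact FormF_ee E hwt hv i m _ h
    by_cases h0 : ∀ n ∈ N, ∀ l' ∈ FormOrb E v ⊔ K, κ n l' = 0
    · exact Or.inl h0
    · right
      obtain ⟨n, hn⟩ := not_forall.mp h0
      obtain ⟨hnN, hn⟩ := Classical.not_imp.mp hn
      obtain ⟨m, hm⟩ := dec n (hNL hnN)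
      have hvN := Q m n hnN hm hn
      intro l hl
      obtain ⟨m', w, hw, h⟩ := dec l hl
      have h1 := FormF_le E v N hvN (fun i u hu => hN _ (ff_sp k i) u hu) m' _ h
      have h2 := hrad w (Submodule.mem_sup_right hw) (k2 w hw)
      simpa using N.add_mem h1 h2
  · intro l hl h
    have h1 := key l hl fun i => h _ (ee_sp k i)
    have hl' : l - κ l v • v ∈ FormOrb E v ⊔ K :=
      Submodule.sub_mem _ hl (Submodule.smul_mem _ _ hvL)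
    have hx := (ee_sp k 0).lie (ff_sp k 0)
    have h2 := c _ hx _ hl' v hvL
    rw [h1 _ (hs _ hx.transpose v hvL), map_sub (E.φ _), map_smul, Form_hv E hwt, map_sub κ,
      LinearMap.sub_apply, h _ hx v hvL] at h2
    have h3 : κ l v = 0 := by simpa [kv v hvL, hev] using h2
    simpa [h3] using h1

end Pool.Agent.MP_2042ac_al

end

-- part MP_2042ac_al.Cert
section

/-!
The three certificates.
-/

set_option autoImplicit false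

namespace Pool.Agent.MP_2042ac_al

open Matrix MvPolynomial

/-- the obstruction vector over any ring -/
noncomputable def yP (K : Type) [CommRing K] : PX K :=
  Del (ff K 1) 3 (Del (ff K 2) 3 (Del (ff K 3) 3 (Del (ff K 2) 3 (t0P K)))) +
    Del (ff K 2) 3 (Del (ff K 1) 3 (Del (ff K 3) 3 (Del (ff K 2) 3 (t0P K))))

theorem cube_sound {K : Type} [CommRing K] (hK : ((243 : ℕ) : K) = 0) (i : Fin 4) {ψ : PX K}
    (hψ : ψ ∈ E0 K) {c : K} {l : PL} (hl : c • resQ K ψ = sem K l) :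
    (6 * c) • resQ K (Del (ff K i) 3 ψ) = sem K (cube (opF i) l) := by
  have h0 : c • ψ ∈ E0 K := Submodule.smul_mem _ c hψ
  have h1 := app_sound hK hK (chkF i) h0 (l := l) (by rw [map_smul, hl]) true
  have h2 := app_sound hK hK (chkF i) (der_mem _ h0) h1 true
  have h3 := app_sound hK hK (chkF i) (der_mem _ (der_mem _ h0)) h2 true
  rw [cube, ← h3, ← map_smul, mul_comm, mul_smul, Del_three (ff_sq K i)]
  simp only [Derivation.map_smul, ff]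

theorem resQ_yP_243 : (1296 : ZMod 243) • resQ (ZMod 243) (yP (ZMod 243))
    = (81 : ZMod 243) • sem (ZMod 243) yL := by
  have hK : ((243 : ℕ) : ZMod 243) = 0 := ZMod.natCast_self 243
  have m0 : t0P (ZMod 243) ∈ E0 (ZMod 243) := t0P_mem
  have a0 := cube_sound hK 2 m0 (c := 1) (l := t0L) (by rw [one_smul, resQ_t0P hK])
  have m1 := Del_mem (ff (ZMod 243) 2) 3 m0
  have a1 := cube_sound hK 3 m1 a0
  have m2 := Del_mem (ff (ZMod 243) 3) 3 m1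
  have a2 := cube_sound hK 1 (Del_mem (ff (ZMod 243) 2) 3 m2) (cube_sound hK 2 m2 a1)
  have a3 := cube_sound hK 2 (Del_mem (ff (ZMod 243) 1) 3 m2) (cube_sound hK 1 m2 a1)
  have q := congrArg (sem (ZMod 243)) (PL.eq_of_beq _ _ Qword_ok)
  rw [Qword, frcL_eq, sem_mergeU hK, sem_passM hK, mon_one, sem_nil, add_zero, add_zero, mul_one] at q
  have e : (1296 : ZMod 243) = 6 * (6 * (6 * (6 * 1))) := by norm_num
  rw [yP, map_add, smul_add, e, a2, a3, smul_eq_C_mul]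
  exact q

theorem zmod_aux : ∀ c : ZMod 243, 81 * c = 0 → 3 ∣ c.val := by decide +kernel

variable {k : Type} [Field k] [CharP k 3]

theorem resQ_yP : resQ k (yP k) = sem k yL := by
  have h3 : (3 : k) = 0 := by exact_mod_cast CharP.cast_eq_zero k 3
  let θ : ZMod 243 →+* k := ZMod.castHom (by norm_num : 3 ∣ 243) k
  have e1 : MvPolynomial.map θ (yP (ZMod 243)) = yP k := by
    simp only [yP, map_add, map_Del, map_t0P, ff, cst_map]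
  rw [← e1, ← map_resQ, ← map_sem θ]
  ext m
  rw [coeff_map, coeff_map]
  have h := congrArg (coeff m) resQ_yP_243
  rw [coeff_smul, coeff_smul, smul_eq_mul, smul_eq_mul] at h
  generalize coeff m (resQ (ZMod 243) (yP (ZMod 243))) = a at *
  generalize coeff m (sem (ZMod 243) yL) = b at *
  obtain ⟨c, hc⟩ := zmod_aux (16 * a - b) (by linear_combination h)
  have h4 : θ (16 * a - b) = 0 := by
    rw [← ZMod.natCast_zmod_val (16 * a - b), map_natCast, hc]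
    push_cast
    rw [h3, zero_mul]
  rw [map_sub, map_mul, map_ofNat] at h4
  linear_combination h4 - 5 * θ a * h3

def fi (i : ℕ) : Fin 4 :=
  match i with
  | 0 => 0
  | 1 => 1
  | 2 => 2
  | _ + 3 => 3

theorem opF_fi (i : ℕ) : opF i = opF (fi i) := by
  rcases i with _ | _ | _ | i <;> rfl

theorem opE_fi (i : ℕ) : opE i = opE (fi i) := by
  rcases i with _ | _ | _ | i <;> rfl

/-- the vector described by a tree -/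
noncomputable def valE (env : ℕ → E0 k) (t : HT) : E0 k :=
  HT.rec (motive := fun _ => E0 k) 0 env (fun i _ _ l r => (EP k).φ (ff k (fi i)) l + r) t

theorem valE_nd (env : ℕ → E0 k) (i : ℕ) (a b : HT) :
    valE env (HT.nd i a b) = (EP k).φ (ff k (fi i)) (valE env a) + valE env b := rfl

theorem valE_subst (env : ℕ → E0 k) (σ : ℕ → HT) (t : HT) :
    valE env (t.subst σ) = valE (fun j => valE env (σ j)) t := by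
  induction t with
  | nil => rfl
  | lf j => rfl
  | nd i a b iha ihb =>
    change valE env (HT.nd i (a.subst σ) (b.subst σ)) = _
    rw [valE_nd, valE_nd, iha, ihb]

theorem h243 : ((243 : ℕ) : k) = 0 := (CharP.cast_eq_zero_iff k 3 243).mpr (by norm_num)

theorem valT_sound (env : ℕ → E0 k) (envL : ℕ → Bool → PL)
    (h : ∀ j d, resQ k (env j : PX k) = sem k (envL j d)) (t : HT) :
    ∀ d, resQ k (valE env t : PX k) = sem k (valT envL t d) := by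
  have h3 : ((3 : ℕ) : k) = 0 := CharP.cast_eq_zero k 3
  induction t with
  | nil => intro d; exact map_zero _
  | lf j => exact h j
  | nd i a b iha ihb =>
    intro d
    have e : ∀ dir, resQ k (der (ff k (fi i)) (valE env a : PX k))
        = sem k (app 3 (opF i) (valT envL a true) dir) := fun dir => by
      rw [opF_fi]
      exact app_sound h243 h3 (chkF (fi i)) (valE env a).2 (iha true) dir
    rw [valE_nd, Submodule.coe_add, map_add, EP_φ]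
    cases d
    · change _ = sem k (mergeU 3 (app 3 (opF i) (valT envL a true) true) (valT envL b true) PL.nil)
      rw [sem_mergeU h3, e true, ihb true, sem_nil, add_zero]
    · change _ = sem k (mergeD 3 (app 3 (opF i) (valT envL a true) false) (valT envL b false) PL.nil)
      rw [sem_mergeD h3, e false, ihb false, sem_nil, add_zero]

noncomputable def envE (c : ℕ) : E0 k := (c : k) • ⟨vP k, vP_mem⟩

omit [CharP k 3] in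
theorem envE_sound (j : ℕ) (d : Bool) : resQ k ((envE j : E0 k) : PX k) = sem k (env0 j d) := by
  rw [envE, Submodule.coe_smul, map_smul, resQ_vP, env0, sem_cons, mon_one, sem_nil,
    smul_eq_C_mul, map_natCast, add_zero]

section
variable {L : Submodule k (E0 k)} {κ : E0 k →ₗ[k] E0 k →ₗ[k] k}
  (hL : FormData (EP k) L κ) (hv : (⟨vP k, vP_mem⟩ : E0 k) ∈ L)
include hL hv

theorem valE_mem (t : HT) : valE envE t ∈ L := by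
  induction t with
  | nil => exact L.zero_mem
  | lf j => exact L.smul_mem _ hv
  | nd i a b iha ihb => exact L.add_mem (hL.stab _ (ff_sp k _) _ iha) ihb

theorem kap_sound (hκ : ∀ l ∈ L, κ ⟨vP k, vP_mem⟩ l = evF (baseF k) (l : PX k)) (t : HT) :
    ∀ (z : E0 k) (q : PL), z ∈ L → resQ k (z : PX k) = sem k q →
      κ (valE envE t) z = (kap t q : k) := by
  have h3 : ((3 : ℕ) : k) = 0 := CharP.cast_eq_zero k 3
  induction t with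
  | nil =>
    intro z q _ _
    change κ 0 z = ((0 : ℕ) : k)
    simp
  | lf c =>
    intro z q hz hq
    change κ ((c : k) • ⟨vP k, vP_mem⟩) z = ((c * cstL q : ℕ) : k)
    rw [map_smul, LinearMap.smul_apply, hκ z hz, base_eq, hq, constantCoeff_sem, Nat.cast_mul,
      smul_eq_mul]
  | nd i a b iha ihb =>
    intro z q hz hq
    change _ = ((frcLN (app 3 (opE i) q true) (kap a) + kap b q : ℕ) : k)
    rw [valE_nd, map_add, LinearMap.add_apply, ihb z q hz hq, frcLN_eq, Nat.cast_add,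
      hL.contra _ (ff_sp k _) _ (valE_mem hL hv a) z hz, ff_transpose,
      iha _ (app 3 (opE i) q true) (hL.stab _ (ee_sp k _) _ hz)]
    rw [opE_fi, EP_φ]
    exact app_sound h243 h3 (chkE (fi i)) z.2 hq true

end

theorem cast_ne_zero_of_mod (n : ℕ) (h : Nat.mod n 3 = 1) : (n : k) ≠ 0 := by
  intro h0
  have h1 : 3 ∣ n := (CharP.cast_eq_zero_iff k 3 n).mp h0
  have h2 : n % 3 = 1 := h
  omega

theorem certificates (L : Submodule k (E0 k)) (κ : E0 k →ₗ[k] E0 k →ₗ[k] k)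
    (hL : FormData (EP k) L κ) (hv : (⟨vP k, vP_mem⟩ : E0 k) ∈ L)
    (hK : ∀ w : E0 k, resQ k (w : PX k) = 0 → w ∈ L ∧ ∀ l ∈ L, κ w l = 0)
    (hκ : ∀ l ∈ L, κ ⟨vP k, vP_mem⟩ l = evF (baseF k) (l : PX k)) :
    (∀ i, (EP k).φ (ee k i) ⟨t0P k, t0P_mem⟩ ∈ L) ∧
    (∀ i, (EP k).φ (ff k i) ⟨t0P k, t0P_mem⟩ ∈ L) ∧
    yv (EP k) ⟨t0P k, t0P_mem⟩ ∈ L ∧
    κ (yv (EP k) ⟨t0P k, t0P_mem⟩) (yv (EP k) ⟨t0P k, t0P_mem⟩) ≠ 0 := by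
  have h3 : ((3 : ℕ) : k) = 0 := CharP.cast_eq_zero k 3
  have key : ∀ (w : E0 k) (t : HT), resQ k (valE envE t : E0 k) = resQ k (w : PX k) →
      w ∈ L ∧ ∀ l ∈ L, κ w l = κ (valE envE t) l := by
    intro w t h
    obtain ⟨h1, h2⟩ := hK (w - valE envE t) (by rw [Submodule.coe_sub, map_sub, h, sub_self])
    refine ⟨by simpa using L.add_mem h1 (valE_mem hL hv t), fun l hl => ?_⟩
    have := h2 l hl
    rwa [map_sub, LinearMap.sub_apply, sub_eq_zero] at this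
  have hy : resQ k ((yv (EP k) ⟨t0P k, t0P_mem⟩ : E0 k) : PX k) = sem k yL := resQ_yP
  obtain ⟨y1, y2⟩ := key (yv (EP k) ⟨t0P k, t0P_mem⟩) (topT.subst subT) (by
    rw [valE_subst, valT_sound _ (envL subL) (fun j d => ?_) topT true, PL.eq_of_beq _ _ top_ok, hy]
    rw [valT_sound _ _ envE_sound _ true, sub_ok]
    cases d
    · change _ = sem k (rev (subL j) PL.nil)
      rw [sem_rev, sem_nil, add_zero]
    · rfl)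
  refine ⟨fun i => (key _ (cE i) ?_).1, fun i => (key _ (cF i) ?_).1, y1, ?_⟩
  · rw [valT_sound _ _ envE_sound _ true, PL.eq_of_beq _ _ (cE_ok i), EP_φ]
    exact (app_sound h243 h3 (chkE i) t0P_mem (resQ_t0P h243) true).symm
  · rw [valT_sound _ _ envE_sound _ true, PL.eq_of_beq _ _ (cF_ok i), EP_φ]
    exact (app_sound h243 h3 (chkF i) t0P_mem (resQ_t0P h243) true).symm
  · rw [y2 _ y1, kap_sound hL hv hκ _ _ yL y1 hy]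
    exact cast_ne_zero_of_mod _ kap_ok

end Pool.Agent.MP_2042ac_al

end

-- part MP_2042ac_al.Chart
section

/-!
Coordinates on the first Frobenius kernel: `y ↦ ∏ (1 + y i • bs i)` is a bijection from tuples
with vanishing cubes onto `G_1(R)`.
-/

set_option autoImplicit false

namespace Pool.Agent.MP_2042ac_al

open Matrix

theorem three_eq_zero (k : Type) [Field k] [CharP k 3] (R : Type) [CommRing R] [Algebra k R] :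
    (3 : R) = 0 := by
  have h : ((3 : ℕ) : k) = 0 := CharP.cast_eq_zero k 3
  have h2 := congrArg (algebraMap k R) h
  rw [map_natCast, map_zero] at h2
  exact_mod_cast h2

variable {R : Type} [CommRing R]

/-- the Frobenius endomorphism of a ring in which `3 = 0` -/
def cubeHom (h3 : (3 : R) = 0) : R →+* R where
  toFun := fun x => x ^ 3
  map_one' := one_pow 3
  map_mul' := fun x y => mul_pow x y 3
  map_zero' := by simp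
  map_add' := fun x y => by linear_combination (x ^ 2 * y + x * y ^ 2) * h3

theorem cube_mul (h3 : (3 : R) = 0) (a b : Mat R) :
    (a * b).map (fun x => x ^ 3) = a.map (fun x => x ^ 3) * b.map (fun x => x ^ 3) :=
  Matrix.map_mul (f := cubeHom h3)

/-- points of the Frobenius kernel -/
def InG1 (g : Mat R) : Prop := g ∈ SpG R ∧ g.map (fun x => x ^ 3) = 1

theorem InG1.mul (h3 : (3 : R) = 0) {g h : Mat R} (hg : InG1 g) (hh : InG1 h) : InG1 (g * h) :=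
  ⟨mul_mem hg.1 hh.1, by rw [cube_mul h3, hg.2, hh.2, mul_one]⟩

theorem InG1.one : InG1 (1 : Mat R) := ⟨one_mem _, Matrix.map_one _ (by simp) (by simp)⟩

theorem InG1.map {S F : Type} [CommRing S] [FunLike F R S] [RingHomClass F R S] {g : Mat R}
    (hg : InG1 g) (f : F) : InG1 (g.map f) := by
  refine ⟨SymplecticGroup.map_mem hg.1 f, ?_⟩
  have h := congrArg (fun m : Mat R => m.map f) hg.2
  simp only [Matrix.map_one _ (map_zero f) (map_one f)] at h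
  rw [← h]
  ext a b
  simp [map_pow]

theorem inG1_one_add (h3 : (3 : R) = 0) {x : Mat R} {η : R} (hη : η ^ 3 = 0)
    (h : 1 + η • x ∈ SpG R) : InG1 (1 + η • x) := by
  refine ⟨h, ?_⟩
  ext a b
  have e : ((1 + η • x) a b) ^ 3 = ((1 : Mat R) a b) ^ 3 + η ^ 3 * (x a b) ^ 3 := by
    rw [Matrix.add_apply, Matrix.smul_apply, smul_eq_mul]
    linear_combination (((1 : Mat R) a b) ^ 2 * (η * x a b) + ((1 : Mat R) a b) * (η * x a b) ^ 2) * h3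
  rw [Matrix.map_apply, e, hη, zero_mul, add_zero, Matrix.one_apply]
  split_ifs <;> simp

/-- the chart -/
noncomputable def PP (y : Fin 36 → R) : Mat R := (List.ofFn fun i => 1 + y i • bs R i).prod

theorem PP_mem (h3 : (3 : R) = 0) {y : Fin 36 → R} (hy : ∀ i, y i ^ 3 = 0) : InG1 (PP y) := by
  refine List.prod_induction InG1 (fun _ _ => InG1.mul h3) InG1.one ?_
  intro a ha
  obtain ⟨i, rfl⟩ := List.mem_ofFn.mp ha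
  exact inG1_one_add h3 (hy i) ((bs_sp R i).one_add_smul_mem (bs_sq R i) _)

theorem PP_map {S F : Type} [CommRing S] [FunLike F R S] [RingHomClass F R S] (f : F)
    (y : Fin 36 → R) : (PP y).map f = PP (fun i => f (y i)) := by
  have h := map_list_prod (RingHom.mapMatrix (m := Idx) (f : R →+* S))
    (List.ofFn fun i => 1 + y i • bs R i)
  rw [List.map_ofFn] at h
  refine h.trans ?_
  unfold PP
  congr 2
  funext i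
  rw [Function.comp_apply, map_add, map_one, ← bs_map R f i]
  congr 1
  ext a b
  simp

theorem PP_zero : PP (fun _ => (0 : R)) = 1 := by
  refine List.prod_eq_one ?_
  intro a ha
  obtain ⟨i, rfl⟩ := List.mem_ofFn.mp ha
  simp

/-- all entries lie in the ideal -/
def ChartMI (I : Ideal R) (m : Mat R) : Prop := ∀ a b, m a b ∈ I

namespace ChartMI

variable {I D : Ideal R} {m n : Mat R}

theorem zero : ChartMI I (0 : Mat R) := fun _ _ => I.zero_mem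

theorem add (hm : ChartMI I m) (hn : ChartMI I n) : ChartMI I (m + n) :=
  fun a b => I.add_mem (hm a b) (hn a b)

theorem neg (hm : ChartMI I m) : ChartMI I (-m) := fun a b => I.neg_mem (hm a b)

theorem sub (hm : ChartMI I m) (hn : ChartMI I n) : ChartMI I (m - n) :=
  fun a b => I.sub_mem (hm a b) (hn a b)

theorem mono (h : I ≤ D) (hm : ChartMI I m) : ChartMI D m := fun a b => h (hm a b)

theorem mul_left (n : Mat R) (hm : ChartMI I m) : ChartMI I (n * m) := fun a b => by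
  rw [Matrix.mul_apply]; exact I.sum_mem fun c _ => I.mul_mem_left _ (hm c b)

theorem mul_right (n : Mat R) (hm : ChartMI I m) : ChartMI I (m * n) := fun a b => by
  rw [Matrix.mul_apply]; exact I.sum_mem fun c _ => I.mul_mem_right _ (hm a c)

theorem mul (hm : ChartMI I m) (hn : ChartMI D n) : ChartMI (I * D) (m * n) := fun a b => by
  rw [Matrix.mul_apply]; exact (I * D).sum_mem fun c _ => Ideal.mul_mem_mul (hm a c) (hn c b)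

theorem smul {c : R} (hc : c ∈ I) (n : Mat R) : ChartMI I (c • n) := fun a b => by
  rw [Matrix.smul_apply, smul_eq_mul]; exact I.mul_mem_right _ hc

theorem transpose (hm : ChartMI I m) : ChartMI I mᵀ := fun a b => hm b a

theorem co (hm : ChartMI I m) (i : Fin 36) : co R i m ∈ I := by
  rw [co_apply]
  exact I.sum_mem fun a _ => I.sum_mem fun b _ => I.mul_mem_left _ (hm a b)

theorem iff_map : ChartMI I m ↔ m.map (Ideal.Quotient.mk I) = 0 := by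
  constructor
  · intro h; ext a b; exact Ideal.Quotient.eq_zero_iff_mem.mpr (h a b)
  · intro h a b; exact Ideal.Quotient.eq_zero_iff_mem.mp (congrFun (congrFun h a) b)

end ChartMI

theorem chart_list_one {I : Ideal R} {y : Fin 36 → R} (hy : ∀ i, y i ∈ I) (l : List (Fin 36)) :
    ChartMI I ((l.map fun i => 1 + y i • bs R i).prod - 1) := by
  induction l with
  | nil => simpa using ChartMI.zero
  | cons i l ih =>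
    rw [List.map_cons, List.prod_cons]
    have e : ∀ P : Mat R, (1 + y i • bs R i) * P - 1 = (P - 1) + (y i • bs R i) * P := by
      intro P; noncomm_ring
    rw [e]
    exact ih.add ((ChartMI.smul (hy i) _).mul_right _)

theorem chart_list_sum {D : Ideal R} {w : Fin 36 → R} (hw : ∀ i, w i ∈ D) (l : List (Fin 36)) :
    ChartMI D (l.map fun i => w i • bs R i).sum := by
  induction l with
  | nil => simpa using ChartMI.zero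
  | cons i l ih =>
    rw [List.map_cons, List.sum_cons]
    exact (ChartMI.smul (hw i) _).add ih

theorem chart_list_key {I D : Ideal R} (hDI : D ≤ I) {y w : Fin 36 → R} (hy : ∀ i, y i ∈ I)
    (hw : ∀ i, w i ∈ D) (l : List (Fin 36)) :
    ChartMI (D * I) ((l.map fun i => 1 + (y i + w i) • bs R i).prod
      - (l.map fun i => 1 + y i • bs R i).prod - (l.map fun i => w i • bs R i).sum) := by
  induction l with
  | nil => simpa using ChartMI.zero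
  | cons i l ih =>
    simp only [List.map_cons, List.prod_cons, List.sum_cons]
    have e : ∀ P P' S A B : Mat R, (1 + (A + B)) * P' - (1 + A) * P - (B + S)
        = (1 + A) * (P' - P - S) + A * S + B * (P' - 1) := by
      intro P P' S A B; noncomm_ring
    rw [add_smul, e]
    refine ((ih.mul_left _).add ?_).add ?_
    · rw [mul_comm D I]
      exact (ChartMI.smul (hy i) _).mul (chart_list_sum hw l)
    · exact (ChartMI.smul (hw i) _).mul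
        (chart_list_one (y := fun i => y i + w i) (fun i => I.add_mem (hy i) (hDI (hw i))) l)

theorem chart_one {I : Ideal R} {y : Fin 36 → R} (hy : ∀ i, y i ∈ I) : ChartMI I (PP y - 1) := by
  unfold PP
  rw [List.ofFn_eq_map]
  exact chart_list_one hy _

theorem chart_key {I D : Ideal R} (hDI : D ≤ I) {y w : Fin 36 → R} (hy : ∀ i, y i ∈ I)
    (hw : ∀ i, w i ∈ D) :
    ChartMI (D * I) (PP (fun i => y i + w i) - PP y - ∑ i, w i • bs R i) := by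
  unfold PP
  rw [List.ofFn_eq_map, List.ofFn_eq_map, Fin.sum_univ_def]
  exact chart_list_key hDI hy hw _

theorem chart_sp (y : Fin 36 → R) : PP y ∈ SpG R := by
  refine Submonoid.list_prod_mem _ ?_
  intro a ha
  obtain ⟨i, rfl⟩ := List.mem_ofFn.mp ha
  exact (bs_sp R i).one_add_smul_mem (bs_sq R i) _

theorem chart_co_sum (w : Fin 36 → R) (j : Fin 36) : co R j (∑ i, w i • bs R i) = w j := by
  simp [map_sum, co_bs]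

theorem chart_step {I D : Ideal R} (hDI : D ≤ I) {g : Mat R} (hg : g ∈ SpG R) {y : Fin 36 → R}
    (hy : ∀ i, y i ∈ I) (h : ChartMI D (g - PP y)) :
    ∃ y' : Fin 36 → R, (∀ i, y' i ∈ I) ∧ ChartMI (D * I) (g - PP y') := by
  obtain ⟨g', hg', h1, h2⟩ := sp_inv (chart_sp y)
  obtain ⟨Z, hZ⟩ : ∃ Z : Mat R, Z = (g - PP y) * g' := ⟨_, rfl⟩
  have hZD : ChartMI D Z := hZ ▸ h.mul_right _
  have hZ1 : g * g' = 1 + Z := by rw [hZ, sub_mul, h1]; abel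
  have hZ2 : g - PP y = Z + Z * (PP y - 1) := by
    rw [mul_sub, mul_one, add_sub_cancel, hZ, mul_assoc, h2, mul_one]
  have hsp : (1 + Z) * J (Fin 4) R * (1 + Z)ᵀ = J (Fin 4) R := by
    rw [← hZ1]; exact SymplecticGroup.mem_iff.mp (mul_mem hg hg')
  have hsp2 : Z * J (Fin 4) R + J (Fin 4) R * Zᵀ = -(Z * J (Fin 4) R * Zᵀ) := by
    rw [transpose_add, transpose_one] at hsp
    have e : (1 + Z) * J (Fin 4) R * (1 + Zᵀ) = J (Fin 4) R +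
        (Z * J (Fin 4) R + J (Fin 4) R * Zᵀ + Z * J (Fin 4) R * Zᵀ) := by noncomm_ring
    rw [e, add_eq_left] at hsp
    exact eq_neg_of_add_eq_zero_left hsp
  have hsp3 : ChartMI (D * I) (Z * J (Fin 4) R + J (Fin 4) R * Zᵀ) := by
    rw [hsp2]
    exact ((hZD.mul_right _).mul (hZD.transpose.mono hDI)).neg
  have hq : IsSp (Z.map (Ideal.Quotient.mk (D * I))) := by
    have h0 := ChartMI.iff_map.mp hsp3
    simp only [Matrix.map_add _ (map_add (Ideal.Quotient.mk (D * I))), Matrix.map_mul,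
      Matrix.map_J, transpose_map] at h0
    exact h0
  have hexp : ChartMI (D * I) (Z - ∑ i, co R i Z • bs R i) := by
    rw [ChartMI.iff_map, Matrix.map_sub _ (map_sub (Ideal.Quotient.mk (D * I))), sub_eq_zero,
      ← hq.expand]
    ext a b
    simp only [Matrix.map_apply, Matrix.sum_apply, Matrix.smul_apply, smul_eq_mul, map_sum, map_mul,
      co_map, ← bs_map R (Ideal.Quotient.mk (D * I))]
  refine ⟨fun i => y i + co R i Z, fun i => I.add_mem (hy i) (hDI (hZD.co i)), ?_⟩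
  have e : g - PP (fun i => y i + co R i Z) = (Z - ∑ i, co R i Z • bs R i) + Z * (PP y - 1)
      - (PP (fun i => y i + co R i Z) - PP y - ∑ i, co R i Z • bs R i) := by
    rw [show g = PP y + (Z + Z * (PP y - 1)) by rw [← hZ2]; abel]
    abel
  rw [e]
  exact (hexp.add (hZD.mul (chart_one hy))).sub (chart_key hDI hy hZD.co)

theorem PP_inj {y y' : Fin 36 → R} (hy : ∀ i, y i ^ 3 = 0) (hy' : ∀ i, y' i ^ 3 = 0)
    (h : PP y = PP y') : y = y' := by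
  let D : Ideal R := Ideal.span (Set.range fun i => y i - y' i)
  let I : Ideal R := nilradical R
  have hyI : ∀ i, y i ∈ I := fun i => mem_nilradical.mpr ⟨3, hy i⟩
  have hyI' : ∀ i, y' i ∈ I := fun i => mem_nilradical.mpr ⟨3, hy' i⟩
  have hw : ∀ i, y i - y' i ∈ D := fun i => Ideal.subset_span ⟨i, rfl⟩
  have hDI : D ≤ I := Ideal.span_le.mpr (by rintro _ ⟨i, rfl⟩; exact I.sub_mem (hyI i) (hyI' i))
  have key := chart_key hDI hyI' hw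
  simp only [add_sub_cancel] at key
  rw [show PP (fun i => y i) = PP y' from h, sub_self, zero_sub] at key
  have hD : D ≤ I • D := by
    refine Ideal.span_le.mpr ?_
    rintro _ ⟨j, rfl⟩
    have := key.neg.co j
    rw [neg_neg, chart_co_sum, mul_comm] at this
    exact this
  have h0 : D = ⊥ := Submodule.eq_bot_of_le_smul_of_le_jacobson_bot I D
    (Submodule.fg_span (Set.finite_range _)) hD (by
      rw [Ideal.jacobson_bot]; exact nilradical_le_jacobson R)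
  funext i
  have := hw i
  rw [h0] at this
  exact sub_eq_zero.mp this

theorem PP_surj (h3 : (3 : R) = 0) {g : Mat R} (hg : InG1 g) :
    ∃ y : Fin 36 → R, (∀ i, y i ^ 3 = 0) ∧ PP y = g := by
  let I : Ideal R := Ideal.span (Set.range fun p : Idx × Idx => (g - 1) p.1 p.2)
  have hker : I ≤ RingHom.ker (cubeHom h3) := by
    refine Ideal.span_le.mpr ?_
    rintro _ ⟨p, rfl⟩
    have h1 : cubeHom h3 (g p.1 p.2) = (1 : Mat R) p.1 p.2 := congrFun (congrFun hg.2 p.1) p.2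
    have h2 : cubeHom h3 ((1 : Mat R) p.1 p.2) = (1 : Mat R) p.1 p.2 := by
      rw [Matrix.one_apply]; split_ifs <;> simp
    show cubeHom h3 ((g - 1) p.1 p.2) = 0
    rw [Matrix.sub_apply, map_sub, h1, h2, sub_self]
  have hnil : IsNilpotent I :=
    (Ideal.FG.isNilpotent_iff_le_nilradical (Submodule.fg_span (Set.finite_range _))).mpr
      fun x hx => mem_nilradical.mpr ⟨3, hker hx⟩
  have key : ∀ n : ℕ, ∃ y : Fin 36 → R, (∀ i, y i ∈ I) ∧ ChartMI (I ^ (n + 1)) (g - PP y) := by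
    intro n
    induction n with
    | zero =>
      refine ⟨fun _ => 0, fun _ => I.zero_mem, ?_⟩
      rw [PP_zero, zero_add, pow_one]
      exact fun a b => Ideal.subset_span ⟨(a, b), rfl⟩
    | succ n ih =>
      obtain ⟨y, hy, h⟩ := ih
      rw [pow_succ]
      exact chart_step (Ideal.pow_le_self (Nat.succ_ne_zero n)) hg.1 hy h
  obtain ⟨n, hn⟩ := hnil
  obtain ⟨y, hy, h⟩ := key n
  refine ⟨y, fun i => hker (hy i), ?_⟩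
  rw [pow_succ, hn, zero_mul] at h
  ext a b
  exact (sub_eq_zero.mp (h a b)).symm

end Pool.Agent.MP_2042ac_al

end

-- part MP_2042ac_al.Tr
section

/-!
Truncated polynomial algebras `R[y_i] / (y_i ^ d)` with their monomial coordinates.
-/

set_option autoImplicit false

namespace Pool.Agent.MP_2042ac_al

open MvPolynomial

/-- truncated polynomial algebra -/
def Tr (R : Type) [CommRing R] (ι : Type) (d : ℕ) : Type :=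
  MvPolynomial ι R ⧸ Ideal.span (Set.range fun i : ι => (X i : MvPolynomial ι R) ^ d)

namespace Tr

variable (R : Type) [CommRing R] (ι : Type) (d : ℕ)

noncomputable instance : CommRing (Tr R ι d) :=
  inferInstanceAs (CommRing (MvPolynomial ι R ⧸
    Ideal.span (Set.range fun i : ι => (X i : MvPolynomial ι R) ^ d)))

noncomputable instance : Algebra R (Tr R ι d) :=
  inferInstanceAs (Algebra R (MvPolynomial ι R ⧸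
    Ideal.span (Set.range fun i : ι => (X i : MvPolynomial ι R) ^ d)))

/-- the quotient map -/
noncomputable def mk : MvPolynomial ι R →ₐ[R] Tr R ι d := Ideal.Quotient.mkₐ R _

variable {ι}

/-- the generators -/
noncomputable def yy (i : ι) : Tr R ι d := mk R ι d (X i)

theorem yy_pow (i : ι) : yy R d i ^ d = 0 := by
  rw [yy, ← map_pow]
  exact Ideal.Quotient.eq_zero_iff_mem.mpr (Ideal.subset_span ⟨i, rfl⟩)

theorem mk_surj : Function.Surjective (mk R ι d) := Ideal.Quotient.mk_surjective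

variable {R d}

/-- the universal property -/
noncomputable def lift {S : Type} [CommRing S] [Algebra R S] (z : ι → S) (hz : ∀ i, z i ^ d = 0) :
    Tr R ι d →ₐ[R] S :=
  Ideal.Quotient.liftₐ _ (aeval z) (fun a ha => by
    have : Ideal.span (Set.range fun i : ι => (X i : MvPolynomial ι R) ^ d) ≤
        RingHom.ker (aeval z : MvPolynomial ι R →ₐ[R] S) := by
      rw [Ideal.span_le]
      rintro _ ⟨i, rfl⟩
      simp [RingHom.mem_ker, hz i]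
    exact this ha)

theorem lift_mk {S : Type} [CommRing S] [Algebra R S] (z : ι → S) (hz : ∀ i, z i ^ d = 0)
    (p : MvPolynomial ι R) : lift z hz (mk R ι d p) = aeval z p := rfl

theorem lift_yy {S : Type} [CommRing S] [Algebra R S] (z : ι → S) (hz : ∀ i, z i ^ d = 0) (i : ι) :
    lift z hz (yy R d i) = z i := by
  rw [yy, lift_mk, aeval_X]

theorem ringHom_ext {S : Type} [CommRing S] {f g : Tr R ι d →+* S}
    (h1 : ∀ r, f (algebraMap R _ r) = g (algebraMap R _ r))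
    (h2 : ∀ i, f (yy R d i) = g (yy R d i)) : f = g := by
  refine RingHom.ext fun t => ?_
  obtain ⟨p, rfl⟩ := mk_surj R d t
  induction p using MvPolynomial.induction_on with
  | C a =>
    have : mk R ι d (C a) = algebraMap R _ a := (mk R ι d).commutes a
    rw [this, h1]
  | add p q hp hq => rw [map_add, map_add, map_add, hp, hq]
  | mul_X p i hp =>
    have := h2 i
    rw [yy] at this
    rw [map_mul, map_mul, map_mul, hp, this]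

/-- base change -/
noncomputable def tmap {S : Type} [CommRing S] (f : R →+* S) : Tr R ι d →+* Tr S ι d :=
  Ideal.Quotient.lift _ ((mk S ι d).toRingHom.comp (MvPolynomial.map f)) (fun a ha => by
    have : Ideal.span (Set.range fun i : ι => (X i : MvPolynomial ι R) ^ d) ≤
        RingHom.ker ((mk S ι d).toRingHom.comp (MvPolynomial.map f)) := by
      rw [Ideal.span_le]
      rintro _ ⟨i, rfl⟩
      have := yy_pow S d i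
      rw [yy] at this
      simpa [RingHom.mem_ker] using this
    exact this ha)

theorem tmap_mk {S : Type} [CommRing S] (f : R →+* S) (p : MvPolynomial ι R) :
    tmap f (mk R ι d p) = mk S ι d (MvPolynomial.map f p) := rfl

theorem tmap_yy {S : Type} [CommRing S] (f : R →+* S) (i : ι) :
    tmap f (yy R d i) = yy S d i := by
  rw [yy, tmap_mk, map_X, yy]

theorem tmap_algebraMap {S : Type} [CommRing S] (f : R →+* S) (r : R) :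
    tmap f (algebraMap R (Tr R ι d) r) = algebraMap S (Tr S ι d) (f r) := by
  have h1 : mk R ι d (C r) = algebraMap R _ r := (mk R ι d).commutes r
  have h2 : mk S ι d (C (f r)) = algebraMap S _ (f r) := (mk S ι d).commutes (f r)
  rw [← h1, tmap_mk, map_C, h2]

theorem coeff_eq_zero_of_mem {p : MvPolynomial ι R}
    (hp : p ∈ Ideal.span (Set.range fun i : ι => (X i : MvPolynomial ι R) ^ d)) :
    ∀ m : ι →₀ ℕ, (∀ i, m i < d) → coeff m p = 0 := by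
  classical
  induction hp using Submodule.span_induction with
  | mem x hx =>
    obtain ⟨i, rfl⟩ := hx
    intro m hm
    rw [coeff_X_pow, if_neg]
    intro e
    have := hm i
    rw [← e] at this
    simp at this
  | zero => intro m _; simp
  | add x y _ _ hx hy => intro m hm; rw [coeff_add, hx m hm, hy m hm, add_zero]
  | smul q x _ hx =>
    intro m hm
    rw [smul_eq_mul, coeff_mul]
    refine Finset.sum_eq_zero fun u hu => ?_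
    rw [hx u.2, mul_zero]
    intro i
    have h1 := hm i
    rw [← Finset.HasAntidiagonal.mem_antidiagonal.mp hu] at h1
    simp only [Finsupp.coe_add, Pi.add_apply] at h1
    omega

variable [Fintype ι] [DecidableEq ι]

variable (R) in
/-- monomials -/
noncomputable def ymon (a : ι → Fin d) : Tr R ι d := ∏ i, yy R d i ^ (a i : ℕ)

variable (R) in
/-- coefficients -/
noncomputable def cf (a : ι → Fin d) : Tr R ι d →ₗ[R] R :=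
  { toFun := fun t => Quotient.liftOn' t
      (fun p : MvPolynomial ι R => coeff (Finsupp.equivFunOnFinite.symm fun i => (a i : ℕ)) p)
      (fun p q h => by
        have h1 := coeff_eq_zero_of_mem ((Submodule.quotientRel_def _).mp h)
          (Finsupp.equivFunOnFinite.symm fun i => (a i : ℕ)) (fun i => (a i).2)
        rwa [coeff_sub, sub_eq_zero] at h1)
    map_add' := fun s t => by
      obtain ⟨p, rfl⟩ := mk_surj R d s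
      obtain ⟨q, rfl⟩ := mk_surj R d t
      rw [← map_add]
      exact coeff_add _ _ _
    map_smul' := fun c t => by
      obtain ⟨p, rfl⟩ := mk_surj R d t
      rw [← map_smul]
      exact coeff_smul _ _ _ }

omit [DecidableEq ι] in
theorem cf_mk (a : ι → Fin d) (p : MvPolynomial ι R) :
    cf R a (mk R ι d p) = coeff (Finsupp.equivFunOnFinite.symm fun i => (a i : ℕ)) p := rfl

omit [DecidableEq ι] in
theorem mk_monomial (m : ι →₀ ℕ) : mk R ι d (monomial m 1) = ∏ i, yy R d i ^ m i := by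
  rw [monomial_eq, C_1, one_mul, Finsupp.prod_fintype _ _ (by simp), map_prod]
  simp [yy]

omit [DecidableEq ι] in
theorem ymon_eq (b : ι → Fin d) :
    ymon R b = mk R ι d (monomial (Finsupp.equivFunOnFinite.symm fun i => (b i : ℕ)) 1) := by
  rw [mk_monomial]; rfl

theorem cf_ymon (a b : ι → Fin d) : cf R a (ymon R b) = if a = b then 1 else 0 := by
  rw [ymon_eq, cf_mk, coeff_monomial]
  refine if_congr ⟨fun h => ?_, fun h => by rw [h]⟩ rfl rfl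
  have h1 := Finsupp.equivFunOnFinite.symm.injective h
  funext i
  exact (Fin.ext (congrFun h1 i)).symm

theorem expand (t : Tr R ι d) : ∑ a : ι → Fin d, cf R a t • ymon R a = t := by
  obtain ⟨p, rfl⟩ := mk_surj R d t
  induction p using MvPolynomial.induction_on' with
  | monomial m c =>
    have e : monomial m c = c • (monomial m 1 : MvPolynomial ι R) := by
      rw [smul_monomial, smul_eq_mul, mul_one]
    rw [e, map_smul]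
    by_cases h : ∀ i, m i < d
    · have e2 : mk R ι d (monomial m 1) = ymon R (fun i => ⟨m i, h i⟩) := by
        rw [mk_monomial]; rfl
      rw [e2]
      simp only [map_smul, cf_ymon, smul_eq_mul, mul_ite, mul_one, mul_zero, ite_smul, zero_smul,
        Finset.sum_ite_eq', Finset.mem_univ, if_true]
    · push Not at h
      obtain ⟨i, hi⟩ := h
      have e2 : mk R ι d (monomial m 1) = 0 := by
        rw [mk_monomial]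
        exact Finset.prod_eq_zero (Finset.mem_univ i) (pow_eq_zero_of_le hi (yy_pow R d i))
      rw [e2]; simp
  | add p q hp hq =>
    rw [map_add]
    simp only [map_add, add_smul, Finset.sum_add_distrib]
    rw [hp, hq]

theorem cf_tmap {S : Type} [CommRing S] (f : R →+* S) (a : ι → Fin d) (t : Tr R ι d) :
    cf S a (tmap f t) = f (cf R a t) := by
  obtain ⟨p, rfl⟩ := mk_surj R d t
  rw [tmap_mk, cf_mk, cf_mk, coeff_map]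

end Tr

end Pool.Agent.MP_2042ac_al

end
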